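import Pool.Agent.BWC.Grp
import Pool.Agent.BW.Family

/-!
# Hyperbolic quaternion-unitary groups: elements, embeddings, balls
-/

set_option linter.unusedSectionVars false

namespace BWC

open Matrix
open BW hiding star
open Pool.Agent.Helper24.BWR (emb emb_apply emb_emb emb_el emb_mem pm qm qm_mul_pm)

/-! ### The group elements -/

section A
variable {ε : ℤ} {m n P : Type*} [DecidableEq m] [Fintype m] [DecidableEq n] [Fintype n] [Ring P]
  [StarRing P]

theorem Sk.add {B C : Matrix n n P} (hB : Sk ε B) (hC : Sk ε C) : Sk ε (B + C) := by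
  unfold Sk at *
  rw [Matrix.conjTranspose_add, hB, hC, smul_add]
  abel

theorem Sk.neg {B : Matrix n n P} (hB : Sk ε B) : Sk ε (-B) := by
  unfold Sk at *
  rw [Matrix.conjTranspose_neg, hB, smul_neg]

theorem Sk.zero : Sk ε (0 : Matrix n n P) := by
  unfold Sk
  simp

theorem smul_smul_eq (hε : ε * ε = 1) {G : Type*} [AddCommGroup G] (x : G) : ε • ε • x = x := by
  rw [smul_smul, hε, one_smul]

/-- the standard element of `U_P` -/
theorem Sk_single (hε : ε * ε = 1) (i j : n) (x : P) :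
    Sk ε (Matrix.single i j x - ε • Matrix.single j i (star x)) := by
  unfold Sk
  rw [Matrix.conjTranspose_sub, Matrix.conjTranspose_smul, Matrix.conjTranspose_single,
    Matrix.conjTranspose_single, star_star, smul_sub, smul_smul_eq hε, neg_sub]
  simp

/-- `lev (1 + x e_ij) = [up (x e_ik - ε x̄ e_ki), lo (e_kj - ε e_jk)]` for distinct `i, j, k` -/
theorem lev_el_eq (hε : ε * ε = 1) (i j k : n) (h : i ≠ j) (hik : i ≠ k) (hjk : j ≠ k) (x : P) :
    lev (el i j h x) =
      up (Matrix.single i k x - ε • Matrix.single k i (star x)) *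
        lo (Matrix.single k j 1 - ε • Matrix.single j k (star 1)) *
      up (-(Matrix.single i k x - ε • Matrix.single k i (star x))) *
        lo (-(Matrix.single k j 1 - ε • Matrix.single j k (star 1))) := by
  have s1 : ∀ (a b c d : n) (u v : P), b ≠ c →
      Matrix.single a b u * Matrix.single c d v = 0 := fun a b c d u v hbc =>
    Matrix.single_mul_single_of_ne _ _ _ _ hbc _
  set B : Matrix n n P := Matrix.single i k x - ε • Matrix.single k i (star x) with hB
  set C : Matrix n n P := Matrix.single k j 1 - ε • Matrix.single j k (star 1) with hC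
  have hBC : B * C = Matrix.single i j x := by
    rw [hB, hC, sub_mul, mul_sub, mul_sub]
    simp only [Matrix.smul_mul, Matrix.mul_smul]
    rw [s1 i k j k x _ hjk.symm, s1 k i k j _ _ hik, s1 k i j k _ _ h,
      Matrix.single_mul_single_same]
    simp
  have hCB : C * B = Matrix.single j i (star x) := by
    rw [hB, hC, sub_mul, mul_sub, mul_sub]
    simp only [Matrix.smul_mul, Matrix.mul_smul]
    rw [s1 k j i k _ _ h.symm, s1 k j k i _ _ hjk, s1 j k i k _ _ hik.symm,
      Matrix.single_mul_single_same, star_one, one_mul, smul_smul_eq hε]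
    simp
  have h1 : Matrix.single i j x * B = 0 := by
    rw [hB, mul_sub, Matrix.mul_smul, s1 i j i k _ _ h.symm, s1 i j k i _ _ hjk]
    simp
  have h2 : Matrix.single j i (star x) * C = 0 := by
    rw [hC, mul_sub, Matrix.mul_smul, s1 j i k j _ _ hik, s1 j i j k _ _ h]
    simp
  apply Units.ext
  rw [Units.val_mul, Units.val_mul, Units.val_mul, lev_val, up_val, up_val, lo_val, lo_val]
  simp only [Matrix.fromBlocks_multiply]
  have e1 : (el i j h x).val = 1 + Matrix.single i j x := rfl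
  have e2 : ((el i j h x)⁻¹).val = 1 - Matrix.single i j x := rfl
  rw [e1, e2, Matrix.conjTranspose_sub, Matrix.conjTranspose_one, Matrix.conjTranspose_single]
  simp only [mul_one, one_mul, mul_zero, add_zero, zero_add, mul_neg, neg_mul, add_mul, hBC, hCB,
    h1, h2]
  congr 1
  · simp
  · simp
  · simp
  · abel

theorem lev_el_mem (hε : ε * ε = 1) (hn : 3 ≤ Fintype.card n) (i j : n) (h : i ≠ j) (x : P) :
    lev (el i j h x) ∈ EU ε n P := by
  obtain ⟨k, hk⟩ : ∃ k : n, k ∉ ({i, j} : Finset n) := by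
    by_contra hcon
    push Not at hcon
    have h1 : (Finset.univ : Finset n) ⊆ {i, j} := fun x _ => hcon x
    have h2 := Finset.card_le_card h1
    rw [Finset.card_univ] at h2
    have h3 := Finset.card_le_two (a := i) (b := j)
    omega
  rw [Finset.mem_insert, Finset.mem_singleton, not_or] at hk
  rw [lev_el_eq hε i j k h (Ne.symm hk.1) (Ne.symm hk.2) x]
  exact mul_mem (mul_mem (mul_mem (up_mem (Sk_single hε _ _ _)) (lo_mem (Sk_single hε _ _ _)))
    (up_mem (Sk_single hε _ _ _).neg)) (lo_mem (Sk_single hε _ _ _).neg)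

theorem EUL_eq (hε : ε * ε = 1) (hn : 3 ≤ Fintype.card n) : EUL ε n P = EU ε n P := by
  refine le_antisymm (sup_le le_rfl ?_) EU_le_EUL
  rw [Subgroup.map_le_iff_le_comap, E, Subgroup.closure_le]
  rintro _ ⟨i, j, h, x, rfl⟩
  exact lev_el_mem hε hn i j h x

/-! ### Embeddings -/

/-! ### Balls -/

theorem one_mem_ball (K : ℕ) : 1 ∈ ball ε n P K :=
  ⟨[], Nat.zero_le _, fun _ hx => absurd hx List.not_mem_nil, List.prod_nil⟩

theorem ball_mono {K L : ℕ} (h : K ≤ L) : ball ε n P K ⊆ ball ε n P L := by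
  rintro g ⟨l, h1, h2, h3⟩
  exact ⟨l, h1.trans h, h2, h3⟩

theorem ball_mul {K L : ℕ} {x y : (Matrix (n ⊕ n) (n ⊕ n) P)ˣ} (hx : x ∈ ball ε n P K)
    (hy : y ∈ ball ε n P L) : x * y ∈ ball ε n P (K + L) := by
  obtain ⟨l, h1, h2, h3⟩ := hx
  obtain ⟨l', h1', h2', h3'⟩ := hy
  refine ⟨l ++ l', ?_, fun g hg => ?_, ?_⟩
  · rw [List.length_append]
    exact Nat.add_le_add h1 h1'
  · rcases List.mem_append.mp hg with hg | hg
    · exact h2 g hg
    · exact h2' g hg
  · rw [List.prod_append, h3, h3']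

theorem gen_mem_ball {x : (Matrix (n ⊕ n) (n ⊕ n) P)ˣ}
    (hx : x ∈ UP ε n P ∨ x ∈ UM ε n P ∨ ∃ (i j : n) (h : i ≠ j) (y : P), x = lev (el i j h y)) :
    x ∈ ball ε n P 1 :=
  ⟨[x], le_rfl, fun g hg => by rw [List.mem_singleton] at hg; rw [hg]; exact hx,
    List.prod_singleton⟩

theorem up_mem_ball {B : Matrix n n P} (hB : Sk ε B) : up B ∈ ball ε n P 1 :=
  gen_mem_ball (Or.inl ⟨B, hB, rfl⟩)

theorem lo_mem_ball {C : Matrix n n P} (hC : Sk ε C) : lo C ∈ ball ε n P 1 :=
  gen_mem_ball (Or.inr (Or.inl ⟨C, hC, rfl⟩))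

theorem lev_mem_ball (i j : n) (h : i ≠ j) (y : P) : lev (el i j h y) ∈ ball ε n P 1 :=
  gen_mem_ball (Or.inr (Or.inr ⟨i, j, h, y, rfl⟩))

theorem ball_le_EUL {K : ℕ} {x : (Matrix (n ⊕ n) (n ⊕ n) P)ˣ} (hx : x ∈ ball ε n P K) :
    x ∈ EUL ε n P := by
  obtain ⟨l, _, h2, rfl⟩ := hx
  refine Subgroup.list_prod_mem _ fun g hg => ?_
  rcases h2 g hg with h | h | ⟨i, j, h, y, rfl⟩
  · exact EU_le_EUL (Subgroup.mem_sup_left h)
  · exact EU_le_EUL (Subgroup.mem_sup_right h)
  · exact lev_mem (el_mem _ _ _ _)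

theorem ball_succ {K : ℕ} {y : (Matrix (n ⊕ n) (n ⊕ n) P)ˣ} (hy : y ∈ ball ε n P (K + 1)) :
    ∃ a z, (a ∈ UP ε n P ∨ a ∈ UM ε n P ∨
      ∃ (i j : n) (h : i ≠ j) (y : P), a = lev (el i j h y)) ∧ z ∈ ball ε n P K ∧ y = a * z := by
  obtain ⟨l, h1, h2, rfl⟩ := hy
  rcases l with _ | ⟨a, l⟩
  · exact ⟨1, 1, Or.inl (one_mem _), one_mem_ball _, by simp⟩
  · refine ⟨a, l.prod, h2 a List.mem_cons_self, ⟨l, ?_, fun x hx =>
      h2 x (List.mem_cons_of_mem _ hx), rfl⟩, List.prod_cons⟩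
    rw [List.length_cons] at h1
    omega

end A

/-! ### Families -/

section family

variable {ε : ℤ} {n : Type*} [DecidableEq n] [Fintype n] {ι : Type*} {Λ : ι → Type*}
  [∀ i, Ring (Λ i)] [∀ i, StarRing (Λ i)]

theorem one_comp (i : ι) (a b : n) :
    (1 : Matrix n n (∀ i, Λ i)) a b i = (1 : Matrix n n (Λ i)) a b := by
  rw [Matrix.one_apply, Matrix.one_apply]
  split_ifs
  · rfl
  · rfl

theorem comp_up (i : ι) (B : Matrix n n (∀ i, Λ i)) :
    comp (m := n ⊕ n) (Λ := Λ) i (up B) = up (B.map fun x => x i) := by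
  apply Units.ext
  ext a b
  rw [comp_val, up_val, up_val]
  rcases a with a | a
  · rcases b with b | b
    · rw [Matrix.fromBlocks_apply₁₁, Matrix.fromBlocks_apply₁₁, one_comp]
    · rw [Matrix.fromBlocks_apply₁₂, Matrix.fromBlocks_apply₁₂, Matrix.map_apply]
  · rcases b with b | b
    · rw [Matrix.fromBlocks_apply₂₁, Matrix.fromBlocks_apply₂₁, Matrix.zero_apply,
        Matrix.zero_apply, Pi.zero_apply]
    · rw [Matrix.fromBlocks_apply₂₂, Matrix.fromBlocks_apply₂₂, one_comp]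

theorem comp_lo (i : ι) (B : Matrix n n (∀ i, Λ i)) :
    comp (m := n ⊕ n) (Λ := Λ) i (lo B) = lo (B.map fun x => x i) := by
  apply Units.ext
  ext a b
  rw [comp_val, lo_val, lo_val]
  rcases a with a | a
  · rcases b with b | b
    · rw [Matrix.fromBlocks_apply₁₁, Matrix.fromBlocks_apply₁₁, one_comp]
    · rw [Matrix.fromBlocks_apply₁₂, Matrix.fromBlocks_apply₁₂, Matrix.zero_apply,
        Matrix.zero_apply, Pi.zero_apply]
  · rcases b with b | b
    · rw [Matrix.fromBlocks_apply₂₁, Matrix.fromBlocks_apply₂₁, Matrix.map_apply]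
    · rw [Matrix.fromBlocks_apply₂₂, Matrix.fromBlocks_apply₂₂, one_comp]

theorem comp_lev (i : ι) (A : (Matrix n n (∀ i, Λ i))ˣ) :
    comp (m := n ⊕ n) (Λ := Λ) i (lev A) = lev (comp (m := n) (Λ := Λ) i A) := by
  apply Units.ext
  ext a b
  rw [comp_val, lev_val, lev_val]
  rcases a with a | a
  · rcases b with b | b
    · rw [Matrix.fromBlocks_apply₁₁, Matrix.fromBlocks_apply₁₁, comp_val]
    · rw [Matrix.fromBlocks_apply₁₂, Matrix.fromBlocks_apply₁₂, Matrix.zero_apply,
        Matrix.zero_apply, Pi.zero_apply]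
  · rcases b with b | b
    · rw [Matrix.fromBlocks_apply₂₁, Matrix.fromBlocks_apply₂₁, Matrix.zero_apply,
        Matrix.zero_apply, Pi.zero_apply]
    · rw [Matrix.fromBlocks_apply₂₂, Matrix.fromBlocks_apply₂₂, Matrix.conjTranspose_apply,
        Matrix.conjTranspose_apply, comp_inv_val, Pi.star_apply]

theorem comp_el (i : ι) (a b : n) (h : a ≠ b) (x : ∀ i, Λ i) :
    comp (m := n) (Λ := Λ) i (el a b h x) = el a b h (x i) := by
  apply Units.ext
  ext k l
  rw [comp_val]
  change ((1 : Matrix n n (∀ i, Λ i)) + Matrix.single a b x) k l i =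
    ((1 : Matrix n n (Λ i)) + Matrix.single a b (x i)) k l
  rw [Matrix.add_apply, Matrix.add_apply, Pi.add_apply, one_comp, Matrix.single_apply,
    Matrix.single_apply]
  congr 1
  split_ifs
  · rfl
  · rfl

theorem Sk_comp {B : Matrix n n (∀ i, Λ i)} (hB : Sk ε B) (i : ι) :
    Sk ε (B.map fun x => x i) := by
  unfold Sk at *
  ext a b
  have := congrFun (congrFun (congrFun hB a) b) i
  exact this

theorem Sk_of_comp {B : Matrix n n (∀ i, Λ i)} (hB : ∀ i, Sk ε (B.map fun x => x i)) :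
    Sk ε B := by
  unfold Sk at *
  ext a b i
  have := congrFun (congrFun (hB i) a) b
  exact this

theorem comp_mem_UP (i : ι) {x : (Matrix (n ⊕ n) (n ⊕ n) (∀ i, Λ i))ˣ}
    (hx : x ∈ UP ε n (∀ i, Λ i)) : comp i x ∈ UP ε n (Λ i) := by
  obtain ⟨B, hB, rfl⟩ := hx
  exact ⟨_, Sk_comp hB i, comp_up i B⟩

theorem comp_mem_UM (i : ι) {x : (Matrix (n ⊕ n) (n ⊕ n) (∀ i, Λ i))ˣ}
    (hx : x ∈ UM ε n (∀ i, Λ i)) : comp i x ∈ UM ε n (Λ i) := by
  obtain ⟨B, hB, rfl⟩ := hx
  exact ⟨_, Sk_comp hB i, comp_lo i B⟩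

theorem glue {κ G : Type*} [Fintype κ] [DecidableEq κ] [Group G] {H : ι → Type*}
    [∀ i, Group (H i)] (Γ : Subgroup G) (c : ∀ i, G →* H i) (a : ∀ i, H i) (t : ι → κ)
    (h : ∀ k, ∃ x ∈ Γ, ∀ i, c i x = if t i = k then a i else 1) :
    ∃ x ∈ Γ, ∀ i, c i x = a i := by
  have key : ∀ s : Finset κ, ∃ x ∈ Γ, ∀ i, c i x = if t i ∈ s then a i else 1 := by
    intro s
    induction s using Finset.induction_on with
    | empty => exact ⟨1, one_mem _, fun i => by simp⟩
    | insert k s hk ih =>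
      obtain ⟨x, hx, hx'⟩ := ih
      obtain ⟨y, hy, hy'⟩ := h k
      refine ⟨x * y, mul_mem hx hy, fun i => ?_⟩
      rw [map_mul, hx', hy']
      by_cases h1 : t i = k
      · have h2 : t i ∉ s := by rw [h1]; exact hk
        rw [if_neg h2, if_pos h1, if_pos (by rw [h1]; exact Finset.mem_insert_self _ _), one_mul]
      · rw [if_neg h1, mul_one]
        by_cases h2 : t i ∈ s
        · rw [if_pos h2, if_pos (Finset.mem_insert_of_mem h2)]
        · rw [if_neg h2, if_neg (fun h3 => ?_)]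
          rcases Finset.mem_insert.mp h3 with h3 | h3
          · exact h1 h3
          · exact h2 h3
  obtain ⟨x, hx, hx'⟩ := key Finset.univ
  exact ⟨x, hx, fun i => by rw [hx', if_pos (Finset.mem_univ _)]⟩

theorem up_zero {P : Type*} [Ring P] : up (0 : Matrix n n P) = 1 := by
  apply Units.ext
  rw [up_val, Units.val_one, Matrix.fromBlocks_one]

theorem lo_zero {P : Type*} [Ring P] : lo (0 : Matrix n n P) = 1 := by
  apply Units.ext
  rw [lo_val, Units.val_one, Matrix.fromBlocks_one]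

theorem el_zero {P : Type*} [Ring P] (a b : n) (h : a ≠ b) : el a b h (0 : P) = 1 := by
  apply Units.ext
  change (1 : Matrix n n P) + Matrix.single a b 0 = 1
  rw [Matrix.single_zero, add_zero]

open Classical in
theorem gen_pi (a : ∀ i, (Matrix (n ⊕ n) (n ⊕ n) (Λ i))ˣ)
    (ha : ∀ i, a i ∈ UP ε n (Λ i) ∨ a i ∈ UM ε n (Λ i) ∨
      ∃ (p q : n) (h : p ≠ q) (y : Λ i), a i = lev (el p q h y)) :
    ∃ x ∈ EUL ε n (∀ i, Λ i), ∀ i, comp i x = a i := by
  let t : ι → Bool ⊕ (n × n) := fun i =>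
    if a i ∈ UP ε n (Λ i) then Sum.inl true
    else if a i ∈ UM ε n (Λ i) then Sum.inl false
    else if h : ∃ (p q : n) (h : p ≠ q) (y : Λ i), a i = lev (el p q h y) then
      Sum.inr (h.choose, h.choose_spec.choose)
    else Sum.inl true
  have ht1 : ∀ i, t i = Sum.inl true → a i ∈ UP ε n (Λ i) := by
    intro i hi
    by_contra hcon
    simp only [t, if_neg hcon] at hi
    by_cases h1 : a i ∈ UM ε n (Λ i)
    · rw [if_pos h1] at hi
      simp at hi
    · rw [if_neg h1] at hi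
      have h2 : ∃ (p q : n) (h : p ≠ q) (y : Λ i), a i = lev (el p q h y) := by
        rcases ha i with h | h | h
        · exact absurd h hcon
        · exact absurd h h1
        · exact h
      rw [dif_pos h2] at hi
      simp at hi
  have ht2 : ∀ i, t i = Sum.inl false → a i ∈ UM ε n (Λ i) := by
    intro i hi
    by_contra hcon
    by_cases h1 : a i ∈ UP ε n (Λ i)
    · simp only [t, if_pos h1] at hi
      simp at hi
    · simp only [t, if_neg h1, if_neg hcon] at hi
      split_ifs at hi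
      simp at hi
  have ht3 : ∀ i (k : n × n), t i = Sum.inr k → ∃ (h : k.1 ≠ k.2) (y : Λ i),
      a i = lev (el k.1 k.2 h y) := by
    intro i k hi
    by_cases h1 : a i ∈ UP ε n (Λ i)
    · simp only [t, if_pos h1] at hi
      simp at hi
    · by_cases h2 : a i ∈ UM ε n (Λ i)
      · simp only [t, if_neg h1, if_pos h2] at hi
        simp at hi
      · simp only [t, if_neg h1, if_neg h2] at hi
        by_cases h3 : ∃ (p q : n) (h : p ≠ q) (y : Λ i), a i = lev (el p q h y)
        · rw [dif_pos h3, Sum.inr.injEq] at hi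
          subst hi
          exact h3.choose_spec.choose_spec
        · rw [dif_neg h3] at hi
          simp at hi
  refine glue _ (fun i => comp (m := n ⊕ n) (Λ := Λ) i) a t ?_
  rintro ((_ | _) | k)
  · -- the lower unipotent part
    have hch : ∀ i, ∃ C : Matrix n n (Λ i), Sk ε C ∧
        (if t i = Sum.inl false then a i else 1) = lo C := by
      intro i
      by_cases h : t i = Sum.inl false
      · rw [if_pos h]
        exact ht2 i h
      · rw [if_neg h]
        exact ⟨0, Sk.zero, lo_zero.symm⟩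
    choose C hC hC' using hch
    have hsk : Sk ε (Matrix.of fun p q i => C i p q : Matrix n n (∀ i, Λ i)) :=
      Sk_of_comp fun i => hC i
    refine ⟨lo (Matrix.of fun p q i => C i p q), EU_le_EUL (lo_mem hsk), fun i => ?_⟩
    rw [comp_lo, hC']
    rfl
  · have hch : ∀ i, ∃ C : Matrix n n (Λ i), Sk ε C ∧
        (if t i = Sum.inl true then a i else 1) = up C := by
      intro i
      by_cases h : t i = Sum.inl true
      · rw [if_pos h]
        exact ht1 i h
      · rw [if_neg h]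
        exact ⟨0, Sk.zero, up_zero.symm⟩
    choose C hC hC' using hch
    have hsk : Sk ε (Matrix.of fun p q i => C i p q : Matrix n n (∀ i, Λ i)) :=
      Sk_of_comp fun i => hC i
    refine ⟨up (Matrix.of fun p q i => C i p q), EU_le_EUL (up_mem hsk), fun i => ?_⟩
    rw [comp_up, hC']
    rfl
  · by_cases hk : k.1 ≠ k.2
    · have hch : ∀ i, ∃ y : Λ i, (if t i = Sum.inr k then a i else 1) =
          lev (el k.1 k.2 hk y) := by
        intro i
        by_cases h : t i = Sum.inr k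
        · rw [if_pos h]
          obtain ⟨_, y, hy⟩ := ht3 i k h
          exact ⟨y, hy⟩
        · rw [if_neg h]
          exact ⟨0, by rw [el_zero, map_one]⟩
      choose y hy using hch
      refine ⟨lev (el k.1 k.2 hk y), lev_mem (el_mem _ _ _ _), fun i => ?_⟩
      rw [comp_lev, comp_el, hy]
    · refine ⟨1, one_mem _, fun i => ?_⟩
      rw [map_one, if_neg]
      intro h
      exact hk (ht3 i k h).1

theorem ball_pi (K : ℕ)
    (y : ∀ i, (Matrix (n ⊕ n) (n ⊕ n) (Λ i))ˣ) (hy : ∀ i, y i ∈ ball ε n (Λ i) K) :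
    ∃ x ∈ EUL ε n (∀ i, Λ i), ∀ i, comp i x = y i := by
  induction K generalizing y with
  | zero =>
    refine ⟨1, one_mem _, fun i => ?_⟩
    obtain ⟨l, h1, _, h3⟩ := hy i
    have h4 : l = [] := List.length_eq_zero_iff.mp (Nat.le_zero.mp h1)
    rw [map_one, ← h3, h4, List.prod_nil]
  | succ K ih =>
    have hch := fun i => ball_succ (hy i)
    choose a z h1 h2 h3 using hch
    obtain ⟨x, hx, hx'⟩ := gen_pi a h1
    obtain ⟨x', hx1, hx1'⟩ := ih z h2
    exact ⟨x * x', mul_mem hx hx1, fun i => by rw [map_mul, hx', hx1', h3]⟩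

open Pointwise in
theorem EU_bounded (x : (Matrix (n ⊕ n) (n ⊕ n) (∀ i, Λ i))ˣ) (hx : x ∈ EU ε n (∀ i, Λ i)) :
    ∃ L : ℕ, ∀ i, comp i x ∈
      ((UP ε n (Λ i) : Set (Matrix (n ⊕ n) (n ⊕ n) (Λ i))ˣ) * (UM ε n (Λ i) : Set _)) ^ L := by
  suffices h : ∃ L : ℕ, ∀ i, comp i x ∈
      ((UP ε n (Λ i) : Set (Matrix (n ⊕ n) (n ⊕ n) (Λ i))ˣ) * (UM ε n (Λ i) : Set _)) ^ L ∧
      (comp i x)⁻¹ ∈
      ((UP ε n (Λ i) : Set (Matrix (n ⊕ n) (n ⊕ n) (Λ i))ˣ) * (UM ε n (Λ i) : Set _)) ^ L by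
    obtain ⟨L, hL⟩ := h
    exact ⟨L, fun i => (hL i).1⟩
  rw [EU, Subgroup.sup_eq_closure] at hx
  induction hx using Subgroup.closure_induction with
  | mem x hx =>
    rcases hx with hx | hx
    · refine ⟨1, fun i => ?_⟩
      have h1 := comp_mem_UP i hx
      rw [pow_one]
      exact ⟨⟨_, h1, 1, one_mem _, mul_one _⟩, ⟨_, inv_mem h1, 1, one_mem _, mul_one _⟩⟩
    · refine ⟨1, fun i => ?_⟩
      have h1 := comp_mem_UM i hx
      rw [pow_one]
      exact ⟨⟨1, one_mem _, _, h1, one_mul _⟩, ⟨1, one_mem _, _, inv_mem h1, one_mul _⟩⟩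
  | one =>
    refine ⟨0, fun i => ?_⟩
    rw [map_one, inv_one, pow_zero]
    exact ⟨Set.mem_one.mpr rfl, Set.mem_one.mpr rfl⟩
  | mul x y _ _ hx hy =>
    obtain ⟨L, hL⟩ := hx
    obtain ⟨L', hL'⟩ := hy
    refine ⟨L + L', fun i => ⟨?_, ?_⟩⟩
    · rw [map_mul, pow_add]
      exact Set.mul_mem_mul (hL i).1 (hL' i).1
    · rw [map_mul, _root_.mul_inv_rev, add_comm, pow_add]
      exact Set.mul_mem_mul (hL' i).2 (hL i).2
  | inv x _ hx =>
    obtain ⟨L, hL⟩ := hx
    refine ⟨L, fun i => ?_⟩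
    rw [map_inv, inv_inv]
    exact ⟨(hL i).2, (hL i).1⟩

end family

end BWC
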