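import Pool.Agent.BWC.Defs
import Pool.Agent.BW.Pure
import Pool.Agent.BW.Stable

/-!
# The arithmetic choice with pure elements
-/

namespace BWC

open Matrix
open BW hiding star

namespace Arith

/-! ### Reduction modulo primes -/

section Rho

variable {N : ℕ} {R Λ : Type*} [CommRing R] [IsLocalization.Away (N : ℤ) R] [Ring Λ] [Algebra R Λ]
  (Q : QAlg N R Λ)

theorem phi_trace (hN : N ≠ 0) {p : ℕ} (hp : p.Prime) (hpN : ¬ p ∣ N)
    {ρ : Λ →+* Matrix (Fin 2) (Fin 2) (ZMod p)}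
    (hρ : ∀ y, ρ (algebraMap R Λ (Q.n y)) = (ρ y).det • (1 : Matrix (Fin 2) (Fin 2) (ZMod p)))
    (x : Λ) : Loc.phi N R hp hpN (Q.T x) = (ρ x).trace := by
  have h1 := Choice.det_rho Q hp hpN ρ hρ (1 + (1 : R) • x)
  rw [Choice.n_one_add Q hN, map_add, map_add, one_mul, one_pow, one_mul, map_one,
    ← Choice.det_rho Q hp hpN ρ hρ x, one_smul, map_add, map_one] at h1
  have h2 : (1 + ρ x).det = 1 + (ρ x).trace + (ρ x).det := by
    rw [Matrix.det_fin_two, Matrix.det_fin_two, Matrix.trace_fin_two]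
    simp
    ring
  rw [h2] at h1
  exact (add_left_cancel (add_right_cancel h1)).symm

theorem dvd_n_iff {p : ℕ} (hp : p.Prime) (hpN : ¬ p ∣ N)
    {ρ : Λ →+* Matrix (Fin 2) (Fin 2) (ZMod p)}
    (hρ : ∀ y, ρ (algebraMap R Λ (Q.n y)) = (ρ y).det • (1 : Matrix (Fin 2) (Fin 2) (ZMod p)))
    (x : Λ) : (p : R) ∣ Q.n x ↔ (ρ x).det = 0 := by
  have := Fact.mk hp
  rw [← Loc.phi_eq_zero_iff hp hpN, ← Choice.det_rho Q hp hpN ρ hρ x]

omit [IsLocalization.Away (N : ℤ) R] [Algebra R Λ] [CommRing R] in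
theorem rho_add {p : ℕ} (ρ : Λ →+* Matrix (Fin 2) (Fin 2) (ZMod p)) (x y : Λ) :
    ρ (x + (p : Λ) * y) = ρ x := by
  have hp0 : ((p : ℕ) : Matrix (Fin 2) (Fin 2) (ZMod p)) = 0 := by
    have h1 : ((p : ℕ) : Matrix (Fin 2) (Fin 2) (ZMod p)) =
        algebraMap (ZMod p) (Matrix (Fin 2) (Fin 2) (ZMod p)) (p : ZMod p) := by
      rw [map_natCast]
    rw [h1, ZMod.natCast_self, map_zero]
  rw [map_add, map_mul, map_natCast, hp0, zero_mul, add_zero]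

omit [IsLocalization.Away (N : ℤ) R] in
theorem exists_T_one : ∃ e : Λ, Q.T e = 1 := by
  obtain ⟨f, hf⟩ := Q.one_prim
  obtain ⟨c, hc⟩ := Q.unimod f
  exact ⟨c, by rw [← hf, hc, one_mul]⟩

omit [IsLocalization.Away (N : ℤ) R] in
/-- the Chinese remainder theorem for elements of trace zero -/
theorem crt_zero (P : Finset ℕ) (hP : ∀ p ∈ P, p.Prime) (σ : ℕ → Λ)
    (hσ : ∀ p ∈ P, (p : R) ∣ Q.T (σ p)) :
    ∃ s : Λ, Q.T s = 0 ∧ ∀ p ∈ P, ∃ y : Λ, s = σ p + (p : Λ) * y := by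
  obtain ⟨t, ht⟩ := exists_crt (Λ := Λ) P hP σ
  obtain ⟨e, he⟩ := exists_T_one Q
  have h1 : ∀ p ∈ P, ((p : ℕ) : R) ∣ Q.T t := by
    intro p hp
    obtain ⟨y, hy⟩ := ht p hp
    rw [hy, map_add]
    refine dvd_add (hσ p hp) ?_
    have h2 : (p : Λ) * y = (p : R) • y := by
      rw [Algebra.smul_def, map_natCast]
    rw [h2, map_smul, smul_eq_mul]
    exact dvd_mul_right _ _
  have h2 : (∏ p ∈ P, (p : R)) ∣ Q.T t := by
    refine Finset.prod_dvd_of_coprime ?_ h1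
    intro p hp q hq hpq
    have h3 : IsCoprime (p : ℤ) (q : ℤ) :=
      Nat.isCoprime_iff_coprime.2 ((Nat.coprime_primes (hP p hp) (hP q hq)).2 hpq)
    have h4 := h3.map (Int.castRingHom R)
    simpa using h4
  obtain ⟨r, hr⟩ := h2
  refine ⟨t - ((∏ p ∈ P, (p : R)) * r) • e, ?_, fun p hp => ?_⟩
  · rw [map_sub, map_smul, he, smul_eq_mul, mul_one, hr, sub_self]
  · obtain ⟨y, hy⟩ := ht p hp
    obtain ⟨z, hz⟩ := Finset.dvd_prod_of_mem (fun p : ℕ => (p : R)) hp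
    refine ⟨y - (z * r) • e, ?_⟩
    rw [hz, hy, mul_assoc, mul_smul, mul_sub, ← add_sub_assoc]
    congr 1
    rw [Algebra.smul_def (p : R), map_natCast]

/-- a pure element with prescribed reduction of trace zero -/
theorem exists_pure_rho (hN : N ≠ 0) {p : ℕ} (hp : p.Prime) (hpN : ¬ p ∣ N)
    {ρ : Λ →+* Matrix (Fin 2) (Fin 2) (ZMod p)} (hs : Function.Surjective ρ)
    (hρ : ∀ y, ρ (algebraMap R Λ (Q.n y)) = (ρ y).det • (1 : Matrix (Fin 2) (Fin 2) (ZMod p)))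
    (X : Matrix (Fin 2) (Fin 2) (ZMod p)) (hX : X.trace = 0) : ∃ s : Λ, Q.T s = 0 ∧ ρ s = X := by
  have := Fact.mk hp
  obtain ⟨σ, hσ⟩ := hs X
  obtain ⟨s, hs0, hs1⟩ := crt_zero Q {p} (fun q hq => by rwa [Finset.mem_singleton.1 hq])
    (fun _ => σ) (fun q hq => by
      obtain rfl := Finset.mem_singleton.1 hq
      rw [← Loc.phi_eq_zero_iff hp hpN, phi_trace Q hN hp hpN hρ, hσ, hX])
  obtain ⟨y, hy⟩ := hs1 p (Finset.mem_singleton_self p)
  exact ⟨s, hs0, by rw [hy, rho_add, hσ]⟩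

/-- a pure element whose norm is prime to every number of a finite set of primes -/
theorem exists_pure_coprime (hN : N ≠ 0) (P : Finset ℕ) (hP : ∀ p ∈ P, p.Prime)
    (hPN : ∀ p ∈ P, ¬ p ∣ N) :
    ∃ s : Λ, Q.T s = 0 ∧ ∀ p ∈ P, ¬ (p : R) ∣ Q.n s := by
  have hex : ∀ p : ℕ, p ∈ P → ∃ σ : Λ, (p : R) ∣ Q.T σ ∧
      ∀ y, ¬ (p : R) ∣ Q.n (σ + (p : Λ) * y) := by
    intro p hp
    have := Fact.mk (hP p hp)
    obtain ⟨ρ, hs, -, hρ⟩ := Q.fibre p (hP p hp) (hPN p hp)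
    obtain ⟨σ, hσ⟩ := hs !![0, 1; 1, 0]
    refine ⟨σ, ?_, fun y hy => ?_⟩
    · rw [← Loc.phi_eq_zero_iff (hP p hp) (hPN p hp), phi_trace Q hN (hP p hp) (hPN p hp) hρ, hσ,
        Matrix.trace_fin_two_of, add_zero]
    · rw [dvd_n_iff Q (hP p hp) (hPN p hp) hρ, rho_add, hσ, Matrix.det_fin_two_of] at hy
      simp at hy
  choose! σ hσ using hex
  obtain ⟨s, hs0, hs1⟩ := crt_zero Q P hP σ (fun p hp => (hσ p hp).1)
  refine ⟨s, hs0, fun p hp => ?_⟩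
  obtain ⟨y, hy⟩ := hs1 p hp
  rw [hy]
  exact (hσ p hp).2 y

end Rho

/-! ### The choice of `w` -/

section Main

variable {N : ℕ} {R Λ : Type*} [CommRing R] [IsLocalization.Away (N : ℤ) R] [Ring Λ] [Algebra R Λ]
  (Q : QAlg N R Λ)

/-- the choice of `w` -/
theorem exists_w_pure (hN : N ≠ 0) (x : Λ) (hx : Q.T x = 0) (r α β : R)
    (h : α * Q.n x + β * r = 1) {M : ℕ} (hM0 : M ≠ 0) :
    ∃ w : Λ, Q.T w = 0 ∧ ∀ p : ℕ, p.Prime → ¬ p ∣ N → p ∣ M → ¬ (p : R) ∣ Q.n (x + r • w) := by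
  classical
  have hD := Loc.isDomain N R hN
  have hC := Loc.charZero N R hN
  -- the primes which do not divide `r`
  set S : Finset ℕ := M.primeFactors.filter (fun q : ℕ => ¬ (q : R) ∣ r ∧ ¬ q ∣ N) with hS
  have hSp : ∀ q ∈ S, q.Prime := fun q hq => by
    rw [hS, Finset.mem_filter] at hq
    exact Nat.prime_of_mem_primeFactors hq.1
  set B : ℕ := ∏ q ∈ S, q with hB
  have hB0 : (B : R) ≠ 0 := by
    rw [hB]
    have : ∏ q ∈ S, q ≠ 0 := Finset.prod_ne_zero_iff.mpr fun q hq => (hSp q hq).ne_zero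
    exact_mod_cast this
  have hcop : IsCoprime r (B : R) := by
    refine Loc.isCoprime hN r (B : R) (Or.inr hB0) ?_
    rintro p hp hpN ⟨h1, h2⟩
    rw [Loc.natCast_dvd_natCast hp hpN] at h2
    obtain ⟨q, hq, hpq⟩ := (Prime.dvd_finsetProd_iff hp.prime _).mp h2
    have : p = q := (Nat.prime_dvd_prime_iff_eq hp (hSp q hq)).mp hpq
    rw [← this, hS, Finset.mem_filter] at hq
    exact hq.2.1 h1
  obtain ⟨y0, hy0, hy⟩ := exists_pure_coprime Q hN S hSp (fun q hq => by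
    rw [hS, Finset.mem_filter] at hq
    exact hq.2.2)
  obtain ⟨s, t, hst⟩ := hcop
  refine ⟨s • (y0 - x), by rw [map_smul, map_sub, hx, hy0, sub_zero, smul_zero],
    fun p hp hpN hpM hdvd => ?_⟩
  by_cases hpr : (p : R) ∣ r
  · -- `n (x + r w) = n x` modulo `r`
    rw [Choice.n_add_smul Q hN] at hdvd
    have h1 : (p : R) ∣ Q.n x := by
      have h2 : (p : R) ∣ r * Q.T (x * Q.conj (s • (y0 - x))) + r ^ 2 * Q.n (s • (y0 - x)) :=
        dvd_add (Dvd.dvd.mul_right hpr _) (Dvd.dvd.mul_right (hpr.trans (dvd_pow_self r two_ne_zero)) _)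
      rw [add_assoc] at hdvd
      exact (dvd_add_left h2).mp hdvd
    have h3 : (p : R) ∣ 1 := by
      rw [← h]
      exact dvd_add (Dvd.dvd.mul_left h1 _) (Dvd.dvd.mul_left hpr _)
    exact Loc.not_isUnit hp hpN (isUnit_of_dvd_one h3)
  · -- `x + r w = y0` modulo `B`
    have hpS : p ∈ S := by
      rw [hS, Finset.mem_filter, Nat.mem_primeFactors]
      exact ⟨⟨hp, hpM, hM0⟩, hpr, hpN⟩
    have hpB : (p : R) ∣ (B : R) := by
      rw [Loc.natCast_dvd_natCast hp hpN, hB]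
      exact Finset.dvd_prod_of_mem (fun q : ℕ => q) hpS
    have h1 : x + r • s • (y0 - x) = y0 + (-(t * B)) • (y0 - x) := by
      have h2 : r * s = 1 - t * B := by rw [← hst]; ring
      rw [smul_smul, h2]
      simp only [sub_smul, neg_smul, one_smul]
      abel
    rw [h1, Choice.n_add_smul Q hN] at hdvd
    have h4 : (p : R) ∣ -(t * B) * Q.T (y0 * Q.conj (y0 - x)) + (-(t * B)) ^ 2 * Q.n (y0 - x) :=
      dvd_add (Dvd.dvd.mul_right ((dvd_neg.mpr (Dvd.dvd.mul_left hpB _))) _)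
        (Dvd.dvd.mul_right ((dvd_neg.mpr (Dvd.dvd.mul_left hpB _)).trans (dvd_pow_self _ two_ne_zero)) _)
    rw [add_assoc] at hdvd
    exact hy p hpS ((dvd_add_left h4).mp hdvd)

/-! ### The choice of `z0` and `z1` -/

/-- scaling to an integer norm, `N` odd -/
theorem scale (hNo : Odd N) {z : Λ} {v : ℕ} {c : R} (hT : Q.T z = 0) (hz : Q.n z = 2 ^ v * c)
    (hc : ¬ ((2 : ℕ) : R) ∣ c) :
    ∃ (z' : Λ) (m : ℤ), Q.T z' = 0 ∧ Q.n z' = ((2 ^ v * m : ℤ) : R) ∧ Odd m := by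
  have h2N : ¬ 2 ∣ N := fun h => by
    obtain ⟨k, hk⟩ := hNo
    omega
  obtain ⟨a, k, ha⟩ := Loc.exists_int N c
  have hu : IsUnit ((N : R) ^ k) := (Loc.isUnit_natCast N R).pow k
  refine ⟨((N : R) ^ k) • z, (N : ℤ) ^ k * a, by rw [map_smul, hT, smul_zero], ?_, ?_⟩
  · rw [Choice.n_smul Q, hz]
    push_cast
    rw [← ha]
    ring
  · refine Odd.mul (Odd.pow (by exact_mod_cast hNo)) ?_
    rw [← Int.not_even_iff_odd, even_iff_two_dvd]
    intro h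
    apply hc
    have h1 : ((2 : ℕ) : R) ∣ (a : R) := by
      rw [Loc.intCast_dvd Nat.prime_two h2N]
      exact_mod_cast h
    rw [← ha] at h1
    exact (IsUnit.dvd_mul_right hu).mp h1

/-- `N` odd -/
theorem exists_zz_odd (hNo : Odd N) : ∃ (z0 z1 : Λ) (m0 m1 : ℤ), Q.T z0 = 0 ∧ Q.T z1 = 0 ∧
    Q.n z0 = ((2 ^ 0 * m0 : ℤ) : R) ∧ Q.n z1 = ((2 ^ 1 * m1 : ℤ) : R) ∧ Odd m0 ∧ Odd m1 := by
  have hN : N ≠ 0 := by
    rintro rfl
    simp at hNo
  have h2N : ¬ 2 ∣ N := fun h => by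
    obtain ⟨k, hk⟩ := hNo
    omega
  have := Fact.mk Nat.prime_two
  obtain ⟨ρ, hs, -, hρ⟩ := Q.fibre 2 Nat.prime_two h2N
  obtain ⟨z0, h01, h02⟩ := exists_pure_rho Q hN Nat.prime_two h2N hs hρ !![0, 1; 1, 0]
    (by rw [Matrix.trace_fin_two_of, add_zero])
  obtain ⟨y, hy1, hy2⟩ := exists_pure_rho Q hN Nat.prime_two h2N hs hρ !![0, 1; 0, 0]
    (by rw [Matrix.trace_fin_two_of, add_zero])
  obtain ⟨s, hs1, hs2⟩ := exists_pure_rho Q hN Nat.prime_two h2N hs hρ !![0, 0; 1, 0]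
    (by rw [Matrix.trace_fin_two_of, add_zero])
  have hdvd : ∀ r : R, ((2 : ℕ) : R) ∣ r ↔ Loc.phi N R Nat.prime_two h2N r = 0 := fun r =>
    (Loc.phi_eq_zero_iff Nat.prime_two h2N r).symm
  obtain ⟨z0', m0, h03, h04, h05⟩ := scale Q hNo (v := 0) (c := Q.n z0) h01
    (by rw [pow_zero, one_mul]) (by
      rw [dvd_n_iff Q Nat.prime_two h2N hρ, h02, Matrix.det_fin_two_of]
      simp)
  obtain ⟨c, hc⟩ : ((2 : ℕ) : R) ∣ Q.n y := by
    rw [dvd_n_iff Q Nat.prime_two h2N hρ, hy2, Matrix.det_fin_two_of]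
    simp
  have hz1 : ∃ (z : Λ) (c : R), Q.T z = 0 ∧ Q.n z = 2 ^ 1 * c ∧ ¬ ((2 : ℕ) : R) ∣ c := by
    by_cases h2c : ((2 : ℕ) : R) ∣ c
    · refine ⟨y + (2 : R) • s, c + Q.T (y * Q.conj s) + 2 * Q.n s, ?_, ?_, ?_⟩
      · rw [map_add, map_smul, hy1, hs1, smul_zero, add_zero]
      · rw [Choice.n_add_smul Q hN, hc]
        push_cast
        ring
      · rw [hdvd] at h2c ⊢
        have e1 : Loc.phi N R Nat.prime_two h2N (Q.T (y * Q.conj s)) = -1 := by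
          rw [phi_trace Q hN Nat.prime_two h2N hρ, Pure.conj_pure Q hs1, map_mul, map_neg, hy2, hs2,
            Matrix.mul_neg, Matrix.mul_fin_two, Matrix.trace_neg, Matrix.trace_fin_two_of]
          simp
        have e2 : Loc.phi N R Nat.prime_two h2N (2 * Q.n s) = 0 := by
          rw [← hdvd]
          exact ⟨Q.n s, by push_cast; ring⟩
        rw [map_add, map_add, h2c, e1, e2]
        simp
    · exact ⟨y, c, hy1, by rw [hc]; push_cast; ring, h2c⟩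
  obtain ⟨z, c', hz1, hz2, hz3⟩ := hz1
  obtain ⟨z1', m1, h13, h14, h15⟩ := scale Q hNo (v := 1) (c := c') hz1 hz2 hz3
  exact ⟨z0', z1', m0, m1, h03, h13, h04, h14, h05, h15⟩

/-- the choice of `z0` and `z1` -/
theorem exists_zz (hN : N ≠ 0) : ∃ (z0 z1 : Λ) (v0 v1 : ℕ) (m0 m1 : ℤ), Q.T z0 = 0 ∧ Q.T z1 = 0 ∧
    Q.n z0 = ((2 ^ v0 * m0 : ℤ) : R) ∧ Q.n z1 = ((2 ^ v1 * m1 : ℤ) : R) ∧ Even v0 ∧ Odd v1 ∧
    Odd m0 ∧ Odd m1 ∧ (IsUnit (2 : R) ∨ (v0 ≤ 2 ∧ v1 ≤ 2)) := by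
  rcases Nat.even_or_odd N with hNe | hNo
  · have h2 : IsUnit (2 : R) := by
      have h := Loc.isUnit_of_dvd_pow N R (s := 2) (j := 1) (by
        rw [pow_one]
        exact hNe.two_dvd)
      exact_mod_cast h
    obtain ⟨z0, z1, v0, v1, m0, m1, a1, a2, a3, a4, a5, a6, a7, a8⟩ := Pure.exists_even_odd Q hN
    exact ⟨z0, z1, v0, v1, m0, m1, a1, a2, a3, a4, a5, a6, a7, a8, Or.inl h2⟩
  · obtain ⟨z0, z1, m0, m1, a1, a2, a3, a4, a7, a8⟩ := exists_zz_odd Q hNo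
    exact ⟨z0, z1, 0, 1, m0, m1, a1, a2, a3, a4, by simp, by simp, a7, a8,
      Or.inr ⟨by omega, by omega⟩⟩

omit [IsLocalization.Away (N : ℤ) R] [Ring Λ] [Algebra R Λ] in
/-- `p - 1` is divisible by `2 ^ v m` -/
theorem exists_div {v : ℕ} {m : ℤ} (hm : Odd m) (h : IsUnit (2 : R) ∨ v ≤ 2) {p : ℕ}
    (h4 : (4 : ℤ) ∣ (p : ℤ) - 1) (hmp : m ∣ (p : ℤ) - 1) :
    ∃ k : R, (p : R) = 1 + ((2 ^ v * m : ℤ) : R) * k := by
  have hcop : IsCoprime (4 : ℤ) m := by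
    obtain ⟨t, rfl⟩ := hm
    exact ⟨-t ^ 2 - t, 2 * t + 1, by ring⟩
  obtain ⟨t, ht⟩ : 4 * m ∣ (p : ℤ) - 1 := hcop.mul_dvd h4 hmp
  have ht' : (p : R) - 1 = 4 * m * t := by
    have := congrArg (Int.cast : ℤ → R) ht
    push_cast at this
    exact this
  rcases h with h | h
  · obtain ⟨i, hi⟩ := (h.pow v).exists_right_inv
    refine ⟨i * 4 * t, ?_⟩
    push_cast
    linear_combination ht' - 4 * m * t * hi
  · have h2 : (2 : R) ^ v * 2 ^ (2 - v) = 4 := by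
      rw [← pow_add, Nat.add_sub_cancel' h]
      norm_num
    refine ⟨2 ^ (2 - v) * t, ?_⟩
    push_cast
    linear_combination ht' - (m : R) * t * h2

end Main

open NumberTheorySymbols in
/-- squares -/
theorem square_A {p : ℕ} [Fact p.Prime] (hp : p % 4 = 1) {v : ℕ} (hv : Even v) {m : ℤ} (hm : Odd m)
    (h : m ∣ (p : ℤ) - 1) : IsSquare (((2 ^ v * m : ℤ)) : ZMod p) := by
  have hpo : Odd p := by
    rw [Nat.odd_iff]
    omega
  have hm' : J(m | p) = 1 := by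
    have h3 : J(m.natAbs | p) = 1 :=
      Choice.jac_one_mod_four (by omega) (Int.natAbs_odd.mpr hm) (Int.natAbs_dvd.mpr h)
    rcases Int.natAbs_eq m with h4 | h4
    · rw [h4]
      exact h3
    · rw [h4, jacobiSym.neg _ hpo, h3, mul_one, ZMod.χ₄_nat_one_mod_four (by omega)]
  have hms : IsSquare ((m : ℤ) : ZMod p) := by
    rw [← jacobiSym.legendreSym.to_jacobiSym] at hm'
    have h0 : ((m : ℤ) : ZMod p) ≠ 0 := by
      intro h0
      rw [(legendreSym.eq_zero_iff p m).mpr h0] at hm'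
      exact absurd hm' (by norm_num)
    exact (legendreSym.eq_one_iff p h0).mp hm'
  obtain ⟨k, rfl⟩ := hv
  push_cast
  exact IsSquare.mul ⟨2 ^ k, by ring⟩ hms

end Arith

theorem choice_pure {N : ℕ} (hN : N ≠ 0) {R Λ : Type*} [CommRing R]
    [IsLocalization.Away (N : ℤ) R] [Ring Λ] [Algebra R Λ] [Module.Free R Λ] [Module.Finite R Λ]
    (hrank : Module.finrank R Λ = 4) (Q : QAlg N R Λ)
    (x : Λ) (hx : Q.T x = 0) (r α β : R) (h : α * Q.n x + β * r = 1) :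
    ∃ (w z0 z1 : Λ) (p : ℕ) (k k0 k1 : R), Q.T w = 0 ∧ Q.T z0 = 0 ∧ Q.T z1 = 0 ∧
      p.Prime ∧ 5 ≤ p ∧ ¬ p ∣ N ∧
      (p : R) = r + Q.n (x + r • w) * k ∧ (p : R) = 1 + Q.n z0 * k0 ∧
      (p : R) = 1 + Q.n z1 * k1 ∧
      ∀ ρ : Λ →+* Matrix (Fin 2) (Fin 2) (ZMod p),
        (∀ y, ρ (algebraMap R Λ (Q.n y)) = (ρ y).det • (1 : Matrix (Fin 2) (Fin 2) (ZMod p))) →
        IsSquare (ρ z0).det ∧ ¬ IsSquare (ρ z1).det := by
  have hD := Loc.isDomain N R hN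
  obtain ⟨z0, z1, v0, v1, m0, m1, hT0, hT1, hz0, hz1, hv0, hv1, hm0, hm1, h2⟩ :=
    Arith.exists_zz Q hN
  have hmo : Odd (m0 * m1) := hm0.mul hm1
  have hmne : (m0 * m1).natAbs ≠ 0 := by
    intro h0
    rw [Int.natAbs_eq_zero] at h0
    rw [h0] at hmo
    simp at hmo
  obtain ⟨q, hqN, hq⟩ := Nat.exists_infinite_primes (N + 1)
  have hqN' : ¬ q ∣ N := fun h => by
    have := Nat.le_of_dvd (Nat.pos_of_ne_zero hN) h
    omega
  obtain ⟨w, hwT, hw⟩ := Arith.exists_w_pure Q hN x hx r α β h (M := (m0 * m1).natAbs * 8 * q)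
    (mul_ne_zero (mul_ne_zero hmne (by norm_num)) hq.ne_zero)
  have hnw : Q.n (x + r • w) ≠ 0 := by
    intro h0
    exact hw q hq hqN' (Dvd.intro_left _ rfl) (by rw [h0]; exact dvd_zero _)
  obtain ⟨u, n, hn, hnN, hun⟩ := Loc.exists_unit_mul hN hnw
  have hcop : n.Coprime ((m0 * m1).natAbs * 8) := by
    refine Nat.coprime_of_dvd' ?_
    intro p hp h1 h2
    exfalso
    have hpN : ¬ p ∣ N := fun h3 => hp.one_lt.ne' (Nat.eq_one_of_dvd_coprimes hnN h1 h3)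
    refine hw p hp hpN (Dvd.dvd.mul_right h2 _) ?_
    rw [hun]
    exact Dvd.dvd.mul_left ((Loc.natCast_dvd_natCast hp hpN).mpr h1) _
  obtain ⟨ψ, hψ⟩ := Choice.exists_psi R hnN
  have hψr : IsUnit (ψ r) := by
    have h1 : α * Q.n (x + r • w) + (β - α * (Q.T (x * Q.conj w) + r * Q.n w)) * r = 1 := by
      rw [Choice.n_add_smul Q hN, ← h]
      ring
    have h2 := congrArg ψ h1
    rw [map_add, map_mul, map_mul, hun, map_mul, map_natCast, ZMod.natCast_self, mul_zero, mul_zero, zero_add,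
      map_one] at h2
    exact IsUnit.of_mul_eq_one_right _ h2
  have hm8 : (m0 * m1).natAbs.Coprime 8 := by
    have h1 : (m0 * m1).natAbs.Coprime 2 := (Nat.coprime_two_right).mpr (Int.natAbs_odd.mpr hmo)
    exact (Nat.Coprime.pow_right 3 h1)
  obtain ⟨p, hpB, hp, hpn, hpm, hp8⟩ :=
    Choice.exists_prime hn.ne' hmne hcop hm8 hψr (c := 5) (by norm_num) (N + 5)
  have hpN : ¬ p ∣ N := fun h => by
    have := Nat.le_of_dvd (Nat.pos_of_ne_zero hN) h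
    omega
  have hpF := Fact.mk hp
  obtain ⟨t, ht⟩ : (n : R) ∣ (p : R) - r := hψ _ (by rw [map_sub, map_natCast, hpn, sub_self])
  have hmp : m0 * m1 ∣ (p : ℤ) - 1 := by
    rw [← Int.natAbs_dvd, ← ZMod.intCast_zmod_eq_zero_iff_dvd]
    push_cast
    rw [hpm, sub_self]
  have hp8' : p % 8 = 5 := (ZMod.natCast_eq_natCast_iff' p 5 8).mp hp8
  have h4 : (4 : ℤ) ∣ (p : ℤ) - 1 := by omega
  have hmp0 : m0 ∣ (p : ℤ) - 1 := (Dvd.intro _ rfl).trans hmp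
  have hmp1 : m1 ∣ (p : ℤ) - 1 := (Dvd.intro_left _ rfl).trans hmp
  obtain ⟨k0, hk0⟩ := Arith.exists_div (R := R) (v := v0) hm0 (h2.imp id And.left) h4 hmp0
  obtain ⟨k1, hk1⟩ := Arith.exists_div (R := R) (v := v1) hm1 (h2.imp id And.right) h4 hmp1
  refine ⟨w, z0, z1, p, (↑u⁻¹ : R) * t, k0, k1, hwT, hT0, hT1, hp, by omega, hpN, ?_, ?_, ?_, ?_⟩
  · have h1 : (u : R) * ↑u⁻¹ = 1 := Units.mul_inv u
    rw [hun]
    linear_combination ht - (n : R) * t * h1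
  · rw [hz0, hk0]
  · rw [hz1, hk1]
  · intro ρ hρ
    rw [Choice.det_rho Q hp hpN ρ hρ z0, hz0, map_intCast, Choice.det_rho Q hp hpN ρ hρ z1, hz1,
      map_intCast]
    exact ⟨Arith.square_A (by omega) hv0 hm0 hmp0, Choice.nonsquare_A hp8' hv1 hm1 hmp1⟩

end BWC
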