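import Mathlib

/-!
# Trace zero `2 × 2` matrices over `𝔽_p` modulo `c ↦ adj(w) c w`
-/

set_option autoImplicit false

namespace BWC

open Matrix

/-- a trace zero matrix is determined by three entries -/
theorem tz_eq {F : Type*} [Field F] {c : Matrix (Fin 2) (Fin 2) F} (hc : c.trace = 0) :
    c 1 1 = -c 0 0 := by
  rw [Matrix.trace_fin_two] at hc
  linear_combination hc

/-- a non-singular trace zero matrix has a cyclic vector -/
theorem exists_cyclic {F : Type*} [Field F] (h2 : (2 : F) ≠ 0) {c : Matrix (Fin 2) (Fin 2) F}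
    (hc : c.trace = 0) (hd : c.det ≠ 0) :
    ∃ P : Matrix (Fin 2) (Fin 2) F, P.det ≠ 0 ∧ c * P = P * !![0, -c.det; 1, 0] := by
  have h11 := tz_eq hc
  have key : ∀ x y : F, c * !![x, c 0 0 * x + c 0 1 * y; y, c 1 0 * x + c 1 1 * y] =
      !![x, c 0 0 * x + c 0 1 * y; y, c 1 0 * x + c 1 1 * y] * !![0, -c.det; 1, 0] := by
    intro x y
    rw [Matrix.det_fin_two]
    ext i j; fin_cases i <;> fin_cases j <;>
      simp [Matrix.mul_apply, Fin.sum_univ_two, h11] <;> ring
  by_contra hcon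
  push Not at hcon
  have hdet : ∀ x y : F, x * (c 1 0 * x + c 1 1 * y) - (c 0 0 * x + c 0 1 * y) * y = 0 := by
    intro x y
    by_contra h
    refine hcon !![x, c 0 0 * x + c 0 1 * y; y, c 1 0 * x + c 1 1 * y] ?_ (key x y)
    rw [Matrix.det_fin_two_of]
    exact h
  have h1 := hdet 1 0
  have h3 := hdet 0 1
  have h4 := hdet 1 1
  have e10 : c 1 0 = 0 := by linear_combination h1
  have e01 : c 0 1 = 0 := by linear_combination -h3
  have e00 : c 0 0 = 0 := by
    rw [h11, e10, e01] at h4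
    have h5 : (2 : F) * c 0 0 = 0 := by linear_combination -h4
    exact (mul_eq_zero.mp h5).resolve_left h2
  apply hd
  rw [Matrix.det_fin_two, e00, e01]
  ring

theorem adj_congr {F : Type*} [Field F] (h2 : (2 : F) ≠ 0) {c z : Matrix (Fin 2) (Fin 2) F}
    (hc : c.trace = 0) (hz : z.trace = 0) (hdc : c.det ≠ 0) (t : F) (ht : t ≠ 0)
    (h : z.det = t ^ 2 * c.det)
    (hrep : ∀ s : F, ∃ x y : F, x ^ 2 + c.det * y ^ 2 = s) :
    ∃ w : Matrix (Fin 2) (Fin 2) F, w.det = t ∧ w.adjugate * c * w = z := by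
  -- the matrix `z / t`
  obtain ⟨z', hz'⟩ : ∃ z' : Matrix (Fin 2) (Fin 2) F, z' = t⁻¹ • z := ⟨_, rfl⟩
  have htz : t • z' = z := by rw [hz', smul_smul, mul_inv_cancel₀ ht, one_smul]
  have hz't : z'.trace = 0 := by rw [hz', Matrix.trace_smul, hz, smul_zero]
  have hz'd : z'.det = c.det := by
    rw [hz', Matrix.det_smul, h, Fintype.card_fin]
    field_simp
  obtain ⟨A, hA, hcA⟩ := exists_cyclic h2 hc hdc
  obtain ⟨B, hB, hzB⟩ := exists_cyclic h2 hz't (by rw [hz'd]; exact hdc)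
  rw [hz'd] at hzB
  -- `adj B z' = K adj B`
  have h3 : B.adjugate * z' = !![0, -c.det; 1, 0] * B.adjugate := by
    have h4 : B.det • (B.adjugate * z') = B.det • (!![0, -c.det; 1, 0] * B.adjugate) := by
      calc B.det • (B.adjugate * z') = B.adjugate * z' * (B * B.adjugate) := by
            rw [Matrix.mul_adjugate, Matrix.mul_smul, Matrix.mul_one]
        _ = B.adjugate * (z' * B) * B.adjugate := by simp only [Matrix.mul_assoc]
        _ = (B.adjugate * B) * (!![0, -c.det; 1, 0] * B.adjugate) := by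
            rw [hzB]; simp only [Matrix.mul_assoc]
        _ = _ := by rw [Matrix.adjugate_mul, Matrix.smul_mul, Matrix.one_mul]
    exact smul_right_injective _ hB h4
  obtain ⟨w0, hw0⟩ : ∃ w0 : Matrix (Fin 2) (Fin 2) F, w0 = A * B.adjugate := ⟨_, rfl⟩
  have hw0d : w0.det ≠ 0 := by
    rw [hw0, Matrix.det_mul, Matrix.det_adjugate, Fintype.card_fin]
    simpa using mul_ne_zero hA hB
  have hcw : c * w0 = w0 * z' := by
    rw [hw0, ← Matrix.mul_assoc, hcA, Matrix.mul_assoc, Matrix.mul_assoc, h3]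
  obtain ⟨x, y, hxy⟩ := hrep (t / w0.det)
  obtain ⟨v, hv⟩ : ∃ v : Matrix (Fin 2) (Fin 2) F,
    v = x • (1 : Matrix (Fin 2) (Fin 2) F) + y • c := ⟨_, rfl⟩
  have hvd : v.det = t / w0.det := by
    have h11 := tz_eq hc
    rw [← hxy, hv, Matrix.det_fin_two, Matrix.det_fin_two]
    simp [h11]
    ring
  have hvc : c * v = v * c := by
    rw [hv, Matrix.mul_add, Matrix.add_mul, Matrix.mul_smul, Matrix.mul_smul, Matrix.smul_mul,
      Matrix.smul_mul, Matrix.one_mul, Matrix.mul_one]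
  refine ⟨v * w0, ?_, ?_⟩
  · rw [Matrix.det_mul, hvd, div_mul_cancel₀ _ hw0d]
  · have h5 : c * (v * w0) = v * w0 * z' := by
      rw [← Matrix.mul_assoc, hvc, Matrix.mul_assoc, hcw, Matrix.mul_assoc]
    have h6 : (v * w0).det = t := by rw [Matrix.det_mul, hvd, div_mul_cancel₀ _ hw0d]
    rw [Matrix.mul_assoc, h5, ← Matrix.mul_assoc, Matrix.adjugate_mul, h6, Matrix.smul_mul,
      Matrix.one_mul, htz]

theorem congr_adj {p : ℕ} [Fact p.Prime] (hp : p ≠ 2) (c z : Matrix (Fin 2) (Fin 2) (ZMod p))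
    (hc : c.trace = 0) (hz : z.trace = 0) (hdc : c.det ≠ 0)
    (h : ∃ t : ZMod p, t ≠ 0 ∧ z.det = t ^ 2 * c.det) :
    ∃ w : (Matrix (Fin 2) (Fin 2) (ZMod p))ˣ, w.val.adjugate * c * w.val = z := by
  have hprime : p.Prime := Fact.out
  have hodd : p % 2 = 1 := (hprime.eq_two_or_odd).resolve_left hp
  have h2 : (2 : ZMod p) ≠ 0 := by
    intro h0
    have h1 : ((2 : ℕ) : ZMod p) = 0 := by exact_mod_cast h0
    rw [ZMod.natCast_eq_zero_iff] at h1
    have := (Nat.prime_dvd_prime_iff_eq hprime Nat.prime_two).mp h1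
    exact hp this
  obtain ⟨t, ht, hzt⟩ := h
  have hrep : ∀ s : ZMod p, ∃ x y : ZMod p, x ^ 2 + c.det * y ^ 2 = s := by
    intro s
    obtain ⟨a, b, hab⟩ := FiniteField.exists_root_sum_quadratic
      (f := (Polynomial.X ^ 2 : Polynomial (ZMod p)))
      (g := Polynomial.C c.det * Polynomial.X ^ 2 + Polynomial.C 0 * Polynomial.X
        + Polynomial.C (-s))
      (by simp) (by rw [Polynomial.degree_quadratic hdc]) (by rw [ZMod.card]; exact hodd)
    refine ⟨a, b, ?_⟩
    simp at hab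
    linear_combination hab
  obtain ⟨w, hw, hwz⟩ := adj_congr h2 hc hz hdc t ht hzt hrep
  have hu : IsUnit w := by
    rw [Matrix.isUnit_iff_isUnit_det, hw]
    exact isUnit_iff_ne_zero.mpr ht
  obtain ⟨W, rfl⟩ := hu
  exact ⟨W, hwz⟩

end BWC
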