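import Pool.Agent.BW.Stable

/-!
# `2 × 2` matrices over a field: stable range one, two planes
-/

set_option autoImplicit false

namespace BWC

open Matrix

variable {F : Type*} [Field F]

theorem sr1 (α β u v : Matrix (Fin 2) (Fin 2) F) (h : u * α + v * β = 1) :
    ∃ t, IsUnit (α + t * β) := by
  obtain ⟨t, ht⟩ := BW.exists_det_ne α u
  refine ⟨t * v, ?_⟩
  have e : v * β = 1 - u * α := by rw [← h]; abel
  rw [Matrix.mul_assoc, e, Matrix.isUnit_iff_isUnit_det]
  exact isUnit_iff_ne_zero.mpr ht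

/-- two matrices without common kernel generate the unit left ideal -/
theorem left_inv (A B : Matrix (Fin 2) (Fin 2) F)
    (h : ∀ x : Fin 2 → F, A *ᵥ x = 0 → B *ᵥ x = 0 → x = 0) : ∃ u v, u * A + v * B = 1 := by
  have hk : LinearMap.ker (Matrix.toLin' (Matrix.fromRows A B)) = ⊥ := by
    rw [LinearMap.ker_eq_bot']
    intro x hx
    rw [Matrix.toLin'_apply, Matrix.fromRows_mulVec] at hx
    refine h x ?_ ?_
    · ext i; exact congrFun hx (Sum.inl i)
    · ext i; exact congrFun hx (Sum.inr i)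
  obtain ⟨g, hg⟩ := LinearMap.exists_leftInverse_of_injective _ hk
  refine ⟨(LinearMap.toMatrix' g).toCols₁, (LinearMap.toMatrix' g).toCols₂, ?_⟩
  have h1 := congrArg LinearMap.toMatrix' hg
  rw [LinearMap.toMatrix'_comp, LinearMap.toMatrix'_toLin', LinearMap.toMatrix'_id] at h1
  rw [← Matrix.fromCols_mul_fromRows, Matrix.fromCols_toCols, h1]

/-- the swap has trace zero and no kernel -/
theorem swap_inj (z : Fin 2 → F) (h : (!![0, 1; 1, 0] : Matrix (Fin 2) (Fin 2) F) *ᵥ z = 0) :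
    z = 0 := by
  have h0 := congrFun h 0
  have h1 := congrFun h 1
  simp [Matrix.mulVec, dotProduct, Fin.sum_univ_two] at h0 h1
  ext i; fin_cases i
  · exact h1
  · exact h0

/-- a choice of `y` outside of two affine planes -/
theorem choose_y (p p0 r r1 : Fin 2 → F) (hp : p ≠ 0 ∨ p0 ≠ 0) (hr : r ≠ 0 ∨ r1 ≠ 0) :
    ∃ y : Matrix (Fin 2) (Fin 2) F, p0 + y *ᵥ p ≠ 0 ∧ r1 - y.adjugate *ᵥ r ≠ 0 := by
  by_cases h0 : p0 ≠ 0 ∧ r1 ≠ 0
  · exact ⟨0, by simpa using h0.1, by simpa using h0.2⟩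
  by_contra hcon
  push Not at hcon
  have e1 := hcon 1
  have e2 := hcon !![1, 1; 0, 1]
  have e3 := hcon !![1, 0; 1, 1]
  have key : ∀ z : Fin 2 → F, ∀ w : Fin 2 → F, w + z = 0 → w + !![1, 1; 0, 1] *ᵥ z = 0 →
      w + !![1, 0; 1, 1] *ᵥ z = 0 → z = 0 ∧ w = 0 := by
    intro z w h1 h2 h3
    have h10 := congrFun h1 0
    have h11 := congrFun h1 1
    have h20 := congrFun h2 0
    have h31 := congrFun h3 1
    simp [dotProduct, Fin.sum_univ_two] at h10 h11 h20 h31
    have z1 : z 1 = 0 := by linear_combination h20 - h10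
    have z0 : z 0 = 0 := by linear_combination h31 - h11
    have w0 : w 0 = 0 := by linear_combination h10 - z0
    have w1 : w 1 = 0 := by linear_combination h11 - z1
    exact ⟨by ext i; fin_cases i <;> assumption, by ext i; fin_cases i <;> assumption⟩
  have key' : ∀ z : Fin 2 → F, ∀ w : Fin 2 → F, w - z = 0 → w - !![1, -1; 0, 1] *ᵥ z = 0 →
      w - !![1, 0; -1, 1] *ᵥ z = 0 → z = 0 ∧ w = 0 := by
    intro z w h1 h2 h3
    have h10 := congrFun h1 0
    have h11 := congrFun h1 1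
    have h20 := congrFun h2 0
    have h31 := congrFun h3 1
    simp [dotProduct, Fin.sum_univ_two] at h10 h11 h20 h31
    have z1 : z 1 = 0 := by linear_combination h20 - h10
    have z0 : z 0 = 0 := by linear_combination h31 - h11
    have w0 : w 0 = 0 := by linear_combination h10 + z0
    have w1 : w 1 = 0 := by linear_combination h11 + z1
    exact ⟨by ext i; fin_cases i <;> assumption, by ext i; fin_cases i <;> assumption⟩
  have inj1 : ∀ z : Fin 2 → F, (!![1, 1; 0, 1] : Matrix (Fin 2) (Fin 2) F) *ᵥ z = 0 → z = 0 := by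
    intro z hz
    have h0 := congrFun hz 0
    have h1 := congrFun hz 1
    simp [Matrix.mulVec, dotProduct, Fin.sum_univ_two] at h0 h1
    have h2 : z 0 = 0 := by linear_combination h0 - h1
    ext i; fin_cases i <;> assumption
  have inj2 : ∀ z : Fin 2 → F, (!![1, 0; 1, 1] : Matrix (Fin 2) (Fin 2) F) *ᵥ z = 0 → z = 0 := by
    intro z hz
    have h0 := congrFun hz 0
    have h1 := congrFun hz 1
    simp [Matrix.mulVec, dotProduct, Fin.sum_univ_two] at h0 h1
    have h2 : z 1 = 0 := by linear_combination h1 - h0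
    ext i; fin_cases i <;> assumption
  have inj3 : ∀ z : Fin 2 → F, (!![1, -1; 0, 1] : Matrix (Fin 2) (Fin 2) F) *ᵥ z = 0 → z = 0 := by
    intro z hz
    have h0 := congrFun hz 0
    have h1 := congrFun hz 1
    simp [Matrix.mulVec, dotProduct, Fin.sum_univ_two] at h0 h1
    have h2 : z 0 = 0 := by linear_combination h0 + h1
    ext i; fin_cases i <;> assumption
  have inj4 : ∀ z : Fin 2 → F, (!![1, 0; -1, 1] : Matrix (Fin 2) (Fin 2) F) *ᵥ z = 0 → z = 0 := by
    intro z hz
    have h0 := congrFun hz 0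
    have h1 := congrFun hz 1
    simp [Matrix.mulVec, dotProduct, Fin.sum_univ_two] at h0 h1
    have h2 : z 1 = 0 := by linear_combination h1 + h0
    ext i; fin_cases i <;> assumption
  rw [Matrix.one_mulVec, Matrix.adjugate_one, Matrix.one_mulVec] at e1
  rw [Matrix.adjugate_fin_two_of] at e2 e3
  simp only [neg_zero] at e2 e3
  by_cases hp0 : p0 = 0
  · subst hp0
    have hp' : p ≠ 0 := by
      rcases hp with h | h
      · exact h
      · exact absurd rfl h
    have f1 := e1 (by rwa [zero_add])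
    have f2 := e2 (fun h => hp' (inj1 p (by rwa [zero_add] at h)))
    have f3 := e3 (fun h => hp' (inj2 p (by rwa [zero_add] at h)))
    obtain ⟨g1, g2⟩ := key' r r1 f1 f2 f3
    rcases hr with h | h
    · exact h g1
    · exact h g2
  · have hr1 : r1 = 0 := by
      by_contra hr1
      exact h0 ⟨hp0, hr1⟩
    subst hr1
    have hr' : r ≠ 0 := by
      rcases hr with h | h
      · exact h
      · exact absurd rfl h
    have f1 : p0 + p = 0 := by
      by_contra h
      have := e1 h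
      rw [zero_sub, neg_eq_zero] at this
      exact hr' this
    have f2 : p0 + !![1, 1; 0, 1] *ᵥ p = 0 := by
      by_contra h
      have := e2 h
      rw [zero_sub, neg_eq_zero] at this
      exact hr' (inj3 r this)
    have f3 : p0 + !![1, 0; 1, 1] *ᵥ p = 0 := by
      by_contra h
      have := e3 h
      rw [zero_sub, neg_eq_zero] at this
      exact hr' (inj4 r this)
    exact hp0 (key p p0 f1 f2 f3).2

theorem pl (a0 a1 c0 c1 x0 x1 w0 w1 : Matrix (Fin 2) (Fin 2) F)
    (h : x0 * a0 + x1 * a1 + w0 * c0 + w1 * c1 = 1) :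
    ∃ y s : Matrix (Fin 2) (Fin 2) F, s.trace = 0 ∧
      ∃ u v, u * (a0 + y * a1) + v * (a1 + s * (c1 - y.adjugate * c0)) = 1 := by
  by_cases hK : ∀ x : Fin 2 → F, a0 *ᵥ x = 0 → a1 *ᵥ x = 0 → x = 0
  · obtain ⟨u, v, huv⟩ := left_inv a0 a1 hK
    exact ⟨0, 0, by simp, u, v, by simpa using huv⟩
  push Not at hK
  obtain ⟨k, hk0, hk1, hk⟩ := hK
  -- a second basis vector
  obtain ⟨l, hl⟩ : ∃ l : Fin 2 → F, ∀ x : Fin 2 → F, ∃ α β : F, x = α • k + β • l := by
    by_cases h0 : k 0 = 0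
    · have h1 : k 1 ≠ 0 := fun h1 => hk (by ext i; fin_cases i <;> assumption)
      refine ⟨![1, 0], fun x => ⟨x 1 / k 1, x 0, ?_⟩⟩
      ext i; fin_cases i
      · simp [h0]
      · simp [h1]
    · refine ⟨![0, 1], fun x => ⟨x 0 / k 0, x 1 - x 0 / k 0 * k 1, ?_⟩⟩
      ext i; fin_cases i
      · simp [h0]
      · simp
  have hw : ∀ x : Fin 2 → F, a0 *ᵥ x = 0 → a1 *ᵥ x = 0 → c0 *ᵥ x = 0 → c1 *ᵥ x = 0 → x = 0 := by
    intro x h1 h2 h3 h4
    have h5 := congrArg (fun M => M *ᵥ x) h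
    simp only [Matrix.add_mulVec, ← Matrix.mulVec_mulVec, h1, h2, h3, h4, Matrix.mulVec_zero,
      Matrix.one_mulVec, add_zero] at h5
    exact h5.symm
  by_cases hL : a0 *ᵥ l = 0 ∧ a1 *ᵥ l = 0
  · -- `a0 = a1 = 0`
    have hz : ∀ M : Matrix (Fin 2) (Fin 2) F, M *ᵥ k = 0 → M *ᵥ l = 0 → M = 0 := by
      intro M h1 h2
      have h3 : ∀ x : Fin 2 → F, M *ᵥ x = 0 := by
        intro x
        obtain ⟨α, β, rfl⟩ := hl x
        rw [Matrix.mulVec_add, Matrix.mulVec_smul, Matrix.mulVec_smul, h1, h2, smul_zero,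
          smul_zero, add_zero]
      ext i j
      have h4 := congrFun (h3 (Pi.single j 1)) i
      simpa using h4
    have ha0 := hz a0 hk0 hL.1
    have ha1 := hz a1 hk1 hL.2
    subst ha0 ha1
    simp only [mul_zero, zero_add] at h
    have h' : w1 * c1 + w0 * c0 = 1 := by rw [← h, add_comm]
    obtain ⟨t, ht⟩ := sr1 c1 c0 w1 w0 h'
    refine ⟨-t.adjugate, !![0, 1; 1, 0], by simp [Matrix.trace_fin_two], ?_⟩
    have e : (-t.adjugate).adjugate = -t := by
      rw [Matrix.adjugate_fin_two, Matrix.adjugate_fin_two]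
      ext i j; fin_cases i <;> fin_cases j <;> simp
    have hs : IsUnit ((!![0, 1; 1, 0] : Matrix (Fin 2) (Fin 2) F) * (c1 + t * c0)) := by
      refine IsUnit.mul ?_ ht
      rw [Matrix.isUnit_iff_isUnit_det, Matrix.det_fin_two_of]
      simp
    obtain ⟨w, hw'⟩ := hs
    refine ⟨0, (w⁻¹ : (Matrix (Fin 2) (Fin 2) F)ˣ).val, ?_⟩
    rw [e, Matrix.neg_mul t, sub_neg_eq_add, zero_mul, zero_add, zero_add, ← hw', Units.inv_mul]
  · have hp : a1 *ᵥ l ≠ 0 ∨ a0 *ᵥ l ≠ 0 := by
      by_contra hcon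
      push Not at hcon
      exact hL ⟨hcon.2, hcon.1⟩
    have hr : c0 *ᵥ k ≠ 0 ∨ c1 *ᵥ k ≠ 0 := by
      by_contra hcon
      push Not at hcon
      exact hk (hw k hk0 hk1 hcon.1 hcon.2)
    obtain ⟨y, hy1, hy2⟩ := choose_y _ _ _ _ hp hr
    refine ⟨y, !![0, 1; 1, 0], by simp [Matrix.trace_fin_two], left_inv _ _ fun x h1 h2 => ?_⟩
    obtain ⟨α, β, rfl⟩ := hl x
    have hβ : β = 0 := by
      by_contra hβ
      apply hy1
      rw [Matrix.mulVec_add, Matrix.mulVec_smul, Matrix.mulVec_smul, Matrix.add_mulVec,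
        ← Matrix.mulVec_mulVec, hk0, hk1, Matrix.mulVec_zero, add_zero, smul_zero, zero_add,
        Matrix.add_mulVec, ← Matrix.mulVec_mulVec] at h1
      exact (smul_eq_zero.mp h1).resolve_left hβ
    subst hβ
    rw [zero_smul, add_zero] at h2 ⊢
    rw [Matrix.mulVec_smul, Matrix.add_mulVec, hk1, zero_add, ← Matrix.mulVec_mulVec,
      ← Matrix.mulVec_smul] at h2
    have h3 := swap_inj _ h2
    rw [Matrix.sub_mulVec, ← Matrix.mulVec_mulVec] at h3
    rw [(smul_eq_zero.mp h3).resolve_right hy2, zero_smul]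

end BWC
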