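import Pool.Agent.BWC.Defs
import Pool.Agent.BWC.Field
import Pool.Agent.BW.Choice
import Pool.Agent.BW.Comp
import Pool.Agent.BW.Stable

/-!
# Transitivity: the Chinese remainder theorem
-/

namespace BWC

open Matrix
open BW hiding star

/-! ### Left ideals and reduction modulo primes -/

section Left

variable {N : ℕ} {R Λ : Type*} [CommRing R] [IsLocalization.Away (N : ℤ) R] [Ring Λ] [Algebra R Λ]

theorem mem4 {a b c d g : Λ} : g ∈ Submodule.span Λ {a, b, c, d} ↔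
    ∃ x y z w : Λ, x * a + y * b + z * c + w * d = g := by
  constructor
  · intro h
    rw [Submodule.mem_span_insert] at h
    obtain ⟨x, g1, h1, rfl⟩ := h
    rw [Submodule.mem_span_insert] at h1
    obtain ⟨y, g2, h2, rfl⟩ := h1
    rw [Submodule.mem_span_pair] at h2
    obtain ⟨z, w, rfl⟩ := h2
    exact ⟨x, y, z, w, by simp only [smul_eq_mul]; abel⟩
  · rintro ⟨x, y, z, w, rfl⟩
    refine add_mem (add_mem (add_mem ?_ ?_) ?_) ?_
    · exact Submodule.smul_mem _ x (Submodule.subset_span (by simp))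
    · exact Submodule.smul_mem _ y (Submodule.subset_span (by simp))
    · exact Submodule.smul_mem _ z (Submodule.subset_span (by simp))
    · exact Submodule.smul_mem _ w (Submodule.subset_span (by simp))

/-- a left ideal which contains `m` and everything modulo the primes dividing `m` -/
theorem one_mem_of_primes (hN : N ≠ 0) (I : Submodule Λ Λ) (m : R) (hm : m ≠ 0)
    (hmI : algebraMap R Λ m ∈ I)
    (h : ∀ p : ℕ, p.Prime → ¬ p ∣ N → (p : R) ∣ m → ∃ y : Λ, 1 + (p : Λ) * y ∈ I) :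
    (1 : Λ) ∈ I := by
  classical
  obtain ⟨u, M, hM, hMN, hmu⟩ := Loc.exists_unit_mul hN hm
  have hMI : (M : Λ) ∈ I := by
    have h1 : (M : Λ) = algebraMap R Λ ((u⁻¹ : Rˣ) : R) * algebraMap R Λ m := by
      rw [hmu, ← map_mul, ← mul_assoc, Units.inv_mul, one_mul, map_natCast]
    rw [h1]
    exact I.smul_mem _ hmI
  have hex : ∃ c : ℕ, 0 < c ∧ (c : Λ) ∈ I := ⟨M, hM, hMI⟩
  obtain ⟨hc0, hcI⟩ := Nat.find_spec hex
  have hmin : ∀ d : ℕ, 0 < d → (d : Λ) ∈ I → Nat.find hex ≤ d := fun d h1 h2 =>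
    Nat.find_min' hex ⟨h1, h2⟩
  generalize Nat.find hex = c at hc0 hcI hmin
  have hcM : c ∣ M := by
    rw [Nat.dvd_iff_mod_eq_zero]
    by_contra h0
    have h1 : ((M % c : ℕ) : Λ) ∈ I := by
      have h2 : ((M % c : ℕ) : Λ) = (M : Λ) - ((M / c : ℕ) : Λ) * (c : Λ) := by
        rw [eq_sub_iff_add_eq, ← Nat.cast_mul, ← Nat.cast_add, Nat.mod_add_div']
      rw [h2]
      exact sub_mem hMI (I.smul_mem _ hcI)
    have h3 := hmin _ (Nat.pos_of_ne_zero h0) h1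
    exact absurd (Nat.mod_lt M hc0) (by omega)
  by_cases hc1 : c = 1
  · rw [hc1, Nat.cast_one] at hcI
    exact hcI
  · exfalso
    obtain ⟨p, hp, d, hd⟩ := Nat.exists_prime_and_dvd hc1
    have hpM : p ∣ M := (Dvd.intro _ hd.symm).trans hcM
    have hpN : ¬ p ∣ N := fun hpN => hp.one_lt.ne' (Nat.eq_one_of_dvd_coprimes hMN hpM hpN)
    obtain ⟨y, hy⟩ := h p hp hpN (by
      rw [hmu]
      exact Dvd.dvd.mul_left (Nat.cast_dvd_cast hpM) _)
    have hd0 : 0 < d := by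
      rcases Nat.eq_zero_or_pos d with h0 | h0
      · rw [hd, h0, mul_zero] at hc0
        exact absurd hc0 (lt_irrefl 0)
      · exact h0
    have h1 : (d : Λ) ∈ I := by
      have h2 : (d : Λ) = (d : Λ) * (1 + (p : Λ) * y) - y * (c : Λ) := by
        rw [← (Nat.cast_commute c y).eq, hd, Nat.cast_mul, mul_add, mul_one, ← mul_assoc,
          (Nat.cast_commute d (p : Λ)).eq, add_sub_cancel_right]
      rw [h2]
      exact sub_mem (I.smul_mem _ hy) (I.smul_mem _ hcI)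
    have h3 := hmin d hd0 h1
    have h4 : d < c := by
      rw [hd]
      exact lt_mul_left hd0 hp.one_lt
    omega

/-- a unit modulo `p` -/
theorem one_mod {p : ℕ} {I : Submodule Λ Λ} {ρ : Λ →+* Matrix (Fin 2) (Fin 2) (ZMod p)}
    (hs : Function.Surjective ρ) (hk : ∀ x, ρ x = 0 → ∃ y, x = (p : Λ) * y) {g : Λ} (hg : g ∈ I)
    (hu : IsUnit (ρ g)) : ∃ y : Λ, 1 + (p : Λ) * y ∈ I := by
  obtain ⟨v, hv⟩ := hu.exists_left_inv
  obtain ⟨u, rfl⟩ := hs v
  obtain ⟨y, hy⟩ := hk (u * g - 1) (by rw [map_sub, map_mul, hv, map_one, sub_self])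
  refine ⟨y, ?_⟩
  rw [← hy, add_sub_cancel]
  exact I.smul_mem _ hg

variable (Q : QAlg N R Λ)

theorem phi_T (hN : N ≠ 0) {p : ℕ} (hp : p.Prime) (hpN : ¬ p ∣ N)
    {ρ : Λ →+* Matrix (Fin 2) (Fin 2) (ZMod p)}
    (hρ : ∀ y, ρ (algebraMap R Λ (Q.n y)) = (ρ y).det • (1 : Matrix (Fin 2) (Fin 2) (ZMod p)))
    (x : Λ) : Loc.phi N R hp hpN (Q.T x) = (ρ x).trace := by
  have h1 := Choice.det_rho Q hp hpN ρ hρ (1 + (1 : R) • x)
  rw [Choice.n_one_add Q hN, map_add, map_add, one_mul, one_pow, one_mul, map_one,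
    ← Choice.det_rho Q hp hpN ρ hρ x, one_smul, map_add, map_one] at h1
  have h2 : (1 + ρ x).det = 1 + (ρ x).trace + (ρ x).det := by
    rw [Matrix.det_fin_two, Matrix.det_fin_two, Matrix.trace_fin_two]
    simp
    ring
  rw [h2] at h1
  exact (add_left_cancel (add_right_cancel h1)).symm

theorem rho_conj (hN : N ≠ 0) {p : ℕ} (hp : p.Prime) (hpN : ¬ p ∣ N)
    {ρ : Λ →+* Matrix (Fin 2) (Fin 2) (ZMod p)}
    (hρ : ∀ y, ρ (algebraMap R Λ (Q.n y)) = (ρ y).det • (1 : Matrix (Fin 2) (Fin 2) (ZMod p)))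
    (x : Λ) : ρ (Q.conj x) = (ρ x).adjugate := by
  rw [Choice.conj_eq Q, map_sub, Choice.rho_algebraMap hp hpN, phi_T Q hN hp hpN hρ,
    Matrix.adjugate_fin_two, Matrix.trace_fin_two]
  ext i j
  fin_cases i <;> fin_cases j <;> simp

theorem isUnit_rho {p : ℕ} (hp : p.Prime) (hpN : ¬ p ∣ N)
    {ρ : Λ →+* Matrix (Fin 2) (Fin 2) (ZMod p)}
    (hρ : ∀ y, ρ (algebraMap R Λ (Q.n y)) = (ρ y).det • (1 : Matrix (Fin 2) (Fin 2) (ZMod p)))
    {x : Λ} : IsUnit (ρ x) ↔ ¬ (p : R) ∣ Q.n x := by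
  have := Fact.mk hp
  rw [← Loc.phi_eq_zero_iff hp hpN, ← Choice.det_rho Q hp hpN ρ hρ x, Matrix.isUnit_iff_isUnit_det,
    isUnit_iff_ne_zero]

theorem rho_add_mul {p : ℕ} (ρ : Λ →+* Matrix (Fin 2) (Fin 2) (ZMod p)) (x y : Λ) :
    ρ (x + (p : Λ) * y) = ρ x := by
  have hp0 : ((p : ℕ) : Matrix (Fin 2) (Fin 2) (ZMod p)) = 0 := by
    have h1 : ((p : ℕ) : Matrix (Fin 2) (Fin 2) (ZMod p)) =
        algebraMap (ZMod p) (Matrix (Fin 2) (Fin 2) (ZMod p)) (p : ZMod p) := by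
      rw [map_natCast]
    rw [h1, ZMod.natCast_self, map_zero]
  rw [map_add, map_mul, map_natCast, hp0, zero_mul, add_zero]

omit [IsLocalization.Away (N : ℤ) R] in
theorem exists_T_one : ∃ e : Λ, Q.T e = 1 := by
  obtain ⟨f, hf⟩ := Q.one_prim
  obtain ⟨c, hc⟩ := Q.unimod f
  exact ⟨c, by rw [← hf, hc, one_mul]⟩

omit [IsLocalization.Away (N : ℤ) R] in
/-- the Chinese remainder theorem for elements of trace zero -/
theorem crt_pure (P : Finset ℕ) (hP : ∀ p ∈ P, p.Prime) (σ : ℕ → Λ)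
    (hσ : ∀ p ∈ P, (p : R) ∣ Q.T (σ p)) :
    ∃ s : Λ, Q.T s = 0 ∧ ∀ p ∈ P, ∃ y : Λ, s = σ p + (p : Λ) * y := by
  obtain ⟨t, ht⟩ := exists_crt (Λ := Λ) P hP σ
  obtain ⟨e, he⟩ := exists_T_one Q
  have h1 : ∀ p ∈ P, ((p : ℕ) : R) ∣ Q.T t := by
    intro p hp
    obtain ⟨y, hy⟩ := ht p hp
    rw [hy, map_add]
    refine dvd_add (hσ p hp) ?_
    have h2 : (p : Λ) * y = (p : R) • y := by
      rw [Algebra.smul_def, map_natCast]
    rw [h2, map_smul, smul_eq_mul]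
    exact dvd_mul_right _ _
  have h2 : (∏ p ∈ P, (p : R)) ∣ Q.T t := by
    refine Finset.prod_dvd_of_coprime ?_ h1
    intro p hp q hq hpq
    have h3 : IsCoprime (p : ℤ) (q : ℤ) :=
      Nat.isCoprime_iff_coprime.2 ((Nat.coprime_primes (hP p hp) (hP q hq)).2 hpq)
    have h4 := h3.map (Int.castRingHom R)
    simpa using h4
  obtain ⟨r, hr⟩ := h2
  refine ⟨t - ((∏ p ∈ P, (p : R)) * r) • e, ?_, fun p hp => ?_⟩
  · rw [map_sub, map_smul, he, smul_eq_mul, mul_one, hr, sub_self]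
  · obtain ⟨y, hy⟩ := ht p hp
    obtain ⟨z, hz⟩ := Finset.dvd_prod_of_mem (fun p : ℕ => (p : R)) hp
    refine ⟨y - (z * r) • e, ?_⟩
    rw [hz, hy, mul_assoc, mul_smul, mul_sub, ← add_sub_assoc]
    congr 1
    rw [Algebra.smul_def (p : R), map_natCast]

end Left

section B2

variable {N : ℕ} {R Λ : Type*} [CommRing R] [IsLocalization.Away (N : ℤ) R] [Ring Λ] [Algebra R Λ]

omit [IsLocalization.Away (N : ℤ) R] in
/-- the value modulo one prime -/
theorem absorb_mod (Q : QAlg N R Λ) {p : ℕ} (hp : p.Prime) (hpN : ¬ p ∣ N)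
    (a0 a1 c0 c1 β x0 x1 w0 w1 : Λ) (h : x0 * a0 + x1 * a1 + w0 * c0 + w1 * c1 + β = 1) :
    ∃ τ : Λ, ∀ t z : Λ, t = τ + (p : Λ) * z →
      ∃ y : Λ, 1 + (p : Λ) * y ∈ Submodule.span Λ {a0, a1 + t * β, c0, c1} := by
  have := Fact.mk hp
  obtain ⟨ρ, hs, hk, hdet⟩ := Q.fibre p hp hpN
  obtain ⟨m, hm⟩ := sr1 (ρ a1) (ρ (x0 * a0 + w0 * c0 + w1 * c1 + β)) (ρ x1) 1 (by
    rw [one_mul, ← map_mul, ← map_add, ← map_one ρ, ← h]
    congr 1
    abel)
  obtain ⟨τ, rfl⟩ := hs m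
  refine ⟨τ, fun t z ht => ?_⟩
  refine one_mod hs hk (g := (a1 + t * β) + t * (x0 * a0 + w0 * c0 + w1 * c1)) ?_ ?_
  · rw [mem4]
    exact ⟨t * x0, 1, t * w0, t * w1, by noncomm_ring⟩
  · have h1 : ρ t = ρ τ := by rw [ht, rho_add_mul]
    have h2 : (a1 + t * β) + t * (x0 * a0 + w0 * c0 + w1 * c1) =
        a1 + t * (x0 * a0 + w0 * c0 + w1 * c1 + β) := by noncomm_ring
    rw [h2, map_add, map_mul, h1]
    exact hm

/-- `a0` of non-zero norm, the rest `β` can be absorbed in `a1` -/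
theorem absorb (hN : N ≠ 0) (Q : QAlg N R Λ) (a0 a1 c0 c1 β x0 x1 w0 w1 : Λ)
    (h0 : Q.n a0 ≠ 0) (h : x0 * a0 + x1 * a1 + w0 * c0 + w1 * c1 + β = 1) :
    ∃ t x0' x1' w0' w1' : Λ, x0' * a0 + x1' * (a1 + t * β) + w0' * c0 + w1' * c1 = 1 := by
  classical
  obtain ⟨u, M, hM, hMN, hmu⟩ := Loc.exists_unit_mul hN h0
  have hex : ∀ p : ℕ, ∃ τ : Λ, p.Prime → ¬ p ∣ N → ∀ t z : Λ, t = τ + (p : Λ) * z →
      ∃ y : Λ, 1 + (p : Λ) * y ∈ Submodule.span Λ {a0, a1 + t * β, c0, c1} := by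
    intro p
    by_cases hp : p.Prime ∧ ¬ p ∣ N
    · obtain ⟨τ, hτ⟩ := absorb_mod Q hp.1 hp.2 a0 a1 c0 c1 β x0 x1 w0 w1 h
      exact ⟨τ, fun _ _ => hτ⟩
    · exact ⟨0, fun h1 h2 => absurd ⟨h1, h2⟩ hp⟩
  choose τ hτ using hex
  obtain ⟨t, ht⟩ := exists_crt (Λ := Λ) M.primeFactors
    (fun p hp => Nat.prime_of_mem_primeFactors hp) τ
  have hone : (1 : Λ) ∈ Submodule.span Λ {a0, a1 + t * β, c0, c1} := by
    refine one_mem_of_primes hN _ (Q.n a0) h0 ?_ fun p hp hpN hpd => ?_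
    · rw [← Q.conj_mul_self]
      exact Submodule.smul_mem _ _ (Submodule.subset_span (by simp))
    · have h1 : (p : R) ∣ (M : R) := by
        rw [hmu] at hpd
        exact (IsUnit.dvd_mul_left u.isUnit).mp hpd
      rw [Loc.natCast_dvd_natCast hp hpN] at h1
      obtain ⟨z, hz⟩ := ht p (Nat.mem_primeFactors.mpr ⟨hp, h1, hM.ne'⟩)
      exact hτ p hp hpN t z hz
  rw [mem4] at hone
  obtain ⟨x0', x1', w0', w1', h1⟩ := hone
  exact ⟨t, x0', x1', w0', w1', h1⟩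

/-- two planes modulo one prime -/
theorem planes_mod (hN : N ≠ 0) (Q : QAlg N R Λ) {p : ℕ} (hp : p.Prime) (hpN : ¬ p ∣ N)
    (a0 a1 c0 c1 x0 x1 w0 w1 : Λ)
    (h : ∃ z, x0 * a0 + x1 * a1 + w0 * c0 + w1 * c1 = 1 + (p : Λ) * z) :
    ∃ υ σ : Λ, (p : R) ∣ Q.T σ ∧ ∀ y z s z' : Λ, y = υ + (p : Λ) * z → s = σ + (p : Λ) * z' →
      ∃ u v z'' : Λ, u * (a0 + y * a1) + v * (a1 + s * (c1 - Q.conj y * c0)) =
        1 + (p : Λ) * z'' := by
  have := Fact.mk hp
  obtain ⟨ρ, hs, hk, hdet⟩ := Q.fibre p hp hpN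
  obtain ⟨z, hz⟩ := h
  obtain ⟨Y, S, hS, U, V, hUV⟩ := pl (ρ a0) (ρ a1) (ρ c0) (ρ c1) (ρ x0) (ρ x1) (ρ w0) (ρ w1) (by
    have h1 := congrArg ρ hz
    rw [rho_add_mul, map_one] at h1
    rw [← h1]
    simp only [map_add, map_mul])
  obtain ⟨υ, rfl⟩ := hs Y
  obtain ⟨σ, rfl⟩ := hs S
  obtain ⟨u, rfl⟩ := hs U
  obtain ⟨v, rfl⟩ := hs V
  refine ⟨υ, σ, ?_, fun y z s z' hy hs' => ?_⟩
  · rw [← Loc.phi_eq_zero_iff hp hpN, phi_T Q hN hp hpN hdet, hS]
  · have hy' : ρ y = ρ υ := by rw [hy, rho_add_mul]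
    have hs'' : ρ s = ρ σ := by rw [hs', rho_add_mul]
    obtain ⟨z'', hz''⟩ := hk (u * (a0 + y * a1) + v * (a1 + s * (c1 - Q.conj y * c0)) - 1) (by
      rw [map_sub, map_one, sub_eq_zero]
      simp only [map_add, map_mul, map_sub, rho_conj Q hN hp hpN hdet, hy', hs'']
      exact hUV)
    exact ⟨u, v, z'', by rw [← hz'', add_sub_cancel]⟩

/-- two planes -/
theorem two_planes (hN : N ≠ 0) (Q : QAlg N R Λ) (a0 a1 c0 c1 x0 x1 w0 w1 : Λ)
    (h0 : Q.n a0 ≠ 0) (h : x0 * a0 + x1 * a1 + w0 * c0 + w1 * c1 = 1) :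
    ∃ y s : Λ, Q.T s = 0 ∧ Q.n (a0 + y * a1) ≠ 0 ∧
      ∃ u v, u * (a0 + y * a1) + v * (a1 + s * (c1 - Q.conj y * c0)) = 1 := by
  classical
  obtain ⟨u, M, hM, hMN, hmu⟩ := Loc.exists_unit_mul hN h0
  have hex : ∀ p : ℕ, ∃ υ σ : Λ, p.Prime → ¬ p ∣ N → (p : R) ∣ Q.T σ ∧
      ∀ y z s z' : Λ, y = υ + (p : Λ) * z → s = σ + (p : Λ) * z' →
      ∃ u v z'' : Λ, u * (a0 + y * a1) + v * (a1 + s * (c1 - Q.conj y * c0)) =
        1 + (p : Λ) * z'' := by
    intro p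
    by_cases hp : p.Prime ∧ ¬ p ∣ N
    · obtain ⟨υ, σ, hτ⟩ := planes_mod hN Q hp.1 hp.2 a0 a1 c0 c1 x0 x1 w0 w1
        ⟨0, by rw [mul_zero, add_zero, h]⟩
      exact ⟨υ, σ, fun _ _ => hτ⟩
    · exact ⟨0, 0, fun h1 h2 => absurd ⟨h1, h2⟩ hp⟩
  choose υ σ hυσ using hex
  -- an auxiliary prime
  obtain ⟨q, hq1, hq⟩ := Nat.exists_infinite_primes (N + M + 1)
  have hqN : ¬ q ∣ N := fun h => by
    have := Nat.le_of_dvd (Nat.pos_of_ne_zero hN) h
    omega
  have hqM : ¬ q ∣ M := fun h => by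
    have := Nat.le_of_dvd hM h
    omega
  obtain ⟨y, hy⟩ := exists_crt (Λ := Λ) (insert q M.primeFactors)
    (fun p hp => by
      rcases Finset.mem_insert.1 hp with rfl | hp
      · exact hq
      · exact Nat.prime_of_mem_primeFactors hp) (fun p => if p = q then 0 else υ p)
  have hyM : ∀ p : ℕ, p.Prime → p ∣ M → ∃ z, y = υ p + (p : Λ) * z := by
    intro p hp hpM
    obtain ⟨z, hz⟩ := hy p (Finset.mem_insert_of_mem (Nat.mem_primeFactors.mpr ⟨hp, hpM, hM.ne'⟩))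
    rw [if_neg (by rintro rfl; exact hqM hpM)] at hz
    exact ⟨z, hz⟩
  have hyq : ∃ z, y = (q : Λ) * z := by
    obtain ⟨z, hz⟩ := hy q (Finset.mem_insert_self _ _)
    rw [if_pos rfl, zero_add] at hz
    exact ⟨z, hz⟩
  have hn1 : Q.n (a0 + y * a1) ≠ 0 := by
    intro hn
    obtain ⟨ρ, -, -, hdet⟩ := Q.fibre q hq hqN
    obtain ⟨z, hz⟩ := hyq
    have h1 := Choice.det_rho Q hq hqN ρ hdet (a0 + y * a1)
    rw [hn, map_zero, hz, mul_assoc, rho_add_mul, Choice.det_rho Q hq hqN ρ hdet,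
      Loc.phi_eq_zero_iff hq hqN, hmu] at h1
    have h2 := (IsUnit.dvd_mul_left u.isUnit).mp h1
    rw [Loc.natCast_dvd_natCast hq hqN] at h2
    exact hqM h2
  obtain ⟨u1, M1, hM1, hM1N, hmu1⟩ := Loc.exists_unit_mul hN hn1
  obtain ⟨s, hTs, hs⟩ := crt_pure Q M1.primeFactors
    (fun p hp => Nat.prime_of_mem_primeFactors hp) (fun p => if p ∣ M then σ p else 0)
    (fun p hp => by
      by_cases hpM : p ∣ M
      · have hp' := Nat.prime_of_mem_primeFactors hp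
        have hpN : ¬ p ∣ N := fun hpN => hp'.one_lt.ne' (Nat.eq_one_of_dvd_coprimes hMN hpM hpN)
        rw [if_pos hpM]
        exact (hυσ p hp' hpN).1
      · rw [if_neg hpM, map_zero]
        exact dvd_zero _)
  refine ⟨y, s, hTs, hn1, ?_⟩
  have hone : (1 : Λ) ∈ Submodule.span Λ {a0 + y * a1, a1 + s * (c1 - Q.conj y * c0)} := by
    refine one_mem_of_primes hN _ (Q.n (a0 + y * a1)) hn1 ?_ fun p hp hpN hpd => ?_
    · rw [← Q.conj_mul_self]
      exact Submodule.smul_mem _ _ (Submodule.subset_span (by simp))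
    · have h1 : (p : R) ∣ (M1 : R) := by
        rw [hmu1] at hpd
        exact (IsUnit.dvd_mul_left u1.isUnit).mp hpd
      rw [Loc.natCast_dvd_natCast hp hpN] at h1
      obtain ⟨z', hz'⟩ := hs p (Nat.mem_primeFactors.mpr ⟨hp, h1, hM1.ne'⟩)
      by_cases hpM : p ∣ M
      · rw [if_pos hpM] at hz'
        obtain ⟨z, hz⟩ := hyM p hp hpM
        obtain ⟨u', v', z'', h2⟩ := (hυσ p hp hpN).2 y z s z' hz hz'
        refine ⟨z'', ?_⟩
        rw [← h2, Submodule.mem_span_pair]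
        exact ⟨u', v', rfl⟩
      · rw [if_neg hpM, zero_add] at hz'
        obtain ⟨ρ, hsurj, hk, hdet⟩ := Q.fibre p hp hpN
        refine one_mod hsurj hk
          (g := (a0 + y * a1) - y * (a1 + s * (c1 - Q.conj y * c0))) ?_ ?_
        · rw [Submodule.mem_span_pair]
          exact ⟨1, -y, by simp only [smul_eq_mul]; noncomm_ring⟩
        · have h2 : (a0 + y * a1) - y * (a1 + s * (c1 - Q.conj y * c0)) =
              a0 - y * (s * (c1 - Q.conj y * c0)) := by noncomm_ring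
          have h3 : ρ s = 0 := by
            have := rho_add_mul ρ 0 z'
            rw [zero_add, map_zero] at this
            rw [hz', this]
          rw [h2, map_sub, map_mul, map_mul, h3, zero_mul, mul_zero, sub_zero,
            isUnit_rho Q hp hpN hdet, hmu, IsUnit.dvd_mul_left u.isUnit,
            Loc.natCast_dvd_natCast hp hpN]
          exact hpM
  rw [Submodule.mem_span_pair] at hone
  obtain ⟨u', v', h1⟩ := hone
  exact ⟨u', v', h1⟩

end B2

/-! ### Moves -/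

section Moves

variable {n P : Type*} [DecidableEq n] [Fintype n] [Ring P] [StarRing P]

theorem lev_el_mulVec (i j : n) (h : i ≠ j) (y : P) (a c : n → P) :
    (lev (el i j h y)).val *ᵥ Sum.elim a c =
      Sum.elim (Function.update a i (a i + y * a j))
        (Function.update c j (c j - Star.star y * c i)) := by
  rw [lev_val, Matrix.fromBlocks_mulVec]
  have h1 : (el i j h y).val = 1 + Matrix.single i j y := rfl
  have h2 : (el i j h y)⁻¹.val = 1 - Matrix.single i j y := rfl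
  have h3 : (Sum.elim a c ∘ Sum.inl : n → P) = a := rfl
  have h4 : (Sum.elim a c ∘ Sum.inr : n → P) = c := rfl
  rw [h1, h2, h3, h4, Matrix.zero_mulVec, Matrix.zero_mulVec, add_zero, zero_add,
    Matrix.conjTranspose_sub, Matrix.conjTranspose_one, Matrix.conjTranspose_single,
    Matrix.add_mulVec, Matrix.sub_mulVec, Matrix.one_mulVec, Matrix.one_mulVec,
    Matrix.single_mulVec, Matrix.single_mulVec]
  congr 1
  · funext x
    by_cases hx : x = i
    · subst hx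
      simp
    · simp [hx]
  · funext x
    by_cases hx : x = j
    · subst hx
      simp
    · simp [hx]

omit [StarRing P] in
theorem up_mulVec (B : Matrix n n P) (a c : n → P) :
    (up B).val *ᵥ Sum.elim a c = Sum.elim (a + B *ᵥ c) c := by
  rw [up_val, Matrix.fromBlocks_mulVec]
  have h3 : (Sum.elim a c ∘ Sum.inl : n → P) = a := rfl
  have h4 : (Sum.elim a c ∘ Sum.inr : n → P) = c := rfl
  rw [h3, h4, Matrix.one_mulVec, Matrix.one_mulVec, Matrix.zero_mulVec, zero_add]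

omit [StarRing P] in
theorem lo_mulVec (C : Matrix n n P) (a c : n → P) :
    (lo C).val *ᵥ Sum.elim a c = Sum.elim a (C *ᵥ a + c) := by
  rw [lo_val, Matrix.fromBlocks_mulVec]
  have h3 : (Sum.elim a c ∘ Sum.inl : n → P) = a := rfl
  have h4 : (Sum.elim a c ∘ Sum.inr : n → P) = c := rfl
  rw [h3, h4, Matrix.one_mulVec, Matrix.one_mulVec, Matrix.zero_mulVec, add_zero]

theorem ball_cons {K : ℕ} {x g : (Matrix (n ⊕ n) (n ⊕ n) P)ˣ}
    (hx : x ∈ UP 1 n P ∨ x ∈ UM 1 n P ∨ ∃ (i j : n) (h : i ≠ j) (y : P), x = lev (el i j h y))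
    (hg : g ∈ ball 1 n P K) : x * g ∈ ball 1 n P (K + 1) := by
  obtain ⟨l, h1, h2, rfl⟩ := hg
  refine ⟨x :: l, ?_, ?_, by rw [List.prod_cons]⟩
  · rw [List.length_cons]
    omega
  · intro z hz
    rcases List.mem_cons.1 hz with rfl | hz
    · exact hx
    · exact h2 z hz

theorem ball_one : (1 : (Matrix (n ⊕ n) (n ⊕ n) P)ˣ) ∈ ball 1 n P 0 :=
  ⟨[], le_refl _, fun _ h => by simp at h, rfl⟩

omit [StarRing P] in
theorem val_mul_mulVec (x g : (Matrix (n ⊕ n) (n ⊕ n) P)ˣ) (v : n ⊕ n → P) :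
    (x * g).val *ᵥ v = x.val *ᵥ (g.val *ᵥ v) := by
  rw [Units.val_mul, Matrix.mulVec_mulVec]

/-- the moves `a_1 += λ_j a_j`, `j ≥ 2` -/
theorem gather_lev {k : ℕ} (lam : Fin k → P) (a c : Fin (k + 2) → P) (l : List (Fin k)) :
    ∃ e ∈ ball 1 (Fin (k + 2)) P l.length, ∃ c' : Fin (k + 2) → P,
      e.val *ᵥ Sum.elim a c =
        Sum.elim (Function.update a 1 (a 1 + (l.map fun j => lam j * a j.succ.succ).sum)) c' ∧
      c' 0 = c 0 ∧ c' 1 = c 1 ∧ ∀ j, ∃ μ, c' j = c j + μ * c 1 := by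
  induction l with
  | nil =>
    refine ⟨1, ball_one, c, ?_, rfl, rfl, fun j => ⟨0, by simp⟩⟩
    simp
  | cons j l ih =>
    obtain ⟨e, he, c', h1, h2, h3, h4⟩ := ih
    have hj : (1 : Fin (k + 2)) ≠ j.succ.succ := by
      intro h
      have := congrArg Fin.val h
      simp at this
    have hj0 : (0 : Fin (k + 2)) ≠ j.succ.succ := (Fin.succ_ne_zero _).symm
    refine ⟨lev (el 1 j.succ.succ hj (lam j)) * e, ball_cons (Or.inr (Or.inr ⟨_, _, _, _, rfl⟩)) he,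
      Function.update c' j.succ.succ (c' j.succ.succ - Star.star (lam j) * c' 1), ?_, ?_, ?_,
      fun i => ?_⟩
    · rw [val_mul_mulVec, h1, lev_el_mulVec, Function.update_idem, Function.update_self,
        Function.update_of_ne hj.symm, List.map_cons, List.sum_cons]
      congr 2
      abel
    · rw [Function.update_of_ne hj0, h2]
    · rw [Function.update_of_ne hj, h3]
    · by_cases hi : i = j.succ.succ
      · subst hi
        obtain ⟨μ, hμ⟩ := h4 j.succ.succ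
        refine ⟨μ - Star.star (lam j), ?_⟩
        rw [Function.update_self, hμ, h3, sub_mul]
        abel
      · rw [Function.update_of_ne hi]
        exact h4 i

/-- the matrix of the moves `a_1 += w_j c_j`, `j ≥ 2` -/
def gB {k : ℕ} (w : Fin k → P) : Matrix (Fin (k + 2)) (Fin (k + 2)) P :=
  ∑ j, (Matrix.single 1 j.succ.succ (w j) - Matrix.single j.succ.succ 1 (Star.star (w j)))

theorem Sk_gB {k : ℕ} (w : Fin k → P) : Sk 1 (gB w) := by
  unfold Sk gB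
  rw [Matrix.conjTranspose_sum, one_smul, ← Finset.sum_neg_distrib]
  refine Finset.sum_congr rfl fun j _ => ?_
  rw [Matrix.conjTranspose_sub, Matrix.conjTranspose_single, Matrix.conjTranspose_single, star_star,
    neg_sub]

theorem gB_mulVec_zero {k : ℕ} (w : Fin k → P) (c : Fin (k + 2) → P) : (gB w *ᵥ c) 0 = 0 := by
  unfold gB
  rw [Matrix.sum_mulVec, Finset.sum_apply]
  refine Finset.sum_eq_zero fun j _ => ?_
  rw [Matrix.sub_mulVec, Matrix.single_mulVec, Matrix.single_mulVec, Pi.sub_apply,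
    Function.update_of_ne (by intro h; have := congrArg Fin.val h; simp at this),
    Function.update_of_ne (Fin.succ_ne_zero _).symm]
  simp

theorem gB_mulVec_one {k : ℕ} (w : Fin k → P) (c : Fin (k + 2) → P) :
    (gB w *ᵥ c) 1 = ∑ j, w j * c j.succ.succ := by
  unfold gB
  rw [Matrix.sum_mulVec, Finset.sum_apply]
  refine Finset.sum_congr rfl fun j _ => ?_
  rw [Matrix.sub_mulVec, Matrix.single_mulVec, Matrix.single_mulVec, Pi.sub_apply,
    Function.update_self,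
    Function.update_of_ne (by intro h; have := congrArg Fin.val h; simp at this)]
  simp

/-- `a_1 += ∑ λ_j a_j + ∑ w_j c_j` (`j ≥ 2`) up to left multiples of `c_1`; the entries `a_0`, `c_0`
and `c_1` do not change -/
theorem gather {k : ℕ} (lam w : Fin k → P) (a c : Fin (k + 2) → P) :
    ∃ e ∈ ball 1 (Fin (k + 2)) P (k + 1), ∃ (a' c' : Fin (k + 2) → P) (μ : P),
      e.val *ᵥ Sum.elim a c = Sum.elim a' c' ∧ a' 0 = a 0 ∧
      a' 1 = a 1 + ∑ j, lam j * a j.succ.succ + ∑ j, w j * c j.succ.succ + μ * c 1 ∧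
      c' 0 = c 0 ∧ c' 1 = c 1 := by
  obtain ⟨e, he, c', h1, h2, h3, h4⟩ := gather_lev lam a c (List.finRange k)
  rw [List.length_finRange] at he
  choose μ hμ using h4
  refine ⟨up (gB w) * e, ball_cons (Or.inl ⟨_, Sk_gB w, rfl⟩) he,
    Function.update a 1 (a 1 + ((List.finRange k).map fun j => lam j * a j.succ.succ).sum) +
      gB w *ᵥ c', c', ∑ j : Fin k, w j * μ j.succ.succ, ?_, ?_, ?_, h2, h3⟩
  · rw [val_mul_mulVec, h1, up_mulVec]
  · rw [Pi.add_apply, gB_mulVec_zero, add_zero, Function.update_of_ne (by simp)]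
  · rw [Pi.add_apply, gB_mulVec_one, Function.update_self]
    have hl : ((List.finRange k).map fun j => lam j * a j.succ.succ).sum =
        ∑ j, lam j * a j.succ.succ := by
      rw [← List.ofFn_eq_map, List.sum_ofFn]
    rw [hl]
    simp only [hμ, mul_add, Finset.sum_add_distrib, Finset.sum_mul, mul_assoc]
    abel

end Moves

section First

/-- the first step: make `n(a_0) ≠ 0` by a sequence of moves of bounded length -/
theorem first_step (k : ℕ) : ∃ K : ℕ, ∀ (N : ℕ) (R Λ : Type) [CommRing R]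
    [IsLocalization.Away (N : ℤ) R] [Ring Λ] [StarRing Λ] [Algebra R Λ] [Module.Free R Λ]
    [Module.Finite R Λ] (_ : N ≠ 0) (Q : QAlg N R Λ) (_ : ∀ x, star x = Q.conj x)
    (a c x w : Fin (k + 2) → Λ) (_ : ∑ j, x j * a j + ∑ j, w j * c j = 1),
    ∃ e ∈ ball 1 (Fin (k + 2)) Λ K,
      Q.n ((e.val *ᵥ Sum.elim a c) (Sum.inl 0)) ≠ 0 := by
  refine ⟨k + 1 + 1 + 1 + 1, ?_⟩
  intro N R Λ _ _ _ _ _ _ _ hN Q hQ a c x w h
  obtain ⟨q, hq1, hq⟩ := Nat.exists_infinite_primes (N + 1)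
  have hqN : ¬ q ∣ N := fun h => by
    have := Nat.le_of_dvd (Nat.pos_of_ne_zero hN) h
    omega
  have := Fact.mk hq
  -- the sum of the other terms
  set β : Λ := ∑ j : Fin k, x j.succ.succ * a j.succ.succ + ∑ j : Fin k, w j.succ.succ * c j.succ.succ
    with hβ
  have h1 : x 0 * a 0 + x 1 * a 1 + w 0 * c 0 + w 1 * c 1 + β = 1 := by
    rw [← h, Fin.sum_univ_succ, Fin.sum_univ_succ, Fin.sum_univ_succ (fun j => w j * c j),
      Fin.sum_univ_succ (fun j : Fin (k + 1) => w j.succ * c j.succ), hβ, Fin.succ_zero_eq_one]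
    abel
  obtain ⟨t, ht⟩ := absorb_mod Q hq hqN (a 0) (a 1) (c 0) (c 1) β _ _ _ _ h1
  obtain ⟨y, hy⟩ := ht t 0 (by rw [mul_zero, add_zero])
  obtain ⟨e1, he1, a', c', μ, h2, h3, h4, h5, h6⟩ :=
    gather (fun j => t * x j.succ.succ) (fun j => t * w j.succ.succ) a c
  have h7 : a' 1 = a 1 + t * β + μ * c 1 := by
    rw [h4, hβ, mul_add, Finset.mul_sum, Finset.mul_sum]
    simp only [mul_assoc]
    abel
  rw [mem4] at hy
  obtain ⟨x0, x1, w0, w1, h8⟩ := hy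
  obtain ⟨υ, σ, hσ, h9⟩ := planes_mod hN Q hq hqN (a' 0) (a' 1) (c' 0) (c' 1) x0 x1 w0
    (w1 - x1 * μ) ⟨y, by
      rw [← h8, h3, h5, h6, h7]
      noncomm_ring⟩
  obtain ⟨s, hTs, hs⟩ := crt_pure Q {q} (fun p hp => by rw [Finset.mem_singleton.1 hp]; exact hq)
    (fun _ => σ) (fun p hp => by rw [Finset.mem_singleton.1 hp]; exact hσ)
  obtain ⟨z', hz'⟩ := hs q (Finset.mem_singleton_self q)
  obtain ⟨u, v, z'', h10⟩ := h9 υ 0 s z' (by rw [mul_zero, add_zero]) hz'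
  -- the last move
  obtain ⟨ρ, hsurj, hk, hdet⟩ := Q.fibre q hq hqN
  obtain ⟨m, hm⟩ := sr1 (ρ (a' 0 + υ * a' 1)) (ρ (a' 1 + s * (c' 1 - Q.conj υ * c' 0))) (ρ u) (ρ v)
    (by rw [← map_mul, ← map_mul, ← map_add, h10, rho_add_mul, map_one])
  obtain ⟨τ, rfl⟩ := hsurj m
  have h01 : (0 : Fin (k + 2)) ≠ 1 := by simp
  have hSk : Sk 1 (Matrix.single (1 : Fin (k + 2)) 1 s) := by
    unfold Sk
    rw [Matrix.conjTranspose_single, hQ, Choice.conj_eq Q, hTs, map_zero, zero_sub, one_smul,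
      ← Matrix.single_neg]
  refine ⟨lev (el 0 1 h01 τ) * (up (Matrix.single 1 1 s) * (lev (el 0 1 h01 υ) * e1)),
    ball_cons (Or.inr (Or.inr ⟨_, _, _, _, rfl⟩)) (ball_cons (Or.inl ⟨_, hSk, rfl⟩)
      (ball_cons (Or.inr (Or.inr ⟨_, _, _, _, rfl⟩)) he1)), ?_⟩
  have h11 : ((lev (el 0 1 h01 τ) * (up (Matrix.single 1 1 s) * (lev (el 0 1 h01 υ) * e1))).val *ᵥ
      Sum.elim a c) (Sum.inl 0) = (a' 0 + υ * a' 1) +
        τ * (a' 1 + s * (c' 1 - Q.conj υ * c' 0)) := by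
    rw [val_mul_mulVec, val_mul_mulVec, val_mul_mulVec, h2, lev_el_mulVec, up_mulVec, lev_el_mulVec,
      Sum.elim_inl, Function.update_self, Matrix.single_mulVec, Pi.add_apply, Pi.add_apply,
      Function.update_self, Function.update_self, Function.update_of_ne h01,
      Function.update_of_ne h01.symm, Function.update_self, hQ]
    simp
  rw [h11]
  intro h0
  have h12 : IsUnit (ρ ((a' 0 + υ * a' 1) + τ * (a' 1 + s * (c' 1 - Q.conj υ * c' 0)))) := by
    rw [map_add, map_mul]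
    exact hm
  rw [isUnit_rho Q hq hqN hdet, h0] at h12
  exact h12 (dvd_zero _)

end First

end BWC
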