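import Pool.Agent.BW.Core
import Pool.Agent.Helper24.BW.Red

/-!
# Hyperbolic quaternion-unitary groups: definitions

`P` is a ring with involution `star`, `ε = ± 1`. The group `UG ε n P` is the isometry group of the
hyperbolic `ε`-hermitian space of rank `2 |n|`; `UP`, `UM` are the unipotent radicals of the two
opposite Siegel parabolic subgroups.
-/

namespace BWC

open Matrix
open BW hiding star

section Defs

variable (ε : ℤ) (n P : Type*) [DecidableEq n] [Fintype n] [Ring P]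

/-- the Gram matrix of the hyperbolic `ε`-hermitian form -/
def J : Matrix (n ⊕ n) (n ⊕ n) P := Matrix.fromBlocks 0 1 (ε • (1 : Matrix n n P)) 0

/-- the hyperbolic unitary group `{g : gᴴ J g = J}` -/
def UG [StarRing P] : Subgroup (Matrix (n ⊕ n) (n ⊕ n) P)ˣ where
  carrier := {g | g.valᴴ * J ε n P * g.val = J ε n P}
  one_mem' := by simp
  mul_mem' := fun {g h} hg hh => by
    have hg' : g.valᴴ * J ε n P * g.val = J ε n P := hg
    have hh' : h.valᴴ * J ε n P * h.val = J ε n P := hh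
    change (g.val * h.val)ᴴ * J ε n P * (g.val * h.val) = J ε n P
    calc _ = h.valᴴ * (g.valᴴ * J ε n P * g.val) * h.val := by
          rw [Matrix.conjTranspose_mul]; simp only [Matrix.mul_assoc]
      _ = _ := by rw [hg', hh']
  inv_mem' := fun {g} hg => by
    have hg' : g.valᴴ * J ε n P * g.val = J ε n P := hg
    change (g⁻¹.val)ᴴ * J ε n P * g⁻¹.val = J ε n P
    have h1 : g.val * g⁻¹.val = 1 := by rw [← Units.val_mul, mul_inv_cancel, Units.val_one]
    have h2 : (g⁻¹.val)ᴴ * g.valᴴ = 1 := by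
      rw [← Matrix.conjTranspose_mul, h1, Matrix.conjTranspose_one]
    calc (g⁻¹.val)ᴴ * J ε n P * g⁻¹.val
        = (g⁻¹.val)ᴴ * (g.valᴴ * J ε n P * g.val) * g⁻¹.val := by rw [hg']
      _ = ((g⁻¹.val)ᴴ * g.valᴴ) * J ε n P * (g.val * g⁻¹.val) := by simp only [Matrix.mul_assoc]
      _ = _ := by rw [h1, h2, Matrix.one_mul, Matrix.mul_one]

theorem mem_UG [StarRing P] (g : (Matrix (n ⊕ n) (n ⊕ n) P)ˣ) :
    g ∈ UG ε n P ↔ g.valᴴ * J ε n P * g.val = J ε n P := Iff.rfl

end Defs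

section Elements

variable (ε : ℤ) {n P : Type*} [DecidableEq n] [Fintype n] [Ring P]

/-- `[[1, B], [0, 1]]` -/
def up (B : Matrix n n P) : (Matrix (n ⊕ n) (n ⊕ n) P)ˣ where
  val := Matrix.fromBlocks 1 B 0 1
  inv := Matrix.fromBlocks 1 (-B) 0 1
  val_inv := by simp [Matrix.fromBlocks_multiply, Matrix.fromBlocks_one]
  inv_val := by simp [Matrix.fromBlocks_multiply, Matrix.fromBlocks_one]

/-- `[[1, 0], [C, 1]]` -/
def lo (C : Matrix n n P) : (Matrix (n ⊕ n) (n ⊕ n) P)ˣ where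
  val := Matrix.fromBlocks 1 0 C 1
  inv := Matrix.fromBlocks 1 0 (-C) 1
  val_inv := by simp [Matrix.fromBlocks_multiply, Matrix.fromBlocks_one]
  inv_val := by simp [Matrix.fromBlocks_multiply, Matrix.fromBlocks_one]

theorem up_val (B : Matrix n n P) : (up B).val = Matrix.fromBlocks 1 B 0 1 := rfl
theorem lo_val (C : Matrix n n P) : (lo C).val = Matrix.fromBlocks 1 0 C 1 := rfl

variable [StarRing P]

/-- `[[A, 0], [0, (A⁻¹)ᴴ]]` -/
def lev : (Matrix n n P)ˣ →* (Matrix (n ⊕ n) (n ⊕ n) P)ˣ where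
  toFun A :=
    { val := Matrix.fromBlocks A.val 0 0 (A⁻¹.val)ᴴ
      inv := Matrix.fromBlocks A⁻¹.val 0 0 (A.val)ᴴ
      val_inv := by
        have h1 : A.val * A⁻¹.val = 1 := by rw [← Units.val_mul, mul_inv_cancel, Units.val_one]
        have h2 : (A⁻¹.val)ᴴ * A.valᴴ = 1 := by
          rw [← Matrix.conjTranspose_mul, h1, Matrix.conjTranspose_one]
        simp only [Matrix.fromBlocks_multiply, h1, h2]
        simp [Matrix.fromBlocks_one]
      inv_val := by
        have h1 : A⁻¹.val * A.val = 1 := by rw [← Units.val_mul, inv_mul_cancel, Units.val_one]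
        have h2 : (A.val)ᴴ * A⁻¹.valᴴ = 1 := by
          rw [← Matrix.conjTranspose_mul, h1, Matrix.conjTranspose_one]
        simp only [Matrix.fromBlocks_multiply, h1, h2]
        simp [Matrix.fromBlocks_one] }
  map_one' := by
    ext1
    simp [Matrix.fromBlocks_one]
  map_mul' A B := by
    ext1
    simp only [Units.val_mul, _root_.mul_inv_rev, Matrix.conjTranspose_mul]
    simp [Matrix.fromBlocks_multiply]

theorem lev_val (A : (Matrix n n P)ˣ) :
    (lev A).val = Matrix.fromBlocks A.val 0 0 (A⁻¹.val)ᴴ := rfl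

/-- `(-ε)`-hermitian matrices -/
def Sk (ε : ℤ) (B : Matrix n n P) : Prop := Bᴴ = -(ε • B)

variable (n P) in
/-- `U_P(R)`: the unipotent radical of the Siegel parabolic, `[[1, B], [0, 1]]`, `Bᴴ = -ε B` -/
def UP : Subgroup (Matrix (n ⊕ n) (n ⊕ n) P)ˣ where
  carrier := {g | ∃ B : Matrix n n P, Sk ε B ∧ g = up B}
  one_mem' := ⟨0, by simp [Sk], by ext1; simp [up, Matrix.fromBlocks_one]⟩
  mul_mem' := by
    rintro _ _ ⟨B, hB, rfl⟩ ⟨C, hC, rfl⟩
    refine ⟨B + C, ?_, ?_⟩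
    · unfold Sk at *
      rw [Matrix.conjTranspose_add, hB, hC, smul_add]; abel
    · ext1
      simp [up, Matrix.fromBlocks_multiply, add_comm]
  inv_mem' := by
    rintro _ ⟨B, hB, rfl⟩
    refine ⟨-B, ?_, ?_⟩
    · unfold Sk at *
      rw [Matrix.conjTranspose_neg, hB, smul_neg]
    · ext1; rfl

variable (n P) in
/-- `U_P^-(R)`: `[[1, 0], [C, 1]]`, `Cᴴ = -ε C` -/
def UM : Subgroup (Matrix (n ⊕ n) (n ⊕ n) P)ˣ where
  carrier := {g | ∃ C : Matrix n n P, Sk ε C ∧ g = lo C}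
  one_mem' := ⟨0, by simp [Sk], by ext1; simp [lo, Matrix.fromBlocks_one]⟩
  mul_mem' := by
    rintro _ _ ⟨B, hB, rfl⟩ ⟨C, hC, rfl⟩
    refine ⟨B + C, ?_, ?_⟩
    · unfold Sk at *
      rw [Matrix.conjTranspose_add, hB, hC, smul_add]; abel
    · ext1
      simp [lo, Matrix.fromBlocks_multiply]
  inv_mem' := by
    rintro _ ⟨B, hB, rfl⟩
    refine ⟨-B, ?_, ?_⟩
    · unfold Sk at *
      rw [Matrix.conjTranspose_neg, hB, smul_neg]
    · ext1; rfl

variable (n P) in
/-- the elementary unitary group, generated by the two opposite unipotent radicals -/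
def EU : Subgroup (Matrix (n ⊕ n) (n ⊕ n) P)ˣ := UP ε n P ⊔ UM ε n P

variable (n P) in
/-- the group generated by `EU` and the elementary matrices of the Levi subgroup
(it is `EU` for `|n| ≥ 3`) -/
def EUL : Subgroup (Matrix (n ⊕ n) (n ⊕ n) P)ˣ := EU ε n P ⊔ (E n P).map lev

variable {ε}

theorem up_mem {B : Matrix n n P} (hB : Sk ε B) : up B ∈ EU ε n P :=
  Subgroup.mem_sup_left (show up B ∈ UP ε n P from ⟨B, hB, rfl⟩)

theorem lo_mem {C : Matrix n n P} (hC : Sk ε C) : lo C ∈ EU ε n P :=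
  Subgroup.mem_sup_right (show lo C ∈ UM ε n P from ⟨C, hC, rfl⟩)

theorem EU_le_EUL : EU ε n P ≤ EUL ε n P := le_sup_left

theorem lev_mem {A : (Matrix n n P)ˣ} (hA : A ∈ E n P) : lev A ∈ EUL ε n P :=
  Subgroup.mem_sup_right (Subgroup.mem_map_of_mem _ hA)

variable (ε n P) in
/-- products of at most `K` generators of `EUL` -/
def ball (K : ℕ) : Set (Matrix (n ⊕ n) (n ⊕ n) P)ˣ :=
  {g | ∃ l : List (Matrix (n ⊕ n) (n ⊕ n) P)ˣ, l.length ≤ K ∧
    (∀ x ∈ l, x ∈ UP ε n P ∨ x ∈ UM ε n P ∨ ∃ (i j : n) (h : i ≠ j) (y : P),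
      x = lev (el i j h y)) ∧ l.prod = g}

end Elements

section Emb

variable {m n P : Type*} [DecidableEq m] [Fintype m] [DecidableEq n] [Fintype n] [Ring P]

/-- the embedding of the unitary group of the planes `m` into the one of the planes `n` -/
def embU (φ : m ↪ n) : (Matrix (m ⊕ m) (m ⊕ m) P)ˣ →* (Matrix (n ⊕ n) (n ⊕ n) P)ˣ :=
  Units.map (Pool.Agent.Helper24.BWR.emb (φ.sumMap φ))

/-- the embedding of `GL_m` into `GL_n` -/
def embL (φ : m ↪ n) : (Matrix m m P)ˣ →* (Matrix n n P)ˣ :=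
  Units.map (Pool.Agent.Helper24.BWR.emb φ)

end Emb

end BWC
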