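import Pool.Agent.BWD.Complete
import Pool.Agent.BW.Ideal

/-!
# A hermitian matrix over a quaternion algebra is even: `D = A + Aᴴ`
-/

set_option autoImplicit false

namespace BWC

open Matrix
open BW hiding star

/-- there is an element of reduced trace `1` -/
theorem exists_add_conj_eq_one {N : ℕ} {R Λ : Type*} [CommRing R] [Ring Λ] [Algebra R Λ]
    (Q : QAlg N R Λ) : ∃ c : Λ, c + Q.conj c = 1 := by
  obtain ⟨f, hf⟩ := Q.one_prim
  obtain ⟨c, hc⟩ := Q.unimod f
  refine ⟨c, ?_⟩
  have h := hc 1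
  rw [hf, one_mul] at h
  rw [Q.add_conj, ← h, map_one]

/-- a hermitian matrix is even -/
theorem even_of_herm {N : ℕ} {R Λ : Type*} [CommRing R] [IsLocalization.Away (N : ℤ) R] [Ring Λ]
    [Algebra R Λ] [Module.Free R Λ] [Module.Finite R Λ] [StarRing Λ] (hN : N ≠ 0)
    (Q : QAlg N R Λ) (hQ : ∀ x, star x = Q.conj x) {s : Type*} [Fintype s]
    (D : Matrix s s Λ) (hD : Dᴴ = D) : ∃ A : Matrix s s Λ, D = A + Aᴴ := by
  classical
  obtain ⟨c, hc⟩ := exists_add_conj_eq_one Q
  have hij : ∀ i j, star (D j i) = D i j := fun i j => by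
    rw [← Matrix.conjTranspose_apply, hD]
  have hd : ∀ i, ∃ r : R, D i i = algebraMap R Λ r := fun i =>
    exists_of_conj_eq hN Q (by rw [← hQ]; exact hij i i)
  choose ρ hρ using hd
  have hs : ∀ r : R, star (algebraMap R Λ r) = algebraMap R Λ r := fun r => by
    rw [hQ, Q.conj_algebraMap]
  set e := Fintype.equivFin s
  refine ⟨Matrix.of fun i j => if e i < e j then D i j else
    if i = j then algebraMap R Λ (ρ i) * c else 0, ?_⟩
  ext i j
  rw [Matrix.add_apply, Matrix.conjTranspose_apply, Matrix.of_apply, Matrix.of_apply]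
  rcases lt_trichotomy (e i) (e j) with h | h | h
  · have h1 : ¬ e j < e i := not_lt.mpr h.le
    have h2 : j ≠ i := by
      rintro rfl
      exact lt_irrefl _ h
    rw [if_pos h, if_neg h1, if_neg h2, star_zero, add_zero]
  · have h1 : i = j := e.injective h
    subst h1
    rw [if_neg (lt_irrefl _), if_pos rfl, star_mul, hs, ← Algebra.commutes, ← mul_add, hQ c, hc,
      mul_one, hρ]
  · have h1 : ¬ e i < e j := not_lt.mpr h.le
    have h2 : i ≠ j := by
      rintro rfl
      exact lt_irrefl _ h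
    rw [if_neg h1, if_neg h2, if_pos h, zero_add, hij]

end BWC
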