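import Pool.Agent.BWC.Prim

/-!
# Hyperbolic quaternion-unitary groups: section 1 (one component)
-/

set_option linter.unusedSectionVars false

namespace BWC

open BW

section

variable {N : ℕ} {R Λ : Type*} [CommRing R] [IsLocalization.Away (N : ℤ) R] [Ring Λ] [Algebra R Λ]
  [Module.Free R Λ] [Module.Finite R Λ]

/-- a central element is determined by its trace -/
theorem two_smul_of_central (hN : N ≠ 0) (Q : QAlg N R Λ) (x : Λ) (h : ∀ z, z * x = x * z) :
    (2 : R) • x = algebraMap R Λ (Q.T x) := by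
  have hD := Loc.isDomain N R hN
  have hP := Loc.isPrincipalIdealRing N R
  have hC := Loc.charZero N R hN
  rw [← Q.add_conj, Q.conj_of_central hN x h, two_smul]

/-- (ii): for `x` primitive with `T(conj y x) = 0` there is a pure `s` with `T(y + s x) = 0` -/
theorem pure_step (hN : N ≠ 0) (Q : QAlg N R Λ) (x y w : Λ) (hx : Q.T (x * w) = 1)
    (hyx : Q.T (Q.conj y * x) = 0) : ∃ s, Q.T s = 0 ∧ Q.T (y + s * x) = 0 := by
  have hD := Loc.isDomain N R hN
  have hP := Loc.isPrincipalIdealRing N R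
  have hC := Loc.charZero N R hN
  -- the functional `s ↦ T(s x)` on the pure elements
  let φ : Λ →ₗ[R] R := Q.T ∘ₗ LinearMap.mulRight R x
  have hφ : ∀ s, φ s = Q.T (s * x) := fun s => rfl
  let I : Ideal R := (LinearMap.ker Q.T).map φ
  obtain ⟨⟨k, hk⟩⟩ := IsPrincipalIdealRing.principal I
  have hmem : ∀ s, Q.T s = 0 → ∃ d, Q.T (s * x) = k * d := by
    intro s hs
    have h1 : φ s ∈ I := Submodule.mem_map_of_mem (show s ∈ LinearMap.ker Q.T from hs)
    rw [hk, Submodule.mem_span_singleton] at h1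
    obtain ⟨d, hd⟩ := h1
    exact ⟨d, by rw [← hφ, ← hd, smul_eq_mul, mul_comm]⟩
  -- commutators with `x` are divisible by `k`
  have hcomm : ∀ z t, ∃ d, Q.T (t * (z * x - x * z)) = k * d := by
    intro z t
    obtain ⟨d, hd⟩ := hmem (t * z - z * t) (by rw [map_sub, Q.T_comm, sub_self])
    refine ⟨d, ?_⟩
    rw [← hd, mul_sub, sub_mul, map_sub, map_sub]
    congr 1
    · rw [mul_assoc]
    · rw [← mul_assoc, Q.T_comm, ← mul_assoc]
  suffices hd : ∃ d, Q.T y = k * d by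
    obtain ⟨d, hd⟩ := hd
    have h1 : Q.T y ∈ I := by
      rw [hk, Submodule.mem_span_singleton]
      exact ⟨d, by rw [hd, smul_eq_mul, mul_comm]⟩
    obtain ⟨s, hs1, hs2⟩ := h1
    refine ⟨-s, ?_, ?_⟩
    · rw [map_neg, show Q.T s = 0 from hs1, neg_zero]
    · rw [map_add, neg_mul, map_neg, ← hφ, hs2, add_neg_cancel]
  by_cases hk0 : k = 0
  · -- `x` is central
    have hcen : ∀ z, z * x = x * z := by
      intro z
      rw [← sub_eq_zero]
      refine Q.eq_zero_of_T _ fun t => ?_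
      obtain ⟨d, hd⟩ := hcomm z t
      rw [Q.T_comm, hd, hk0, zero_mul]
    have h2 := two_smul_of_central hN Q x hcen
    have h3 : Q.T x * Q.T y = 0 := by
      have h4 : Q.T (Q.conj y * ((2 : R) • x)) = 0 := by
        rw [mul_smul_comm, map_smul, hyx, smul_zero]
      rw [h2, ← Algebra.commutes, ← Algebra.smul_def, map_smul, Q.T_conj, smul_eq_mul] at h4
      exact h4
    have h5 : Q.T x ≠ 0 := by
      intro h6
      rw [h6, map_zero] at h2
      have h7 : x = 0 := smul_right_cancel hN (c := (2 : R)) two_ne_zero (by rw [h2, smul_zero])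
      rw [h7, zero_mul, map_zero] at hx
      exact zero_ne_one hx
    exact ⟨0, by rw [mul_zero]; exact (mul_eq_zero.1 h3).resolve_left h5⟩
  · -- `x` is scalar modulo `k`
    have hdiv : ∀ z, ∃ c, z * x - x * z = k • c := by
      intro z
      by_cases hz : z * x - x * z = 0
      · exact ⟨0, by rw [hz, smul_zero]⟩
      obtain ⟨c, v0, w', hc, h1, h2⟩ := Q.content_ne _ hz
      obtain ⟨d, hd⟩ := hcomm z w'
      rw [Q.T_comm, h1, smul_mul_assoc, map_smul, h2, smul_eq_mul, mul_one] at hd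
      exact ⟨d • v0, by rw [h1, hd, mul_smul]⟩
    obtain ⟨g, c1, hgc⟩ := Q.centre x k hk0 hdiv
    have h3 : g * Q.T y + k * Q.T (Q.conj y * c1) = 0 := by
      rw [← hyx]
      conv_rhs => rw [hgc]
      rw [mul_add, map_add, ← Algebra.commutes, ← Algebra.smul_def, map_smul, Q.T_conj,
        mul_smul_comm, map_smul, smul_eq_mul, smul_eq_mul]
    have h4 : g * Q.T w + k * Q.T (c1 * w) = 1 := by
      rw [← hx]
      conv_rhs => rw [hgc]
      rw [add_mul, map_add, ← Algebra.smul_def, map_smul, smul_mul_assoc, map_smul, smul_eq_mul,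
        smul_eq_mul]
    refine ⟨Q.T y * Q.T (c1 * w) - Q.T (Q.conj y * c1) * Q.T w, ?_⟩
    linear_combination Q.T w * h3 - Q.T y * h4

/-- `T([z, x]) = 0` -/
theorem T_comm_sub (Q : QAlg N R Λ) (z x : Λ) : Q.T (z * x - x * z) = 0 := by
  rw [map_sub, Q.T_comm, sub_self]

/-- `T([z, x] x) = 0` -/
theorem T_comm_mul (Q : QAlg N R Λ) (z x : Λ) : Q.T ((z * x - x * z) * x) = 0 := by
  rw [sub_mul, map_sub, Q.T_comm (x * z) x, ← mul_assoc, Q.T_comm (z * x) x, sub_eq_zero,
    ← mul_assoc]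
  rw [Q.T_comm (x * z) x, ← mul_assoc]

/-- a pure element of non-zero norm is not central -/
theorem exists_not_commute (hN : N ≠ 0) (Q : QAlg N R Λ) (k : Λ) (hT : Q.T k = 0)
    (hk : k ≠ 0) : ∃ y, k * y - y * k ≠ 0 := by
  by_contra hcon
  push Not at hcon
  have hC := Loc.charZero N R hN
  have hD := Loc.isDomain N R hN
  have h2 := two_smul_of_central hN Q k fun z => by
    have := hcon z
    rw [sub_eq_zero] at this
    exact this.symm
  rw [hT, map_zero] at h2
  exact hk (smul_right_cancel hN (c := (2 : R)) two_ne_zero (by rw [h2, smul_zero]))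


/-- a non-scalar matrix has an invertible commutator -/
theorem exists_comm_det {F : Type*} [Field F] (X Z0 : Matrix (Fin 2) (Fin 2) F)
    (h : Z0 * X - X * Z0 ≠ 0) : ∃ Z, (Z * X - X * Z).det ≠ 0 := by
  by_contra hcon
  push Not at hcon
  obtain ⟨a, b, c, d, rfl⟩ : ∃ a b c d, X = !![a, b; c, d] := ⟨_, _, _, _, Matrix.eta_fin_two X⟩
  have h1 := hcon !![0, 1; 0, 0]
  have h2 := hcon !![0, 0; 1, 0]
  have h3 := hcon !![0, 1; 1, 0]
  rw [Matrix.det_fin_two] at h1 h2 h3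
  simp [Matrix.mul_fin_two] at h1 h2 h3
  have h4 : a = d := by
    rw [h1, h2] at h3
    simp at h3
    rcases h3 with h3 | h3
    · linear_combination -h3
    · linear_combination h3
  apply h
  obtain ⟨e, f, g, k, rfl⟩ : ∃ e f g k, Z0 = !![e, f; g, k] :=
    ⟨_, _, _, _, Matrix.eta_fin_two Z0⟩
  rw [h1, h2, h4, Matrix.mul_fin_two, Matrix.mul_fin_two]
  ext i j
  fin_cases i <;> fin_cases j <;> simp <;> ring

/-- a prime which does not divide a given non-zero element -/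
theorem exists_prime_not_dvd (hN : N ≠ 0) {c : R} (hc : c ≠ 0) :
    ∃ p : ℕ, p.Prime ∧ ¬ p ∣ N ∧ ¬ (p : R) ∣ c := by
  by_contra hcon
  push Not at hcon
  exact hc (Loc.eq_zero_of_eventually hN c 0 fun p hp _ hpN => hcon p hp hpN)

/-- a non-central element has a commutator of non-zero norm -/
theorem exists_comm_n (hN : N ≠ 0) (Q : QAlg N R Λ) (x z0 : Λ) (h : z0 * x - x * z0 ≠ 0) :
    ∃ z, Q.n (z * x - x * z) ≠ 0 := by
  have hD := Loc.isDomain N R hN
  have hP := Loc.isPrincipalIdealRing N R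
  obtain ⟨c, v0, w, hc, h1, h2⟩ := Q.content_ne _ h
  obtain ⟨p, hp, hpN, hpc⟩ := exists_prime_not_dvd (N := N) hN hc
  have := Fact.mk hp
  obtain ⟨ρ, hs, hker, hdet⟩ := Q.fibre p hp hpN
  have h3 : ρ z0 * ρ x - ρ x * ρ z0 ≠ 0 := by
    intro h0
    rw [← map_mul, ← map_mul, ← map_sub] at h0
    obtain ⟨y, hy⟩ := hker _ h0
    apply hpc
    refine ⟨Q.T (y * w), ?_⟩
    calc c = Q.T ((z0 * x - x * z0) * w) := by
          rw [h1, smul_mul_assoc, map_smul, h2, smul_eq_mul, mul_one]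
      _ = _ := by
          rw [hy, mul_assoc, ← map_natCast (algebraMap R Λ), ← Algebra.smul_def, map_smul,
            smul_eq_mul]
  obtain ⟨Z, hZ⟩ := exists_comm_det _ _ h3
  obtain ⟨z, rfl⟩ := hs Z
  refine ⟨z, fun h0 => hZ ?_⟩
  rw [← map_mul, ← map_mul, ← map_sub, Choice.det_rho Q hp hpN ρ hdet, h0, map_zero]

/-- a quadratic polynomial does not vanish on a whole residue class -/
theorem quad_avoid (hN : N ≠ 0) (A B C t0 d : R) (hd : d ≠ 0) (h : ¬ (A = 0 ∧ B = 0 ∧ C = 0)) :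
    ∃ τ : R, A + B * (t0 + d * τ) + C * (t0 + d * τ) ^ 2 ≠ 0 := by
  have hD := Loc.isDomain N R hN
  have hCh := Loc.charZero N R hN
  by_contra hcon
  push Not at hcon
  have h0 := hcon 0
  have h1 := hcon 1
  have h2 := hcon 2
  have hC : C = 0 := by
    have : (2 * d ^ 2) * C = 0 := by linear_combination h0 - 2 * h1 + h2
    rcases mul_eq_zero.1 this with h3 | h3
    · exact absurd h3 (mul_ne_zero two_ne_zero (pow_ne_zero 2 hd))
    · exact h3
  rw [hC] at h0 h1
  have hB : B = 0 := by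
    have : d * B = 0 := by linear_combination h1 - h0
    exact (mul_eq_zero.1 this).resolve_left hd
  rw [hB] at h0
  exact h ⟨by linear_combination h0, hB, hC⟩

theorem n_line (Q : QAlg N R Λ) (v w : Λ) (t : R) :
    Q.n (v + t • w) = Q.n v + Q.T (v * Q.conj w) * t + Q.n w * t ^ 2 := by
  rw [Q.n_add, Q.conj_smul, mul_smul_comm, map_smul, Q.n_smul, smul_eq_mul]; ring

/-- primitive and of non-zero norm -/
theorem prim_norm (hN : N ≠ 0) (Q : QAlg N R Λ) (v w : Λ)
    (hvw : ∀ p : ℕ, p.Prime → ¬ p ∣ N → ¬ ((∃ y, v = (p : Λ) * y) ∧ ∃ y, w = (p : Λ) * y))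
    (hind : ∀ α β : R, α • v + β • w = 0 → α = 0 ∧ β = 0) (hn : Q.n v ≠ 0 ∨ Q.n w ≠ 0) :
    ∃ t : R, (∃ c, Q.T ((v + t • w) * c) = 1) ∧ Q.n (v + t • w) ≠ 0 := by
  obtain ⟨t0, d, hd, ht⟩ := prim_line hN Q v w hvw hind
  obtain ⟨τ, hτ⟩ := quad_avoid hN (Q.n v) (Q.T (v * Q.conj w)) (Q.n w) t0 d hd (fun h => by
    rcases hn with hn | hn
    · exact hn h.1
    · exact hn h.2.2)
  exact ⟨t0 + d * τ, ht τ, by rw [n_line]; exact hτ⟩

/-- primitive part of a non-zero pure element -/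
theorem prim_part (hN : N ≠ 0) (Q : QAlg N R Λ) (s : Λ) (hs : s ≠ 0) :
    ∃ (κ : R) (s0 w : Λ), κ ≠ 0 ∧ s = κ • s0 ∧ Q.T (s0 * w) = 1 := by
  have hD := Loc.isDomain N R hN
  have hP := Loc.isPrincipalIdealRing N R
  exact Q.content_ne s hs

theorem T_zero_of_smul (hN : N ≠ 0) (Q : QAlg N R Λ) {κ : R} (hκ : κ ≠ 0) {x : Λ}
    (h : Q.T (κ • x) = 0) : Q.T x = 0 := by
  have hD := Loc.isDomain N R hN
  rw [map_smul, smul_eq_mul] at h
  exact (mul_eq_zero.1 h).resolve_left hκ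

theorem n_ne_of_smul (Q : QAlg N R Λ) {κ : R} {x : Λ} (h : Q.n (κ • x) ≠ 0) : Q.n x ≠ 0 := by
  intro h0
  rw [Q.n_smul, h0, mul_zero] at h
  exact h rfl

/-- (i-a) a pure `s` with `n(c + s a) ≠ 0` -/
theorem exists_pure_n (hN : N ≠ 0) (Q : QAlg N R Λ) (a c u v : Λ) (h1 : u * a + v * c = 1) :
    ∃ s, Q.T s = 0 ∧ Q.n (c + s * a) ≠ 0 := by
  have hD := Loc.isDomain N R hN
  have hP := Loc.isPrincipalIdealRing N R
  have hC := Loc.charZero N R hN
  by_contra hcon
  push Not at hcon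
  have h0 : Q.n c = 0 := by
    have := hcon 0 (map_zero _)
    rwa [zero_mul, add_zero] at this
  have key : ∀ s, Q.T s = 0 → Q.T (c * Q.conj a * s) = 0 ∧ Q.n s * Q.n a = 0 := by
    intro s hs
    have hcs : Q.conj s = -s := by rw [Q.conj_eq, hs, map_zero, zero_sub]
    have e1 := hcon s hs
    have e2 := hcon (-s) (by rw [map_neg, hs, neg_zero])
    rw [Q.n_add, h0, Q.n_mul, Q.conj_mul, hcs, mul_neg, mul_neg, map_neg, ← mul_assoc] at e1
    rw [Q.n_add, h0, Q.n_mul, Q.conj_mul, Q.conj_neg, hcs, neg_neg, Q.n_neg, ← mul_assoc] at e2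
    constructor
    · have : (2 : R) * Q.T (c * Q.conj a * s) = 0 := by linear_combination e2 - e1
      exact (mul_eq_zero.1 this).resolve_left two_ne_zero
    · have : (2 : R) * (Q.n s * Q.n a) = 0 := by linear_combination e2 + e1
      exact (mul_eq_zero.1 this).resolve_left two_ne_zero
  obtain ⟨u', v', huv⟩ := Q.exists_comm hN
  have hna : Q.n a = 0 := (mul_eq_zero.1 (key _ (T_comm_sub Q u' v')).2).resolve_left huv
  -- `c conj a` is central of norm zero
  have hcen : ∀ z, z * (c * Q.conj a) = (c * Q.conj a) * z := by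
    intro z
    rw [← sub_eq_zero]
    refine Q.eq_zero_of_T _ fun t => ?_
    have e1 := (key (z * t - t * z) (T_comm_sub Q z t)).1
    rw [mul_sub, map_sub, sub_eq_zero] at e1
    rw [sub_mul, map_sub, sub_eq_zero]
    calc Q.T (z * (c * Q.conj a) * t) = Q.T (c * Q.conj a * (t * z)) := by
          rw [mul_assoc, Q.T_comm, mul_assoc]
      _ = Q.T (c * Q.conj a * (z * t)) := e1.symm
      _ = _ := by rw [mul_assoc (c * Q.conj a)]
  have h2 := two_smul_of_central hN Q _ hcen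
  have h3 : Q.T (c * Q.conj a) = 0 := by
    have e1 := congrArg Q.n h2
    rw [Q.n_smul, Q.n_mul, h0, zero_mul, mul_zero, Q.n_algebraMap] at e1
    exact pow_eq_zero_iff (two_ne_zero) |>.1 e1.symm
  have h4 : c * Q.conj a = 0 := by
    rw [h3, map_zero] at h2
    exact smul_right_cancel hN (c := (2 : R)) two_ne_zero (by rw [h2, smul_zero])
  have h5 : Q.conj a = 0 := by
    calc Q.conj a = (u * a + v * c) * Q.conj a := by rw [h1, one_mul]
      _ = u * (a * Q.conj a) + v * (c * Q.conj a) := by simp only [add_mul, mul_assoc]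
      _ = 0 := by rw [Q.mul_conj, hna, h4]; simp
  have h6 : a = 0 := by rw [← Q.conj_conj a, h5, Q.conj_zero]
  rw [h6, mul_zero, zero_add] at h1
  have h7 := congrArg Q.n h1
  rw [Q.n_mul, h0, mul_zero, Q.n_one] at h7
  exact zero_ne_one h7

/-- two primitive pure elements whose commutator has non-zero norm -/
theorem exists_pure_pair (hN : N ≠ 0) (Q : QAlg N R Λ) :
    ∃ s1 s2 w1 w2 : Λ, Q.T s1 = 0 ∧ Q.T s2 = 0 ∧ Q.T (s1 * w1) = 1 ∧ Q.T (s2 * w2) = 1 ∧
      Q.n (s1 * s2 - s2 * s1) ≠ 0 := by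
  have hD := Loc.isDomain N R hN
  have hP := Loc.isPrincipalIdealRing N R
  have hC := Loc.charZero N R hN
  obtain ⟨u, v, huv⟩ := Q.exists_comm hN
  set p1 := (2 : R) • u - algebraMap R Λ (Q.T u) with hp1
  set p2 := (2 : R) • v - algebraMap R Λ (Q.T v) with hp2
  have hT1 : Q.T p1 = 0 := by
    rw [hp1, map_sub, map_smul, Q.T_algebraMap, smul_eq_mul, sub_self]
  have hT2 : Q.T p2 = 0 := by
    rw [hp2, map_sub, map_smul, Q.T_algebraMap, smul_eq_mul, sub_self]
  have hcm : p1 * p2 - p2 * p1 = (4 : R) • (u * v - v * u) := by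
    rw [hp1, hp2, mul_sub, sub_mul, sub_mul, mul_sub, sub_mul, sub_mul,
      smul_mul_smul_comm, smul_mul_smul_comm, Algebra.commutes (Q.T u) ((2 : R) • v),
      Algebra.commutes (Q.T v) ((2 : R) • u), Algebra.commutes (Q.T u) (algebraMap R Λ (Q.T v))]
    have : (2 : R) * 2 = 4 := by norm_num
    rw [this, smul_sub]; abel
  have hn : Q.n (p1 * p2 - p2 * p1) ≠ 0 := by
    rw [hcm, Q.n_smul]
    exact mul_ne_zero (pow_ne_zero 2 (by norm_num)) huv
  have h1 : p1 ≠ 0 := by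
    intro h0
    rw [h0, zero_mul, mul_zero, sub_zero, Q.n_zero] at hn
    exact hn rfl
  have h2 : p2 ≠ 0 := by
    intro h0
    rw [h0, zero_mul, mul_zero, sub_zero, Q.n_zero] at hn
    exact hn rfl
  obtain ⟨κ1, s1, w1, hκ1, e1, f1⟩ := prim_part hN Q p1 h1
  obtain ⟨κ2, s2, w2, hκ2, e2, f2⟩ := prim_part hN Q p2 h2
  refine ⟨s1, s2, w1, w2, T_zero_of_smul hN Q hκ1 (by rw [← e1]; exact hT1),
    T_zero_of_smul hN Q hκ2 (by rw [← e2]; exact hT2), f1, f2, ?_⟩
  apply n_ne_of_smul Q (κ := κ1 * κ2)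
  rwa [e1, e2, smul_mul_smul_comm, smul_mul_smul_comm, mul_comm κ2 κ1, ← smul_sub] at hn

/-- one of `s1 a`, `s2 a` is independent of `c0` -/
theorem pair_indep (hN : N ≠ 0) (Q : QAlg N R Λ) (a c0 s1 s2 : Λ) (ha : a ≠ 0)
    (hc0 : Q.n c0 ≠ 0) (hs : Q.n (s1 * s2 - s2 * s1) ≠ 0) :
    (∀ α β : R, α • c0 + β • (s1 * a) = 0 → α = 0 ∧ β = 0) ∨
    (∀ α β : R, α • c0 + β • (s2 * a) = 0 → α = 0 ∧ β = 0) := by
  have hD := Loc.isDomain N R hN
  have hP := Loc.isPrincipalIdealRing N R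
  have hC := Loc.charZero N R hN
  have hc0' := Q.ne_zero_of_n hc0
  by_contra hcon
  rw [not_or] at hcon
  obtain ⟨hcon1, hcon2⟩ := hcon
  push Not at hcon1 hcon2
  obtain ⟨α1, β1, h1, h1'⟩ := hcon1
  obtain ⟨α2, β2, h2, h2'⟩ := hcon2
  have hβ1 : β1 ≠ 0 := by
    rintro rfl
    rw [zero_smul, add_zero] at h1
    refine h1' ?_ rfl
    by_contra hα
    exact hc0' (smul_right_cancel hN hα (by rw [h1, smul_zero]))
  have hβ2 : β2 ≠ 0 := by
    rintro rfl
    rw [zero_smul, add_zero] at h2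
    refine h2' ?_ rfl
    by_contra hα
    exact hc0' (smul_right_cancel hN hα (by rw [h2, smul_zero]))
  -- both coefficients `α` vanish
  have hα : α1 = 0 ∧ α2 = 0 := by
    by_cases hna : Q.n a = 0
    · have key : ∀ (α β : R) (s : Λ), α • c0 + β • (s * a) = 0 → α = 0 := by
        intro α β s h
        by_contra hα
        have e1 : α • (c0 * Q.conj a) = 0 := by
          have := congrArg (fun x => x * Q.conj a) h
          simp only [add_mul, smul_mul_assoc, mul_assoc, zero_mul] at this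
          rwa [Q.mul_conj, hna, map_zero, mul_zero, smul_zero, add_zero] at this
        have e2 : c0 * Q.conj a = 0 := smul_right_cancel hN hα (by rw [e1, smul_zero])
        have e3 := Q.mul_left_cancel_of_n hc0 e2
        exact ha (by rw [← Q.conj_conj a, e3, Q.conj_zero])
      exact ⟨key _ _ _ h1, key _ _ _ h2⟩
    · have e1 : ((α2 * β1) • s1 - (α1 * β2) • s2) * a = 0 := by
        have : ((α2 * β1) • s1 - (α1 * β2) • s2) * a =
            α2 • (α1 • c0 + β1 • (s1 * a)) - α1 • (α2 • c0 + β2 • (s2 * a)) := by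
          rw [sub_mul, smul_mul_assoc, smul_mul_assoc]; module
        rw [this, h1, h2, smul_zero, smul_zero, sub_zero]
      have e2 := mul_right_cancel_of_n hN Q hna e1
      rw [sub_eq_zero] at e2
      have e3 : (α2 * β1) • (s1 * s2 - s2 * s1) = 0 := by
        rw [smul_sub, ← smul_mul_assoc, ← mul_smul_comm, e2, smul_mul_assoc, mul_smul_comm,
          sub_self]
      have e4 : (α1 * β2) • (s1 * s2 - s2 * s1) = 0 := by
        rw [smul_sub, ← smul_mul_assoc (α1 * β2) s2 s1, ← mul_smul_comm (α1 * β2) s1 s2, ← e2,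
          smul_mul_assoc, mul_smul_comm, sub_self]
      have hne := Q.ne_zero_of_n hs
      have f3 : α2 * β1 = 0 := by
        by_contra h0
        exact hne (smul_right_cancel hN h0 (by rw [e3, smul_zero]))
      have f4 : α1 * β2 = 0 := by
        by_contra h0
        exact hne (smul_right_cancel hN h0 (by rw [e4, smul_zero]))
      exact ⟨(mul_eq_zero.1 f4).resolve_right hβ2, (mul_eq_zero.1 f3).resolve_right hβ1⟩
  obtain ⟨rfl, rfl⟩ := hα
  rw [zero_smul, zero_add] at h1 h2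
  have g1 : s1 * a = 0 := smul_right_cancel hN hβ1 (by rw [h1, smul_zero])
  have g2 : s2 * a = 0 := smul_right_cancel hN hβ2 (by rw [h2, smul_zero])
  have g3 : (s1 * s2 - s2 * s1) * a = 0 := by
    rw [sub_mul, mul_assoc, mul_assoc, g1, g2, mul_zero, mul_zero, sub_zero]
  exact ha (Q.mul_left_cancel_of_n hs g3)

/-- if `u a + v c = 1` then not both `c` and `s a` are divisible by `p`, for `s` primitive -/
theorem not_both (Q : QAlg N R Λ) (a c u v s w : Λ) (h1 : u * a + v * c = 1)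
    (hs : Q.T (s * w) = 1) (p : ℕ) (hp : p.Prime) (hpN : ¬ p ∣ N) :
    ¬ ((∃ y, c = (p : Λ) * y) ∧ ∃ y, s * a = (p : Λ) * y) := by
  rintro ⟨⟨y1, h2⟩, y2, h3⟩
  have := Fact.mk hp
  obtain ⟨ρ, -, hker, -⟩ := Q.fibre p hp hpN
  have hp0 : ρ (p : Λ) = 0 := by
    rw [map_natCast, ← Matrix.diagonal_natCast, ZMod.natCast_self]
    exact Matrix.diagonal_zero
  have e1 : ρ c = 0 := by rw [h2, map_mul, hp0, zero_mul]
  have e2 : ρ s * ρ a = 0 := by rw [← map_mul, h3, map_mul, hp0, zero_mul]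
  have e3 : ρ u * ρ a = 1 := by
    have := congrArg ρ h1
    rwa [map_add, map_mul, map_mul, e1, mul_zero, add_zero, map_one] at this
  have e4 : ρ a * ρ u = 1 := mul_eq_one_comm.1 e3
  have e5 : ρ s = 0 := by
    calc ρ s = ρ s * (ρ a * ρ u) := by rw [e4, mul_one]
      _ = 0 := by rw [← mul_assoc, e2, zero_mul]
  obtain ⟨y, hy⟩ := hker _ e5
  refine Loc.not_isUnit (R := R) hp hpN (IsUnit.of_mul_eq_one (Q.T (y * w)) ?_)
  rw [← hs, hy, mul_assoc, ← map_natCast (algebraMap R Λ), ← Algebra.smul_def, map_smul,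
    smul_eq_mul]

theorem prim_of_left (Q : QAlg N R Λ) (v c : Λ) (h : v * c = 1) : ∃ w, Q.T (c * w) = 1 := by
  obtain ⟨f, hf⟩ := Q.one_prim
  obtain ⟨w, hw⟩ := Q.unimod f
  refine ⟨w * v, ?_⟩
  rw [← mul_assoc, Q.T_comm, ← mul_assoc, h, ← hw, hf]

/-- (i) -/
theorem step_one (hN : N ≠ 0) (Q : QAlg N R Λ) (a c u v : Λ) (h1 : u * a + v * c = 1) :
    ∃ s, Q.T s = 0 ∧ Q.n (c + s * a) ≠ 0 ∧ ∃ w, Q.T ((c + s * a) * w) = 1 := by
  have hD := Loc.isDomain N R hN
  have hP := Loc.isPrincipalIdealRing N R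
  have hC := Loc.charZero N R hN
  obtain ⟨s0, hs0, hn0⟩ := exists_pure_n hN Q a c u v h1
  by_cases ha : a = 0
  · refine ⟨s0, hs0, hn0, ?_⟩
    rw [ha, mul_zero, zero_add] at h1
    rw [ha, mul_zero, add_zero]
    exact prim_of_left Q v c h1
  obtain ⟨s1, s2, w1, w2, ht1, ht2, hw1, hw2, hs⟩ := exists_pure_pair hN Q
  have h1' : (u - v * s0) * a + v * (c + s0 * a) = 1 := by rw [← h1]; noncomm_ring
  have fin : ∀ s w, Q.T s = 0 → Q.T (s * w) = 1 →
      (∀ α β : R, α • (c + s0 * a) + β • (s * a) = 0 → α = 0 ∧ β = 0) →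
      ∃ s, Q.T s = 0 ∧ Q.n (c + s * a) ≠ 0 ∧ ∃ w, Q.T ((c + s * a) * w) = 1 := by
    intro s w hTs hw hind
    obtain ⟨t, ⟨w', hw'⟩, ht⟩ := prim_norm hN Q (c + s0 * a) (s * a)
      (not_both Q a (c + s0 * a) _ v s w h1' hw) hind (Or.inl hn0)
    have e : c + s0 * a + t • (s * a) = c + (s0 + t • s) * a := by
      rw [add_mul, smul_mul_assoc, add_assoc]
    rw [e] at ht hw'
    exact ⟨s0 + t • s, by rw [map_add, map_smul, hs0, hTs, smul_zero, add_zero], ht, w', hw'⟩
  rcases pair_indep hN Q a (c + s0 * a) s1 s2 ha hn0 hs with hind | hind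
  · exact fin s1 w1 ht1 hw1 hind
  · exact fin s2 w2 ht2 hw2 hind

/-- `s² = -n(s)` for pure `s` -/
theorem pure_sq (Q : QAlg N R Λ) (s : Λ) (hs : Q.T s = 0) : s * s = -algebraMap R Λ (Q.n s) := by
  rw [Q.quad s, hs, zero_smul, zero_sub]

/-- the lattice of the pure `s` with `T(s c) = 0`: two independent primitive elements, the first
one of non-zero norm -/
theorem exists_orth_pair (hN : N ≠ 0) (Q : QAlg N R Λ) (c : Λ) :
    ∃ s1 s2 w1 w2 : Λ, Q.T s1 = 0 ∧ Q.T (s1 * c) = 0 ∧ Q.n s1 ≠ 0 ∧ Q.T (s1 * w1) = 1 ∧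
      Q.T s2 = 0 ∧ Q.T (s2 * c) = 0 ∧ Q.T (s2 * w2) = 1 ∧
      ∀ α β : R, α • s1 + β • s2 = 0 → α = 0 ∧ β = 0 := by
  have hD := Loc.isDomain N R hN
  have hP := Loc.isPrincipalIdealRing N R
  have hC := Loc.charZero N R hN
  -- a first element `k` of non-zero norm and `y` not commuting with it
  have h0 : ∃ k y : Λ, Q.T k = 0 ∧ Q.T (k * c) = 0 ∧ Q.n k ≠ 0 ∧ k * y - y * k ≠ 0 ∧
      Q.T ((k * y - y * k) * c) = 0 := by
    by_cases hcen : ∀ z, z * c = c * z
    · obtain ⟨u, v, huv⟩ := Q.exists_comm hN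
      obtain ⟨y, hy⟩ := exists_not_commute hN Q (u * v - v * u) (T_comm_sub Q u v)
        (Q.ne_zero_of_n huv)
      have key : ∀ z, Q.T z = 0 → Q.T (z * c) = 0 := by
        intro z hz
        have h2 := two_smul_of_central hN Q c hcen
        have h3 : (2 : R) * Q.T (z * c) = 0 := by
          rw [← smul_eq_mul, ← map_smul, ← mul_smul_comm, h2, ← Algebra.commutes,
            ← Algebra.smul_def, map_smul, hz, smul_zero]
        exact (mul_eq_zero.1 h3).resolve_left two_ne_zero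
      exact ⟨_, y, T_comm_sub Q u v, key _ (T_comm_sub Q u v), huv, hy,
        key _ (T_comm_sub Q _ y)⟩
    · push Not at hcen
      obtain ⟨z0, hz0⟩ := hcen
      obtain ⟨z, hz⟩ := exists_comm_n hN Q c z0 (sub_ne_zero.2 hz0)
      refine ⟨_, c, T_comm_sub Q z c, T_comm_mul Q z c, hz, ?_, T_comm_mul Q _ c⟩
      -- otherwise `c` is central
      intro hcon
      set k := z * c - c * z with hk
      have e1 : k * c = c * k := sub_eq_zero.1 hcon
      have hTk : Q.T k = 0 := T_comm_sub Q z c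
      have hTkc : Q.T (k * c) = 0 := T_comm_mul Q z c
      clear_value k
      have e2 : k * c + Q.conj (k * c) = 0 := by rw [Q.add_conj, hTkc, map_zero]
      have e3 : Q.conj (k * c) = -(Q.conj c * k) := by
        rw [Q.conj_mul, Q.conj_eq k, hTk, map_zero, zero_sub, mul_neg]
      have e4 : k * ((2 : R) • c - algebraMap R Λ (Q.T c)) = 0 := by
        rw [e3, Q.conj_eq c, sub_mul, ← e1, Algebra.commutes] at e2
        rw [mul_sub, mul_smul_comm, two_smul]
        rw [← e2]; abel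
      have e5 := Q.mul_left_cancel_of_n hz e4
      rw [sub_eq_zero] at e5
      have e6 : (2 : R) • (z0 * c - c * z0) = 0 := by
        rw [smul_sub, ← mul_smul_comm, ← smul_mul_assoc, e5, Algebra.commutes, sub_self]
      exact hz0 (sub_eq_zero.1 (smul_right_cancel hN (c := (2 : R)) two_ne_zero
        (by rw [e6, smul_zero])))
  obtain ⟨k, y, hTk, hTkc, hnk, hky, hkyc⟩ := h0
  obtain ⟨κ1, s1, w1, hκ1, e1, f1⟩ := prim_part hN Q k (Q.ne_zero_of_n hnk)
  obtain ⟨κ2, s2, w2, hκ2, e2, f2⟩ := prim_part hN Q _ hky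
  have hn1 : Q.n s1 ≠ 0 := n_ne_of_smul Q (κ := κ1) (by rw [← e1]; exact hnk)
  have hT1 : Q.T s1 = 0 := T_zero_of_smul hN Q hκ1 (by rw [← e1]; exact hTk)
  have hs2 : s2 ≠ 0 := by
    rintro rfl
    rw [smul_zero] at e2
    exact hky e2
  -- `s1` and `s2` anticommute
  have hanti : s1 * s2 + s2 * s1 = 0 := by
    have h1 : k * (k * y - y * k) + (k * y - y * k) * k = 0 := by
      have : k * (k * y - y * k) + (k * y - y * k) * k = (k * k) * y - y * (k * k) := by
        noncomm_ring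
      rw [this, pure_sq Q k hTk, neg_mul, mul_neg, Algebra.commutes, sub_self]
    rw [e2] at h1
    rw [e1, smul_mul_smul_comm, smul_mul_smul_comm, mul_comm κ2 κ1, ← smul_add] at h1
    exact smul_right_cancel hN (mul_ne_zero hκ1 hκ2) (by rw [h1, smul_zero])
  refine ⟨s1, s2, w1, w2, hT1, T_zero_of_smul hN Q hκ1 ?_, hn1, f1,
    T_zero_of_smul hN Q hκ2 (by rw [← e2]; exact T_comm_sub Q k y),
    T_zero_of_smul hN Q hκ2 ?_, f2, ?_⟩
  · rw [← smul_mul_assoc, ← e1]; exact hTkc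
  · rw [← smul_mul_assoc, ← e2]; exact hkyc
  · intro α β h
    have h1 : (2 * α * Q.n s1) • (1 : Λ) = 0 := by
      have g1 := congrArg (fun x => x * s1) h
      have g2 := congrArg (fun x => s1 * x) h
      simp only [add_mul, smul_mul_assoc, zero_mul] at g1
      simp only [mul_add, mul_smul_comm, mul_zero] at g2
      have g3 : β • (s1 * s2 + s2 * s1) = 0 := by rw [hanti, smul_zero]
      have g4 : (2 * α) • (s1 * s1) = 0 := by
        have : (2 * α) • (s1 * s1) = (α • (s1 * s1) + β • (s2 * s1)) +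
            (α • (s1 * s1) + β • (s1 * s2)) - β • (s1 * s2 + s2 * s1) := by module
        rw [this, g1, g2, g3]; simp
      rw [pure_sq Q s1 hT1, smul_neg, Algebra.algebraMap_eq_smul_one, smul_smul,
        neg_eq_zero] at g4
      exact g4
    have hα : α = 0 := by
      by_contra hα
      have h2 : (2 * α * Q.n s1) ≠ 0 := mul_ne_zero (mul_ne_zero two_ne_zero hα) hn1
      have h3 : (1 : Λ) = 0 := smul_right_cancel hN h2 (by rw [h1, smul_zero])
      exact hs2 (by rw [← mul_one s2, h3, mul_zero])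
    refine ⟨hα, ?_⟩
    rw [hα, zero_smul, zero_add] at h
    by_contra hβ
    exact hs2 (smul_right_cancel hN hβ (by rw [h, smul_zero]))

/-- (iii) -/
theorem step_three (hN : N ≠ 0) (Q : QAlg N R Λ) (a c u v w : Λ) (h1 : u * a + v * c = 1)
    (hc : Q.T (c * w) = 1) (hn : Q.n c ≠ 0) (h2 : Q.T (Q.conj a * c) = 0) :
    ∃ s, Q.T s = 0 ∧ Q.T (a + s * c) = 0 ∧ Q.n (a + s * c) ≠ 0 ∧
      ∃ w, Q.T ((a + s * c) * w) = 1 := by
  have hD := Loc.isDomain N R hN
  have hP := Loc.isPrincipalIdealRing N R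
  have hC := Loc.charZero N R hN
  obtain ⟨s0, hs0, ha0⟩ := pure_step hN Q c a w hc h2
  have h1' : (v - u * s0) * c + u * (a + s0 * c) = 1 := by rw [← h1]; noncomm_ring
  obtain ⟨s1, s2, w1, w2, hT1, hTc1, hn1, hw1, hT2, hTc2, hw2, hind⟩ := exists_orth_pair hN Q c
  have hn1c : Q.n (s1 * c) ≠ 0 := by rw [Q.n_mul]; exact mul_ne_zero hn1 hn
  set a0 := a + s0 * c with ha0'
  have fin : ∀ s w, Q.T s = 0 → Q.T (s * c) = 0 → Q.T (s * w) = 1 →
      (∀ α β : R, α • a0 + β • (s * c) = 0 → α = 0 ∧ β = 0) →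
      (Q.n a0 ≠ 0 ∨ Q.n (s * c) ≠ 0) →
      ∃ s, Q.T s = 0 ∧ Q.T (a + s * c) = 0 ∧ Q.n (a + s * c) ≠ 0 ∧
        ∃ w, Q.T ((a + s * c) * w) = 1 := by
    intro s w hTs hTsc hw hi hnn
    obtain ⟨t, ⟨w', hw'⟩, ht⟩ := prim_norm hN Q a0 (s * c)
      (not_both Q c a0 _ u s w h1' hw) hi hnn
    have e : a0 + t • (s * c) = a + (s0 + t • s) * c := by
      rw [add_mul, smul_mul_assoc, ha0', add_assoc]
    have e' : Q.T (a0 + t • (s * c)) = 0 := by
      rw [map_add, map_smul, ha0, hTsc, smul_zero, add_zero]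
    rw [e] at ht hw' e'
    exact ⟨s0 + t • s, by rw [map_add, map_smul, hs0, hTs, smul_zero, add_zero], e', ht, w', hw'⟩
  by_cases ha : a0 = 0
  · -- `c` is a unit
    rw [ha, mul_zero, add_zero] at h1'
    have h3 : c * (v - u * s0) = 1 := by
      rw [← sub_eq_zero]
      refine mul_right_cancel_of_n hN Q hn ?_
      rw [sub_mul, mul_assoc, h1', mul_one, one_mul, sub_self]
    refine ⟨s0 + s1, by rw [map_add, hs0, hT1, add_zero], ?_, ?_, (v - u * s0) * w1, ?_⟩
    · rw [add_mul, ← add_assoc, ← ha0', ha, zero_add, hTc1]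
    · rw [add_mul, ← add_assoc, ← ha0', ha, zero_add]; exact hn1c
    · rw [add_mul s0, ← add_assoc, ← ha0', ha, zero_add, mul_assoc s1, ← mul_assoc c, h3, one_mul,
        hw1]
  by_cases hi : ∀ α β : R, α • a0 + β • (s1 * c) = 0 → α = 0 ∧ β = 0
  · exact fin s1 w1 hT1 hTc1 hw1 hi (Or.inr hn1c)
  push Not at hi
  obtain ⟨α, β, h3, h4⟩ := hi
  have hs1c : s1 * c ≠ 0 := Q.ne_zero_of_n hn1c
  have hα : α ≠ 0 := by
    rintro rfl
    rw [zero_smul, zero_add] at h3
    refine h4 rfl ?_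
    by_contra hβ
    exact hs1c (smul_right_cancel hN hβ (by rw [h3, smul_zero]))
  have hβ : β ≠ 0 := by
    rintro rfl
    rw [zero_smul, add_zero] at h3
    exact ha (smul_right_cancel hN hα (by rw [h3, smul_zero]))
  have h5 : α • a0 = -(β • (s1 * c)) := eq_neg_of_add_eq_zero_left h3
  have hna0 : Q.n a0 ≠ 0 := by
    apply n_ne_of_smul Q (κ := α)
    rw [h5, Q.n_neg, Q.n_smul]
    exact mul_ne_zero (pow_ne_zero 2 hβ) hn1c
  refine fin s2 w2 hT2 hTc2 hw2 (fun α' β' h6 => ?_) (Or.inl hna0)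
  have h7 : ((-(α' * β)) • s1 + (α * β') • s2) * c = 0 := by
    have : ((-(α' * β)) • s1 + (α * β') • s2) * c =
        α • (α' • a0 + β' • (s2 * c)) - α' • (α • a0 + β • (s1 * c)) := by
      rw [add_mul, smul_mul_assoc, smul_mul_assoc]; module
    rw [this, h6, h3, smul_zero, smul_zero, sub_zero]
  obtain ⟨h8, h9⟩ := hind _ _ (mul_right_cancel_of_n hN Q hn h7)
  exact ⟨(mul_eq_zero.1 (neg_eq_zero.1 h8)).resolve_right hβ,
    (mul_eq_zero.1 h9).resolve_left hα⟩

/-- **section 1**: every isotropic unimodular pair is equivalent to one with a central entry -/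
theorem sec1 (hN : N ≠ 0) (Q : QAlg N R Λ)
    (a c u v : Λ) (h1 : u * a + v * c = 1) (h2 : Q.T (Q.conj a * c) = 0) :
    ∃ s1 s2 s3 : Λ, Q.T s1 = 0 ∧ Q.T s2 = 0 ∧ Q.T s3 = 0 ∧
      Q.T (a + s2 * (c + s1 * a)) = 0 ∧
      ∃ r : R, (c + s1 * a) + s3 * (a + s2 * (c + s1 * a)) = algebraMap R Λ r := by
  have hD := Loc.isDomain N R hN
  -- (i)
  obtain ⟨s1, hs1, hn1, w1, hw1⟩ := step_one hN Q a c u v h1
  have h1' : (u - v * s1) * a + v * (c + s1 * a) = 1 := by rw [← h1]; noncomm_ring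
  have h2' : Q.T (Q.conj a * (c + s1 * a)) = 0 := by
    rw [mul_add, map_add, h2, zero_add, ← mul_assoc, Q.T_comm, ← mul_assoc, Q.mul_conj,
      ← Algebra.smul_def, map_smul, hs1, smul_zero]
  set c' := c + s1 * a with hc'
  -- (iii)
  obtain ⟨s2, hs2, hT2, hn2, w2, hw2⟩ := step_three hN Q a c' _ v w1 h1' hw1 hn1 h2'
  have h3 : Q.T (Q.conj (a + s2 * c') * c') = 0 := by
    have hcs : Q.conj s2 = -s2 := by rw [Q.conj_eq, hs2, map_zero, zero_sub]
    rw [Q.conj_add, Q.conj_mul, hcs, add_mul, map_add, h2', zero_add, mul_neg, neg_mul, map_neg,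
      mul_assoc, Q.T_comm, mul_assoc, Q.mul_conj, ← Algebra.commutes, ← Algebra.smul_def,
      map_smul, hs2, smul_zero, neg_zero]
  set a' := a + s2 * c' with ha'
  -- (iv)
  have h4 : Q.T (Q.conj c' * a') = 0 := by
    rw [← Q.T_conj, Q.conj_mul, Q.conj_conj]; exact h3
  obtain ⟨s, hs, hT3⟩ := pure_step hN Q a' c' w2 hw2 h4
  have hca : Q.conj a' = -a' := by rw [Q.conj_eq, hT2, map_zero, zero_sub]
  have h5 : Q.T (a' * (c' + s * a')) = 0 := by
    rw [mul_add, map_add, ← mul_assoc, Q.T_comm (a' * s), ← mul_assoc, pure_sq Q a' hT2,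
      neg_mul, map_neg, ← Algebra.smul_def, map_smul, hs, smul_zero, neg_zero, add_zero]
    rw [hca, neg_mul, map_neg, neg_eq_zero] at h3
    exact h3
  set c'' := c' + s * a' with hc''
  have hcc : Q.conj c'' = -c'' := by rw [Q.conj_eq, hT3, map_zero, zero_sub]
  -- (v): `a'` and `c''` anticommute
  have h6 : c'' * a' = a' * -c'' := by
    have e1 := Q.add_conj (a' * c'')
    rw [h5, map_zero, Q.conj_mul, hca, hcc, neg_mul_neg] at e1
    rw [mul_neg]
    exact eq_neg_of_add_eq_zero_right e1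
  obtain ⟨t, z, e1, e2⟩ := Q.idealizer' a' c'' (-c'') w2 h6 (by rw [map_neg, hT3, neg_zero]) hw2
  have hz : Q.T z = 0 := by
    have e3 : a' * c'' = t • a' - Q.n a' • z := by
      conv_lhs => rw [e1]
      rw [mul_add, ← mul_assoc, pure_sq Q a' hT2, ← Algebra.commutes, ← Algebra.smul_def, neg_mul,
        ← Algebra.smul_def, sub_eq_add_neg]
    rw [e3, map_sub, map_smul, map_smul, hT2, smul_zero, zero_sub, neg_eq_zero, smul_eq_mul] at h5
    exact (mul_eq_zero.1 h5).resolve_left hn2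
  refine ⟨s1, s2, s + z, hs1, hs2, by rw [map_add, hs, hz, add_zero], hT2, -t, ?_⟩
  have e4 : c' + (s + z) * a' = c'' + z * a' := by rw [hc'', add_mul]; abel
  rw [e4, map_neg]
  have e5 : c'' = -(algebraMap R Λ t) - z * a' := by
    rw [← neg_neg c'', e2]; abel
  rw [e5]; abel

end

end BWC
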