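import Pool.Agent.BWC.Defs

/-!
# The generators are isometries; isometries with the same first block column
-/

namespace BWC

open Matrix
open BW hiding star

section
variable {ε : ℤ} {n P : Type*} [DecidableEq n] [Fintype n] [Ring P] [StarRing P]

theorem smul_one_mul' (A : Matrix n n P) : (ε • (1 : Matrix n n P)) * A = ε • A := by
  rw [smul_mul_assoc, Matrix.one_mul]

theorem mul_smul_one' (A : Matrix n n P) : A * (ε • (1 : Matrix n n P)) = ε • A := by
  rw [mul_smul_comm, Matrix.mul_one]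

/-- the equations of the unitary group, in blocks -/
theorem mem_UG_blocks {g : (Matrix (n ⊕ n) (n ⊕ n) P)ˣ} {A B C D : Matrix n n P}
    (h : g.val = Matrix.fromBlocks A B C D) : g ∈ UG ε n P ↔
      Aᴴ * C + ε • (Cᴴ * A) = 0 ∧ Aᴴ * D + ε • (Cᴴ * B) = 1 ∧
      Bᴴ * C + ε • (Dᴴ * A) = ε • (1 : Matrix n n P) ∧ Bᴴ * D + ε • (Dᴴ * B) = 0 := by
  rw [mem_UG, h, J, Matrix.fromBlocks_conjTranspose, Matrix.fromBlocks_multiply,
    Matrix.fromBlocks_multiply, Matrix.fromBlocks_inj]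
  simp only [Matrix.mul_zero, Matrix.mul_one, zero_add, add_zero, mul_smul_one', smul_mul_assoc]
  constructor
  · rintro ⟨h1, h2, h3, h4⟩
    exact ⟨by rw [add_comm]; exact h1, by rw [add_comm]; exact h2, by rw [add_comm]; exact h3,
      by rw [add_comm]; exact h4⟩
  · rintro ⟨h1, h2, h3, h4⟩
    exact ⟨by rw [add_comm]; exact h1, by rw [add_comm]; exact h2, by rw [add_comm]; exact h3,
      by rw [add_comm]; exact h4⟩

theorem up_mem_UG {B : Matrix n n P} (hB : Sk ε B) : up B ∈ UG ε n P := by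
  rw [mem_UG_blocks (up_val B)]
  simp only [Matrix.conjTranspose_one, Matrix.conjTranspose_zero, Matrix.mul_zero, Matrix.zero_mul,
    smul_zero, add_zero, Matrix.one_mul, Matrix.mul_one, zero_add, true_and]
  have : Bᴴ = -(ε • B) := hB
  rw [this]; simp

theorem lo_mem_UG (hε : ε * ε = 1) {C : Matrix n n P} (hC : Sk ε C) : lo C ∈ UG ε n P := by
  rw [mem_UG_blocks (lo_val C)]
  simp only [Matrix.conjTranspose_one, Matrix.conjTranspose_zero, Matrix.mul_zero, Matrix.zero_mul,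
    smul_zero, add_zero, Matrix.one_mul, Matrix.mul_one, zero_add, and_true]
  have : Cᴴ = -(ε • C) := hC
  rw [this, smul_neg, smul_smul, hε]; simp

theorem lev_mem_UG (A : (Matrix n n P)ˣ) : lev A ∈ UG ε n P := by
  have h2 : A.valᴴ * (A⁻¹.val)ᴴ = 1 := by
    rw [← Matrix.conjTranspose_mul, ← Units.val_mul, inv_mul_cancel, Units.val_one,
      Matrix.conjTranspose_one]
  have h3 : A⁻¹.val * A.val = 1 := by rw [← Units.val_mul, inv_mul_cancel, Units.val_one]
  rw [mem_UG_blocks (lev_val A)]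
  simp [h2, h3]

theorem UP_le_UG : UP ε n P ≤ UG ε n P := by
  rintro _ ⟨B, hB, rfl⟩; exact up_mem_UG hB

theorem UM_le_UG (hε : ε * ε = 1) : UM ε n P ≤ UG ε n P := by
  rintro _ ⟨B, hB, rfl⟩; exact lo_mem_UG hε hB

theorem EU_le_UG (hε : ε * ε = 1) : EU ε n P ≤ UG ε n P := sup_le UP_le_UG (UM_le_UG hε)

theorem EUL_le_UG (hε : ε * ε = 1) : EUL ε n P ≤ UG ε n P := by
  refine sup_le (EU_le_UG hε) ?_
  rintro _ ⟨A, -, rfl⟩
  exact lev_mem_UG A

/-- an isometry whose first block column is `(1, 0)` is in `U_P` -/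
theorem mem_UP_of_col {Z : (Matrix (n ⊕ n) (n ⊕ n) P)ˣ} (hZ : Z ∈ UG ε n P)
    (h : ∀ x j, Z.val x (Sum.inl j) = (1 : Matrix (n ⊕ n) (n ⊕ n) P) x (Sum.inl j)) :
    Z ∈ UP ε n P := by
  have hb : Z.val = Matrix.fromBlocks 1 (Z.val.toBlocks₁₂) 0 (Z.val.toBlocks₂₂) := by
    ext x y
    rcases x with x | x <;> rcases y with y | y
    · rw [h]; simp [Matrix.one_apply]
    · simp [Matrix.toBlocks₁₂]
    · rw [h]; simp
    · simp [Matrix.toBlocks₂₂]
  obtain ⟨-, h2, -, h4⟩ := (mem_UG_blocks hb).1 hZ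
  simp only [Matrix.conjTranspose_one, Matrix.one_mul, Matrix.conjTranspose_zero, Matrix.zero_mul,
    smul_zero, add_zero] at h2
  rw [h2] at h4 hb
  simp only [Matrix.mul_one, Matrix.conjTranspose_one, Matrix.one_mul] at h4
  refine ⟨Z.val.toBlocks₁₂, ?_, ?_⟩
  · exact eq_neg_of_add_eq_zero_left h4
  · ext1; rw [hb]; rfl

/-- two isometries with the same first block column differ by an element of `U_P` -/
theorem same_cols {X Y : (Matrix (n ⊕ n) (n ⊕ n) P)ˣ} (hX : X ∈ UG ε n P) (hY : Y ∈ UG ε n P)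
    (h : ∀ x j, X.val x (Sum.inl j) = Y.val x (Sum.inl j)) : X⁻¹ * Y ∈ UP ε n P := by
  refine mem_UP_of_col (mul_mem (inv_mem hX) hY) (fun x j => ?_)
  have h1 : (X⁻¹ * Y).val x (Sum.inl j) = ∑ y, X⁻¹.val x y * Y.val y (Sum.inl j) := by
    rw [Units.val_mul, Matrix.mul_apply]
  rw [h1]
  simp only [← h]
  rw [← Matrix.mul_apply, ← Units.val_mul, inv_mul_cancel, Units.val_one]

end


section Emb

open Pool.Agent.Helper24.BWR

variable {ε : ℤ} {m n P : Type*} [DecidableEq m] [Fintype m] [DecidableEq n] [Fintype n] [Ring P]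

theorem pm_conjTranspose [StarRing P] (φ : m ↪ n) : (pm P φ)ᴴ = qm P φ := by
  ext a i
  simp only [Matrix.conjTranspose_apply, pm, qm]
  split_ifs <;> simp

theorem qm_conjTranspose [StarRing P] (φ : m ↪ n) : (qm P φ)ᴴ = pm P φ := by
  rw [← pm_conjTranspose, Matrix.conjTranspose_conjTranspose]

theorem emb_conjTranspose [StarRing P] (φ : m ↪ n) (M : Matrix m m P) :
    (emb φ M)ᴴ = emb φ Mᴴ := by
  rw [emb_apply, emb_apply, Matrix.conjTranspose_add, Matrix.conjTranspose_one,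
    Matrix.conjTranspose_mul, Matrix.conjTranspose_mul, pm_conjTranspose, qm_conjTranspose,
    Matrix.conjTranspose_sub, Matrix.conjTranspose_one, Matrix.mul_assoc]

theorem pm_sumMap (φ : m ↪ n) :
    pm P (φ.sumMap φ) = Matrix.fromBlocks (pm P φ) 0 0 (pm P φ) := by
  ext x y
  rcases x with x | x <;> rcases y with y | y <;> simp [pm]

theorem qm_sumMap (φ : m ↪ n) :
    qm P (φ.sumMap φ) = Matrix.fromBlocks (qm P φ) 0 0 (qm P φ) := by
  ext x y
  rcases x with x | x <;> rcases y with y | y <;> simp [qm]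

theorem J_mul_pm (φ : m ↪ n) : J ε n P * pm P (φ.sumMap φ) = pm P (φ.sumMap φ) * J ε m P := by
  rw [pm_sumMap, J, J, Matrix.fromBlocks_multiply, Matrix.fromBlocks_multiply]
  simp only [Matrix.zero_mul, Matrix.mul_zero, zero_add, add_zero, Matrix.one_mul, Matrix.mul_one,
    Matrix.smul_mul, Matrix.mul_smul, smul_zero]

theorem qm_mul_J (φ : m ↪ n) : qm P (φ.sumMap φ) * J ε n P = J ε m P * qm P (φ.sumMap φ) := by
  rw [qm_sumMap, J, J, Matrix.fromBlocks_multiply, Matrix.fromBlocks_multiply]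
  simp only [Matrix.zero_mul, Matrix.mul_zero, zero_add, add_zero, Matrix.one_mul, Matrix.mul_one,
    Matrix.smul_mul, Matrix.mul_smul, smul_zero]

/-- embedded matrices in blocks -/
theorem emb_fromBlocks (φ : m ↪ n) (A B C D : Matrix m m P) :
    emb (φ.sumMap φ) (Matrix.fromBlocks A B C D) = Matrix.fromBlocks (emb φ A)
      (pm P φ * B * qm P φ) (pm P φ * C * qm P φ) (emb φ D) := by
  have h : Matrix.fromBlocks A B C D - 1 = Matrix.fromBlocks (A - 1) B C (D - 1) := by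
    rw [← Matrix.fromBlocks_one, sub_eq_add_neg, Matrix.fromBlocks_neg, Matrix.fromBlocks_add]
    simp [sub_eq_add_neg]
  rw [emb_apply, emb_apply, emb_apply, pm_sumMap, qm_sumMap, h, Matrix.fromBlocks_multiply,
    Matrix.fromBlocks_multiply, ← Matrix.fromBlocks_one, Matrix.fromBlocks_add]
  simp

theorem embU_up (φ : m ↪ n) (B : Matrix m m P) : embU φ (up B) = up (pm P φ * B * qm P φ) := by
  ext1
  change emb (φ.sumMap φ) (up B).val = _
  rw [up_val, up_val, emb_fromBlocks, map_one]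
  simp

theorem embU_lo (φ : m ↪ n) (C : Matrix m m P) : embU φ (lo C) = lo (pm P φ * C * qm P φ) := by
  ext1
  change emb (φ.sumMap φ) (lo C).val = _
  rw [lo_val, lo_val, emb_fromBlocks, map_one]
  simp

theorem embU_embU {k : Type*} [DecidableEq k] [Fintype k] (φ : k ↪ m) (ψ : m ↪ n)
    (g : (Matrix (k ⊕ k) (k ⊕ k) P)ˣ) : embU ψ (embU φ g) = embU (φ.trans ψ) g := by
  ext1
  change emb (ψ.sumMap ψ) (emb (φ.sumMap φ) g.val) = emb ((φ.trans ψ).sumMap (φ.trans ψ)) g.val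
  rw [emb_emb]
  congr 1
  congr 1
  ext x
  rcases x with x | x <;> rfl

theorem embL_embL {k : Type*} [DecidableEq k] [Fintype k] (φ : k ↪ m) (ψ : m ↪ n)
    (g : (Matrix k k P)ˣ) : embL ψ (embL φ g) = embL (φ.trans ψ) g := by
  ext1
  exact emb_emb φ ψ g.val

variable [StarRing P]

theorem Sk_emb (φ : m ↪ n) {B : Matrix m m P} (hB : Sk ε B) : Sk ε (pm P φ * B * qm P φ) := by
  unfold Sk at *
  rw [Matrix.conjTranspose_mul, Matrix.conjTranspose_mul, pm_conjTranspose, qm_conjTranspose, hB,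
    Matrix.neg_mul, Matrix.mul_neg, ← Matrix.mul_assoc, Matrix.mul_smul, Matrix.smul_mul]

theorem embU_lev (φ : m ↪ n) (A : (Matrix m m P)ˣ) : embU φ (lev A) = lev (embL φ A) := by
  ext1
  change emb (φ.sumMap φ) (lev A).val = _
  rw [lev_val, lev_val, emb_fromBlocks]
  have h1 : ((embL φ A)⁻¹).val = emb φ A⁻¹.val := by
    rw [← map_inv]; rfl
  rw [h1, emb_conjTranspose]
  simp
  rfl

theorem embU_mem_UG (φ : m ↪ n) {g : (Matrix (m ⊕ m) (m ⊕ m) P)ˣ} (hg : g ∈ UG ε m P) :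
    embU φ g ∈ UG ε n P := by
  have hg' : g.valᴴ * J ε m P * g.val = J ε m P := hg
  change (emb (φ.sumMap φ) g.val)ᴴ * J ε n P * emb (φ.sumMap φ) g.val = J ε n P
  rw [emb_conjTranspose, emb_apply, emb_apply]
  set p := pm P (φ.sumMap φ)
  set q := qm P (φ.sumMap φ)
  have e1 : J ε n P * p = p * J ε m P := J_mul_pm φ
  have e2 : q * J ε n P = J ε m P * q := qm_mul_J φ
  have e3 : q * p = 1 := qm_mul_pm _
  set X := g.valᴴ - 1
  set Y := g.val - 1
  have h1 : (1 + p * X * q) * J ε n P * (1 + p * Y * q) = J ε n P + p * X * (q * J ε n P) +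
      (J ε n P * p) * Y * q + p * X * (q * J ε n P) * p * Y * q := by
    simp only [Matrix.add_mul, Matrix.mul_add, Matrix.one_mul, Matrix.mul_one, Matrix.mul_assoc]
    abel
  rw [h1, e1, e2]
  have h2 : p * X * (J ε m P * q) * p * Y * q = p * (X * J ε m P * (q * p) * Y) * q := by
    simp only [Matrix.mul_assoc]
  rw [h2, e3]
  have h3 : J ε n P + p * X * (J ε m P * q) + p * J ε m P * Y * q +
      p * (X * J ε m P * 1 * Y) * q = J ε n P + p * (X * J ε m P + J ε m P * Y +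
      X * J ε m P * Y) * q := by
    simp only [Matrix.add_mul, Matrix.mul_add, Matrix.one_mul, Matrix.mul_one, Matrix.mul_assoc]
    abel
  rw [h3]
  have h4 : X * J ε m P + J ε m P * Y + X * J ε m P * Y = g.valᴴ * J ε m P * g.val - J ε m P := by
    simp only [X, Y]; noncomm_ring
  rw [h4, hg', sub_self, Matrix.mul_zero, Matrix.zero_mul, add_zero]

theorem embU_mem_EU (φ : m ↪ n) {g : (Matrix (m ⊕ m) (m ⊕ m) P)ˣ} (hg : g ∈ EU ε m P) :
    embU φ g ∈ EU ε n P := by
  have : EU ε m P ≤ (EU ε n P).comap (embU φ) := by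
    refine sup_le ?_ ?_
    · rintro _ ⟨B, hB, rfl⟩
      change embU φ (up B) ∈ EU ε n P
      rw [embU_up]
      exact up_mem (Sk_emb φ hB)
    · rintro _ ⟨B, hB, rfl⟩
      change embU φ (lo B) ∈ EU ε n P
      rw [embU_lo]
      exact lo_mem (Sk_emb φ hB)
  exact this hg

theorem embL_mem_E (φ : m ↪ n) {A : (Matrix m m P)ˣ} (hA : A ∈ E m P) : embL φ A ∈ E n P :=
  emb_mem φ hA

theorem embU_mem_EUL (φ : m ↪ n) {g : (Matrix (m ⊕ m) (m ⊕ m) P)ˣ} (hg : g ∈ EUL ε m P) :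
    embU φ g ∈ EUL ε n P := by
  have : EUL ε m P ≤ (EUL ε n P).comap (embU φ) := by
    refine sup_le ?_ ?_
    · intro x hx
      exact EU_le_EUL (embU_mem_EU φ hx)
    · rintro _ ⟨A, hA, rfl⟩
      change embU φ (lev A) ∈ EUL ε n P
      rw [embU_lev]
      exact lev_mem (embL_mem_E φ hA)
  exact this hg

end Emb

end BWC
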