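import Pool.Agent.BWC.Crt
import Pool.Agent.BWC.Grp

/-!
# The stabilizer of the first basis vector
-/

namespace BWC

open Matrix
open BW hiding star
open Pool.Agent.Helper24.BWR

section Descent

variable {ε : ℤ} {m n P : Type*} [DecidableEq m] [Fintype m] [DecidableEq n] [Fintype n] [Ring P]
  [StarRing P]

omit [StarRing P] in
theorem J_mul_J : J ε n P * J ε n P = ε • (1 : Matrix (n ⊕ n) (n ⊕ n) P) := by
  rw [J, Matrix.fromBlocks_multiply]
  simp only [Matrix.mul_zero, Matrix.zero_mul, Matrix.mul_one, Matrix.one_mul, zero_add, add_zero]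
  rw [← Matrix.fromBlocks_one, Matrix.fromBlocks_smul, smul_zero]

omit [StarRing P] in
theorem J_cancel (hε : ε * ε = 1) {X Y : Matrix (n ⊕ n) (n ⊕ n) P}
    (h : J ε n P * X = J ε n P * Y) : X = Y := by
  have h1 : J ε n P * J ε n P * X = J ε n P * J ε n P * Y := by
    rw [Matrix.mul_assoc, h, Matrix.mul_assoc]
  rw [J_mul_J, Matrix.smul_mul, Matrix.smul_mul, Matrix.one_mul, Matrix.one_mul] at h1
  have h2 := congrArg (fun M => ε • M) h1
  simpa only [smul_smul, hε, one_smul] using h2

/-- an isometry which fixes the planes outside `m` comes from the planes `m` -/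
theorem exists_embU (hε : ε * ε = 1) (φ : m ↪ n) {h : (Matrix (n ⊕ n) (n ⊕ n) P)ˣ}
    (hh : h ∈ UG ε n P)
    (hD : h.val * (1 - pm P (φ.sumMap φ) * qm P (φ.sumMap φ)) =
      1 - pm P (φ.sumMap φ) * qm P (φ.sumMap φ)) :
    ∃ g ∈ UG ε m P, h = embU φ g := by
  have hh' : h.valᴴ * J ε n P * h.val = J ε n P := hh
  have e1 : J ε n P * pm P (φ.sumMap φ) = pm P (φ.sumMap φ) * J ε m P := J_mul_pm φ
  have e2 : qm P (φ.sumMap φ) * J ε n P = J ε m P * qm P (φ.sumMap φ) := qm_mul_J φ
  have e3 : qm P (φ.sumMap φ) * pm P (φ.sumMap φ) = 1 := qm_mul_pm _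
  have e4 : (pm P (φ.sumMap φ))ᴴ = qm P (φ.sumMap φ) := pm_conjTranspose _
  have e5 : (qm P (φ.sumMap φ))ᴴ = pm P (φ.sumMap φ) := qm_conjTranspose _
  set p := pm P (φ.sumMap φ)
  set q := qm P (φ.sumMap φ)
  set D := 1 - p * q with hDdef
  have hDD : Dᴴ = D := by
    rw [hDdef, Matrix.conjTranspose_sub, Matrix.conjTranspose_one, Matrix.conjTranspose_mul, e4, e5]
  have hDJ : D * J ε n P = J ε n P * D := by
    rw [hDdef, Matrix.sub_mul, Matrix.mul_sub, Matrix.one_mul, Matrix.mul_one, Matrix.mul_assoc, e2,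
      ← Matrix.mul_assoc, ← e1, Matrix.mul_assoc]
  have hqD : q * D = 0 := by
    rw [hDdef, Matrix.mul_sub, Matrix.mul_one, ← Matrix.mul_assoc, e3, Matrix.one_mul, sub_self]
  have hDp : D * p = 0 := by
    rw [hDdef, Matrix.sub_mul, Matrix.one_mul, Matrix.mul_assoc, e3, Matrix.mul_one, sub_self]
  have hpq : p * q = 1 - D := by rw [hDdef]; abel
  have hDh : D * h.val = D := by
    have h1 : D * h.valᴴ = D := by
      have := congrArg Matrix.conjTranspose hD
      rwa [Matrix.conjTranspose_mul, hDD] at this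
    have h2 : D * h.valᴴ * J ε n P * h.val = D * J ε n P := by
      rw [Matrix.mul_assoc, Matrix.mul_assoc, ← Matrix.mul_assoc h.valᴴ, hh']
    rw [h1, hDJ, Matrix.mul_assoc] at h2
    exact J_cancel hε h2
  have hinv : h⁻¹.val * D = D := by
    calc h⁻¹.val * D = h⁻¹.val * (h.val * D) := by rw [hD]
      _ = D := by rw [← Matrix.mul_assoc, ← Units.val_mul, inv_mul_cancel, Units.val_one,
                  Matrix.one_mul]
  let g : (Matrix (m ⊕ m) (m ⊕ m) P)ˣ :=
    { val := q * h.val * p
      inv := q * h⁻¹.val * p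
      val_inv := by
        calc q * h.val * p * (q * h⁻¹.val * p) = q * (h.val * (p * q)) * h⁻¹.val * p := by
              simp only [Matrix.mul_assoc]
          _ = q * (h.val - D) * h⁻¹.val * p := by
              rw [hpq, Matrix.mul_sub, Matrix.mul_one, hD]
          _ = q * (h.val * h⁻¹.val) * p - q * D * h⁻¹.val * p := by
              simp only [Matrix.mul_sub, Matrix.sub_mul, Matrix.mul_assoc]
          _ = 1 := by
              rw [hqD, ← Units.val_mul, mul_inv_cancel, Units.val_one, Matrix.mul_one, e3,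
                Matrix.zero_mul, Matrix.zero_mul, sub_zero]
      inv_val := by
        calc q * h⁻¹.val * p * (q * h.val * p) = q * (h⁻¹.val * (p * q)) * h.val * p := by
              simp only [Matrix.mul_assoc]
          _ = q * (h⁻¹.val - D) * h.val * p := by
              rw [hpq, Matrix.mul_sub, Matrix.mul_one, hinv]
          _ = q * (h⁻¹.val * h.val) * p - q * D * h.val * p := by
              simp only [Matrix.mul_sub, Matrix.sub_mul, Matrix.mul_assoc]
          _ = 1 := by
              rw [hqD, ← Units.val_mul, inv_mul_cancel, Units.val_one, Matrix.mul_one, e3,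
                Matrix.zero_mul, Matrix.zero_mul, sub_zero] }
  have hg : g.val = q * h.val * p := rfl
  refine ⟨g, ?_, ?_⟩
  · change g.valᴴ * J ε m P * g.val = J ε m P
    rw [hg, Matrix.conjTranspose_mul, Matrix.conjTranspose_mul, e4, e5]
    calc q * (h.valᴴ * p) * J ε m P * (q * h.val * p)
        = q * h.valᴴ * (p * J ε m P) * q * h.val * p := by simp only [Matrix.mul_assoc]
      _ = q * h.valᴴ * J ε n P * (p * q) * h.val * p := by
          rw [← e1]; simp only [Matrix.mul_assoc]
      _ = q * (h.valᴴ * J ε n P * h.val) * p - q * h.valᴴ * J ε n P * (D * h.val) * p := by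
          rw [hpq]; simp only [Matrix.mul_sub, Matrix.sub_mul, Matrix.mul_one, Matrix.mul_assoc]
      _ = q * J ε n P * p := by
          rw [hh', hDh]
          have : q * h.valᴴ * J ε n P * D * p = q * h.valᴴ * J ε n P * (D * p) := by
            simp only [Matrix.mul_assoc]
          rw [this, hDp, Matrix.mul_zero, sub_zero]
      _ = J ε m P := by rw [e2, Matrix.mul_assoc, e3, Matrix.mul_one]
  · ext1
    change h.val = emb (φ.sumMap φ) g.val
    rw [emb_apply, hg]
    change h.val = 1 + p * (q * h.val * p - 1) * q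
    have h1 : p * (q * h.val * p - 1) * q = (p * q) * h.val * (p * q) - p * q := by
      simp only [Matrix.mul_sub, Matrix.sub_mul, Matrix.mul_one, Matrix.mul_assoc]
    rw [h1, hpq]
    have h2 : (1 - D) * h.val * (1 - D) = h.val - D * h.val - (h.val * D - D * (h.val * D)) := by
      simp only [Matrix.mul_sub, Matrix.sub_mul, Matrix.mul_one, Matrix.one_mul, Matrix.mul_assoc]
    have h3 : D * D = D := by
      nth_rewrite 2 [hDdef]
      rw [Matrix.mul_sub, Matrix.mul_one, ← Matrix.mul_assoc, hDp, Matrix.zero_mul, sub_zero]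
    rw [h2, hD, hDh, h3]
    abel

/-- isometries preserve the form -/
theorem UG_form {g : (Matrix (n ⊕ n) (n ⊕ n) P)ˣ} (hg : g ∈ UG ε n P) (v w : n ⊕ n → P) :
    Star.star (g.val *ᵥ v) ⬝ᵥ (J ε n P *ᵥ (g.val *ᵥ w)) = Star.star v ⬝ᵥ (J ε n P *ᵥ w) := by
  have hg' : g.valᴴ * J ε n P * g.val = J ε n P := hg
  rw [Matrix.star_mulVec, ← Matrix.dotProduct_mulVec, Matrix.mulVec_mulVec, Matrix.mulVec_mulVec,
    hg']

omit [StarRing P] in
theorem J_mulVec (a c : n → P) :
    J ε n P *ᵥ Sum.elim a c = Sum.elim c (ε • a) := by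
  rw [J, Matrix.fromBlocks_mulVec]
  have h3 : (Sum.elim a c ∘ Sum.inl : n → P) = a := rfl
  have h4 : (Sum.elim a c ∘ Sum.inr : n → P) = c := rfl
  rw [h3, h4, Matrix.zero_mulVec, Matrix.zero_mulVec, Matrix.one_mulVec, zero_add, add_zero,
    Matrix.smul_mulVec, Matrix.one_mulVec]

theorem form_elim (a c a' c' : n → P) :
    Star.star (Sum.elim a c) ⬝ᵥ (J ε n P *ᵥ Sum.elim a' c') =
      Star.star a ⬝ᵥ c' + ε • (Star.star c ⬝ᵥ a') := by
  rw [J_mulVec]
  have : Star.star (Sum.elim a c) = Sum.elim (Star.star a) (Star.star c) := by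
    funext x; rcases x with x | x <;> rfl
  rw [this, sumElim_dotProduct_sumElim, dotProduct_smul]

end Descent

section Step

variable {ε : ℤ} {P : Type*} [Ring P] [StarRing P] {k : ℕ}

omit [StarRing P] in
theorem compl_eq : (1 - pm P ((Fin.succEmb k).sumMap (Fin.succEmb k)) *
      qm P ((Fin.succEmb k).sumMap (Fin.succEmb k))) =
      Matrix.diagonal (Sum.elim (Pi.single 0 1) (Pi.single 0 1)) := by
  rw [pm_sumMap, qm_sumMap, Matrix.fromBlocks_multiply]
  have h : pm P (Fin.succEmb k) * qm P (Fin.succEmb k) =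
      Matrix.diagonal (fun i => if i = 0 then 0 else 1) := by
    ext i j
    rw [Matrix.mul_apply, Matrix.diagonal_apply]
    refine Fin.cases ?_ (fun i => ?_) i
    · have h0 : ∀ l : Fin k, ¬ (0 : Fin (k + 1)) = l.succ := fun l => (Fin.succ_ne_zero l).symm
      simp [pm, h0]
    · rw [Finset.sum_eq_single i]
      · by_cases hij : i.succ = j
        · subst hij; simp [pm, qm]
        · have : ¬ j = i.succ := fun h => hij h.symm
          simp [pm, qm, hij, this]
      · intro b _ hb
        have : ¬ i = b := fun h => hb h.symm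
        simp [pm, this]
      · intro h
        exact absurd (Finset.mem_univ _) h
  rw [h, ← Matrix.fromBlocks_one, sub_eq_add_neg, Matrix.fromBlocks_neg, Matrix.fromBlocks_add]
  ext x y
  rcases x with x | x <;> rcases y with y | y
  · by_cases hxy : x = y
    · subst hxy
      by_cases hx : x = 0
      · subst hx; simp
      · simp [hx]
    · simp [hxy]
  · simp
  · simp
  · by_cases hxy : x = y
    · subst hxy
      by_cases hx : x = 0
      · subst hx; simp
      · simp [hx]
    · simp [hxy]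

omit [StarRing P] in
/-- a row of elementary matrices -/
theorem row_mem (x : Fin (k + 1) → P) (s : Finset (Fin (k + 1))) (hs : (0 : Fin (k + 1)) ∉ s) :
    ∃ A ∈ E (Fin (k + 1)) P, A.val = 1 + ∑ j ∈ s, Matrix.single 0 j (x j) ∧
      A⁻¹.val = 1 - ∑ j ∈ s, Matrix.single 0 j (x j) := by
  classical
  induction s using Finset.induction_on with
  | empty => exact ⟨1, one_mem _, by simp, by simp⟩
  | insert j s hj ih =>
    rw [Finset.mem_insert, not_or] at hs
    obtain ⟨A, hA, h1, h2⟩ := ih hs.2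
    have h3 : (∑ i ∈ s, Matrix.single (0 : Fin (k + 1)) i (x i)) * Matrix.single 0 j (x j) = 0 := by
      rw [Finset.sum_mul]
      refine Finset.sum_eq_zero fun i hi => ?_
      have : i ≠ 0 := fun h => hs.2 (h ▸ hi)
      exact Matrix.single_mul_single_of_ne _ _ _ _ this _
    have h4 : Matrix.single (0 : Fin (k + 1)) j (x j) *
        (∑ i ∈ s, Matrix.single (0 : Fin (k + 1)) i (x i)) = 0 := by
      rw [Finset.mul_sum]
      refine Finset.sum_eq_zero fun i hi => ?_
      exact Matrix.single_mul_single_of_ne _ _ _ _ (Ne.symm hs.1) _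
    refine ⟨A * el 0 j hs.1 (x j), mul_mem hA (el_mem _ _ _ _), ?_, ?_⟩
    · rw [Units.val_mul, h1]
      change (1 + _) * (1 + Matrix.single 0 j (x j)) = _
      rw [add_mul, one_mul, mul_add, mul_one, h3, Finset.sum_insert hj, add_zero]
      abel
    · rw [_root_.mul_inv_rev, Units.val_mul, h2]
      change (1 - Matrix.single 0 j (x j)) * (1 - _) = _
      rw [sub_mul, one_mul, mul_sub, mul_one, h4, Finset.sum_insert hj, sub_zero]
      abel

theorem lev_mulVec (A : (Matrix (Fin (k + 1)) (Fin (k + 1)) P)ˣ) (a c : Fin (k + 1) → P) :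
    (lev A).val *ᵥ Sum.elim a c = Sum.elim (A.val *ᵥ a) ((A⁻¹.val)ᴴ *ᵥ c) := by
  rw [lev_val, Matrix.fromBlocks_mulVec]
  have h3 : (Sum.elim a c ∘ Sum.inl : Fin (k + 1) → P) = a := rfl
  have h4 : (Sum.elim a c ∘ Sum.inr : Fin (k + 1) → P) = c := rfl
  rw [h3, h4, Matrix.zero_mulVec, Matrix.zero_mulVec, zero_add, add_zero]

/-- the matrix of the last move -/
def stB (ε : ℤ) (a : Fin (k + 1) → P) : Matrix (Fin (k + 1)) (Fin (k + 1)) P :=
  fun i j => if j = 0 then -a i else if i = 0 then ε • Star.star (a j) else 0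

theorem Sk_stB (hε : ε * ε = 1) (a : Fin (k + 1) → P) (h : Star.star (a 0) + ε • a 0 = 0) :
    Sk ε (stB ε a) := by
  unfold Sk
  ext i j
  rw [Matrix.conjTranspose_apply, Matrix.neg_apply, Matrix.smul_apply]
  unfold stB
  by_cases hi : i = 0
  · subst hi
    by_cases hj : j = 0
    · subst hj
      rw [if_pos rfl, star_neg, smul_neg, neg_neg]
      exact (eq_neg_of_add_eq_zero_left h) ▸ by rw [neg_neg]
    · rw [if_pos rfl, if_neg hj, if_pos rfl, star_neg, smul_smul, hε, one_smul]
  · rw [if_neg hi]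
    by_cases hj : j = 0
    · subst hj
      rw [if_pos rfl, if_pos rfl, smul_neg, neg_neg, star_zsmul, star_star]
    · rw [if_neg hj, if_neg hj, if_neg hi, star_zero, smul_zero, neg_zero]

theorem stab_step (hε : ε * ε = 1)
    (g : (Matrix (Fin (k + 1) ⊕ Fin (k + 1)) (Fin (k + 1) ⊕ Fin (k + 1)) P)ˣ)
    (hg : g ∈ UG ε (Fin (k + 1)) P)
    (hcol : ∀ x, g.val x (Sum.inl 0) =
      (1 : Matrix (Fin (k + 1) ⊕ Fin (k + 1)) (Fin (k + 1) ⊕ Fin (k + 1)) P) x (Sum.inl 0)) :
    ∃ e ∈ EUL ε (Fin (k + 1)) P, ∃ g' ∈ UG ε (Fin k) P, e * g = embU (Fin.succEmb k) g' := by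
  classical
  -- the two basis vectors
  set e0 : Fin (k + 1) ⊕ Fin (k + 1) → P := Sum.elim (Pi.single 0 1) 0 with he0
  set f0 : Fin (k + 1) ⊕ Fin (k + 1) → P := Sum.elim 0 (Pi.single 0 1) with hf0
  have he0' : e0 = Pi.single (Sum.inl 0) 1 := by
    rw [he0]; funext x
    rcases x with x | x
    · by_cases hx : x = 0
      · subst hx; simp
      · simp [hx]
    · simp
  have hf0' : f0 = Pi.single (Sum.inr 0) 1 := by
    rw [hf0]; funext x
    rcases x with x | x
    · simp
    · by_cases hx : x = 0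
      · subst hx; simp
      · simp [hx]
  have hge : g.val *ᵥ e0 = e0 := by
    rw [he0', Matrix.mulVec_single_one]
    funext x
    rw [Matrix.col_apply, hcol x, Matrix.one_apply, Pi.single_apply]
  obtain ⟨a, c, hac⟩ : ∃ a c, g.val *ᵥ f0 = Sum.elim a c :=
    ⟨_, _, (Sum.elim_comp_inl_inr _).symm⟩
  -- `c 0 = 1`
  have hc0 : c 0 = 1 := by
    have h1 := UG_form hg e0 f0
    rw [hge, hac, he0, hf0, form_elim, form_elim] at h1
    have h2 : Star.star (Pi.single 0 1 : Fin (k + 1) → P) = Pi.single 0 1 := by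
      rw [Pi.star_single, star_one]
    rw [h2] at h1
    simpa using h1
  obtain ⟨A, hA, hA1, hA2⟩ := row_mem (fun j => Star.star (c j)) (Finset.univ.erase 0)
    (Finset.notMem_erase _ _)
  have hAe : A.val *ᵥ (Pi.single 0 1 : Fin (k + 1) → P) = Pi.single 0 1 := by
    rw [hA1, Matrix.add_mulVec, Matrix.one_mulVec, Matrix.sum_mulVec]
    rw [Finset.sum_eq_zero, add_zero]
    intro j hj
    have : j ≠ 0 := Finset.ne_of_mem_erase hj
    rw [Matrix.single_mulVec]
    funext i
    simp [Function.update_apply, this]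
  have hAc : (A⁻¹.val)ᴴ *ᵥ c = Pi.single 0 1 := by
    rw [hA2, Matrix.conjTranspose_sub, Matrix.conjTranspose_one, Matrix.conjTranspose_sum,
      Matrix.sub_mulVec, Matrix.one_mulVec, Matrix.sum_mulVec]
    funext i
    rw [Pi.sub_apply, Finset.sum_apply]
    have h1 : ∀ j ∈ Finset.univ.erase (0 : Fin (k + 1)),
        ((Matrix.single 0 j (Star.star (c j)))ᴴ *ᵥ c) i = if i = j then c j else 0 := by
      intro j _
      rw [Matrix.conjTranspose_single, star_star, Matrix.single_mulVec, hc0, mul_one]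
      simp [Function.update_apply]
    rw [Finset.sum_congr rfl h1, Finset.sum_ite_eq]
    by_cases hi : i = 0
    · subst hi; simp [hc0]
    · simp [hi]
  set h2 := lev A * g with hh2
  have hh2U : h2 ∈ UG ε (Fin (k + 1)) P := mul_mem (lev_mem_UG A) hg
  have h2e : h2.val *ᵥ e0 = e0 := by
    rw [hh2, Units.val_mul, ← Matrix.mulVec_mulVec, hge, he0, lev_mulVec, hAe, Matrix.mulVec_zero]
  have h2f : h2.val *ᵥ f0 = Sum.elim (A.val *ᵥ a) (Pi.single 0 1) := by
    rw [hh2, Units.val_mul, ← Matrix.mulVec_mulVec, hac, lev_mulVec, hAc]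
  set b := A.val *ᵥ a with hb
  have hiso : Star.star (b 0) + ε • b 0 = 0 := by
    have h1 := UG_form hh2U f0 f0
    rw [h2f, hf0, form_elim, form_elim] at h1
    have h3 : Star.star (Pi.single 0 1 : Fin (k + 1) → P) = Pi.single 0 1 := by
      rw [Pi.star_single, star_one]
    rw [h3] at h1
    simpa using h1
  have hB := Sk_stB hε b hiso
  set h3 := up (stB ε b) * h2 with hh3
  have hh3U : h3 ∈ UG ε (Fin (k + 1)) P := mul_mem (up_mem_UG hB) hh2U
  have hBe : stB ε b *ᵥ (Pi.single 0 1 : Fin (k + 1) → P) = -b := by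
    rw [Matrix.mulVec_single_one]
    funext i
    simp [stB]
  have h3e : h3.val *ᵥ e0 = e0 := by
    rw [hh3, Units.val_mul, ← Matrix.mulVec_mulVec, h2e, he0, up_mulVec, Matrix.mulVec_zero,
      add_zero]
  have h3f : h3.val *ᵥ f0 = f0 := by
    rw [hh3, Units.val_mul, ← Matrix.mulVec_mulVec, h2f, up_mulVec, hBe, add_neg_cancel]
  have hD : h3.val * (1 - pm P ((Fin.succEmb k).sumMap (Fin.succEmb k)) *
      qm P ((Fin.succEmb k).sumMap (Fin.succEmb k))) =
      1 - pm P ((Fin.succEmb k).sumMap (Fin.succEmb k)) *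
      qm P ((Fin.succEmb k).sumMap (Fin.succEmb k)) := by
    rw [compl_eq]
    ext x y
    rw [Matrix.mul_diagonal]
    rcases y with y | y
    · by_cases hy : y = 0
      · subst hy
        have h4 := congrFun h3e x
        rw [he0', Matrix.mulVec_single_one, Matrix.col_apply, Pi.single_apply] at h4
        rw [h4, Matrix.diagonal_apply]
        by_cases hx : x = Sum.inl 0
        · subst hx; simp
        · simp [hx]
      · rw [Matrix.diagonal_apply]
        by_cases hx : x = Sum.inl y
        · subst hx; simp [hy]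
        · simp [hx, hy]
    · by_cases hy : y = 0
      · subst hy
        have h4 := congrFun h3f x
        rw [hf0', Matrix.mulVec_single_one, Matrix.col_apply, Pi.single_apply] at h4
        rw [h4, Matrix.diagonal_apply]
        by_cases hx : x = Sum.inr 0
        · subst hx; simp
        · simp [hx]
      · rw [Matrix.diagonal_apply]
        by_cases hx : x = Sum.inr y
        · subst hx; simp [hy]
        · simp [hx, hy]
  obtain ⟨g', hg', hg''⟩ := exists_embU hε (Fin.succEmb k) hh3U hD
  exact ⟨up (stB ε b) * lev A, mul_mem (EU_le_EUL (up_mem hB)) (lev_mem hA), g', hg', by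
    rw [← hg'', hh3, hh2, mul_assoc]⟩

end Step

end BWC
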