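import Pool.Agent.BWC.Defs
import Pool.Agent.BW.Loc

/-!
# An involution of the first kind with `x + x̄` in the centre is the conjugation
-/

set_option autoImplicit false

namespace BWC

open Matrix
open BW hiding star

theorem star_eq_conj {N : ℕ} (hN : N ≠ 0) {R Λ : Type*} [CommRing R]
    [IsLocalization.Away (N : ℤ) R] [Ring Λ] [StarRing Λ] [Algebra R Λ] (Q : QAlg N R Λ)
    (h : ∀ x : Λ, ∃ t : R, x + star x = algebraMap R Λ t) (x : Λ) : star x = Q.conj x := by
  have hdom : IsDomain R := Loc.isDomain N R hN
  have hchar : CharZero R := Loc.charZero N R hN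
  -- `star` fixes the image of `R`
  have hs : ∀ s : R, star (algebraMap R Λ s) = algebraMap R Λ s := by
    intro s
    obtain ⟨a, k, hak⟩ := Loc.exists_int (N := N) s
    obtain ⟨t, ht⟩ := h (algebraMap R Λ s)
    have h1 : star (algebraMap R Λ s) = algebraMap R Λ (t - s) := by
      rw [map_sub, ← ht]; abel
    have h2 := congrArg (fun y => star (algebraMap R Λ y)) hak
    simp only [map_mul, map_pow, map_natCast, map_intCast, star_mul, star_pow, star_natCast,
      star_intCast] at h2
    rw [h1] at h2 ⊢
    have h3 : algebraMap R Λ ((t - s) * (N : R) ^ k) = algebraMap R Λ (s * (N : R) ^ k) := by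
      rw [hak, map_mul, map_pow, map_natCast, map_intCast, ← h2]
      exact ((Nat.cast_commute N _).pow_left k).symm.eq
    have h4 := Q.inj h3
    have hN' : ((N : R) ^ k) ≠ 0 := pow_ne_zero _ (Nat.cast_ne_zero.mpr hN)
    rw [mul_right_cancel₀ hN' h4]
  choose t ht using h
  set δ : Λ → R := fun x => t x - Q.T x with hδ
  have hst : ∀ x, star x = Q.conj x + algebraMap R Λ (δ x) := by
    intro x
    have h1 := ht x
    have h2 := Q.add_conj x
    rw [hδ]
    simp only [map_sub]
    rw [← h1, ← h2]
    abel
  have hsr : ∀ (s : R) (x : Λ), star (algebraMap R Λ s * x) = algebraMap R Λ s * star x := by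
    intro s x
    rw [star_mul, hs, Algebra.commutes]
  have hconj : ∀ (s : R) (x : Λ), Q.conj (algebraMap R Λ s * x) = algebraMap R Λ s * Q.conj x := by
    intro s x
    have h1 := Q.add_conj (algebraMap R Λ s * x)
    have h2 := Q.add_conj x
    rw [← Algebra.smul_def, map_smul, smul_eq_mul, map_mul, ← h2, mul_add] at h1
    rw [Algebra.smul_def] at h1
    exact add_left_cancel h1
  have hδs : ∀ (s : R) (x : Λ), δ (algebraMap R Λ s * x) = s * δ x := by
    intro s x
    have h1 := hst (algebraMap R Λ s * x)
    rw [hsr, hst x, hconj, mul_add, ← map_mul] at h1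
    exact (Q.inj (add_left_cancel h1)).symm
  have hδc : ∀ s : R, δ (algebraMap R Λ s) = 0 := by
    intro s
    have h1 := hst 1
    have h2 := Q.add_conj 1
    rw [star_one] at h1
    rw [Q.T_one] at h2
    have h3 : Q.conj 1 = 1 := by
      have h4 : (1 : Λ) + Q.conj 1 = 1 + 1 := by rw [h2, map_ofNat]; norm_num
      exact add_left_cancel h4
    rw [h3] at h1
    have h5 : δ 1 = 0 := by
      apply Q.inj
      rw [map_zero]
      have : (1 : Λ) + algebraMap R Λ (δ 1) = 1 + 0 := by rw [add_zero]; exact h1.symm
      exact add_left_cancel this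
    have h6 := hδs s 1
    rwa [mul_one, h5, mul_zero] at h6
  -- `x star x` is fixed by `star`
  have key : algebraMap R Λ (δ x) * star x = algebraMap R Λ (δ x) * x := by
    have h1 : x * star x = algebraMap R Λ (Q.n x) + algebraMap R Λ (δ x) * x := by
      rw [hst x, mul_add, Q.mul_conj, Algebra.commutes]
    have h2 : star (x * star x) = x * star x := by rw [star_mul, star_star]
    rw [h1, star_add, hs, hsr] at h2
    exact add_left_cancel h2
  by_cases hx : δ x = 0
  · rw [hst x, hx, map_zero, add_zero]
  exfalso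
  -- `2 δ x` is in the image of `R`
  have h1 : algebraMap R Λ (2 * δ x) * x = algebraMap R Λ (δ x * t x) := by
    have h2 : algebraMap R Λ (δ x) * (x + star x) = algebraMap R Λ (δ x * t x) := by
      rw [ht, map_mul]
    rw [mul_add, key] at h2
    rw [← h2, map_mul, map_ofNat, mul_assoc, two_mul]
  have h2 := hδs (2 * δ x) x
  rw [h1, hδc] at h2
  have h3 : 2 * δ x * δ x ≠ 0 := mul_ne_zero (mul_ne_zero two_ne_zero hx) hx
  exact h3 h2.symm

end BWC
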