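import Pool.Agent.BWC.Trans

/-!
# Transitivity on unimodular isotropic vectors, any number of planes
-/

namespace BWC

open Matrix
open BW hiding star

section Clear

variable {n P : Type*} [DecidableEq n] [Fintype n] [Ring P] [StarRing P]

theorem Rch.mono {K L : ℕ} {v v' : n ⊕ n → P} (h : Rch K v v') (hKL : K ≤ L) : Rch L v v' := by
  obtain ⟨e, ⟨l, h1, h2, rfl⟩, rfl⟩ := h
  exact ⟨l.prod, ⟨l, h1.trans hKL, h2, rfl⟩, rfl⟩

theorem rch_lev0 (i j : n) (h : i ≠ j) (y : P) (a : n → P) :
    Rch 1 (Sum.elim a (0 : n → P)) (Sum.elim (Function.update a i (a i + y * a j)) 0) := by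
  have h1 := rch_lev i j h y a (0 : n → P)
  have h2 : Function.update (0 : n → P) j ((0 : n → P) j - Star.star y * (0 : n → P) i) = 0 := by
    rw [Pi.zero_apply, Pi.zero_apply, mul_zero, sub_zero]
    exact Function.update_eq_self j (0 : n → P)
  rw [h2] at h1
  exact h1

/-- for `a_i = 1` the entries of a list of other indices are cleared -/
theorem clear_list (i : n) (a : n → P) (hi : a i = 1) (l : List n) (hl : i ∉ l) :
    Rch l.length (Sum.elim a (0 : n → P)) (Sum.elim (fun j => if j ∈ l then 0 else a j) 0) := by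
  induction l with
  | nil =>
    simp only [List.length_nil, List.not_mem_nil, if_false]
    exact ⟨1, ball_one, by rw [Units.val_one, Matrix.one_mulVec]⟩
  | cons j l ih =>
    have hij : j ≠ i := by
      rintro rfl
      exact hl List.mem_cons_self
    have hil : i ∉ l := fun h => hl (List.mem_cons_of_mem _ h)
    have h1 := rch_lev0 j i hij (-(if j ∈ l then 0 else a j))
      (fun j => if j ∈ l then 0 else a j)
    have h2 : Function.update (fun j => if j ∈ l then 0 else a j) j
        ((if j ∈ l then 0 else a j) + -(if j ∈ l then 0 else a j) * (if i ∈ l then 0 else a i)) =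
        fun j' => if j' ∈ j :: l then 0 else a j' := by
      funext j'
      by_cases hj : j' = j
      · subst hj
        rw [Function.update_self, if_neg hil, hi, mul_one, add_neg_cancel,
          if_pos List.mem_cons_self]
      · rw [Function.update_of_ne hj]
        simp only [List.mem_cons, hj, false_or]
    rw [h2] at h1
    rw [List.length_cons]
    exact (ih hil).trans h1

theorem clear_all (i : n) (a : n → P) (hi : a i = 1) :
    Rch (Fintype.card n) (Sum.elim a (0 : n → P)) (Pi.single (Sum.inl i) 1) := by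
  have h1 := clear_list i a hi (Finset.univ.erase i).toList (by simp)
  have h2 : (Sum.elim (fun j => if j ∈ (Finset.univ.erase i).toList then 0 else a j) 0 :
      n ⊕ n → P) = Pi.single (Sum.inl i) 1 := by
    funext x
    rcases x with x | x
    · by_cases hx : x = i
      · subst hx
        simp [hi]
      · rw [Sum.elim_inl, Pi.single_eq_of_ne (by simpa using hx), if_pos]
        simp [hx]
    · rw [Pi.single_eq_of_ne (by simp)]
      rfl
  rw [h2] at h1
  refine h1.mono ?_
  rw [Finset.length_toList]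
  exact Finset.card_le_univ _

/-- three different planes: `u a_0 + u' a_1 = 1` gives the first basis vector -/
theorem three_planes {i j k : n} (hik : i ≠ k) (hjk : j ≠ k) (a : n → P) (u u' : P)
    (h : u * a i + u' * a j = 1) :
    Rch (3 + Fintype.card n) (Sum.elim a (0 : n → P)) (Pi.single (Sum.inl i) 1) := by
  have r1 := rch_lev0 k i hik.symm ((1 - a k) * u) a
  set a1 : n → P := Function.update a k (a k + (1 - a k) * u * a i) with ha1
  have r2 := rch_lev0 k j hjk.symm ((1 - a k) * u') a1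
  set a2 : n → P := Function.update a1 k (a1 k + (1 - a k) * u' * a1 j) with ha2
  have h1 : a2 k = 1 := by
    rw [ha2, Function.update_self, ha1, Function.update_self, Function.update_of_ne hjk]
    calc a k + (1 - a k) * u * a i + (1 - a k) * u' * a j
        = a k + (1 - a k) * (u * a i + u' * a j) := by noncomm_ring
      _ = 1 := by rw [h]; noncomm_ring
  have r3 := rch_lev0 i k hik (1 - a2 i) a2
  set a3 : n → P := Function.update a2 i (a2 i + (1 - a2 i) * a2 k) with ha3
  have h2 : a3 i = 1 := by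
    rw [ha3, Function.update_self, h1]
    noncomm_ring
  exact (((r1.trans r2).trans r3).trans (clear_all i a3 h2))

end Clear

section All

variable {N : ℕ} {R Λ : Type*} [CommRing R] [IsLocalization.Away (N : ℤ) R] [Ring Λ] [StarRing Λ]
  [Algebra R Λ]

/-- the first two planes after bounded moves: `u a_0 + u' a_1 = 1` and `c = 0` -/
theorem reach_planes (hN : N ≠ 0) (Q : QAlg N R Λ) (hQ : ∀ x, Star.star x = Q.conj x) {k : ℕ}
    (v : Fin (k + 2) ⊕ Fin (k + 2) → Λ) (hv : UI v) (h0 : Q.n (v (Sum.inl 0)) ≠ 0) :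
    ∃ (a : Fin (k + 2) → Λ) (u u' : Λ), Rch (k + 4) v (Sum.elim a 0) ∧
      u * a 0 + u' * a 1 = 1 ∧ Q.n (a 0) ≠ 0 := by
  have h01 : (0 : Fin (k + 2)) ≠ 1 := by simp
  obtain ⟨a, c, rfl⟩ : ∃ a c : Fin (k + 2) → Λ, v = Sum.elim a c :=
    ⟨v ∘ Sum.inl, v ∘ Sum.inr, (Sum.elim_comp_inl_inr v).symm⟩
  obtain ⟨⟨x, w, h1⟩, -⟩ := hv.elim
  -- the sum of the other terms
  set β : Λ := ∑ j : Fin k, x j.succ.succ * a j.succ.succ + ∑ j : Fin k, w j.succ.succ * c j.succ.succ
    with hβ
  have h2 : x 0 * a 0 + x 1 * a 1 + w 0 * c 0 + w 1 * c 1 + β = 1 := by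
    rw [← h1, dotProduct, dotProduct, Fin.sum_univ_succ, Fin.sum_univ_succ,
      Fin.sum_univ_succ (fun j => w j * c j),
      Fin.sum_univ_succ (fun j : Fin (k + 1) => w j.succ * c j.succ), hβ, Fin.succ_zero_eq_one]
    abel
  obtain ⟨t, x0, x1, w0, w1, h3⟩ := absorb hN Q (a 0) (a 1) (c 0) (c 1) β _ _ _ _ h0 h2
  obtain ⟨e1, he1, a', c', μ, h4, h5, h6, h7, h8⟩ :=
    gather (fun j => t * x j.succ.succ) (fun j => t * w j.succ.succ) a c
  have r0 : Rch (k + 1) (Sum.elim a c) (Sum.elim a' c') := ⟨e1, he1, h4⟩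
  have h9 : a' 1 = a 1 + t * β + μ * c 1 := by
    rw [h6, hβ, mul_add, Finset.mul_sum, Finset.mul_sum]
    simp only [mul_assoc]
    abel
  obtain ⟨y, s, hTs, hn, u, u', h10⟩ := two_planes hN Q (a' 0) (a' 1) (c' 0) (c' 1) x0 x1 w0
    (w1 - x1 * μ) (by rw [h5]; exact h0) (by
      rw [← h3, h5, h7, h8, h9]
      noncomm_ring)
  have hSk : Sk 1 (Matrix.single (1 : Fin (k + 2)) 1 s) := by
    unfold Sk
    rw [Matrix.conjTranspose_single, hQ, Choice.conj_eq Q, hTs, map_zero, zero_sub, one_smul,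
      ← Matrix.single_neg]
  have r1 := rch_lev (0 : Fin (k + 2)) 1 h01 y a' c'
  have r2 := rch_up hSk (Function.update a' 0 (a' 0 + y * a' 1))
    (Function.update c' 1 (c' 1 - Star.star y * c' 0))
  have r12 := (r0.trans r1).trans r2
  have hv2 := hv.of_rch r12
  set a2 : Fin (k + 2) → Λ := Function.update a' 0 (a' 0 + y * a' 1) + Matrix.single 1 1 s *ᵥ
    Function.update c' 1 (c' 1 - Star.star y * c' 0) with ha2
  set c2 : Fin (k + 2) → Λ := Function.update c' 1 (c' 1 - Star.star y * c' 0) with hc2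
  have ha20 : a2 0 = a' 0 + y * a' 1 := by
    rw [ha2, Pi.add_apply, Function.update_self, Matrix.single_mulVec, Function.update_of_ne h01]
    simp
  have ha21 : a2 1 = a' 1 + s * (c' 1 - Q.conj y * c' 0) := by
    rw [ha2, Pi.add_apply, Function.update_of_ne h01.symm, Matrix.single_mulVec,
      Function.update_self, hc2, Function.update_self, hQ]
  have h11 : (Pi.single 0 u + Pi.single 1 u' : Fin (k + 2) → Λ) ⬝ᵥ a2 = 1 := by
    rw [add_dotProduct, single_dotProduct, single_dotProduct, ha20, ha21]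
    exact h10
  obtain ⟨-, h12⟩ := hv2.elim
  have h13 : Star.star a2 ⬝ᵥ (-c2) + Star.star (Star.star a2 ⬝ᵥ (-c2)) = 0 := by
    rw [dotProduct_neg, star_neg, ← neg_add, h12, neg_zero]
  have r3 := lo_reach c2 (-c2) h11 h13
  rw [add_neg_cancel] at r3
  refine ⟨a2, u, u', r12.trans r3, ?_, ?_⟩
  · rw [ha20, ha21]
    exact h10
  · rw [ha20]
    exact hn

end All

theorem one_ne_succ_succ {k : ℕ} (j : Fin k) : (1 : Fin (k + 2)) ≠ j.succ.succ := by
  intro h
  have := congrArg Fin.val h
  simp at this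

/-- transitivity on the unimodular isotropic vectors, any number `≥ 2` of planes -/
theorem trans_ball (k : ℕ) : ∃ K : ℕ, ∀ (N : ℕ) (R Λ : Type) [CommRing R]
    [IsLocalization.Away (N : ℤ) R] [Ring Λ] [StarRing Λ] [Algebra R Λ] [Module.Free R Λ]
    [Module.Finite R Λ] (_ : N ≠ 0) (Q : QAlg N R Λ) (_ : ∀ x, Star.star x = Q.conj x)
    (a c x w : Fin (k + 2) → Λ) (_ : ∑ j, x j * a j + ∑ j, w j * c j = 1)
    (_ : Q.T (∑ j, Star.star (a j) * c j) = 0),
    ∃ e ∈ ball 1 (Fin (k + 2)) Λ K,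
      e.val *ᵥ Sum.elim a c = Pi.single (Sum.inl 0) 1 := by
  obtain _ | k := k
  · exact trans2
  obtain ⟨K, hK⟩ := first_step (k + 1)
  refine ⟨K + ((k + 1 + 4) + (3 + Fintype.card (Fin (k + 1 + 2)))), ?_⟩
  intro N R Λ _ _ _ _ _ _ _ hN Q hQ a c x w h1 h2
  obtain ⟨e, he, hn⟩ := hK N R Λ hN Q hQ a c x w h1
  have hv : UI (Sum.elim a c) := UI.mk' (x := x) (w := w) h1 (by
    have h3 : Star.star a ⬝ᵥ c = ∑ j, Star.star (a j) * c j := rfl
    rw [h3, hQ, Q.add_conj, h2, map_zero])
  have r : Rch K (Sum.elim a c) (e.val *ᵥ Sum.elim a c) := ⟨e, he, rfl⟩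
  obtain ⟨a', u, u', r', h4, -⟩ := reach_planes hN Q hQ _ (hv.of_rch r) hn
  have h02 : (0 : Fin (k + 1 + 2)) ≠ (0 : Fin (k + 1)).succ.succ := (Fin.succ_ne_zero _).symm
  have h12 : (1 : Fin (k + 1 + 2)) ≠ (0 : Fin (k + 1)).succ.succ := one_ne_succ_succ 0
  exact r.trans (r'.trans (three_planes h02 h12 a' u u' h4))

end BWC
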