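import Pool.Agent.BWC.TClaim
import Pool.Agent.BWC.Stab
import Pool.Agent.BWC.TransAll
import Pool.Agent.BWC.Sec1
import Pool.Agent.BWC.Choice
import Pool.Agent.BWC.Star
import Pool.Agent.BW.Unif2

/-!
# Families over the product ring; the group `U₂`; the main theorem
-/

namespace BWC

open Matrix
open BW hiding star
open Pool.Agent.Helper24.BWR (SR2')

section Map

variable {ε : ℤ} {n : Type*} [DecidableEq n] [Fintype n]

omit [Fintype n] in
theorem map_J {P P' : Type*} [Ring P] [Ring P'] (f : P →+* P') :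
    (J ε n P).map f = J ε n P' := by
  rw [J, J, Matrix.fromBlocks_map]
  congr 1
  · exact Matrix.map_zero _ (map_zero f)
  · exact Matrix.map_one _ (map_zero f) (map_one f)
  · ext i j
    rw [Matrix.map_apply, Matrix.smul_apply, Matrix.smul_apply, map_zsmul, Matrix.one_apply,
      Matrix.one_apply]
    split_ifs <;> simp
  · exact Matrix.map_zero _ (map_zero f)

theorem map_mem_UG {P P' : Type*} [Ring P] [StarRing P] [Ring P'] [StarRing P'] (f : P →+* P')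
    (hf : ∀ x, f (star x) = star (f x)) {g : (Matrix (n ⊕ n) (n ⊕ n) P)ˣ} (hg : g ∈ UG ε n P) :
    Units.map (f.mapMatrix (m := n ⊕ n)).toMonoidHom g ∈ UG ε n P' := by
  have hg' : g.valᴴ * J ε n P * g.val = J ε n P := hg
  change (g.val.map f)ᴴ * J ε n P' * g.val.map f = J ε n P'
  have h1 : (g.val.map f)ᴴ = g.valᴴ.map f := by
    ext i j
    simp only [Matrix.conjTranspose_apply, Matrix.map_apply, hf]
  rw [h1, ← map_J f, ← Matrix.map_mul, ← Matrix.map_mul, hg']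

variable {ι : Type*} {Λ : ι → Type*} [∀ i, Ring (Λ i)] [∀ i, StarRing (Λ i)]

theorem comp_mem_UG (i : ι) {g : (Matrix (n ⊕ n) (n ⊕ n) (∀ i, Λ i))ˣ}
    (hg : g ∈ UG ε n (∀ i, Λ i)) : comp i g ∈ UG ε n (Λ i) :=
  map_mem_UG (Pi.evalRingHom Λ i) (fun _ => rfl) hg

theorem mem_UG_of_comp {g : (Matrix (n ⊕ n) (n ⊕ n) (∀ i, Λ i))ˣ}
    (hg : ∀ i, comp i g ∈ UG ε n (Λ i)) : g ∈ UG ε n (∀ i, Λ i) := by
  change g.valᴴ * J ε n _ * g.val = J ε n _
  ext a b i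
  have h1 : (comp i g).valᴴ * J ε n (Λ i) * (comp i g).val = J ε n (Λ i) := hg i
  have h2 := congrFun (congrFun h1 a) b
  rw [← map_J (Pi.evalRingHom Λ i)] at h2
  have h3 : (comp i g).valᴴ = g.valᴴ.map (Pi.evalRingHom Λ i) := rfl
  have h4 : (comp i g).val = g.val.map (Pi.evalRingHom Λ i) := rfl
  rw [h3, h4, ← Matrix.map_mul, ← Matrix.map_mul] at h2
  exact h2

end Map

section Red

variable {ε : ℤ} {P : Type*} [Ring P] [StarRing P]

omit [StarRing P] in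
theorem embU_eq_self {n : Type*} [DecidableEq n] [Fintype n] (φ : n ↪ n) (hφ : ∀ x, φ x = x)
    (g : (Matrix (n ⊕ n) (n ⊕ n) P)ˣ) : embU φ g = g := by
  ext1
  change Pool.Agent.Helper24.BWR.emb (φ.sumMap φ) g.val = g.val
  have h1 : Pool.Agent.Helper24.BWR.pm P (φ.sumMap φ) = 1 := by
    ext x y
    have : (φ.sumMap φ) y = y := by rcases y with y | y <;> simp [hφ]
    simp only [Pool.Agent.Helper24.BWR.pm, this, Matrix.one_apply]
  have h2 : Pool.Agent.Helper24.BWR.qm P (φ.sumMap φ) = 1 := by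
    ext x y
    have : (φ.sumMap φ) x = x := by rcases x with x | x <;> simp [hφ]
    simp only [Pool.Agent.Helper24.BWR.qm, this, Matrix.one_apply, @eq_comm _ y]
  rw [Pool.Agent.Helper24.BWR.emb_apply, h1, h2]
  simp

end Red

section Two

variable {ι : Type*} {N : ι → ℕ} {R Λ : ι → Type} [∀ i, CommRing (R i)]
  [∀ i, IsLocalization.Away (N i : ℤ) (R i)] [∀ i, Ring (Λ i)] [∀ i, StarRing (Λ i)]
  [∀ i, Algebra (R i) (Λ i)] [∀ i, Module.Free (R i) (Λ i)] [∀ i, Module.Finite (R i) (Λ i)]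

/-- unimodularity and isotropy of a column of an isometry -/
theorem col_facts {N : ℕ} {R Λ : Type*} [CommRing R] [Ring Λ] [StarRing Λ] [Algebra R Λ]
    (Q : QAlg N R Λ) (hQ : ∀ x, star x = Q.conj x) {n : Type*} [DecidableEq n] [Fintype n]
    {g : (Matrix (n ⊕ n) (n ⊕ n) Λ)ˣ} (hg : g ∈ UG 1 n Λ) (j : n) :
    ∑ i, g⁻¹.val (Sum.inl j) (Sum.inl i) * g.val (Sum.inl i) (Sum.inl j) +
      ∑ i, g⁻¹.val (Sum.inl j) (Sum.inr i) * g.val (Sum.inr i) (Sum.inl j) = 1 ∧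
    Q.T (∑ i, star (g.val (Sum.inl i) (Sum.inl j)) * g.val (Sum.inr i) (Sum.inl j)) = 0 := by
  constructor
  · have h2 : (g⁻¹.val * g.val) (Sum.inl j) (Sum.inl j) = 1 := by
      rw [← Units.val_mul, inv_mul_cancel]; simp
    rw [← h2, Matrix.mul_apply, Fintype.sum_sum_type]
  · have hb : g.val = Matrix.fromBlocks g.val.toBlocks₁₁ g.val.toBlocks₁₂ g.val.toBlocks₂₁
      g.val.toBlocks₂₂ := (Matrix.fromBlocks_toBlocks _).symm
    obtain ⟨h1, -, -, -⟩ := (mem_UG_blocks hb).1 hg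
    have e1 := congrFun (congrFun h1 j) j
    rw [one_smul, Matrix.add_apply, Matrix.mul_apply, Matrix.mul_apply, Matrix.zero_apply] at e1
    simp only [Matrix.conjTranspose_apply, Matrix.toBlocks₁₁, Matrix.toBlocks₂₁, Matrix.of_apply]
      at e1
    set s := ∑ i, star (g.val (Sum.inl i) (Sum.inl j)) * g.val (Sum.inr i) (Sum.inl j) with hs
    have h3 : ∑ i, star (g.val (Sum.inr i) (Sum.inl j)) * g.val (Sum.inl i) (Sum.inl j) =
        star s := by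
      rw [hs, star_sum]
      simp only [star_mul, star_star]
    rw [h3, hQ, Q.add_conj] at e1
    exact Q.inj (by rw [e1, map_zero])

/-- removing one plane -/
theorem red_step (hN : ∀ i, N i ≠ 0) (Q : ∀ i, QAlg (N i) (R i) (Λ i))
    (hQ : ∀ i x, star x = (Q i).conj x) (k : ℕ)
    (g : (Matrix (Fin (k + 2) ⊕ Fin (k + 2)) (Fin (k + 2) ⊕ Fin (k + 2)) (∀ i, Λ i))ˣ)
    (hg : g ∈ UG 1 (Fin (k + 2)) (∀ i, Λ i)) :
    ∃ e ∈ EUL 1 (Fin (k + 2)) (∀ i, Λ i), ∃ g' ∈ UG 1 (Fin (k + 1)) (∀ i, Λ i),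
      e * g = embU (Fin.succEmb (k + 1)) g' := by
  obtain ⟨K, hK⟩ := trans_ball k
  have hc := fun i => col_facts (Q i) (hQ i) (comp_mem_UG i hg) 0
  choose y hy hyc using fun i => hK (N i) (R i) (Λ i) (hN i) (Q i) (hQ i) _ _ _ _ (hc i).1 (hc i).2
  obtain ⟨x, hx, hxy⟩ := ball_pi K y hy
  have hcol : ∀ s, (x * g).val s (Sum.inl 0) =
      (1 : Matrix (Fin (k + 1 + 1) ⊕ Fin (k + 1 + 1)) (Fin (k + 1 + 1) ⊕ Fin (k + 1 + 1))
        (∀ i, Λ i)) s (Sum.inl 0) := by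
    intro s
    funext i
    have h1 := congrFun (hyc i) s
    rw [Matrix.mulVec, dotProduct, Fintype.sum_sum_type] at h1
    simp only [Sum.elim_inl, Sum.elim_inr] at h1
    have h2 : (x * g).val s (Sum.inl 0) i = ∑ j, (x.val s j * g.val j (Sum.inl 0)) i := by
      rw [Units.val_mul, Matrix.mul_apply, Finset.sum_apply]
    rw [h2, Fintype.sum_sum_type]
    have h3 : ∀ j, (y i).val s j = x.val s j i := fun j => by rw [← hxy i]; rfl
    simp only [h3] at h1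
    refine Eq.trans h1 ?_
    rw [Matrix.one_apply, Pi.single_apply]
    split_ifs <;> rfl
  obtain ⟨e, he, g', hg', h⟩ := stab_step (k := k + 1) (by norm_num) (x * g)
    (mul_mem (EUL_le_UG (by norm_num) hx) hg) hcol
  exact ⟨e * x, mul_mem he hx, g', hg', by rw [mul_assoc, h]⟩

/-- reduction to one plane -/
theorem red_one (hN : ∀ i, N i ≠ 0) (Q : ∀ i, QAlg (N i) (R i) (Λ i))
    (hQ : ∀ i x, star x = (Q i).conj x) : ∀ (k : ℕ)
    (g : (Matrix (Fin (k + 1) ⊕ Fin (k + 1)) (Fin (k + 1) ⊕ Fin (k + 1)) (∀ i, Λ i))ˣ),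
    g ∈ UG 1 (Fin (k + 1)) (∀ i, Λ i) →
    ∃ e ∈ EUL 1 (Fin (k + 1)) (∀ i, Λ i), ∃ x0, ∃ g' ∈ UG 1 Unit (∀ i, Λ i),
      e * g = embU (pt x0) g' := by
  intro k
  induction k with
  | zero =>
    intro g hg
    have hs : Subsingleton (Fin (0 + 1)) := inferInstanceAs (Subsingleton (Fin 1))
    refine ⟨1, one_mem _, 0, embU ⟨fun _ => (), fun a b _ => Subsingleton.elim a b⟩ g,
      embU_mem_UG _ hg, ?_⟩
    rw [one_mul, embU_embU, embU_eq_self]
    intro x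
    exact Subsingleton.elim _ _
  | succ k ih =>
    intro g hg
    obtain ⟨e1, he1, g1, hg1, h1⟩ := red_step hN Q hQ k g hg
    obtain ⟨e2, he2, x0, g2, hg2, h2⟩ := ih g1 hg1
    refine ⟨embU (Fin.succEmb (k + 1)) e2 * e1, mul_mem (embU_mem_EUL _ he2) he1,
      Fin.succEmb (k + 1) x0, g2, hg2, ?_⟩
    rw [mul_assoc, h1, ← map_mul, h2, embU_embU]
    rfl

/-- the matrix `[[0, 1], [1, 0]]` -/
def wm (P : Type*) [Ring P] : (Matrix (Unit ⊕ Unit) (Unit ⊕ Unit) P)ˣ where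
  val := Matrix.fromBlocks 0 1 1 0
  inv := Matrix.fromBlocks 0 1 1 0
  val_inv := by simp [Matrix.fromBlocks_multiply, Matrix.fromBlocks_one]
  inv_val := by simp [Matrix.fromBlocks_multiply, Matrix.fromBlocks_one]

theorem wm_mem_UG (P : Type*) [Ring P] [StarRing P] : wm P ∈ UG 1 Unit P := by
  have hv : (wm P).val = Matrix.fromBlocks 0 1 1 0 := rfl
  rw [mem_UG_blocks hv]
  simp

theorem wm_mul_inl {P : Type*} [Ring P] (g : (Matrix (Unit ⊕ Unit) (Unit ⊕ Unit) P)ˣ) :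
    (wm P * g).val (Sum.inl ()) (Sum.inl ()) = g.val (Sum.inr ()) (Sum.inl ()) := by
  rw [Units.val_mul, Matrix.mul_apply]
  simp [Fintype.sum_sum_type, wm]

theorem wm_mul_inr {P : Type*} [Ring P] (g : (Matrix (Unit ⊕ Unit) (Unit ⊕ Unit) P)ˣ) :
    (wm P * g).val (Sum.inr ()) (Sum.inl ()) = g.val (Sum.inl ()) (Sum.inl ()) := by
  rw [Units.val_mul, Matrix.mul_apply]
  simp [Fintype.sum_sum_type, wm]

variable (hch : ∀ i, ∀ (Q : QAlg (N i) (R i) (Λ i)) (x : Λ i) (_ : Q.T x = 0) (r α β : R i)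
      (_ : α * Q.n x + β * r = 1),
      ∃ (w z0 z1 : Λ i) (p : ℕ) (k k0 k1 : R i), Q.T w = 0 ∧ Q.T z0 = 0 ∧ Q.T z1 = 0 ∧
      p.Prime ∧ 5 ≤ p ∧ ¬ p ∣ N i ∧
      (p : R i) = r + Q.n (x + r • w) * k ∧ (p : R i) = 1 + Q.n z0 * k0 ∧
      (p : R i) = 1 + Q.n z1 * k1 ∧
      ∀ ρ : Λ i →+* Matrix (Fin 2) (Fin 2) (ZMod p),
        (∀ y, ρ (algebraMap (R i) (Λ i) (Q.n y)) =
          (ρ y).det • (1 : Matrix (Fin 2) (Fin 2) (ZMod p))) →
        IsSquare (ρ z0).det ∧ ¬ IsSquare (ρ z1).det)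

include hch in
/-- every element of `U₂` becomes of the form of the `T`-claim -/
theorem wm_mul_mem (hN : ∀ i, N i ≠ 0) (Q : ∀ i, QAlg (N i) (R i) (Λ i))
    (hQ : ∀ i x, star x = (Q i).conj x) {n : Type*} [DecidableEq n] [Fintype n]
    (hn : 3 ≤ Fintype.card n) (x0 : n)
    (g : (Matrix (Unit ⊕ Unit) (Unit ⊕ Unit) (∀ i, Λ i))ˣ) (hg : g ∈ UG 1 Unit (∀ i, Λ i)) :
    ∃ e ∈ EU 1 Unit (∀ i, Λ i), embU (pt x0) (wm _ * (e * g)) ∈ EU 1 n (∀ i, Λ i) := by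
  have hc := fun i => col_facts (Q i) (hQ i) (comp_mem_UG i hg) ()
  obtain ⟨a, ha⟩ : ∃ a, a = g.val (Sum.inl ()) (Sum.inl ()) := ⟨_, rfl⟩
  obtain ⟨c, hc'⟩ : ∃ c, c = g.val (Sum.inr ()) (Sum.inl ()) := ⟨_, rfl⟩
  simp only [Finset.univ_unique, PUnit.default_eq_unit, Finset.sum_singleton] at hc
  choose s1 s2 s3 t1 t2 t3 h4 r hr using fun i => sec1 (hN i) (Q i) (a i) (c i)
    ((comp i g)⁻¹.val (Sum.inl ()) (Sum.inl ())) ((comp i g)⁻¹.val (Sum.inl ()) (Sum.inr ()))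
    (by rw [ha, hc']; exact (hc i).1) (by
      have := (hc i).2
      rw [hQ] at this
      rw [ha, hc']; exact this)
  have k1 : Sk 1 (cst s1) := Sk_cst (star_pure Q hQ t1)
  have k2 : Sk 1 (cst s2) := Sk_cst (star_pure Q hQ t2)
  have k3 : Sk 1 (cst s3) := Sk_cst (star_pure Q hQ t3)
  have hε : (1 : ℤ) * 1 = 1 := by norm_num
  refine ⟨lo (cst s3) * (up (cst s2) * lo (cst s1)),
    mul_mem (lo_mem k3) (mul_mem (up_mem k2) (lo_mem k1)), ?_⟩
  have hm := mul_mem (lo_mem_UG hε k3) (mul_mem (up_mem_UG k2) (mul_mem (lo_mem_UG hε k1) hg))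
  rw [mul_assoc, mul_assoc]
  refine tclaim_of_choice Q hQ hn x0 _ (mul_mem (wm_mem_UG _) hm) (fun i => hch i (Q i)) r ?_ ?_
  · rw [wm_mul_inl, lo_mul_inr, up_mul_inr, up_mul_inl, lo_mul_inl, lo_mul_inr, ← ha, ← hc']
    funext i
    exact hr i
  · intro i
    rw [wm_mul_inr, lo_mul_inl, up_mul_inl, lo_mul_inr, lo_mul_inl, ← ha, ← hc']
    exact h4 i

include hch in
theorem one_plane (hN : ∀ i, N i ≠ 0) (Q : ∀ i, QAlg (N i) (R i) (Λ i))
    (hQ : ∀ i x, star x = (Q i).conj x) {n : Type*} [DecidableEq n] [Fintype n]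
    (hn : 3 ≤ Fintype.card n) (x0 : n)
    (g : (Matrix (Unit ⊕ Unit) (Unit ⊕ Unit) (∀ i, Λ i))ˣ) (hg : g ∈ UG 1 Unit (∀ i, Λ i)) :
    embU (pt x0) g ∈ EU 1 n (∀ i, Λ i) := by
  have hw : embU (pt x0) (wm _) ∈ EU 1 n (∀ i, Λ i) := by
    obtain ⟨e, he, h⟩ := wm_mul_mem hch hN Q hQ hn x0 1 (one_mem _)
    rw [mul_one, map_mul] at h
    exact (Subgroup.mul_mem_cancel_right _ (embU_mem_EU _ he)).1 h
  obtain ⟨e, he, h⟩ := wm_mul_mem hch hN Q hQ hn x0 g hg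
  rw [map_mul, map_mul] at h
  exact (Subgroup.mul_mem_cancel_left _ (embU_mem_EU _ he)).1
    ((Subgroup.mul_mem_cancel_left _ hw).1 h)

include hch in
theorem main_family (hN : ∀ i, N i ≠ 0) (Q : ∀ i, QAlg (N i) (R i) (Λ i))
    (hQ : ∀ i x, star x = (Q i).conj x) (m : ℕ) (hm : 3 ≤ m)
    (g : (Matrix (Fin m ⊕ Fin m) (Fin m ⊕ Fin m) (∀ i, Λ i))ˣ)
    (hg : g ∈ UG 1 (Fin m) (∀ i, Λ i)) : g ∈ EU 1 (Fin m) (∀ i, Λ i) := by
  have hε : (1 : ℤ) * 1 = 1 := by norm_num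
  obtain ⟨k, rfl⟩ : ∃ k, m = k + 1 := ⟨m - 1, by omega⟩
  have hn : 3 ≤ Fintype.card (Fin (k + 1)) := by simpa using hm
  obtain ⟨e, he, x0, g', hg', h⟩ := red_one hN Q hQ k g hg
  rw [← EUL_eq hε hn]
  refine (Subgroup.mul_mem_cancel_left _ he).1 ?_
  rw [h]
  exact EU_le_EUL (one_plane hch hN Q hQ hn _ g' hg')

end Two

section Main

theorem azumaya_finite {N : ℕ} {R Λ : Type*} [CommRing R] [Ring Λ] [Algebra R Λ]
    [IsLocalization.Away (N : ℤ) R] (h : IsQuaternionAzumaya N R Λ) (hN : N ≠ 0) :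
    Module.Finite R Λ := h.finite hN

/-- the data of `N`, of a quaternion Azumaya algebra over `ℤ[1/N]` with its canonical involution
and of an element of the unitary group of rank `2 m` over it -/
structure Dat (m : ℕ) where
  /-- the integer `N` -/
  N : ℕ
  hN : N ≠ 0
  /-- the ring `ℤ[1/N]` -/
  R : Type
  /-- the algebra -/
  Λ : Type
  cR : CommRing R
  rΛ : Ring Λ
  sΛ : StarRing Λ
  alg : Algebra R Λ
  loc : IsLocalization.Away (N : ℤ) R
  az : IsQuaternionAzumaya N R Λ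
  st : ∀ x : Λ, ∃ t : R, x + star x = algebraMap R Λ t
  /-- the element -/
  g : (Matrix (Fin m ⊕ Fin m) (Fin m ⊕ Fin m) Λ)ˣ
  hg : g ∈ UG 1 (Fin m) Λ

attribute [instance] Dat.cR Dat.rΛ Dat.sΛ Dat.alg Dat.loc

open Pointwise

/-- products of an element of `U_P` and one of `U_P^-` -/
def PM (m : ℕ) (Λ : Type*) [Ring Λ] [StarRing Λ] :
    Set (Matrix (Fin m ⊕ Fin m) (Fin m ⊕ Fin m) Λ)ˣ :=
  (UP 1 (Fin m) Λ : Set (Matrix (Fin m ⊕ Fin m) (Fin m ⊕ Fin m) Λ)ˣ) *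
    (UM 1 (Fin m) Λ : Set (Matrix (Fin m ⊕ Fin m) (Fin m ⊕ Fin m) Λ)ˣ)

theorem width (m : ℕ) (hm : 3 ≤ m) : ∃ L : ℕ, ∀ (N : ℕ), N ≠ 0 → ∀ (R Λ : Type) [CommRing R]
    [IsLocalization.Away (N : ℤ) R] [Ring Λ] [StarRing Λ] [Algebra R Λ],
    IsQuaternionAzumaya N R Λ → (∀ x : Λ, ∃ t : R, x + star x = algebraMap R Λ t) →
    (PM m Λ) ^ L = (UG 1 (Fin m) Λ : Set (Matrix (Fin m ⊕ Fin m) (Fin m ⊕ Fin m) Λ)ˣ) := by
  have hfree : ∀ i : Dat m, Module.Free i.R i.Λ := fun i => i.az.free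
  have hfin : ∀ i : Dat m, Module.Finite i.R i.Λ := fun i => i.az.finite i.hN
  have Q : ∀ i : Dat m, QAlg i.N i.R i.Λ := fun i => (i.az.qalg i.hN).some
  have h1 : famU (fun i : Dat m => i.g) ∈ UG 1 (Fin m) (∀ i : Dat m, i.Λ) :=
    mem_UG_of_comp fun i => by rw [comp_famU]; exact i.hg
  have h2 := main_family (N := fun i : Dat m => i.N) (R := fun i : Dat m => i.R)
    (fun i Q x hx r α β h => choice_pure i.hN i.az.rank Q x hx r α β h) (fun i => i.hN) Q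
    (fun i x => star_eq_conj i.hN (Q i) i.st x) m hm _ h1
  generalize hX : famU (fun i : Dat m => i.g) = X at h2
  obtain ⟨L, hL⟩ := EU_bounded X h2
  refine ⟨L, fun N hN R Λ _ _ _ _ _ haz hst => Set.Subset.antisymm ?_ fun g hg => ?_⟩
  · intro g hg
    have h3 : ∀ (K : ℕ), ∀ g ∈ (PM m Λ) ^ K, g ∈ UG 1 (Fin m) Λ := by
      intro K
      induction K with
      | zero =>
        intro g hg
        rw [pow_zero, Set.mem_one] at hg
        rw [hg]
        exact one_mem _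
      | succ K ih =>
        intro g hg
        rw [pow_succ] at hg
        obtain ⟨a, ha, b, ⟨u, hu, v, hv, rfl⟩, rfl⟩ := hg
        exact mul_mem (ih a ha) (mul_mem (UP_le_UG hu) (UM_le_UG (by norm_num) hv))
    exact h3 L g hg
  · have h3 := hL ⟨N, hN, R, Λ, inferInstance, inferInstance, inferInstance, inferInstance,
      inferInstance, haz, hst, g, hg⟩
    rw [← hX, comp_famU] at h3
    exact h3

end Main

end BWC
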