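import Pool.Agent.BWC.Grp
import Pool.Agent.BW.Par

/-!
# Project BWC, rows K: unitary groups of `H^n ⊥ ⟨d⟩`, definitions and elements
-/

set_option autoImplicit false

namespace BWC

open Matrix
open BW hiding star

section Def

variable {k P : Type*} [DecidableEq k] [Fintype k] [Ring P] [StarRing P]

/-- the isometry group of the form with Gram matrix `G` -/
def isom (G : Matrix k k P) : Subgroup (Matrix k k P)ˣ where
  carrier := {g | g.valᴴ * G * g.val = G}
  one_mem' := by simp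
  mul_mem' := fun {g h} hg hh => by
    have hg' : g.valᴴ * G * g.val = G := hg
    have hh' : h.valᴴ * G * h.val = G := hh
    change (g.val * h.val)ᴴ * G * (g.val * h.val) = G
    calc _ = h.valᴴ * (g.valᴴ * G * g.val) * h.val := by
          rw [Matrix.conjTranspose_mul]; simp only [Matrix.mul_assoc]
      _ = _ := by rw [hg', hh']
  inv_mem' := fun {g} hg => by
    have hg' : g.valᴴ * G * g.val = G := hg
    change (g⁻¹.val)ᴴ * G * g⁻¹.val = G
    have h1 : g.val * g⁻¹.val = 1 := by rw [← Units.val_mul, mul_inv_cancel, Units.val_one]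
    have h2 : (g⁻¹.val)ᴴ * g.valᴴ = 1 := by
      rw [← Matrix.conjTranspose_mul, h1, Matrix.conjTranspose_one]
    calc (g⁻¹.val)ᴴ * G * g⁻¹.val
        = (g⁻¹.val)ᴴ * (g.valᴴ * G * g.val) * g⁻¹.val := by rw [hg']
      _ = ((g⁻¹.val)ᴴ * g.valᴴ) * G * (g.val * g⁻¹.val) := by simp only [Matrix.mul_assoc]
      _ = _ := by rw [h1, h2, Matrix.one_mul, Matrix.mul_one]

theorem mem_isom {G : Matrix k k P} {g : (Matrix k k P)ˣ} :
    g ∈ isom G ↔ g.valᴴ * G * g.val = G := Iff.rfl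

end Def

section JD

variable (ε : ℤ) (n : Type*) {r P : Type*} [DecidableEq n] [Fintype n] [DecidableEq r] [Fintype r]
  [Ring P]

/-- the Gram matrix of the form `H^n ⊥ ⟨d⟩`: `n` hyperbolic planes and a diagonal form -/
def JD (d : r → P) : Matrix ((n ⊕ n) ⊕ r) ((n ⊕ n) ⊕ r) P :=
  Matrix.fromBlocks (J ε n P) 0 0 (Matrix.diagonal d)

variable (r)

/-- the flag `E ⊂ E^⊥ ⊂ V`, `E` the span of the first vectors `e_i` of the hyperbolic planes -/
def fl : (n ⊕ n) ⊕ r → ℤ :=
  Sum.elim (Sum.elim (fun _ => -1) (fun _ => 1)) (fun _ => 0)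

variable {r}

/-- the unipotent radical of the stabilizer of `E` in the isometry group of `H^n ⊥ ⟨d⟩` -/
def UPV [StarRing P] (d : r → P) : Subgroup (Matrix ((n ⊕ n) ⊕ r) ((n ⊕ n) ⊕ r) P)ˣ :=
  isom (JD ε n d) ⊓ U (fl n r)

/-- the unipotent radical of the opposite parabolic subgroup -/
def UMV [StarRing P] (d : r → P) : Subgroup (Matrix ((n ⊕ n) ⊕ r) ((n ⊕ n) ⊕ r) P)ˣ :=
  isom (JD ε n d) ⊓ U (-fl n r)

/-- the elementary group -/
def EV [StarRing P] (d : r → P) : Subgroup (Matrix ((n ⊕ n) ⊕ r) ((n ⊕ n) ⊕ r) P)ˣ :=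
  UPV ε n d ⊔ UMV ε n d

end JD

section Elements

variable {n r P : Type*} [DecidableEq n] [Fintype n] [DecidableEq r] [Fintype r] [Ring P]

theorem fromRows_add {m₁ m₂ k : Type*} (A A' : Matrix m₁ k P) (B B' : Matrix m₂ k P) :
    Matrix.fromRows A B + Matrix.fromRows A' B' = Matrix.fromRows (A + A') (B + B') := by
  ext i j
  rcases i with i | i <;> rfl

theorem fromCols_add {m₁ m₂ k : Type*} (A A' : Matrix k m₁ P) (B B' : Matrix k m₂ P) :
    Matrix.fromCols A B + Matrix.fromCols A' B' = Matrix.fromCols (A + A') (B + B') := by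
  ext i j
  rcases j with j | j <;> rfl

theorem fromCols_low {m₁ m₂ k₁ k₂ : Type*} (M : Matrix m₂ k₂ P) :
    Matrix.fromCols (0 : Matrix (m₁ ⊕ m₂) k₁ P) (Matrix.fromRows 0 M) =
      Matrix.fromBlocks 0 0 0 M := by
  rw [← Matrix.fromRows_zero, Matrix.fromCols_fromRows_eq_fromBlocks]

theorem fromCols_upp {m₁ m₂ k₁ k₂ : Type*} (M : Matrix m₂ k₁ P) :
    Matrix.fromCols (Matrix.fromRows (0 : Matrix m₁ k₁ P) M) (0 : Matrix (m₁ ⊕ m₂) k₂ P) =
      Matrix.fromBlocks 0 0 M 0 := by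
  rw [← Matrix.fromRows_zero, Matrix.fromCols_fromRows_eq_fromBlocks]

theorem fromCols_ur {m₁ m₂ k₁ k₂ : Type*} (M : Matrix m₁ k₁ P) :
    Matrix.fromCols (Matrix.fromRows M (0 : Matrix m₂ k₁ P)) (0 : Matrix (m₁ ⊕ m₂) k₂ P) =
      Matrix.fromBlocks M 0 0 0 := by
  rw [← Matrix.fromRows_zero, Matrix.fromCols_fromRows_eq_fromBlocks]

/-- `[[1, B, X], [0, 1, 0], [0, Y, 1]]` -/
def ub (B : Matrix n n P) (X : Matrix n r P) (Y : Matrix r n P) :
    (Matrix ((n ⊕ n) ⊕ r) ((n ⊕ n) ⊕ r) P)ˣ where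
  val := Matrix.fromBlocks (Matrix.fromBlocks 1 B 0 1) (Matrix.fromRows X 0)
    (Matrix.fromCols 0 Y) 1
  inv := Matrix.fromBlocks (Matrix.fromBlocks 1 (X * Y - B) 0 1) (Matrix.fromRows (-X) 0)
    (Matrix.fromCols 0 (-Y)) 1
  val_inv := by
    rw [Matrix.fromBlocks_multiply, Matrix.fromBlocks_multiply,
      Matrix.fromRows_mul_fromCols, Matrix.fromBlocks_mul_fromRows,
      Matrix.fromCols_mul_fromBlocks, Matrix.fromCols_mul_fromRows]
    simp [Matrix.fromBlocks_add, fromRows_add, fromCols_add]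
  inv_val := by
    rw [Matrix.fromBlocks_multiply, Matrix.fromBlocks_multiply,
      Matrix.fromRows_mul_fromCols, Matrix.fromBlocks_mul_fromRows,
      Matrix.fromCols_mul_fromBlocks, Matrix.fromCols_mul_fromRows]
    simp [Matrix.fromBlocks_add, fromRows_add, fromCols_add]

/-- `[[1, 0, 0], [C, 1, X], [Y, 0, 1]]` -/
def lb (C : Matrix n n P) (X : Matrix n r P) (Y : Matrix r n P) :
    (Matrix ((n ⊕ n) ⊕ r) ((n ⊕ n) ⊕ r) P)ˣ where
  val := Matrix.fromBlocks (Matrix.fromBlocks 1 0 C 1) (Matrix.fromRows 0 X)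
    (Matrix.fromCols Y 0) 1
  inv := Matrix.fromBlocks (Matrix.fromBlocks 1 0 (X * Y - C) 1) (Matrix.fromRows 0 (-X))
    (Matrix.fromCols (-Y) 0) 1
  val_inv := by
    rw [Matrix.fromBlocks_multiply, Matrix.fromBlocks_multiply,
      Matrix.fromRows_mul_fromCols, Matrix.fromBlocks_mul_fromRows,
      Matrix.fromCols_mul_fromBlocks, Matrix.fromCols_mul_fromRows]
    simp [Matrix.fromBlocks_add, fromRows_add, fromCols_add]
  inv_val := by
    rw [Matrix.fromBlocks_multiply, Matrix.fromBlocks_multiply,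
      Matrix.fromRows_mul_fromCols, Matrix.fromBlocks_mul_fromRows,
      Matrix.fromCols_mul_fromBlocks, Matrix.fromCols_mul_fromRows]
    simp [Matrix.fromBlocks_add, fromRows_add, fromCols_add]

theorem ub_val (B : Matrix n n P) (X : Matrix n r P) (Y : Matrix r n P) :
    (ub B X Y).val = Matrix.fromBlocks (Matrix.fromBlocks 1 B 0 1) (Matrix.fromRows X 0)
      (Matrix.fromCols 0 Y) 1 := rfl

theorem lb_val (C : Matrix n n P) (X : Matrix n r P) (Y : Matrix r n P) :
    (lb C X Y).val = Matrix.fromBlocks (Matrix.fromBlocks 1 0 C 1) (Matrix.fromRows 0 X)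
      (Matrix.fromCols Y 0) 1 := rfl

theorem ub_mulVec (B : Matrix n n P) (X : Matrix n r P) (Y : Matrix r n P) (a c : n → P)
    (z : r → P) : (ub B X Y).val *ᵥ Sum.elim (Sum.elim a c) z =
      Sum.elim (Sum.elim (a + B *ᵥ c + X *ᵥ z) c) (z + Y *ᵥ c) := by
  rw [ub_val, Matrix.fromBlocks_mulVec, Matrix.fromRows_mulVec]
  ext x
  rcases x with (x | x) | x
  · simp [Matrix.fromBlocks_mulVec]
  · simp [Matrix.fromBlocks_mulVec]
  · simp [add_comm]

theorem lb_mulVec (C : Matrix n n P) (X : Matrix n r P) (Y : Matrix r n P) (a c : n → P)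
    (z : r → P) : (lb C X Y).val *ᵥ Sum.elim (Sum.elim a c) z =
      Sum.elim (Sum.elim a (c + C *ᵥ a + X *ᵥ z)) (z + Y *ᵥ a) := by
  rw [lb_val, Matrix.fromBlocks_mulVec, Matrix.fromRows_mulVec]
  ext x
  rcases x with (x | x) | x
  · simp [Matrix.fromBlocks_mulVec]
  · simp [Matrix.fromBlocks_mulVec, add_comm]
  · simp [add_comm]

theorem ub_mem_U (B : Matrix n n P) (X : Matrix n r P) (Y : Matrix r n P) :
    ub B X Y ∈ U (fl n r) := by
  intro x y hxy
  rcases x with (x | x) | x <;> rcases y with (y | y) | y <;>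
    simp [fl, ub_val, Matrix.one_apply] at hxy ⊢

theorem lb_mem_U (C : Matrix n n P) (X : Matrix n r P) (Y : Matrix r n P) :
    lb C X Y ∈ U (-fl n r) := by
  intro x y hxy
  rcases x with (x | x) | x <;> rcases y with (y | y) | y <;>
    simp [fl, lb_val, Matrix.one_apply] at hxy ⊢

variable (r) in
/-- isometries of the hyperbolic part -/
def embH : (Matrix (n ⊕ n) (n ⊕ n) P)ˣ →* (Matrix ((n ⊕ n) ⊕ r) ((n ⊕ n) ⊕ r) P)ˣ :=
  Units.map
    { toFun := fun M => Matrix.fromBlocks M 0 0 1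
      map_one' := Matrix.fromBlocks_one
      map_mul' := fun M M' => by rw [Matrix.fromBlocks_multiply]; simp }

theorem embH_val (g : (Matrix (n ⊕ n) (n ⊕ n) P)ˣ) :
    (embH r g).val = Matrix.fromBlocks g.val 0 0 1 := rfl

theorem embH_mulVec (g : (Matrix (n ⊕ n) (n ⊕ n) P)ˣ) (v : n ⊕ n → P) (z : r → P) :
    (embH r g).val *ᵥ Sum.elim v z = Sum.elim (g.val *ᵥ v) z := by
  rw [embH_val, Matrix.fromBlocks_mulVec]
  ext x
  rcases x with x | x <;> simp

theorem embH_up (B : Matrix n n P) : embH r (up B) = ub B 0 0 := by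
  ext1
  rw [embH_val, up_val, ub_val]
  simp

theorem embH_lo (C : Matrix n n P) : embH r (lo C) = lb C 0 0 := by
  ext1
  rw [embH_val, lo_val, lb_val]
  simp

variable [StarRing P] {ε : ℤ}

theorem embH_mem {d : r → P} {g : (Matrix (n ⊕ n) (n ⊕ n) P)ˣ} (hg : g ∈ UG ε n P) :
    embH r g ∈ isom (JD ε n d) := by
  rw [mem_isom, embH_val, JD, Matrix.fromBlocks_conjTranspose, Matrix.fromBlocks_multiply,
    Matrix.fromBlocks_multiply]
  have h := (mem_UG ε n P g).1 hg
  simp [h]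

theorem diagonal_star {d : r → P} (hd : ∀ k, star (d k) = ε • d k) :
    (Matrix.diagonal d)ᴴ = ε • Matrix.diagonal d := by
  rw [Matrix.diagonal_conjTranspose]
  ext i j
  simp only [Matrix.diagonal_apply, Matrix.smul_apply, Pi.star_apply, hd]
  split_ifs <;> simp

theorem X_star (hε : ε * ε = 1) {d : r → P} (hd : ∀ k, star (d k) = ε • d k)
    (Y : Matrix r n P) : (-(ε • (Yᴴ * Matrix.diagonal d)))ᴴ = -(Matrix.diagonal d * Y) := by
  rw [Matrix.conjTranspose_neg, Matrix.conjTranspose_smul, Matrix.conjTranspose_mul,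
    diagonal_star hd, Matrix.conjTranspose_conjTranspose, star_trivial, Matrix.smul_mul, smul_smul,
    hε, one_smul]

/-- `ub B X Y` is an isometry -/
theorem ub_mem_isom (hε : ε * ε = 1) {d : r → P} (hd : ∀ k, star (d k) = ε • d k)
    {B : Matrix n n P} {Y : Matrix r n P}
    (hB : Bᴴ + ε • B + Yᴴ * Matrix.diagonal d * Y = 0) :
    ub B (-(ε • (Yᴴ * Matrix.diagonal d))) Y ∈ isom (JD ε n d) := by
  have h1 : ε • (-(ε • (Yᴴ * Matrix.diagonal d))) + Yᴴ * Matrix.diagonal d = 0 := by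
    rw [smul_neg, smul_smul, hε, one_smul, neg_add_cancel]
  rw [mem_isom, ub_val, JD, J, Matrix.fromBlocks_conjTranspose,
    Matrix.fromBlocks_conjTranspose, Matrix.conjTranspose_fromRows_eq_fromCols_conjTranspose,
    Matrix.conjTranspose_fromCols_eq_fromRows_conjTranspose, X_star hε hd,
    Matrix.fromBlocks_multiply, Matrix.fromBlocks_multiply]
  generalize -(ε • (Yᴴ * Matrix.diagonal d)) = X at h1 ⊢
  simp only [Matrix.conjTranspose_one, Matrix.conjTranspose_zero, Matrix.fromBlocks_multiply,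
    Matrix.fromRows_mul, Matrix.fromCols_mul_fromBlocks, Matrix.fromRows_mul_fromCols,
    Matrix.fromBlocks_mul_fromRows, Matrix.fromCols_mul_fromRows, Matrix.mul_fromCols,
    Matrix.fromBlocks_add, fromRows_add, fromCols_add, Matrix.one_mul, Matrix.mul_one,
    Matrix.zero_mul, Matrix.mul_zero, zero_add, add_zero, Matrix.mul_smul, Matrix.smul_mul,
    Matrix.mul_one, Matrix.one_mul, h1, smul_zero, Matrix.fromRows_zero, Matrix.fromCols_zero,
    neg_add_cancel, fromCols_low]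
  rw [add_comm (ε • B) Bᴴ, hB]

/-- `lb C X Y` is an isometry -/
theorem lb_mem_isom {d : r → P} (hε : ε * ε = 1) (hd : ∀ k, star (d k) = ε • d k)
    {C : Matrix n n P} {Y : Matrix r n P}
    (hC : C + ε • Cᴴ + Yᴴ * Matrix.diagonal d * Y = 0) :
    lb C (-(Yᴴ * Matrix.diagonal d)) Y ∈ isom (JD ε n d) := by
  have hX : (-(Yᴴ * Matrix.diagonal d))ᴴ = -(ε • (Matrix.diagonal d * Y)) := by
    rw [Matrix.conjTranspose_neg, Matrix.conjTranspose_mul, diagonal_star hd,
      Matrix.conjTranspose_conjTranspose, Matrix.smul_mul]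
  rw [mem_isom, lb_val, JD, J, Matrix.fromBlocks_conjTranspose,
    Matrix.fromBlocks_conjTranspose, Matrix.conjTranspose_fromRows_eq_fromCols_conjTranspose,
    Matrix.conjTranspose_fromCols_eq_fromRows_conjTranspose, hX,
    Matrix.fromBlocks_multiply, Matrix.fromBlocks_multiply]
  simp only [Matrix.conjTranspose_one, Matrix.conjTranspose_zero, Matrix.fromBlocks_multiply,
    Matrix.fromRows_mul, Matrix.fromCols_mul_fromBlocks, Matrix.fromRows_mul_fromCols,
    Matrix.fromBlocks_mul_fromRows, Matrix.fromCols_mul_fromRows, Matrix.mul_fromCols,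
    Matrix.fromBlocks_add, fromRows_add, fromCols_add, Matrix.one_mul, Matrix.mul_one,
    Matrix.zero_mul, Matrix.mul_zero, zero_add, add_zero, Matrix.mul_smul, Matrix.smul_mul,
    smul_zero, Matrix.fromRows_zero, Matrix.fromCols_zero, neg_add_cancel, Matrix.neg_mul,
    fromCols_low, fromCols_upp, fromCols_ur, hC]
  rw [add_comm (ε • Cᴴ) C, hC, smul_neg, smul_smul, hε, one_smul, neg_add_cancel,
    Matrix.fromCols_zero]

end Elements

end BWC
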