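import Pool.Agent.BWC.KDef

/-!
# Project BWC, rows K: unitary groups of `H^n ⊥ V₀`, `V₀` free with any even Gram matrix `D`
-/

set_option autoImplicit false
set_option linter.unusedSectionVars false
set_option linter.unusedSimpArgs false

namespace BWC

open Matrix
open BW hiding star

section JG

variable (ε : ℤ) (n : Type*) {r P : Type*} [DecidableEq n] [Fintype n] [DecidableEq r] [Fintype r]
  [Ring P]

/-- the Gram matrix of the form `H^n ⊥ V₀`, `D` the Gram matrix of `V₀` -/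
def JG (D : Matrix r r P) : Matrix ((n ⊕ n) ⊕ r) ((n ⊕ n) ⊕ r) P :=
  Matrix.fromBlocks (J ε n P) 0 0 D

theorem JD_eq (d : r → P) : JD ε n d = JG ε n (Matrix.diagonal d) := rfl

/-- the unipotent radical of the stabilizer of `E` in the isometry group of `H^n ⊥ V₀` -/
def UPG [StarRing P] (D : Matrix r r P) : Subgroup (Matrix ((n ⊕ n) ⊕ r) ((n ⊕ n) ⊕ r) P)ˣ :=
  isom (JG ε n D) ⊓ U (fl n r)

/-- the unipotent radical of the opposite parabolic subgroup -/
def UMG [StarRing P] (D : Matrix r r P) : Subgroup (Matrix ((n ⊕ n) ⊕ r) ((n ⊕ n) ⊕ r) P)ˣ :=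
  isom (JG ε n D) ⊓ U (-fl n r)

/-- the elementary group -/
def EG [StarRing P] (D : Matrix r r P) : Subgroup (Matrix ((n ⊕ n) ⊕ r) ((n ⊕ n) ⊕ r) P)ˣ :=
  UPG ε n D ⊔ UMG ε n D

theorem EG_le [StarRing P] (D : Matrix r r P) : EG ε n D ≤ isom (JG ε n D) :=
  sup_le inf_le_left inf_le_left

end JG

section Elements

variable {n r P : Type*} [DecidableEq n] [Fintype n] [DecidableEq r] [Fintype r] [Ring P]
  [StarRing P] {ε : ℤ}

theorem conj_even (hε : ε * ε = 1) {A D : Matrix r r P} (hD : D = A + ε • Aᴴ) :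
    Dᴴ = ε • D := by
  rw [hD, Matrix.conjTranspose_add, Matrix.conjTranspose_smul, Matrix.conjTranspose_conjTranspose,
    star_trivial, smul_add, smul_smul, hε, one_smul, add_comm]

/-- `ub B X Y` is an isometry -/
theorem ub_mem_isomG (hε : ε * ε = 1) {D : Matrix r r P} (hD : Dᴴ = ε • D)
    {B : Matrix n n P} {Y : Matrix r n P} (hB : Bᴴ + ε • B + Yᴴ * D * Y = 0) :
    ub B (-(ε • (Yᴴ * D))) Y ∈ isom (JG ε n D) := by
  have hX : (-(ε • (Yᴴ * D)))ᴴ = -(D * Y) := by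
    rw [Matrix.conjTranspose_neg, Matrix.conjTranspose_smul, Matrix.conjTranspose_mul,
      hD, Matrix.conjTranspose_conjTranspose, star_trivial, Matrix.smul_mul, smul_smul,
      hε, one_smul]
  have h1 : ε • (-(ε • (Yᴴ * D))) + Yᴴ * D = 0 := by
    rw [smul_neg, smul_smul, hε, one_smul, neg_add_cancel]
  rw [mem_isom, ub_val, JG, J, Matrix.fromBlocks_conjTranspose,
    Matrix.fromBlocks_conjTranspose, Matrix.conjTranspose_fromRows_eq_fromCols_conjTranspose,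
    Matrix.conjTranspose_fromCols_eq_fromRows_conjTranspose, hX,
    Matrix.fromBlocks_multiply, Matrix.fromBlocks_multiply]
  generalize -(ε • (Yᴴ * D)) = X at h1 ⊢
  simp only [Matrix.conjTranspose_one, Matrix.conjTranspose_zero, Matrix.fromBlocks_multiply,
    Matrix.fromRows_mul, Matrix.fromCols_mul_fromBlocks, Matrix.fromRows_mul_fromCols,
    Matrix.fromBlocks_mul_fromRows, Matrix.fromCols_mul_fromRows, Matrix.mul_fromCols,
    Matrix.fromBlocks_add, fromRows_add, fromCols_add, Matrix.one_mul, Matrix.mul_one,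
    Matrix.zero_mul, Matrix.mul_zero, zero_add, add_zero, Matrix.mul_smul, Matrix.smul_mul,
    Matrix.mul_one, Matrix.one_mul, h1, smul_zero, Matrix.fromRows_zero, Matrix.fromCols_zero,
    neg_add_cancel, fromCols_low]
  rw [add_comm (ε • B) Bᴴ, hB]

/-- `lb C X Y` is an isometry -/
theorem lb_mem_isomG (hε : ε * ε = 1) {D : Matrix r r P} (hD : Dᴴ = ε • D)
    {C : Matrix n n P} {Y : Matrix r n P} (hC : C + ε • Cᴴ + Yᴴ * D * Y = 0) :
    lb C (-(Yᴴ * D)) Y ∈ isom (JG ε n D) := by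
  have hX : (-(Yᴴ * D))ᴴ = -(ε • (D * Y)) := by
    rw [Matrix.conjTranspose_neg, Matrix.conjTranspose_mul, hD,
      Matrix.conjTranspose_conjTranspose, Matrix.smul_mul]
  rw [mem_isom, lb_val, JG, J, Matrix.fromBlocks_conjTranspose,
    Matrix.fromBlocks_conjTranspose, Matrix.conjTranspose_fromRows_eq_fromCols_conjTranspose,
    Matrix.conjTranspose_fromCols_eq_fromRows_conjTranspose, hX,
    Matrix.fromBlocks_multiply, Matrix.fromBlocks_multiply]
  simp only [Matrix.conjTranspose_one, Matrix.conjTranspose_zero, Matrix.fromBlocks_multiply,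
    Matrix.fromRows_mul, Matrix.fromCols_mul_fromBlocks, Matrix.fromRows_mul_fromCols,
    Matrix.fromBlocks_mul_fromRows, Matrix.fromCols_mul_fromRows, Matrix.mul_fromCols,
    Matrix.fromBlocks_add, fromRows_add, fromCols_add, Matrix.one_mul, Matrix.mul_one,
    Matrix.zero_mul, Matrix.mul_zero, zero_add, add_zero, Matrix.mul_smul, Matrix.smul_mul,
    smul_zero, Matrix.fromRows_zero, Matrix.fromCols_zero, neg_add_cancel, Matrix.neg_mul,
    fromCols_low, fromCols_upp, fromCols_ur, hC]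
  rw [add_comm (ε • Cᴴ) C, hC, smul_neg, smul_smul, hε, one_smul, neg_add_cancel,
    Matrix.fromCols_zero]

theorem quad_even {A D : Matrix r r P} (hD : D = A + ε • Aᴴ) (Y : Matrix r n P) :
    Yᴴ * D * Y = Yᴴ * A * Y + ε • (Yᴴ * A * Y)ᴴ := by
  rw [hD, Matrix.mul_add, Matrix.add_mul, Matrix.conjTranspose_mul, Matrix.conjTranspose_mul,
    Matrix.conjTranspose_conjTranspose, Matrix.mul_smul, Matrix.smul_mul, ← Matrix.mul_assoc]

/-- the element of `U_P` attached to `Y`: `a += - (Yᴴ A Y)ᴴ c - ε Yᴴ D z`, `z += Y c` -/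
def uA (ε : ℤ) (A D : Matrix r r P) (Y : Matrix r n P) :
    (Matrix ((n ⊕ n) ⊕ r) ((n ⊕ n) ⊕ r) P)ˣ :=
  ub (-(Yᴴ * A * Y)ᴴ) (-(ε • (Yᴴ * D))) Y

/-- the element of `U_P^-` attached to `Y`: `c += - Yᴴ A Y a - Yᴴ D z`, `z += Y a` -/
def lA (A D : Matrix r r P) (Y : Matrix r n P) : (Matrix ((n ⊕ n) ⊕ r) ((n ⊕ n) ⊕ r) P)ˣ :=
  lb (-(Yᴴ * A * Y)) (-(Yᴴ * D)) Y

theorem uA_mem (hε : ε * ε = 1) {A D : Matrix r r P} (hD : D = A + ε • Aᴴ) (Y : Matrix r n P) :
    uA ε A D Y ∈ UPG ε n D := by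
  refine ⟨ub_mem_isomG hε (conj_even hε hD) ?_, ub_mem_U _ _ _⟩
  rw [quad_even hD Y, Matrix.conjTranspose_neg, Matrix.conjTranspose_conjTranspose, smul_neg]
  abel

theorem lA_mem (hε : ε * ε = 1) {A D : Matrix r r P} (hD : D = A + ε • Aᴴ) (Y : Matrix r n P) :
    lA A D Y ∈ UMG ε n D := by
  refine ⟨lb_mem_isomG hε (conj_even hε hD) ?_, lb_mem_U _ _ _⟩
  rw [quad_even hD Y, Matrix.conjTranspose_neg, smul_neg]
  abel

theorem uA_mem_EG (hε : ε * ε = 1) {A D : Matrix r r P} (hD : D = A + ε • Aᴴ)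
    (Y : Matrix r n P) : uA ε A D Y ∈ EG ε n D := Subgroup.mem_sup_left (uA_mem hε hD Y)

theorem lA_mem_EG (hε : ε * ε = 1) {A D : Matrix r r P} (hD : D = A + ε • Aᴴ)
    (Y : Matrix r n P) : lA A D Y ∈ EG ε n D := Subgroup.mem_sup_right (lA_mem hε hD Y)

theorem embH_memG {D : Matrix r r P} {g : (Matrix (n ⊕ n) (n ⊕ n) P)ˣ} (hg : g ∈ UG ε n P) :
    embH r g ∈ isom (JG ε n D) := by
  rw [mem_isom, embH_val, JG, Matrix.fromBlocks_conjTranspose, Matrix.fromBlocks_multiply,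
    Matrix.fromBlocks_multiply]
  have h := (mem_UG ε n P g).1 hg
  simp [h]

/-- `embH` maps the elementary group of `H^n` into the one of `H^n ⊥ V₀` -/
theorem embH_mem_EG (hε : ε * ε = 1) {D : Matrix r r P} {g : (Matrix (n ⊕ n) (n ⊕ n) P)ˣ}
    (hg : g ∈ EU ε n P) : embH r g ∈ EG ε n D := by
  have : EU ε n P ≤ (EG ε n D).comap (embH r) := by
    refine sup_le ?_ ?_
    · rintro _ ⟨B, hB, rfl⟩
      refine Subgroup.mem_sup_left ⟨embH_memG (up_mem_UG hB), ?_⟩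
      rw [embH_up]
      exact ub_mem_U _ _ _
    · rintro _ ⟨B, hB, rfl⟩
      refine Subgroup.mem_sup_right ⟨embH_memG (lo_mem_UG hε hB), ?_⟩
      rw [embH_lo]
      exact lb_mem_U _ _ _
  exact this hg

theorem uA_mulVec (A D : Matrix r r P) (Y : Matrix r n P) (a c : n → P) (z : r → P) :
    (uA ε A D Y).val *ᵥ Sum.elim (Sum.elim a c) z =
      Sum.elim (Sum.elim (a - (Yᴴ * A * Y)ᴴ *ᵥ c - ε • (Yᴴ *ᵥ (D *ᵥ z))) c) (z + Y *ᵥ c) := by
  rw [uA, ub_mulVec, Matrix.neg_mulVec, Matrix.neg_mulVec, Matrix.smul_mulVec,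
    Matrix.mulVec_mulVec, sub_eq_add_neg, sub_eq_add_neg]

theorem lA_mulVec (A D : Matrix r r P) (Y : Matrix r n P) (a c : n → P) (z : r → P) :
    (lA A D Y).val *ᵥ Sum.elim (Sum.elim a c) z =
      Sum.elim (Sum.elim a (c - (Yᴴ * A * Y) *ᵥ a - Yᴴ *ᵥ (D *ᵥ z))) (z + Y *ᵥ a) := by
  rw [lA, lb_mulVec, Matrix.neg_mulVec, Matrix.neg_mulVec,
    Matrix.mulVec_mulVec, sub_eq_add_neg, sub_eq_add_neg]

/-- the value of the form -/
def hG (ε : ℤ) (D : Matrix r r P) (a c : n → P) (z : r → P) (a' c' : n → P) (z' : r → P) : P :=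
  star a ⬝ᵥ c' + ε • (star c ⬝ᵥ a') + star z ⬝ᵥ (D *ᵥ z')

theorem JG_mulVec (D : Matrix r r P) (a c : n → P) (z : r → P) :
    JG ε n D *ᵥ Sum.elim (Sum.elim a c) z = Sum.elim (Sum.elim c (ε • a)) (D *ᵥ z) := by
  rw [JG, J, Matrix.fromBlocks_mulVec]
  ext x
  rcases x with (x | x) | x
  · simp [Matrix.fromBlocks_mulVec]
  · simp [Matrix.fromBlocks_mulVec]
  · simp

theorem hG_eq (D : Matrix r r P) (a c : n → P) (z : r → P) (a' c' : n → P) (z' : r → P) :
    star (Sum.elim (Sum.elim a c) z) ⬝ᵥ (JG ε n D *ᵥ Sum.elim (Sum.elim a' c') z') =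
      hG ε D a c z a' c' z' := by
  rw [JG_mulVec, hG]
  simp only [dotProduct, Fintype.sum_sum_type, Pi.star_apply, Sum.elim_inl, Sum.elim_inr,
    Pi.smul_apply, mul_smul_comm, Finset.smul_sum]

/-- isometries preserve the form -/
theorem isom_form {k : Type*} [DecidableEq k] [Fintype k] {G : Matrix k k P}
    {g : (Matrix k k P)ˣ} (hg : g ∈ isom G) (x y : k → P) :
    star (g.val *ᵥ x) ⬝ᵥ (G *ᵥ (g.val *ᵥ y)) = star x ⬝ᵥ (G *ᵥ y) := by
  have h := mem_isom.1 hg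
  rw [Matrix.star_mulVec, ← Matrix.dotProduct_mulVec, Matrix.mulVec_mulVec, Matrix.mulVec_mulVec,
    h]

end Elements

end BWC
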