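import Pool.Agent.BWC.Crt
import Pool.Agent.BWC.KG
import Pool.Agent.BWC.Basic

/-!
# Project BWC, rows K: reaching a unimodular first half (`H^n ⊥ V₀`)
-/

set_option autoImplicit false
set_option linter.unusedSectionVars false

namespace BWC

open Matrix
open BW hiding star

section Comp

variable {N : ℕ} {R Λ : Type*} [CommRing R] [IsLocalization.Away (N : ℤ) R] [Ring Λ] [Algebra R Λ]

/-- first round: the first coordinate gets a non-zero norm -/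
theorem reach1 (hN : N ≠ 0) (Q : QAlg N R Λ) (a0 a1 c0 c1 β x0 x1 w0 w1 : Λ)
    (h : x0 * a0 + x1 * a1 + w0 * c0 + w1 * c1 + β = 1) :
    ∃ t : Λ, ∀ κ : Λ, ∃ y s t' : Λ, Q.T s = 0 ∧
      Q.n ((a0 + y * (a1 + t * β + κ * c1)) +
        t' * ((a1 + t * β + κ * c1) + s * (c1 - Q.conj y * c0))) ≠ 0 := by
  obtain ⟨q, hq1, hq⟩ := Nat.exists_infinite_primes (N + 1)
  have hqN : ¬ q ∣ N := fun h => by
    have := Nat.le_of_dvd (Nat.pos_of_ne_zero hN) h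
    omega
  have := Fact.mk hq
  obtain ⟨t, ht⟩ := absorb_mod Q hq hqN a0 a1 c0 c1 β x0 x1 w0 w1 h
  refine ⟨t, fun κ => ?_⟩
  obtain ⟨z, hz⟩ := ht t 0 (by rw [mul_zero, add_zero])
  rw [mem4] at hz
  obtain ⟨x0', x1', w0', w1', h1⟩ := hz
  obtain ⟨y, σ, hσ, hys⟩ := planes_mod hN Q hq hqN a0 (a1 + t * β + κ * c1) c0 c1 x0' x1' w0'
    (w1' - x1' * κ) ⟨z, by rw [← h1]; noncomm_ring⟩
  obtain ⟨s, hs0, hs⟩ := crt_pure Q {q} (fun p hp => by rw [Finset.mem_singleton.mp hp]; exact hq)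
    (fun _ => σ) (fun p hp => by rw [Finset.mem_singleton.mp hp]; exact hσ)
  obtain ⟨z', hz'⟩ := hs q (Finset.mem_singleton_self q)
  obtain ⟨u, v, z'', huv⟩ := hys y 0 s z' (by rw [mul_zero, add_zero]) hz'
  obtain ⟨ρ, hsu, hk, hdet⟩ := Q.fibre q hq hqN
  obtain ⟨T', hT'⟩ := sr1 (ρ (a0 + y * (a1 + t * β + κ * c1)))
    (ρ ((a1 + t * β + κ * c1) + s * (c1 - Q.conj y * c0))) (ρ u) (ρ v) (by
      rw [← map_mul, ← map_mul, ← map_add, huv, rho_add_mul, map_one])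
  obtain ⟨t', rfl⟩ := hsu T'
  rw [← map_mul, ← map_add, isUnit_rho Q hq hqN hdet] at hT'
  exact ⟨y, s, t', hs0, fun h0 => hT' (by rw [h0]; exact dvd_zero _)⟩

/-- second round: the first two coordinates become unimodular -/
theorem reach2 (hN : N ≠ 0) (Q : QAlg N R Λ) (a0 a1 c0 c1 β x0 x1 w0 w1 : Λ)
    (h0 : Q.n a0 ≠ 0) (h : x0 * a0 + x1 * a1 + w0 * c0 + w1 * c1 + β = 1) :
    ∃ t : Λ, ∀ κ : Λ, ∃ y s : Λ, Q.T s = 0 ∧
      ∃ u v, u * (a0 + y * (a1 + t * β + κ * c1)) +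
        v * ((a1 + t * β + κ * c1) + s * (c1 - Q.conj y * c0)) = 1 := by
  obtain ⟨t, x0', x1', w0', w1', h1⟩ := absorb hN Q a0 a1 c0 c1 β x0 x1 w0 w1 h0 h
  refine ⟨t, fun κ => ?_⟩
  obtain ⟨y, s, hs, -, u, v, huv⟩ := two_planes hN Q a0 (a1 + t * β + κ * c1) c0 c1 x0' x1' w0'
    (w1' - x1' * κ) h0 (by rw [← h1]; noncomm_ring)
  exact ⟨y, s, hs, u, v, huv⟩

end Comp

section Rows

variable {n k l P : Type*} [DecidableEq n] [Fintype n] [DecidableEq k] [Fintype k] [Ring P]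

/-- the matrix with the single non-zero row `β` -/
def rw1 (i : n) (β : k → P) : Matrix n k P := Matrix.of fun x y => if x = i then β y else 0

theorem rw1_apply (i : n) (β : k → P) (x : n) (y : k) :
    rw1 i β x y = if x = i then β y else 0 := rfl

theorem rw1_mulVec (i : n) (β v : k → P) : rw1 i β *ᵥ v = Pi.single i (β ⬝ᵥ v) := by
  ext x
  rw [Matrix.mulVec, dotProduct]
  by_cases h : x = i
  · subst h
    simp [rw1_apply, dotProduct]
  · simp [rw1_apply, h]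

theorem vecMul_rw1 (i : n) (β : k → P) (v : n → P) : v ᵥ* rw1 i β = fun y => v i * β y := by
  ext y
  rw [Matrix.vecMul, dotProduct, Finset.sum_eq_single i]
  · simp [rw1_apply]
  · intro j _ hj
    simp [rw1_apply, hj]
  · simp

theorem rw1_mul {m : Type*} [Fintype m] (i : n) (β : m → P) (M : Matrix m k P) :
    rw1 i β * M = rw1 i (β ᵥ* M) := by
  ext x y
  rw [Matrix.mul_apply]
  by_cases h : x = i
  · subst h
    simp [rw1_apply, Matrix.vecMul, dotProduct]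
  · simp [rw1_apply, h]

variable [StarRing P]

theorem rw1_star_mulVec (i : n) (β : k → P) (v : n → P) :
    (rw1 i β)ᴴ *ᵥ v = fun x => Star.star (β x) * v i := by
  ext x
  rw [Matrix.mulVec, dotProduct, Finset.sum_eq_single i]
  · simp [Matrix.conjTranspose_apply, rw1_apply]
  · intro j _ hj
    simp [Matrix.conjTranspose_apply, rw1_apply, hj]
  · simp

theorem rw1_mul_star (i j : n) (β γ : k → P) :
    rw1 i β * (rw1 j γ)ᴴ = Matrix.single i j (β ⬝ᵥ Star.star γ) := by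
  ext x y
  rw [Matrix.mul_apply]
  simp only [Matrix.conjTranspose_apply, rw1_apply, Matrix.single_apply]
  by_cases hx : x = i
  · by_cases hy : y = j
    · subst hx hy
      simp [dotProduct]
    · simp [hy, Ne.symm hy]
  · simp [hx, Ne.symm hx]

/-- `1 + e_i ⊗ β`, `β i = 0` -/
def rowU (i : n) (β : n → P) (h : β i = 0) : (Matrix n n P)ˣ where
  val := 1 + rw1 i β
  inv := 1 - rw1 i β
  val_inv := by
    have h1 : rw1 i β * rw1 i β = 0 := by
      rw [rw1_mul]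
      ext x y
      simp only [rw1_apply, Matrix.vecMul, dotProduct, Matrix.zero_apply]
      split_ifs
      · refine Finset.sum_eq_zero fun z _ => ?_
        by_cases hz : z = i
        · rw [hz, h, zero_mul]
        · rw [if_neg hz, mul_zero]
      · rfl
    rw [add_mul, mul_sub, mul_sub, h1]; simp
  inv_val := by
    have h1 : rw1 i β * rw1 i β = 0 := by
      rw [rw1_mul]
      ext x y
      simp only [rw1_apply, Matrix.vecMul, dotProduct, Matrix.zero_apply]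
      split_ifs
      · refine Finset.sum_eq_zero fun z _ => ?_
        by_cases hz : z = i
        · rw [hz, h, zero_mul]
        · rw [if_neg hz, mul_zero]
      · rfl
    rw [sub_mul, mul_add, mul_add, h1]; simp

theorem rowU_mem (i : n) (β : n → P) (h : β i = 0) : rowU i β h ∈ E n P := by
  classical
  refine U_le_E (fun j => if j = i then 0 else 1) fun x y hxy => ?_
  change (1 + rw1 i β) x y = _
  rw [Matrix.add_apply, rw1_apply]
  by_cases hx : x = i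
  · by_cases hy : y = i
    · rw [hx, hy, if_pos rfl, h, add_zero]
    · exact absurd (by simp [hx, hy]) hxy
  · rw [if_neg hx, add_zero]

end Rows

section Fix

variable {n r P : Type*} [DecidableEq n] [Fintype n] [DecidableEq r] [Fintype r] [Ring P]
  [StarRing P]

variable (n) in
/-- row vectors whose last part is a left multiple of `h(τ, ·)` -/
def MR (D : Matrix r r P) (τ : r → P) (y : (n ⊕ n) ⊕ r → P) : Prop :=
  ∃ ρ : P, ∀ k, y (Sum.inr k) = ρ * (star τ ᵥ* D) k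

variable (n) in
/-- the matrices fixing the vectors of `V₀` orthogonal to `τ` and preserving `MR` -/
def GT (D : Matrix r r P) (τ : r → P) : Subgroup (Matrix ((n ⊕ n) ⊕ r) ((n ⊕ n) ⊕ r) P)ˣ where
  carrier := {e | (∀ v : r → P, star τ ⬝ᵥ (D *ᵥ v) = 0 →
      e.val *ᵥ Sum.elim (0 : n ⊕ n → P) v = Sum.elim (0 : n ⊕ n → P) v) ∧
    ∀ y, MR n D τ y → MR n D τ (y ᵥ* e.val) ∧ MR n D τ (y ᵥ* e⁻¹.val)}
  one_mem' := ⟨fun v _ => by rw [Units.val_one, Matrix.one_mulVec], fun y hy => by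
    rw [inv_one, Units.val_one, Matrix.vecMul_one]; exact ⟨hy, hy⟩⟩
  mul_mem' := by
    rintro e e' ⟨h1, h2⟩ ⟨h1', h2'⟩
    refine ⟨fun v hv => ?_, fun y hy => ⟨?_, ?_⟩⟩
    · rw [Units.val_mul, ← Matrix.mulVec_mulVec, h1' v hv, h1 v hv]
    · rw [Units.val_mul, ← Matrix.vecMul_vecMul]
      exact (h2' _ (h2 y hy).1).1
    · rw [_root_.mul_inv_rev, Units.val_mul, ← Matrix.vecMul_vecMul]
      exact (h2 _ (h2' y hy).2).2
  inv_mem' := by
    rintro e ⟨h1, h2⟩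
    refine ⟨fun v hv => ?_, fun y hy => ?_⟩
    · have := h1 v hv
      conv_lhs => rw [← this]
      rw [Matrix.mulVec_mulVec, ← Units.val_mul, inv_mul_cancel, Units.val_one, Matrix.one_mulVec]
    · rw [inv_inv]
      exact ⟨(h2 y hy).2, (h2 y hy).1⟩

theorem vecMul_ub (B : Matrix n n P) (X : Matrix n r P) (Y : Matrix r n P)
    (y : (n ⊕ n) ⊕ r → P) (k : r) : (y ᵥ* (ub B X Y).val) (Sum.inr k) =
      ((fun i => y (Sum.inl (Sum.inl i))) ᵥ* X) k + y (Sum.inr k) := by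
  rw [ub_val, Matrix.vecMul, dotProduct, Fintype.sum_sum_type, Fintype.sum_sum_type]
  simp [Matrix.vecMul, dotProduct, Matrix.one_apply]

theorem ub_mem_GT {D : Matrix r r P} {τ : r → P} (B : Matrix n n P) (i : n) (μ : P)
    (Y : Matrix r n P) : ub B (rw1 i fun k => μ * (star τ ᵥ* D) k) Y ∈ GT n D τ := by
  refine ⟨fun v hv => ?_, fun y hy => ⟨?_, ?_⟩⟩
  · have h0 : (Sum.elim (0 : n ⊕ n → P) v) = Sum.elim (Sum.elim (0 : n → P) (0 : n → P)) v := by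
      ext x
      rcases x with (x | x) | x <;> rfl
    rw [h0, ub_mulVec, rw1_mulVec]
    have h1 : (fun k => μ * (star τ ᵥ* D) k) ⬝ᵥ v = 0 := by
      rw [Matrix.dotProduct_mulVec] at hv
      have : (fun k => μ * (star τ ᵥ* D) k) ⬝ᵥ v = μ * ((star τ ᵥ* D) ⬝ᵥ v) := by
        rw [dotProduct, dotProduct, Finset.mul_sum]
        exact Finset.sum_congr rfl fun j _ => mul_assoc _ _ _
      rw [this, hv, mul_zero]
    rw [h1]
    simp
  · obtain ⟨ρ, hρ⟩ := hy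
    refine ⟨y (Sum.inl (Sum.inl i)) * μ + ρ, fun k => ?_⟩
    rw [vecMul_ub, vecMul_rw1, hρ k, add_mul, mul_assoc]
  · obtain ⟨ρ, hρ⟩ := hy
    have h : (ub B (rw1 i fun k => μ * (star τ ᵥ* D) k) Y)⁻¹.val =
        (ub ((rw1 i fun k => μ * (star τ ᵥ* D) k) * Y - B)
          (-(rw1 i fun k => μ * (star τ ᵥ* D) k)) (-Y)).val := rfl
    refine ⟨-(y (Sum.inl (Sum.inl i)) * μ) + ρ, fun k => ?_⟩
    rw [h, vecMul_ub, Matrix.vecMul_neg, vecMul_rw1, hρ k, add_mul, Pi.neg_apply, neg_mul,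
      mul_assoc]

theorem embH_mem_GT {D : Matrix r r P} {τ : r → P} (g : (Matrix (n ⊕ n) (n ⊕ n) P)ˣ) :
    embH r g ∈ GT n D τ := by
  have key : ∀ (g : (Matrix (n ⊕ n) (n ⊕ n) P)ˣ) (y : (n ⊕ n) ⊕ r → P) (k : r),
      (y ᵥ* (embH r g).val) (Sum.inr k) = y (Sum.inr k) := by
    intro g y k
    rw [embH_val, Matrix.vecMul, dotProduct, Fintype.sum_sum_type]
    simp [Matrix.one_apply]
  refine ⟨fun v _ => ?_, fun y hy => ⟨?_, ?_⟩⟩
  · rw [embH_mulVec, Matrix.mulVec_zero]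
  · obtain ⟨ρ, hρ⟩ := hy
    exact ⟨ρ, fun k => by rw [key, hρ]⟩
  · obtain ⟨ρ, hρ⟩ := hy
    rw [← map_inv]
    exact ⟨ρ, fun k => by rw [key, hρ]⟩

end Fix

section Gather

variable {ε : ℤ} {n r P : Type*} [DecidableEq n] [Fintype n] [DecidableEq r] [Fintype r] [Ring P]
  [StarRing P]

theorem levV_mulVec (A : (Matrix n n P)ˣ) (a c : n → P) :
    (lev A).val *ᵥ Sum.elim a c = Sum.elim (A.val *ᵥ a) ((A⁻¹.val)ᴴ *ᵥ c) := by
  rw [lev_val, Matrix.fromBlocks_mulVec]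
  have h3 : (Sum.elim a c ∘ Sum.inl : n → P) = a := rfl
  have h4 : (Sum.elim a c ∘ Sum.inr : n → P) = c := rfl
  rw [h3, h4, Matrix.zero_mulVec, Matrix.zero_mulVec, add_zero, zero_add]

theorem rowU_mulVec (i : n) (β : n → P) (h : β i = 0) (a : n → P) :
    (rowU i β h).val *ᵥ a = a + Pi.single i (β ⬝ᵥ a) := by
  change (1 + rw1 i β) *ᵥ a = _
  rw [Matrix.add_mulVec, Matrix.one_mulVec, rw1_mulVec]

theorem rowU_star_mulVec (i : n) (β : n → P) (h : β i = 0) (c : n → P) :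
    ((rowU i β h)⁻¹.val)ᴴ *ᵥ c = c - fun x => Star.star (β x) * c i := by
  change (1 - rw1 i β)ᴴ *ᵥ c = _
  rw [Matrix.conjTranspose_sub, Matrix.conjTranspose_one, Matrix.sub_mulVec, Matrix.one_mulVec,
    rw1_star_mulVec]

theorem embH_mem_sub (hε : ε * ε = 1) (hn : EUL ε n P = EU ε n P) (D : Matrix r r P) (τ : r → P)
    {g : (Matrix (n ⊕ n) (n ⊕ n) P)ˣ} (hg : g ∈ EUL ε n P) : embH r g ∈ EG ε n D ⊓ GT n D τ :=
  ⟨embH_mem_EG hε (by rw [← hn]; exact hg), embH_mem_GT g⟩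

/-- the move with `V₀` -/
theorem moveV (hε : ε * ε = 1) {A D : Matrix r r P} (hD : D = A + ε • Aᴴ) (τ : r → P) (i : n)
    (μ : P) (a c : n → P) (z : r → P) :
    ∃ e ∈ EG ε n D ⊓ GT n D τ, ∃ (κ : P) (z' : r → P),
      e.val *ᵥ Sum.elim (Sum.elim a c) z =
        Sum.elim (Sum.elim (a + Pi.single i (μ * (star τ ⬝ᵥ (D *ᵥ z)) + κ * c i)) c) z' := by
  set η : r → P := fun k => -(ε • (μ * Star.star (τ k))) with hη
  have hYs : ((rw1 i η)ᴴ)ᴴ = rw1 i η := Matrix.conjTranspose_conjTranspose _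
  have hηD : η ᵥ* D = fun k => -(ε • (μ * (star τ ᵥ* D) k)) := by
    ext k
    rw [Matrix.vecMul, Matrix.vecMul, dotProduct, dotProduct, Finset.mul_sum, Finset.smul_sum,
      ← Finset.sum_neg_distrib]
    refine Finset.sum_congr rfl fun j _ => ?_
    rw [hη, neg_mul, smul_mul_assoc, mul_assoc]
    rfl
  have hX : -(ε • (((rw1 i η)ᴴ)ᴴ * D)) = rw1 i fun k => μ * (star τ ᵥ* D) k := by
    rw [hYs, rw1_mul, hηD]
    ext x k
    simp only [Matrix.neg_apply, Matrix.smul_apply, rw1_apply]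
    split_ifs
    · rw [smul_neg, neg_neg, smul_smul, hε, one_smul]
    · rw [smul_zero, neg_zero]
  refine ⟨uA ε A D (rw1 i η)ᴴ, ⟨uA_mem_EG hε hD _, ?_⟩,
    -Star.star ((η ᵥ* A) ⬝ᵥ Star.star η), z + (rw1 i η)ᴴ *ᵥ c, ?_⟩
  · rw [uA, hX]
    exact ub_mem_GT _ _ _ _
  · rw [uA_mulVec]
    congr 2
    rw [hYs, rw1_mul, rw1_mul_star, Matrix.conjTranspose_single, Matrix.single_mulVec,
      rw1_mulVec]
    have h1 : η ⬝ᵥ (D *ᵥ z) = -(ε • (μ * (star τ ⬝ᵥ (D *ᵥ z)))) := by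
      rw [dotProduct, dotProduct, Finset.mul_sum, Finset.smul_sum, ← Finset.sum_neg_distrib]
      refine Finset.sum_congr rfl fun j _ => ?_
      rw [hη, neg_mul, smul_mul_assoc, mul_assoc]
      rfl
    rw [h1]
    ext x
    by_cases hx : x = i
    · subst hx
      simp only [Pi.sub_apply, Pi.add_apply, Pi.smul_apply, Pi.single_eq_same, smul_neg,
        smul_smul, hε, one_smul, Function.update_self]
      noncomm_ring
    · simp [hx]

/-- gathering -/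
theorem gatherG (hε : ε * ε = 1) (hn : EUL ε n P = EU ε n P) {A D : Matrix r r P}
    (hD : D = A + ε • Aᴴ) (τ : r → P) {i0 i1 : n} (α γ : n → P) (hα0 : α i0 = 0) (hα1 : α i1 = 0)
    (hγ0 : γ i0 = 0) (hγ1 : γ i1 = 0) (h01 : i0 ≠ i1) (t ρ : P) (a c : n → P) (z : r → P) :
    ∃ e ∈ EG ε n D ⊓ GT n D τ, ∃ (κ : P) (a' c' : n → P) (z' : r → P),
      e.val *ᵥ Sum.elim (Sum.elim a c) z = Sum.elim (Sum.elim a' c') z' ∧ a' i0 = a i0 ∧
      a' i1 = a i1 + t * (α ⬝ᵥ a + γ ⬝ᵥ c + ρ * (star τ ⬝ᵥ (D *ᵥ z))) + κ * c i1 ∧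
      c' i0 = c i0 ∧ c' i1 = c i1 := by
  -- the Levi element
  have hβ : (fun j => t * α j) i1 = 0 := by simp [hα1]
  set β : n → P := fun j => t * α j with hβd
  set G : Matrix n n P := rw1 i1 (fun j => t * γ j) with hG
  have hS : Sk ε (G - ε • Gᴴ) := by
    rw [Sk, Matrix.conjTranspose_sub, Matrix.conjTranspose_smul, Matrix.conjTranspose_conjTranspose,
      star_trivial, smul_sub, smul_smul, hε, one_smul]
    abel
  obtain ⟨e, he, κ, z', hez⟩ := moveV hε hD τ i1 (t * ρ)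
    (a + Pi.single i1 (β ⬝ᵥ a)) (c - fun x => Star.star (β x) * c i1) z
  set c' : n → P := c - fun x => Star.star (β x) * c i1 with hc'
  have hc1 : c' i1 = c i1 := by
    rw [hc']; simp [hβd, hα1]
  have hc0 : c' i0 = c i0 := by
    rw [hc']; simp [hβd, hα0]
  refine ⟨embH r (up (G - ε • Gᴴ)) * e * embH r (lev (rowU i1 β hβ)),
    mul_mem (mul_mem (embH_mem_sub hε hn D τ (EU_le_EUL (up_mem hS))) he)
      (embH_mem_sub hε hn D τ (lev_mem (rowU_mem _ _ _))),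
    κ - (∑ j, t * γ j * Star.star (β j)),
    a + Pi.single i1 (β ⬝ᵥ a) + Pi.single i1 (t * ρ * (star τ ⬝ᵥ (D *ᵥ z)) + κ * c' i1) +
      (G - ε • Gᴴ) *ᵥ c', c', z', ?_, ?_, ?_, hc0, hc1⟩
  · rw [Units.val_mul, Units.val_mul, ← Matrix.mulVec_mulVec, embH_mulVec, levV_mulVec,
      rowU_mulVec, rowU_star_mulVec, ← Matrix.mulVec_mulVec, ← hc', hez, embH_mulVec, up_mulVec]
  · rw [Matrix.sub_mulVec, Matrix.smul_mulVec, hG, rw1_mulVec, rw1_star_mulVec]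
    simp [h01, hγ0]
  · rw [Matrix.sub_mulVec, Matrix.smul_mulVec, hG, rw1_mulVec, rw1_star_mulVec]
    have e1 : β ⬝ᵥ a = t * (α ⬝ᵥ a) := by
      rw [dotProduct, dotProduct, Finset.mul_sum]
      exact Finset.sum_congr rfl fun j _ => mul_assoc _ _ _
    have e2 : (fun j => t * γ j) ⬝ᵥ c' =
        t * (γ ⬝ᵥ c) - (∑ j, t * γ j * Star.star (β j)) * c i1 := by
      rw [dotProduct, dotProduct, Finset.mul_sum, Finset.sum_mul, ← Finset.sum_sub_distrib]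
      refine Finset.sum_congr rfl fun j _ => ?_
      rw [hc', Pi.sub_apply, mul_sub, mul_assoc, mul_assoc (t * γ j)]
    simp only [Pi.add_apply, Pi.sub_apply, Pi.smul_apply, Pi.single_eq_same, e1, e2, hc1, hγ1,
      mul_zero, star_zero, zero_mul, smul_zero, sub_zero]
    noncomm_ring

/-- the moves in two planes -/
theorem planesG (hε : ε * ε = 1) (hn : EUL ε n P = EU ε n P) (D : Matrix r r P) (τ : r → P)
    {i0 i1 : n} (h01 : i0 ≠ i1) (y s : P) (hs : Star.star s = -(ε • s))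
    (a c : n → P) (z : r → P) :
    ∃ e ∈ EG ε n D ⊓ GT n D τ, ∃ (a' c' : n → P),
      e.val *ᵥ Sum.elim (Sum.elim a c) z = Sum.elim (Sum.elim a' c') z ∧
      a' i0 = a i0 + y * a i1 ∧ a' i1 = a i1 + s * (c i1 - Star.star y * c i0) := by
  have hS : Sk ε (Matrix.single i1 i1 s) := by
    rw [Sk, Matrix.conjTranspose_single, hs, Matrix.smul_single, Matrix.single_neg]
  refine ⟨embH r (up (Matrix.single i1 i1 s)) * embH r (lev (el i0 i1 h01 y)),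
    mul_mem (embH_mem_sub hε hn D τ (EU_le_EUL (up_mem hS)))
      (embH_mem_sub hε hn D τ (lev_mem (el_mem _ _ _ _))), ?_⟩
  rw [Units.val_mul, ← Matrix.mulVec_mulVec, embH_mulVec, lev_el_mulVec, embH_mulVec, up_mulVec]
  refine ⟨_, _, rfl, ?_, ?_⟩
  · simp [Matrix.single_mulVec, h01]
  · simp [Matrix.single_mulVec, h01.symm]

theorem lastG (hε : ε * ε = 1) (hn : EUL ε n P = EU ε n P) (D : Matrix r r P) (τ : r → P)
    {i0 i1 : n} (h01 : i0 ≠ i1) (t : P) (a c : n → P) (z : r → P) :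
    ∃ e ∈ EG ε n D ⊓ GT n D τ, ∃ (a' c' : n → P),
      e.val *ᵥ Sum.elim (Sum.elim a c) z = Sum.elim (Sum.elim a' c') z ∧
      a' i0 = a i0 + t * a i1 := by
  refine ⟨embH r (lev (el i0 i1 h01 t)),
    embH_mem_sub hε hn D τ (lev_mem (el_mem _ _ _ _)), ?_⟩
  rw [embH_mulVec, lev_el_mulVec]
  exact ⟨_, _, rfl, by simp⟩

/-- the functional equation is preserved -/
theorem unimod_mulG {D : Matrix r r P} {τ : r → P} {e : (Matrix ((n ⊕ n) ⊕ r) ((n ⊕ n) ⊕ r) P)ˣ}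
    (he : e ∈ GT n D τ) {x : (n ⊕ n) ⊕ r → P} (hx : ∃ y, MR n D τ y ∧ y ⬝ᵥ x = 1) :
    ∃ y, MR n D τ y ∧ y ⬝ᵥ (e.val *ᵥ x) = 1 := by
  obtain ⟨y, hM, hy⟩ := hx
  refine ⟨y ᵥ* e⁻¹.val, (he.2 y hM).2, ?_⟩
  rw [Matrix.dotProduct_mulVec, Matrix.vecMul_vecMul, ← Units.val_mul, inv_mul_cancel,
    Units.val_one, Matrix.vecMul_one, hy]

theorem dot_splitG {i0 i1 : n} (h01 : i0 ≠ i1) (α a : n → P) :
    α ⬝ᵥ a = α i0 * a i0 + α i1 * a i1 +
      (Function.update (Function.update α i0 0) i1 0) ⬝ᵥ a := by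
  have h : α = Pi.single i0 (α i0) + Pi.single i1 (α i1) +
      Function.update (Function.update α i0 0) i1 0 := by
    ext x
    by_cases h0 : x = i0
    · subst h0; simp [h01]
    · by_cases h1 : x = i1
      · subst h1; simp [h0]
      · simp [h0, h1]
  conv_lhs => rw [h]
  rw [add_dotProduct, add_dotProduct, single_dotProduct, single_dotProduct]

/-- one round of moves -/
theorem roundG (hε : ε * ε = 1) (hn : EUL ε n P = EU ε n P) {A D : Matrix r r P}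
    (hD : D = A + ε • Aᴴ) (τ : r → P) {i0 i1 : n} (h01 : i0 ≠ i1) (x : (n ⊕ n) ⊕ r → P)
    (hx : ∃ y, MR n D τ y ∧ y ⬝ᵥ x = 1) :
    ∃ a0 a1 c0 c1 β x0 x1 w0 w1 : P, x0 * a0 + x1 * a1 + w0 * c0 + w1 * c1 + β = 1 ∧
      a0 = x (Sum.inl (Sum.inl i0)) ∧ ∀ t : P, ∃ κ : P, ∀ y s : P, Star.star s = -(ε • s) →
        ∃ e ∈ EG ε n D ⊓ GT n D τ,
          (e.val *ᵥ x) (Sum.inl (Sum.inl i0)) = a0 + y * (a1 + t * β + κ * c1) ∧
          (e.val *ᵥ x) (Sum.inl (Sum.inl i1)) =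
            (a1 + t * β + κ * c1) + s * (c1 - Star.star y * c0) := by
  obtain ⟨y, ⟨ρ, hρ⟩, hy⟩ := hx
  obtain ⟨a, c, z, rfl⟩ : ∃ a c z, x = Sum.elim (Sum.elim a c) z :=
    ⟨fun i => x (Sum.inl (Sum.inl i)), fun i => x (Sum.inl (Sum.inr i)), fun i => x (Sum.inr i), by
      ext j; rcases j with (j | j) | j <;> rfl⟩
  obtain ⟨α, γ, ζ, rfl⟩ : ∃ a c z, y = Sum.elim (Sum.elim a c) z :=
    ⟨fun i => y (Sum.inl (Sum.inl i)), fun i => y (Sum.inl (Sum.inr i)), fun i => y (Sum.inr i), by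
      ext j; rcases j with (j | j) | j <;> rfl⟩
  have hζ : ζ ⬝ᵥ z = ρ * (star τ ⬝ᵥ (D *ᵥ z)) := by
    rw [Matrix.dotProduct_mulVec, dotProduct, dotProduct, Finset.mul_sum]
    refine Finset.sum_congr rfl fun k _ => ?_
    rw [show ζ k = ρ * (star τ ᵥ* D) k from hρ k, mul_assoc]
  rw [sumElim_dotProduct_sumElim, sumElim_dotProduct_sumElim, dot_splitG h01 α a,
    dot_splitG h01 γ c, hζ] at hy
  set α' : n → P := Function.update (Function.update α i0 0) i1 0 with hα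
  set γ' : n → P := Function.update (Function.update γ i0 0) i1 0 with hγ
  have hα0 : α' i0 = 0 := by simp [hα, h01]
  have hα1 : α' i1 = 0 := by simp [hα]
  have hγ0 : γ' i0 = 0 := by simp [hγ, h01]
  have hγ1 : γ' i1 = 0 := by simp [hγ]
  refine ⟨a i0, a i1, c i0, c i1, α' ⬝ᵥ a + γ' ⬝ᵥ c + ρ * (star τ ⬝ᵥ (D *ᵥ z)), α i0, α i1, γ i0,
    γ i1, ?_, rfl, fun t => ?_⟩
  · rw [← hy]; abel
  · obtain ⟨e, he, κ, a', c', z', h1, h2, h3, h4, h5⟩ := gatherG hε hn hD τ α' γ' hα0 hα1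
      hγ0 hγ1 h01 t ρ a c z
    refine ⟨κ, fun y s hs => ?_⟩
    obtain ⟨e', he', a'', c'', g1, g2, g3⟩ := planesG hε hn D τ h01 y s hs a' c' z'
    refine ⟨e' * e, mul_mem he' he, ?_⟩
    rw [Units.val_mul, ← Matrix.mulVec_mulVec, h1, g1]
    refine ⟨?_, ?_⟩
    · change a'' i0 = _
      rw [g2, h2, h3]
    · change a'' i1 = _
      rw [g3, h3, h4, h5]

end Gather

section Family

variable {ι : Type*} {N : ι → ℕ} {R Λ : ι → Type*} [∀ i, CommRing (R i)]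
  [∀ i, IsLocalization.Away (N i : ℤ) (R i)] [∀ i, Ring (Λ i)] [∀ i, StarRing (Λ i)]
  [∀ i, Algebra (R i) (Λ i)] {n r : Type*} [DecidableEq n] [Fintype n] [DecidableEq r] [Fintype r]

theorem star_of_T (Q : ∀ i, QAlg (N i) (R i) (Λ i)) (hQ : ∀ i x, Star.star x = (Q i).conj x)
    (s : ∀ i, Λ i) (hs : ∀ i, (Q i).T (s i) = 0) : Star.star s = -((1 : ℤ) • s) := by
  funext i
  have h := (Q i).add_conj (s i)
  rw [hs i, map_zero] at h
  rw [Pi.star_apply, hQ, one_smul, Pi.neg_apply]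
  exact eq_neg_of_add_eq_zero_right h

/-- **reach**: a vector `(a; c; z)` of `H^n ⊥ V₀` with `x · a + w · c + h(τ, z) = 1` can be moved by
an elementary isometry, fixing all vectors of `V₀` orthogonal to `τ`, to a vector whose first half
is unimodular -/
theorem reachG_of (hn : EUL 1 n (∀ i, Λ i) = EU 1 n (∀ i, Λ i)) (hn2 : 2 ≤ Fintype.card n) (hN : ∀ i, N i ≠ 0) (Q : ∀ i, QAlg (N i) (R i) (Λ i))
    (hQ : ∀ i x, Star.star x = (Q i).conj x) {A D : Matrix r r (∀ i, Λ i)}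
    (hD : D = A + (1 : ℤ) • Aᴴ) (a c x w : n → ∀ i, Λ i) (z τ : r → ∀ i, Λ i)
    (h : x ⬝ᵥ a + w ⬝ᵥ c + star τ ⬝ᵥ (D *ᵥ z) = 1) :
    ∃ e ∈ EG 1 n D,
      (∀ v : r → ∀ i, Λ i, star τ ⬝ᵥ (D *ᵥ v) = 0 →
        e.val *ᵥ Sum.elim (0 : n ⊕ n → ∀ i, Λ i) v = Sum.elim (0 : n ⊕ n → ∀ i, Λ i) v) ∧
      ∃ y : n → ∀ i, Λ i,
        (y ⬝ᵥ fun j => (e.val *ᵥ Sum.elim (Sum.elim a c) z) (Sum.inl (Sum.inl j))) = 1 := by
  have hε : (1 : ℤ) * 1 = 1 := by norm_num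
  obtain ⟨i0, i1, h01⟩ : ∃ i0 i1 : n, i0 ≠ i1 := Fintype.exists_pair_of_one_lt_card (by omega)
  have hx : ∃ y, MR n D τ y ∧ y ⬝ᵥ Sum.elim (Sum.elim a c) z = 1 := by
    refine ⟨Sum.elim (Sum.elim x w) (star τ ᵥ* D), ⟨1, fun k => by simp⟩, ?_⟩
    rw [sumElim_dotProduct_sumElim, sumElim_dotProduct_sumElim, ← Matrix.dotProduct_mulVec, h]
  generalize Sum.elim (Sum.elim a c) z = X at hx ⊢
  -- first round
  obtain ⟨a0, a1, c0, c1, β, x0, x1, w0, w1, h, -, hr⟩ := roundG hε hn hD τ h01 X hx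
  choose t ht using fun i => reach1 (hN i) (Q i) (a0 i) (a1 i) (c0 i) (c1 i) (β i) (x0 i) (x1 i)
    (w0 i) (w1 i) (congrFun h i)
  obtain ⟨κ, hκ⟩ := hr t
  choose y s t' hs hn' using fun i => ht i (κ i)
  obtain ⟨e, he, e1, e2⟩ := hκ y s (star_of_T Q hQ s hs)
  obtain ⟨e', he', a', c', f1, f2⟩ : ∃ e' ∈ EG 1 n D ⊓ GT n D τ, ∃ (a' c' : n → ∀ i, Λ i),
      e'.val *ᵥ (e.val *ᵥ X) = Sum.elim (Sum.elim a' c') (fun k => (e.val *ᵥ X) (Sum.inr k)) ∧
      a' i0 = (e.val *ᵥ X) (Sum.inl (Sum.inl i0)) + t' * (e.val *ᵥ X) (Sum.inl (Sum.inl i1)) := by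
    obtain ⟨e', he', a', c', f1, f2⟩ := lastG hε hn D τ h01 t'
      (fun k => (e.val *ᵥ X) (Sum.inl (Sum.inl k))) (fun k => (e.val *ᵥ X) (Sum.inl (Sum.inr k)))
      (fun k => (e.val *ᵥ X) (Sum.inr k))
    refine ⟨e', he', a', c', ?_, f2⟩
    rw [← f1]
    congr 1
    ext j; rcases j with (j | j) | j <;> rfl
  have hn2 : ∀ i, (Q i).n (a' i0 i) ≠ 0 := fun i => by
    rw [f2, e1, e2]
    have := hn' i
    rw [← hQ] at this
    exact this
  -- second round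
  have hx' : ∃ y, MR n D τ y ∧ y ⬝ᵥ ((e' * e).val *ᵥ X) = 1 :=
    unimod_mulG (mul_mem he'.2 he.2) hx
  have hx'' : (e' * e).val *ᵥ X = Sum.elim (Sum.elim a' c') (fun k => (e.val *ᵥ X) (Sum.inr k)) := by
    rw [Units.val_mul, ← Matrix.mulVec_mulVec, f1]
  obtain ⟨b0, b1, g0, g1, β', y0, y1, v0, v1, h', hb0, hr'⟩ := roundG hε hn hD τ h01 _ hx'
  have hb0' : b0 = a' i0 := by rw [hb0, hx'']; rfl
  choose τ' hτ using fun i => reach2 (hN i) (Q i) (b0 i) (b1 i) (g0 i) (g1 i) (β' i) (y0 i) (y1 i)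
    (v0 i) (v1 i) (by rw [hb0']; exact hn2 i) (congrFun h' i)
  obtain ⟨κ', hκ'⟩ := hr' τ'
  choose y' s' hs' u v huv using fun i => hτ i (κ' i)
  obtain ⟨e'', he'', k1, k2⟩ := hκ' y' s' (star_of_T Q hQ s' hs')
  have hmem : e'' * (e' * e) ∈ EG 1 n D ⊓ GT n D τ := mul_mem he'' (mul_mem he' he)
  refine ⟨e'' * (e' * e), hmem.1, fun v hv => hmem.2.1 v hv, Pi.single i0 u + Pi.single i1 v, ?_⟩
  rw [add_dotProduct, single_dotProduct, single_dotProduct]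
  have k3 : (e'' * (e' * e)).val *ᵥ X = e''.val *ᵥ ((e' * e).val *ᵥ X) := by
    rw [Units.val_mul, ← Matrix.mulVec_mulVec]
  rw [k3, k1, k2]
  funext i
  have := huv i
  rw [← hQ] at this
  exact this

theorem reachG (hn : 3 ≤ Fintype.card n) (hN : ∀ i, N i ≠ 0) (Q : ∀ i, QAlg (N i) (R i) (Λ i))
    (hQ : ∀ i x, Star.star x = (Q i).conj x) {A D : Matrix r r (∀ i, Λ i)}
    (hD : D = A + (1 : ℤ) • Aᴴ) (a c x w : n → ∀ i, Λ i) (z τ : r → ∀ i, Λ i)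
    (h : x ⬝ᵥ a + w ⬝ᵥ c + star τ ⬝ᵥ (D *ᵥ z) = 1) :
    ∃ e ∈ EG 1 n D,
      (∀ v : r → ∀ i, Λ i, star τ ⬝ᵥ (D *ᵥ v) = 0 →
        e.val *ᵥ Sum.elim (0 : n ⊕ n → ∀ i, Λ i) v = Sum.elim (0 : n ⊕ n → ∀ i, Λ i) v) ∧
      ∃ y : n → ∀ i, Λ i,
        (y ⬝ᵥ fun j => (e.val *ᵥ Sum.elim (Sum.elim a c) z) (Sum.inl (Sum.inl j))) = 1 :=
  reachG_of (EUL_eq (by norm_num) hn) (by omega) hN Q hQ hD a c x w z τ h

end Family

end BWC
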