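import Pool.Agent.BWC.KG

/-!
# Project BWC, rows K: removal of `V₀`

Let `g` be an isometry of `V = H^n ⊥ V₀`. Under the hypothesis `Reach` (a unimodular vector can be
moved to a vector whose `e`-part is unimodular, by elements of the elementary group which fix a
given orthogonal complement) there is an element `e` of the elementary group such that `e g` is an
isometry of the hyperbolic part `H^n`.
-/

set_option autoImplicit false
set_option linter.unusedSectionVars false

namespace BWC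

open Matrix
open BW hiding star

variable {n r P : Type*} [DecidableEq n] [Fintype n] [DecidableEq r] [Fintype r] [Ring P]
  [StarRing P] {ε : ℤ}

/-- a vector with `h(t, z)`-part: the `e`-part can be made unimodular without moving `t^⊥ ⊂ V₀` -/
def Reach (ε : ℤ) (n : Type*) {r P : Type*} [DecidableEq n] [Fintype n] [DecidableEq r]
    [Fintype r] [Ring P] [StarRing P] (D : Matrix r r P) : Prop :=
  ∀ (a c x w : n → P) (z t : r → P), x ⬝ᵥ a + w ⬝ᵥ c + star t ⬝ᵥ (D *ᵥ z) = 1 →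
    ∃ e ∈ EG ε n D, (∀ v : r → P, star t ⬝ᵥ (D *ᵥ v) = 0 →
        e.val *ᵥ Sum.elim (0 : n ⊕ n → P) v = Sum.elim (0 : n ⊕ n → P) v) ∧
      ∃ y : n → P,
        y ⬝ᵥ (fun j => (e.val *ᵥ Sum.elim (Sum.elim a c) z) (Sum.inl (Sum.inl j))) = 1

theorem elim_zero : (0 : n ⊕ n → P) = Sum.elim (0 : n → P) (0 : n → P) := by
  ext x
  rcases x with x | x <;> rfl

theorem vec_mulVec (w : r → P) (y a : n → P) :
    (Matrix.vecMulVec w y) *ᵥ a = fun i => w i * (y ⬝ᵥ a) := by
  ext i
  simp only [Matrix.mulVec, dotProduct, Matrix.vecMulVec_apply, Finset.mul_sum, mul_assoc]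

theorem vec_conj (w : r → P) (y : n → P) (u : r → P) :
    (Matrix.vecMulVec w y)ᴴ *ᵥ u = fun j => star (y j) * (star w ⬝ᵥ u) := by
  ext j
  simp only [Matrix.mulVec, dotProduct, Matrix.conjTranspose_apply, Matrix.vecMulVec_apply,
    Finset.mul_sum, mul_assoc, star_mul, Pi.star_apply]

/-- `h(w, v_j)` in terms of `h(v_j, w)` -/
theorem form_single (hε : ε * ε = 1) {D : Matrix r r P} (hD : Dᴴ = ε • D) (w : r → P) (j : r) :
    star w ⬝ᵥ (D *ᵥ Pi.single j 1) = ε • star ((D *ᵥ w) j) := by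
  have h1 : ∀ i, D i j = ε • star (D j i) := by
    intro i
    have := congrFun (congrFun hD i) j
    rw [Matrix.conjTranspose_apply, Matrix.smul_apply] at this
    rw [this, smul_smul, hε, one_smul]
  rw [Matrix.mulVec_single_one]
  simp only [dotProduct, Matrix.mulVec, star_sum, star_mul, Pi.star_apply, Matrix.col_apply,
    Finset.smul_sum]
  refine Finset.sum_congr rfl fun i _ => ?_
  rw [h1 i, mul_smul_comm]

theorem lA_fix (A D : Matrix r r P) (w : r → P) (y : n → P) (v : r → P)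
    (h : star w ⬝ᵥ (D *ᵥ v) = 0) :
    (lA A D (Matrix.vecMulVec w y)).val *ᵥ Sum.elim (0 : n ⊕ n → P) v =
      Sum.elim (0 : n ⊕ n → P) v := by
  rw [elim_zero, lA_mulVec, vec_conj, h]
  simp only [Matrix.mulVec_zero, mul_zero, sub_zero, add_zero]
  congr 2
  ext i
  simp

theorem uA_fix (A D : Matrix r r P) (w : r → P) (y : n → P) (v : r → P)
    (h : star w ⬝ᵥ (D *ᵥ v) = 0) :
    (uA ε A D (Matrix.vecMulVec w y)).val *ᵥ Sum.elim (0 : n ⊕ n → P) v =
      Sum.elim (0 : n ⊕ n → P) v := by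
  rw [elim_zero, uA_mulVec, vec_conj, h]
  simp only [Matrix.mulVec_zero, mul_zero, sub_zero, add_zero]
  congr 2
  ext i
  simp

/-- the matrix which kills `c` -/
def killM (ε : ℤ) (c y : n → P) (σ : P) : Matrix n n P :=
  fun i j => -(c i * y j) + ε • (star (y i) * star (c j)) + star (y i) * σ * y j

theorem killM_mulVec {a c y : n → P} {σ : P} (hy : y ⬝ᵥ a = 1)
    (hσ : σ + ε • (star c ⬝ᵥ a) = 0) : killM ε c y σ *ᵥ a = -c := by
  ext i
  have h1 : (killM ε c y σ *ᵥ a) i =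
      -(c i * (y ⬝ᵥ a)) + ε • (star (y i) * (star c ⬝ᵥ a)) + star (y i) * σ * (y ⬝ᵥ a) := by
    simp only [killM, Matrix.mulVec, dotProduct, add_mul, Finset.sum_add_distrib, neg_mul,
      Finset.sum_neg_distrib, Finset.mul_sum, mul_assoc, smul_mul_assoc, Finset.smul_sum,
      Pi.star_apply]
  rw [h1, hy, mul_one, mul_one, Pi.neg_apply, add_assoc, ← mul_smul_comm, ← mul_add, add_comm
    (ε • (star c ⬝ᵥ a)) σ, hσ, mul_zero, add_zero]

theorem killM_sk (hε : ε * ε = 1) {c y : n → P} {σ : P} (hσ : σ + ε • star σ = 0) :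
    Sk ε (killM ε c y σ) := by
  have h1 : star σ = -(ε • σ) := by
    have h2 : ε • (σ + ε • star σ) = 0 := by rw [hσ, smul_zero]
    rw [smul_add, smul_smul, hε, one_smul] at h2
    exact eq_neg_of_add_eq_zero_right h2
  unfold Sk
  ext i j
  simp only [Matrix.conjTranspose_apply, killM, Matrix.neg_apply, Matrix.smul_apply, star_add,
    star_neg, star_mul, star_star, star_smul, star_trivial, h1, smul_add, smul_neg, smul_smul, hε,
    one_smul]
  simp only [mul_neg, neg_mul, mul_smul_comm, smul_mul_assoc, mul_assoc]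
  abel

/-- **transitivity**: a vector with unimodular `e`-part of the length of `v_k` is moved to `v_k` -/
theorem to_v (hε : ε * ε = 1) {A D D' : Matrix r r P} (hD : D = A + ε • Aᴴ) (hDD : D * D' = 1)
    (a c : n → P) (z : r → P) (y : n → P) (hy : y ⬝ᵥ a = 1) (k : r)
    (hlen : hG ε D a c z a c z = D k k) (S : Finset r) (hk : k ∉ S)
    (hS : ∀ j ∈ S, (D *ᵥ z) j = D j k) :
    ∃ e ∈ EG ε n D, (∀ j ∈ S, e.val *ᵥ Sum.elim (0 : n ⊕ n → P) (Pi.single j 1) =
        Sum.elim (0 : n ⊕ n → P) (Pi.single j 1)) ∧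
      e.val *ᵥ Sum.elim (Sum.elim a c) z = Sum.elim (0 : n ⊕ n → P) (Pi.single k 1) := by
  have hDs := conj_even hε hD
  have hcol : ∀ j, (D *ᵥ Pi.single k (1 : P)) j = D j k := by
    intro j
    rw [Matrix.mulVec_single_one]; rfl
  -- step 1
  set w : r → P := Pi.single k 1 - z with hw
  set e1 := lA A D (Matrix.vecMulVec w y) with he1
  have he1m : e1 ∈ EG ε n D := lA_mem_EG hε hD _
  obtain ⟨c1, hc1⟩ : ∃ c1 : n → P, e1.val *ᵥ Sum.elim (Sum.elim a c) z =
      Sum.elim (Sum.elim a c1) (Pi.single k 1) := by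
    refine ⟨c - ((Matrix.vecMulVec w y)ᴴ * A * Matrix.vecMulVec w y) *ᵥ a -
      (Matrix.vecMulVec w y)ᴴ *ᵥ (D *ᵥ z), ?_⟩
    rw [he1, lA_mulVec]
    congr 1
    rw [vec_mulVec, hy]
    ext i
    simp [hw]
  have hfix1 : ∀ j ∈ S, e1.val *ᵥ Sum.elim (0 : n ⊕ n → P) (Pi.single j 1) =
      Sum.elim (0 : n ⊕ n → P) (Pi.single j 1) := by
    intro j hj
    apply lA_fix
    rw [form_single hε hDs, hw, Matrix.mulVec_sub, Pi.sub_apply, hcol, hS j hj, sub_self,
      star_zero, smul_zero]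
  -- the length
  have hlen1 : hG ε D a c1 (Pi.single k 1) a c1 (Pi.single k 1) = D k k := by
    have h := isom_form (EG_le ε n D he1m) (Sum.elim (Sum.elim a c) z) (Sum.elim (Sum.elim a c) z)
    rw [hc1, hG_eq, hG_eq, hlen] at h
    exact h
  have hkk : star (Pi.single k (1 : P)) ⬝ᵥ (D *ᵥ Pi.single k 1) = D k k := by
    have : star (Pi.single k 1 : r → P) = Pi.single k 1 := by
      ext i
      by_cases h : i = k
      · subst h; simp
      · simp [Pi.single_eq_of_ne h]
    rw [this, single_one_dotProduct, hcol]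
  have hσ : star a ⬝ᵥ c1 + ε • (star c1 ⬝ᵥ a) = 0 := by
    rw [hG, hkk] at hlen1
    exact add_eq_right.mp hlen1
  have hσ' : star a ⬝ᵥ c1 + ε • star (star a ⬝ᵥ c1) = 0 := by
    rw [← Matrix.star_dotProduct_star, star_star] at *
    exact hσ
  -- step 2
  set C := killM ε c1 y (star a ⬝ᵥ c1) with hC
  have hCa : C *ᵥ a = -c1 := killM_mulVec hy hσ
  have hCs : Sk ε C := killM_sk hε hσ'
  set e2 : (Matrix ((n ⊕ n) ⊕ r) ((n ⊕ n) ⊕ r) P)ˣ := embH r (lo C) with he2
  have he2m : e2 ∈ EG ε n D := embH_mem_EG hε (lo_mem hCs)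
  have hfix2 : ∀ v : r → P, e2.val *ᵥ Sum.elim (0 : n ⊕ n → P) v = Sum.elim (0 : n ⊕ n → P) v := by
    intro v
    rw [he2, embH_mulVec, Matrix.mulVec_zero]
  have h2 : e2.val *ᵥ Sum.elim (Sum.elim a c1) (Pi.single k 1) =
      Sum.elim (Sum.elim a 0) (Pi.single k 1) := by
    rw [he2, embH_lo, lb_mulVec, hCa, Matrix.zero_mulVec, Matrix.zero_mulVec, add_neg_cancel,
      add_zero, add_zero]
  -- step 3
  set u : r → P := D' *ᵥ Pi.single k 1 with hu
  have hDu : D *ᵥ u = Pi.single k 1 := by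
    rw [hu, Matrix.mulVec_mulVec, hDD, Matrix.one_mulVec]
  set e3 := uA ε A D (Matrix.vecMulVec u (fun j => -star (a j))) with he3
  have he3m : e3 ∈ EG ε n D := uA_mem_EG hε hD _
  have hfix3 : ∀ j ∈ S, e3.val *ᵥ Sum.elim (0 : n ⊕ n → P) (Pi.single j 1) =
      Sum.elim (0 : n ⊕ n → P) (Pi.single j 1) := by
    intro j hj
    apply uA_fix
    have hjk : j ≠ k := fun h => hk (h ▸ hj)
    rw [form_single hε hDs, hDu, Pi.single_eq_of_ne hjk, star_zero, smul_zero]
  have h3 : e3.val *ᵥ Sum.elim (0 : n ⊕ n → P) (Pi.single k 1) =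
      Sum.elim (Sum.elim a 0) (Pi.single k 1) := by
    rw [elim_zero, he3, uA_mulVec, vec_conj, form_single hε hDs, hDu, Pi.single_eq_same, star_one,
      Matrix.mulVec_zero, Matrix.mulVec_zero, add_zero]
    congr 2
    ext j
    simp only [star_neg, star_star, Pi.sub_apply, Pi.zero_apply, Pi.smul_apply, sub_self, zero_sub,
      mul_smul_comm, mul_one, smul_neg, neg_neg, smul_smul, hε, one_smul]
  have h3' : e3⁻¹.val *ᵥ Sum.elim (Sum.elim a 0) (Pi.single k 1) =
      Sum.elim (0 : n ⊕ n → P) (Pi.single k 1) := by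
    rw [← h3, Matrix.mulVec_mulVec, Units.inv_mul, Matrix.one_mulVec]
  refine ⟨e3⁻¹ * (e2 * e1), mul_mem (inv_mem he3m) (mul_mem he2m he1m), fun j hj => ?_, ?_⟩
  · rw [Units.val_mul, Units.val_mul, ← Matrix.mulVec_mulVec, ← Matrix.mulVec_mulVec, hfix1 j hj,
      hfix2]
    have h4 := hfix3 j hj
    conv_lhs => rw [← h4]
    rw [Matrix.mulVec_mulVec, Units.inv_mul, Matrix.one_mulVec]
  · rw [Units.val_mul, Units.val_mul, ← Matrix.mulVec_mulVec, ← Matrix.mulVec_mulVec, hc1, h2, h3']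

theorem elim_eta (x : (n ⊕ n) ⊕ r → P) : Sum.elim (Sum.elim (fun j => x (Sum.inl (Sum.inl j)))
    (fun j => x (Sum.inl (Sum.inr j)))) (fun k => x (Sum.inr k)) = x := by
  ext i
  rcases i with (i | i) | i <;> rfl

theorem form_v (D : Matrix r r P) (v : r → P) (x : (n ⊕ n) ⊕ r → P) :
    star (Sum.elim (0 : n ⊕ n → P) v) ⬝ᵥ (JG ε n D *ᵥ x) =
      star v ⬝ᵥ (D *ᵥ fun k => x (Sum.inr k)) := by
  conv_lhs => rw [← elim_eta x, elim_zero, hG_eq]
  rw [hG]
  simp

theorem star_single (k : r) : star (Pi.single k 1 : r → P) = Pi.single k 1 := by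
  ext i
  by_cases h : i = k
  · subst h; simp
  · simp [Pi.single_eq_of_ne h]

/-- **one vector after the other** -/
theorem fix_all (hε : ε * ε = 1) {A D D' : Matrix r r P} (hD : D = A + ε • Aᴴ)
    (hDD : D * D' = 1) (hR : Reach ε n D) (g : (Matrix ((n ⊕ n) ⊕ r) ((n ⊕ n) ⊕ r) P)ˣ)
    (hg : g ∈ isom (JG ε n D)) (S : Finset r) :
    ∃ e ∈ EG ε n D, ∀ j ∈ S, (e * g).val *ᵥ Sum.elim (0 : n ⊕ n → P) (Pi.single j 1) =
      Sum.elim (0 : n ⊕ n → P) (Pi.single j 1) := by
  have hDs := conj_even hε hD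
  induction S using Finset.induction_on with
  | empty => exact ⟨1, one_mem _, fun j hj => absurd hj (Finset.notMem_empty j)⟩
  | insert k S hk ih =>
    obtain ⟨e0, he0, h0⟩ := ih
    set g1 := e0 * g with hg1
    have hg1m : g1 ∈ isom (JG ε n D) := mul_mem (EG_le ε n D he0) hg
    -- the image of `v_k`
    set x := g1.val *ᵥ Sum.elim (0 : n ⊕ n → P) (Pi.single k 1) with hx
    set a : n → P := fun j => x (Sum.inl (Sum.inl j)) with ha
    set c : n → P := fun j => x (Sum.inl (Sum.inr j)) with hc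
    set z : r → P := fun i => x (Sum.inr i) with hz
    have hxe : x = Sum.elim (Sum.elim a c) z := (elim_eta x).symm
    -- the image of the dual vector
    set u : r → P := D' *ᵥ Pi.single k 1 with hu
    have hDu : D *ᵥ u = Pi.single k 1 := by
      rw [hu, Matrix.mulVec_mulVec, hDD, Matrix.one_mulVec]
    have hsu : ∀ j, star u ⬝ᵥ (D *ᵥ Pi.single j 1) = if j = k then (ε : P) else 0 := by
      intro j
      rw [form_single hε hDs, hDu]
      split_ifs with h
      · subst h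
        rw [Pi.single_eq_same, star_one, zsmul_eq_mul, mul_one]
      · rw [Pi.single_eq_of_ne h, star_zero, smul_zero]
    set x' := g1.val *ᵥ Sum.elim (0 : n ⊕ n → P) u with hx'
    set a' : n → P := fun j => x' (Sum.inl (Sum.inl j)) with ha'
    set c' : n → P := fun j => x' (Sum.inl (Sum.inr j)) with hc'
    set z' : r → P := fun i => x' (Sum.inr i) with hz'
    have hxe' : x' = Sum.elim (Sum.elim a' c') z' := (elim_eta x').symm
    -- `h(x', x) = ε`
    have h1 : star a' ⬝ᵥ c + ε • (star c' ⬝ᵥ a) + star z' ⬝ᵥ (D *ᵥ z) = (ε : P) := by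
      have h2 := isom_form hg1m (Sum.elim (0 : n ⊕ n → P) u)
        (Sum.elim (0 : n ⊕ n → P) (Pi.single k 1))
      rw [← hx, ← hx', hxe, hxe', hG_eq, form_v] at h2
      change hG ε D a' c' z' a c z = star u ⬝ᵥ (D *ᵥ Pi.single k 1) at h2
      rw [hsu, if_pos rfl] at h2
      exact h2
    have h2 : (star c') ⬝ᵥ a + (ε • star a') ⬝ᵥ c + star (ε • z') ⬝ᵥ (D *ᵥ z) = 1 := by
      have h3 := congrArg (fun y => ε • y) h1
      simp only [smul_add, smul_smul, hε, one_smul] at h3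
      have h4 : ε • (ε : P) = 1 := by
        rw [zsmul_eq_mul, ← Int.cast_mul, hε, Int.cast_one]
      rw [h4] at h3
      rw [← h3, star_zsmul, smul_dotProduct, smul_dotProduct]
      abel
    obtain ⟨e1, he1, hfix, y, hy⟩ := hR a c (star c') (ε • star a') z (ε • z') h2
    -- `h(z', v_j) = 0` for `j ∈ S`
    have h3 : ∀ j ∈ S, star (ε • z') ⬝ᵥ (D *ᵥ Pi.single j 1) = 0 := by
      intro j hj
      have hjk : j ≠ k := fun h => hk (h ▸ hj)
      have h4 := isom_form hg1m (Sum.elim (0 : n ⊕ n → P) u)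
        (Sum.elim (0 : n ⊕ n → P) (Pi.single j 1))
      rw [h0 j hj, ← hx', hxe', form_v, elim_zero, hG_eq] at h4
      change hG ε D a' c' z' 0 0 (Pi.single j 1) = star u ⬝ᵥ (D *ᵥ Pi.single j 1) at h4
      rw [hsu, if_neg hjk, hG] at h4
      simp only [dotProduct_zero, smul_zero, zero_add] at h4
      rw [star_zsmul, smul_dotProduct, h4, smul_zero]
    have hfixS : ∀ j ∈ S, e1.val *ᵥ Sum.elim (0 : n ⊕ n → P) (Pi.single j 1) =
        Sum.elim (0 : n ⊕ n → P) (Pi.single j 1) := fun j hj => hfix _ (h3 j hj)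
    -- the new vector
    set x1 := e1.val *ᵥ x with hx1
    set a1 : n → P := fun j => x1 (Sum.inl (Sum.inl j)) with ha1
    set c1 : n → P := fun j => x1 (Sum.inl (Sum.inr j)) with hc1
    set z1 : r → P := fun i => x1 (Sum.inr i) with hz1
    have hxe1 : x1 = Sum.elim (Sum.elim a1 c1) z1 := (elim_eta x1).symm
    have hy1 : y ⬝ᵥ a1 = 1 := by
      rw [← hxe] at hy
      exact hy
    have hlen : hG ε D a1 c1 z1 a1 c1 z1 = D k k := by
      have h4 := isom_form (EG_le ε n D he1) x x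
      have h5 := isom_form hg1m (Sum.elim (0 : n ⊕ n → P) (Pi.single k 1))
        (Sum.elim (0 : n ⊕ n → P) (Pi.single k 1))
      rw [← hx1, hxe1, hG_eq] at h4
      rw [← hx, form_v] at h5
      rw [h4, h5]
      change star (Pi.single k 1 : r → P) ⬝ᵥ (D *ᵥ Pi.single k 1) = D k k
      rw [star_single, single_one_dotProduct, Matrix.mulVec_single_one]
      rfl
    have hSz : ∀ j ∈ S, (D *ᵥ z1) j = D j k := by
      intro j hj
      have h4 := isom_form (EG_le ε n D he1) (Sum.elim (0 : n ⊕ n → P) (Pi.single j 1)) x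
      have h5 := isom_form hg1m (Sum.elim (0 : n ⊕ n → P) (Pi.single j 1))
        (Sum.elim (0 : n ⊕ n → P) (Pi.single k 1))
      rw [hfixS j hj, ← hx1] at h4
      rw [h0 j hj, ← hx] at h5
      rw [← h4] at h5
      rw [form_v, form_v] at h5
      change star (Pi.single j 1 : r → P) ⬝ᵥ (D *ᵥ z1) =
        star (Pi.single j 1 : r → P) ⬝ᵥ (D *ᵥ Pi.single k 1) at h5
      rw [star_single, single_one_dotProduct, single_one_dotProduct,
        Matrix.mulVec_single_one] at h5
      exact h5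
    obtain ⟨e2, he2, hfix2, hv2⟩ := to_v hε hD hDD a1 c1 z1 y hy1 k hlen S hk hSz
    refine ⟨e2 * e1 * e0, mul_mem (mul_mem he2 he1) he0, fun j hj => ?_⟩
    have h6 : e2 * e1 * e0 * g = e2 * (e1 * g1) := by rw [hg1]; group
    rw [h6, Units.val_mul, Units.val_mul, ← Matrix.mulVec_mulVec, ← Matrix.mulVec_mulVec]
    rcases Finset.mem_insert.mp hj with rfl | hj
    · rw [← hx, ← hx1, hxe1, hv2]
    · rw [h0 j hj, hfixS j hj, hfix2 j hj]

/-- an isometry which fixes `V₀` is an isometry of `H^n` -/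
theorem exists_embH {D D' : Matrix r r P} (hDD : D' * D = 1)
    (g : (Matrix ((n ⊕ n) ⊕ r) ((n ⊕ n) ⊕ r) P)ˣ) (hg : g ∈ isom (JG ε n D))
    (h : ∀ j, g.val *ᵥ Sum.elim (0 : n ⊕ n → P) (Pi.single j 1) =
      Sum.elim (0 : n ⊕ n → P) (Pi.single j 1)) :
    ∃ g' ∈ UG ε n P, g = embH r g' := by
  have key : ∀ g : (Matrix ((n ⊕ n) ⊕ r) ((n ⊕ n) ⊕ r) P)ˣ, g ∈ isom (JG ε n D) →
      (∀ j, g.val *ᵥ Sum.elim (0 : n ⊕ n → P) (Pi.single j 1) =
        Sum.elim (0 : n ⊕ n → P) (Pi.single j 1)) →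
      g.val = Matrix.fromBlocks g.val.toBlocks₁₁ 0 0 1 := by
    intro g hg h
    have hcol : ∀ i j, g.val i (Sum.inr j) =
        (1 : Matrix ((n ⊕ n) ⊕ r) ((n ⊕ n) ⊕ r) P) i (Sum.inr j) := by
      intro i j
      have e1 : Sum.elim (0 : n ⊕ n → P) (Pi.single j 1) = Pi.single (Sum.inr j) 1 := by
        ext x
        rcases x with x | x
        · simp
        · by_cases hx : x = j
          · subst hx; simp
          · rw [Sum.elim_inr, Pi.single_eq_of_ne hx, Pi.single_eq_of_ne]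
            exact fun h => hx (Sum.inr_injective h)
      have h1 := congrFun (h j) i
      rw [e1, Matrix.mulVec_single_one] at h1
      change g.val i (Sum.inr j) = _ at h1
      rw [h1, Matrix.one_apply, Pi.single_apply]
    have hrow : ∀ i j, g.val (Sum.inr i) (Sum.inl j) = 0 := by
      intro i j
      have h2 : ∀ k, (D *ᵥ fun l => (g.val *ᵥ Pi.single (Sum.inl j) 1) (Sum.inr l)) k = 0 := by
        intro k
        have h3 := isom_form hg (Sum.elim (0 : n ⊕ n → P) (Pi.single k 1))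
          (Pi.single (Sum.inl j) 1)
        rw [h k, form_v, form_v, star_single, single_one_dotProduct, single_one_dotProduct] at h3
        rw [h3]
        have h4 : (fun l : r => (Pi.single (Sum.inl j) 1 : (n ⊕ n) ⊕ r → P) (Sum.inr l)) = 0 := by
          ext l
          simp
        rw [h4, Matrix.mulVec_zero]
        rfl
      have h5 : (fun l : r => (g.val *ᵥ Pi.single (Sum.inl j) 1) (Sum.inr l)) = 0 := by
        have h6 : D *ᵥ (fun l => (g.val *ᵥ Pi.single (Sum.inl j) 1) (Sum.inr l)) = 0 := by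
          ext k; exact h2 k
        have h7 := congrArg (fun v => D' *ᵥ v) h6
        simp only [Matrix.mulVec_mulVec, hDD, Matrix.one_mulVec, Matrix.mulVec_zero] at h7
        exact h7
      have h8 := congrFun h5 i
      rw [Matrix.mulVec_single_one] at h8
      exact h8
    ext x y
    rcases x with x | x <;> rcases y with y | y
    · rfl
    · rw [hcol]; simp
    · rw [hrow]; simp
    · rw [hcol]; simp [Matrix.one_apply]
  have hgi : ∀ j, g⁻¹.val *ᵥ Sum.elim (0 : n ⊕ n → P) (Pi.single j 1) =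
      Sum.elim (0 : n ⊕ n → P) (Pi.single j 1) := by
    intro j
    conv_lhs => rw [← h j]
    rw [Matrix.mulVec_mulVec, Units.inv_mul, Matrix.one_mulVec]
  have k1 := key g hg h
  have k2 := key g⁻¹ (inv_mem hg) hgi
  set M := g.val.toBlocks₁₁ with hM
  set M' := g⁻¹.val.toBlocks₁₁ with hM'
  have h1 : M * M' = 1 := by
    have h3 : g.val * g⁻¹.val = 1 := g.mul_inv
    rw [k1, k2, Matrix.fromBlocks_multiply, ← Matrix.fromBlocks_one, Matrix.fromBlocks_inj] at h3
    simpa using h3.1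
  have h2 : M' * M = 1 := by
    have h3 : g⁻¹.val * g.val = 1 := g.inv_mul
    rw [k1, k2, Matrix.fromBlocks_multiply, ← Matrix.fromBlocks_one, Matrix.fromBlocks_inj] at h3
    simpa using h3.1
  refine ⟨⟨M, M', h1, h2⟩, ?_, ?_⟩
  · change Mᴴ * J ε n P * M = J ε n P
    have h3 := mem_isom.1 hg
    rw [k1, JG, Matrix.fromBlocks_conjTranspose, Matrix.fromBlocks_multiply,
      Matrix.fromBlocks_multiply, Matrix.fromBlocks_inj] at h3
    simpa using h3.1
  · ext1
    rw [embH_val]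
    exact k1

/-- **the removal of `V₀`** -/
theorem remove_V (hε : ε * ε = 1) {A D D' : Matrix r r P} (hD : D = A + ε • Aᴴ)
    (hDD : D * D' = 1) (hDD' : D' * D = 1) (hR : Reach ε n D)
    (g : (Matrix ((n ⊕ n) ⊕ r) ((n ⊕ n) ⊕ r) P)ˣ) (hg : g ∈ isom (JG ε n D)) :
    ∃ e ∈ EG ε n D, ∃ g' ∈ UG ε n P, e * g = embH r g' := by
  obtain ⟨e, he, h⟩ := fix_all hε hD hDD hR g hg Finset.univ
  obtain ⟨g', hg', h'⟩ := exists_embH hDD' (e * g) (mul_mem (EG_le ε n D he) hg)
    fun j => h j (Finset.mem_univ j)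
  exact ⟨e, he, g', hg', h'⟩

/-- if the isometries of `H^n` are elementary then so are those of `H^n ⊥ V₀` -/
theorem isom_eq_EG (hε : ε * ε = 1) {A D D' : Matrix r r P} (hD : D = A + ε • Aᴴ)
    (hDD : D * D' = 1) (hDD' : D' * D = 1) (hR : Reach ε n D) (hH : UG ε n P ≤ EU ε n P) :
    isom (JG ε n D) = EG ε n D := by
  refine le_antisymm (fun g hg => ?_) (EG_le ε n D)
  obtain ⟨e, he, g', hg', h⟩ := remove_V hε hD hDD hDD' hR g hg
  have h1 : g = e⁻¹ * embH r g' := by rw [← h]; group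
  rw [h1]
  exact mul_mem (inv_mem he) (embH_mem_EG hε (hH hg'))

end BWC
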