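import Pool.Agent.BWC.KG
import Pool.Agent.BWC.Basic

/-!
# Project BWC, row J: all standard parabolic subgroups of the isometry group of `H^n ⊥ V₀`
-/

set_option autoImplicit false
set_option linter.unusedSectionVars false

namespace BWC

open Matrix
open BW hiding star

/-! ### Short root elements -/

section Short

variable {n P : Type*} [DecidableEq n] [Fintype n] [Ring P] [StarRing P] {ε : ℤ}

/-- the sign of an index -/
def sg (ε : ℤ) : n ⊕ n → ℤ := Sum.elim (fun _ => 1) (fun _ => ε)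

/-- the hyperbolic plane of an index -/
def ix : n ⊕ n → n := Sum.elim id id

theorem sg_sq (hε : ε * ε = 1) (α : n ⊕ n) : sg ε α * sg ε α = 1 := by
  rcases α with i | i
  · rfl
  · exact hε

theorem sg_swap (hε : ε * ε = 1) (α : n ⊕ n) : sg ε α.swap = ε * sg ε α := by
  rcases α with i | i
  · simp [sg]
  · simp [sg, hε]

theorem ix_swap (α : n ⊕ n) : ix α.swap = ix α := by
  rcases α with i | i <;> rfl

theorem ne_of_ix {α β : n ⊕ n} (h : ix α ≠ ix β) : α ≠ β := fun h' => h (by rw [h'])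

theorem ne_swap (α : n ⊕ n) : α ≠ α.swap := by
  rcases α with i | i <;> simp

/-- the nilpotent matrix `x e_{αβ} - ε_α ε_β x̄ e_{β'α'}` -/
def tm (ε : ℤ) (α β : n ⊕ n) (x : P) : Matrix (n ⊕ n) (n ⊕ n) P :=
  Matrix.single α β x - (sg ε α * sg ε β) • Matrix.single β.swap α.swap (star x)

theorem sne {k : Type*} [DecidableEq k] [Fintype k] (a b c d : k) (u v : P) (h : b ≠ c) :
    Matrix.single a b u * Matrix.single c d v = 0 :=
  Matrix.single_mul_single_of_ne _ _ _ _ h _

theorem tm_mul_self {α β : n ⊕ n} (h : ix α ≠ ix β) (x y : P) :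
    tm ε α β x * tm ε α β y = 0 := by
  have h1 : β ≠ α := ne_of_ix (Ne.symm h)
  have h2 : β ≠ β.swap := ne_swap β
  have h3 : α.swap ≠ α := (ne_swap α).symm
  have h4 : α.swap ≠ β.swap := ne_of_ix (by rw [ix_swap, ix_swap]; exact h)
  rw [tm, tm, sub_mul, mul_sub, mul_sub]
  simp only [Matrix.smul_mul, Matrix.mul_smul]
  rw [sne _ _ _ _ _ _ h1, sne _ _ _ _ _ _ h2, sne _ _ _ _ _ _ h3, sne _ _ _ _ _ _ h4]
  simp

/-- the short root element `1 + x e_{αβ} - ε_α ε_β x̄ e_{β'α'}` -/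
def T (ε : ℤ) (α β : n ⊕ n) (h : ix α ≠ ix β) (x : P) : (Matrix (n ⊕ n) (n ⊕ n) P)ˣ where
  val := 1 + tm ε α β x
  inv := 1 - tm ε α β x
  val_inv := by
    rw [add_mul, mul_sub, mul_sub, tm_mul_self h]; simp
  inv_val := by
    rw [sub_mul, mul_add, mul_add, tm_mul_self h]; simp

theorem T_val (α β : n ⊕ n) (h : ix α ≠ ix β) (x : P) : (T ε α β h x).val = 1 + tm ε α β x := rfl

theorem T_inv_val (α β : n ⊕ n) (h : ix α ≠ ix β) (x : P) :
    ((T ε α β h x)⁻¹).val = 1 - tm ε α β x := rfl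

theorem T_lev (i j : n) (h : i ≠ j) (x : P) :
    T ε (Sum.inl i) (Sum.inl j) h x = lev (el i j h x) := by
  apply Units.ext
  rw [T_val, lev_val]
  have e1 : (el i j h x).val = 1 + Matrix.single i j x := rfl
  have e2 : ((el i j h x)⁻¹).val = 1 - Matrix.single i j x := rfl
  rw [e1, e2, Matrix.conjTranspose_sub, Matrix.conjTranspose_one, Matrix.conjTranspose_single]
  ext a b
  rcases a with a | a <;> rcases b with b | b <;>
    simp [tm, sg, Matrix.one_apply, Matrix.single_apply, sub_eq_add_neg]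

theorem T_lev' (hε : ε * ε = 1) (i j : n) (h : i ≠ j) (x : P) :
    T ε (Sum.inr i) (Sum.inr j) h x = lev (el j i (Ne.symm h) (-star x)) := by
  apply Units.ext
  rw [T_val, lev_val]
  have e1 : (el j i (Ne.symm h) (-star x)).val = 1 + Matrix.single j i (-star x) := rfl
  have e2 : ((el j i (Ne.symm h) (-star x))⁻¹).val = 1 - Matrix.single j i (-star x) := rfl
  rw [e1, e2, Matrix.conjTranspose_sub, Matrix.conjTranspose_one, Matrix.conjTranspose_single]
  ext a b
  rcases a with a | a <;> rcases b with b | b <;>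
    simp [tm, sg, Matrix.one_apply, Matrix.single_apply, hε]
  · split_ifs <;> simp
  · split_ifs <;> simp

theorem T_up (i j : n) (h : i ≠ j) (x : P) : T ε (Sum.inl i) (Sum.inr j) h x =
    up (Matrix.single i j x - ε • Matrix.single j i (star x)) := by
  apply Units.ext
  rw [T_val, up_val]
  ext a b
  rcases a with a | a <;> rcases b with b | b <;>
    simp [tm, sg, Matrix.one_apply, Matrix.single_apply, -zsmul_eq_mul]

theorem T_lo (i j : n) (h : i ≠ j) (x : P) : T ε (Sum.inr i) (Sum.inl j) h x =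
    lo (Matrix.single i j x - ε • Matrix.single j i (star x)) := by
  apply Units.ext
  rw [T_val, lo_val]
  ext a b
  rcases a with a | a <;> rcases b with b | b <;>
    simp [tm, sg, Matrix.one_apply, Matrix.single_apply, -zsmul_eq_mul]

theorem T_mem_UG (hε : ε * ε = 1) (α β : n ⊕ n) (h : ix α ≠ ix β) (x : P) :
    T ε α β h x ∈ UG ε n P := by
  rcases α with i | i
  · rcases β with j | j
    · rw [T_lev i j h]
      exact lev_mem_UG _
    · rw [T_up i j h]
      exact up_mem_UG (Sk_single hε _ _ _)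
  · rcases β with j | j
    · rw [T_lo i j h]
      exact lo_mem_UG hε (Sk_single hε _ _ _)
    · rw [T_lev' hε i j h]
      exact lev_mem_UG _

/-- the commutator formula -/
theorem T_comm (hε : ε * ε = 1) (α β γ : n ⊕ n) (h1 : ix α ≠ ix β) (h2 : ix β ≠ ix γ)
    (h3 : ix α ≠ ix γ) (x y : P) :
    T ε α β h1 x * T ε β γ h2 y * (T ε α β h1 x)⁻¹ * (T ε β γ h2 y)⁻¹ = T ε α γ h3 (x * y) := by
  have nab : α ≠ β := ne_of_ix h1
  have nbc : β ≠ γ := ne_of_ix h2
  have nac : α ≠ γ := ne_of_ix h3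
  have nab' : β.swap ≠ α := ne_of_ix (by rw [ix_swap]; exact Ne.symm h1)
  have nbc' : β ≠ γ.swap := ne_of_ix (by rw [ix_swap]; exact h2)
  have hXY : tm ε α β x * tm ε β γ y = Matrix.single α γ (x * y) := by
    rw [tm, tm, sub_mul, mul_sub, mul_sub]
    simp only [Matrix.smul_mul, Matrix.mul_smul]
    rw [Matrix.single_mul_single_same, sne _ _ _ _ _ _ nbc',
      sne _ α.swap β _ _ _ (ne_of_ix (by rw [ix_swap]; exact h1)),
      sne _ α.swap γ.swap _ _ _ (ne_of_ix (by rw [ix_swap, ix_swap]; exact h3))]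
    simp
  have hYX : tm ε β γ y * tm ε α β x =
      (sg ε α * sg ε γ) • Matrix.single γ.swap α.swap (star (x * y)) := by
    rw [tm, tm, sub_mul, mul_sub, mul_sub]
    simp only [Matrix.smul_mul, Matrix.mul_smul]
    rw [sne _ γ α _ _ _ (Ne.symm nac), sne _ γ β.swap _ _ _
      (ne_of_ix (by rw [ix_swap]; exact Ne.symm h2)), sne _ β.swap α _ _ _ nab',
      Matrix.single_mul_single_same, star_mul, smul_smul]
    have : sg ε α * sg ε β * (sg ε β * sg ε γ) = sg ε α * sg ε γ := by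
      calc _ = sg ε α * sg ε γ * (sg ε β * sg ε β) := by ring
        _ = _ := by rw [sg_sq hε, mul_one]
    rw [this]
    simp
  have hX : tm ε α β x * tm ε α β x = 0 := tm_mul_self h1 x x
  have hY : tm ε β γ y * tm ε β γ y = 0 := tm_mul_self h2 y y
  have hXYX : Matrix.single α γ (x * y) * tm ε α β x = 0 := by
    rw [tm, mul_sub, Matrix.mul_smul, sne _ γ α _ _ _ (Ne.symm nac), sne _ γ β.swap _ _ _
      (ne_of_ix (by rw [ix_swap]; exact Ne.symm h2))]
    simp
  have hYXY : Matrix.single γ.swap α.swap (star (x * y)) * tm ε β γ y = 0 := by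
    rw [tm, mul_sub, Matrix.mul_smul,
      sne _ α.swap β _ _ _ (ne_of_ix (by rw [ix_swap]; exact h1)),
      sne _ α.swap γ.swap _ _ _ (ne_of_ix (by rw [ix_swap, ix_swap]; exact h3))]
    simp
  apply Units.ext
  rw [Units.val_mul, Units.val_mul, Units.val_mul, T_val, T_val, T_inv_val, T_inv_val, T_val]
  have e : (1 + tm ε α β x) * (1 + tm ε β γ y) * (1 - tm ε α β x) * (1 - tm ε β γ y) =
      1 + tm ε α β x * tm ε β γ y - tm ε β γ y * tm ε α β x -
      (tm ε α β x * tm ε α β x) + (tm ε α β x * tm ε α β x) * tm ε β γ y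
      - (tm ε β γ y * tm ε β γ y) + (tm ε β γ y * tm ε α β x) * tm ε β γ y
      - (tm ε α β x * tm ε β γ y) * tm ε α β x
      - tm ε α β x * (tm ε β γ y * tm ε β γ y)
      + ((tm ε α β x * tm ε β γ y) * tm ε α β x) * tm ε β γ y := by
    noncomm_ring
  rw [e, hX, hY, hXY, hYX, hXYX, Matrix.smul_mul, hYXY]
  simp only [zero_mul, mul_zero, smul_zero, sub_zero, add_zero, tm]
  abel

end Short

/-! ### Long root elements -/

section Long

variable {n P : Type*} [DecidableEq n] [Fintype n] [Ring P] [StarRing P] {ε : ℤ}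

/-- the long root element `1 + b e_{αα'}` -/
def lg (α : n ⊕ n) (b : P) : (Matrix (n ⊕ n) (n ⊕ n) P)ˣ where
  val := 1 + Matrix.single α α.swap b
  inv := 1 - Matrix.single α α.swap b
  val_inv := by
    rw [add_mul, mul_sub, mul_sub, sne _ _ _ _ _ _ (ne_swap α).symm]; simp
  inv_val := by
    rw [sub_mul, mul_add, mul_add, sne _ _ _ _ _ _ (ne_swap α).symm]; simp

theorem lg_val (α : n ⊕ n) (b : P) : (lg α b).val = 1 + Matrix.single α α.swap b := rfl

theorem lg_up (i : n) (b : P) : lg (Sum.inl i) b = up (Matrix.single i i b) := by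
  apply Units.ext
  rw [lg_val, up_val]
  ext a c
  rcases a with a | a <;> rcases c with c | c <;>
    simp [Matrix.one_apply, Matrix.single_apply]

theorem lg_lo (i : n) (b : P) : lg (Sum.inr i) b = lo (Matrix.single i i b) := by
  apply Units.ext
  rw [lg_val, lo_val]
  ext a c
  rcases a with a | a <;> rcases c with c | c <;>
    simp [Matrix.one_apply, Matrix.single_apply]

theorem Sk_diag_root {b : P} (hb : star b = -(ε • b)) (i : n) : Sk ε (Matrix.single i i b) := by
  unfold Sk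
  rw [Matrix.conjTranspose_single, hb, Matrix.smul_single, Matrix.single_neg]

theorem lg_mem_UG (hε : ε * ε = 1) (α : n ⊕ n) {b : P} (hb : star b = -(ε • b)) :
    lg α b ∈ UG ε n P := by
  rcases α with i | i
  · rw [lg_up]
    exact up_mem_UG (Sk_diag_root hb i)
  · rw [lg_lo]
    exact lo_mem_UG hε (Sk_diag_root hb i)

/-- the long root element at `α` from the one at `β` -/
theorem lg_conj (hε : ε * ε = 1) (α β : n ⊕ n) (h : ix α ≠ ix β) {b : P}
    (hb : star b = -(ε • b)) :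
    T ε α β h 1 * lg β b * (T ε α β h 1)⁻¹ =
      lg β b * T ε α β.swap (by rw [ix_swap]; exact h) b * lg α ((sg ε α * sg ε β) • b) := by
  have nab : α ≠ β := ne_of_ix h
  have nab' : α ≠ β.swap := ne_of_ix (by rw [ix_swap]; exact h)
  have na'b : α.swap ≠ β := ne_of_ix (by rw [ix_swap]; exact h)
  have na'b' : α.swap ≠ β.swap := ne_of_ix (by rw [ix_swap, ix_swap]; exact h)
  have naa : α ≠ α.swap := ne_swap α
  have nbb : β ≠ β.swap := ne_swap β
  have hXB : tm ε α β (1 : P) * Matrix.single β β.swap b = Matrix.single α β.swap b := by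
    rw [tm, sub_mul, Matrix.smul_mul, sne _ α.swap β _ _ _ na'b, Matrix.single_mul_single_same]
    simp
  have hBX : Matrix.single β β.swap b * tm ε α β (1 : P) =
      -((sg ε α * sg ε β) • Matrix.single β α.swap b) := by
    rw [tm, mul_sub, Matrix.mul_smul, sne _ β.swap α _ _ _ (Ne.symm nab'),
      Matrix.single_mul_single_same, star_one, mul_one, zero_sub]
  have hXBX : Matrix.single α β.swap b * tm ε α β (1 : P) =
      -((sg ε α * sg ε β) • Matrix.single α α.swap b) := by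
    rw [tm, mul_sub, Matrix.mul_smul, sne _ β.swap α _ _ _ (Ne.symm nab'),
      Matrix.single_mul_single_same, star_one, mul_one, zero_sub]
  have hY : tm ε α β.swap b = Matrix.single α β.swap b +
      (sg ε α * sg ε β) • Matrix.single β α.swap b := by
    have h1 : sg ε α * sg ε β.swap * ε = sg ε α * sg ε β := by
      rw [sg_swap hε]
      calc _ = sg ε α * sg ε β * (ε * ε) := by ring
        _ = _ := by rw [hε, mul_one]
    rw [tm, hb, Sum.swap_swap, ← Matrix.single_neg, smul_neg, sub_neg_eq_add, ← Matrix.smul_single,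
      smul_smul, h1]
  have hA : Matrix.single α α.swap ((sg ε α * sg ε β) • b) =
      (sg ε α * sg ε β) • Matrix.single α α.swap b := by
    rw [Matrix.smul_single]
  have hBY : Matrix.single β β.swap b * tm ε α β.swap b = 0 := by
    rw [hY, mul_add, Matrix.mul_smul, sne _ β.swap α _ _ _ (Ne.symm nab'),
      sne _ β.swap β _ _ _ (Ne.symm nbb)]
    simp
  have hYA : tm ε α β.swap b * Matrix.single α α.swap b = 0 := by
    rw [hY, add_mul, Matrix.smul_mul, sne _ β.swap α _ _ _ (Ne.symm nab'),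
      sne _ α.swap α _ _ _ (Ne.symm naa)]
    simp
  have hBA : Matrix.single β β.swap b * Matrix.single α α.swap b = 0 :=
    sne _ _ _ _ _ _ (Ne.symm nab')
  have hXX : tm ε α β (1 : P) * tm ε α β 1 = 0 := tm_mul_self h 1 1
  apply Units.ext
  rw [Units.val_mul, Units.val_mul, Units.val_mul, Units.val_mul, T_val, T_inv_val, T_val, lg_val,
    lg_val, hA]
  have e1 : (1 + tm ε α β (1 : P)) * (1 + Matrix.single β β.swap b) * (1 - tm ε α β (1 : P)) =
      1 - tm ε α β (1 : P) * tm ε α β 1 + Matrix.single β β.swap b +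
      tm ε α β (1 : P) * Matrix.single β β.swap b - Matrix.single β β.swap b * tm ε α β (1 : P) -
      (tm ε α β (1 : P) * Matrix.single β β.swap b) * tm ε α β (1 : P) := by
    noncomm_ring
  have e2 : (1 + Matrix.single β β.swap b) * (1 + tm ε α β.swap b) *
      (1 + (sg ε α * sg ε β) • Matrix.single α α.swap b) =
      1 + Matrix.single β β.swap b + tm ε α β.swap b +
        (sg ε α * sg ε β) • Matrix.single α α.swap b := by
    simp only [add_mul, mul_add, one_mul, mul_one, Matrix.mul_smul, hBY, hYA, hBA, smul_zero,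
      add_zero]
  rw [e1, e2, hXX, hXB, hBX, hXBX, hY]
  abel

theorem T_add {α β : n ⊕ n} (h : ix α ≠ ix β) (x y : P) :
    T ε α β h x * T ε α β h y = T ε α β h (x + y) := by
  apply Units.ext
  rw [Units.val_mul, T_val, T_val, T_val]
  have e : tm ε α β (x + y) = tm ε α β x + tm ε α β y := by
    rw [tm, tm, tm, Matrix.single_add, star_add, Matrix.single_add, smul_add]
    abel
  rw [e, add_mul, one_mul, mul_add, mul_one, tm_mul_self h]
  abel

/-- short root elements from long ones -/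
theorem lg_T_comm (hε : ε * ε = 1) (α β : n ⊕ n) (h : ix α ≠ ix β) {s : P}
    (hs : star s = -(ε • s)) (x : P) :
    lg α s * T ε α.swap β (by rw [ix_swap]; exact h) x * (lg α s)⁻¹ *
      (T ε α.swap β (by rw [ix_swap]; exact h) x)⁻¹ =
    T ε α β h (s * x) * lg β.swap (-((sg ε α.swap * sg ε β) • (star x * s * x))) := by
  have hX := tm_mul_self (ε := ε) (P := P) (α := α.swap) (β := β) (by rw [ix_swap]; exact h) x x
  have naa : α ≠ α.swap := ne_swap α
  have nbb : β ≠ β.swap := ne_swap β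
  have hLX : Matrix.single α α.swap s * tm ε α.swap β x = Matrix.single α β (s * x) := by
    rw [tm, mul_sub, Matrix.mul_smul, Matrix.single_mul_single_same, Sum.swap_swap,
      sne _ α.swap β.swap _ _ _ (ne_of_ix (by rw [ix_swap, ix_swap]; exact h))]
    simp
  have hXL : tm ε α.swap β x * Matrix.single α α.swap s =
      -((sg ε α.swap * sg ε β) • Matrix.single β.swap α.swap (star x * s)) := by
    rw [tm, sub_mul, Matrix.smul_mul, Sum.swap_swap, Matrix.single_mul_single_same,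
      sne _ β α _ _ _ (ne_of_ix (Ne.symm h)), zero_sub]
  have hLXL : Matrix.single α β (s * x) * Matrix.single α α.swap s = 0 :=
    sne _ _ _ _ _ _ (ne_of_ix (Ne.symm h))
  have hXLX : Matrix.single β.swap α.swap (star x * s) * tm ε α.swap β x =
      Matrix.single β.swap β (star x * s * x) := by
    rw [tm, mul_sub, Matrix.mul_smul, Matrix.single_mul_single_same, Sum.swap_swap,
      sne _ α.swap β.swap _ _ _ (ne_of_ix (by rw [ix_swap, ix_swap]; exact h))]
    simp
  have hLL : Matrix.single α α.swap s * Matrix.single α α.swap s = 0 :=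
    sne _ _ _ _ _ _ naa.symm
  have hT : tm ε α β (s * x) = Matrix.single α β (s * x) +
      (sg ε α.swap * sg ε β) • Matrix.single β.swap α.swap (star x * s) := by
    have h1 : sg ε α * sg ε β * ε = sg ε α.swap * sg ε β := by
      rw [sg_swap hε]
      ring
    rw [tm, star_mul, hs, mul_neg, mul_smul_comm, ← Matrix.single_neg, smul_neg, sub_neg_eq_add,
      ← Matrix.smul_single, smul_smul, h1]
  apply Units.ext
  have e0 : ((lg α s)⁻¹).val = 1 - Matrix.single α α.swap s := rfl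
  have e3 : (lg β.swap (-((sg ε α.swap * sg ε β) • (star x * s * x)))).val =
      1 - (sg ε α.swap * sg ε β) • Matrix.single β.swap β (star x * s * x) := by
    rw [lg_val, Sum.swap_swap, ← Matrix.single_neg, ← Matrix.smul_single, sub_eq_add_neg]
  rw [Units.val_mul, Units.val_mul, Units.val_mul, Units.val_mul, e0, e3, lg_val, T_val,
    T_inv_val, T_val, hT]
  have e1 : (1 + Matrix.single α α.swap s) * (1 + tm ε α.swap β x) *
      (1 - Matrix.single α α.swap s) * (1 - tm ε α.swap β x) =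
      1 + Matrix.single α α.swap s * tm ε α.swap β x
      - tm ε α.swap β x * Matrix.single α α.swap s
      + (tm ε α.swap β x * Matrix.single α α.swap s) * tm ε α.swap β x
      - Matrix.single α α.swap s * Matrix.single α α.swap s
      + (Matrix.single α α.swap s * Matrix.single α α.swap s) * tm ε α.swap β x
      - tm ε α.swap β x * tm ε α.swap β x
      - (Matrix.single α α.swap s * tm ε α.swap β x) * Matrix.single α α.swap s
      - Matrix.single α α.swap s * (tm ε α.swap β x * tm ε α.swap β x)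
      + ((Matrix.single α α.swap s * tm ε α.swap β x) * Matrix.single α α.swap s) *
        tm ε α.swap β x := by
    noncomm_ring
  have m1 : Matrix.single α β (s * x) * Matrix.single β.swap β (star x * s * x) = 0 :=
    sne _ _ _ _ _ _ nbb
  have m2 : Matrix.single β.swap α.swap (star x * s) * Matrix.single β.swap β (star x * s * x) =
      0 := sne _ _ _ _ _ _ (ne_of_ix (by rw [ix_swap, ix_swap]; exact h))
  rw [e1, hLL, hX, hLX, hXL, hLXL, neg_mul, Matrix.smul_mul, hXLX]
  simp only [add_mul, mul_sub, one_mul, mul_one, Matrix.mul_smul, Matrix.smul_mul, m1,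
    m2, smul_zero, sub_zero, zero_mul, mul_zero, add_zero]
  abel

end Long

/-! ### The parabolic subgroups -/

section Flags

variable {n r P : Type*} [DecidableEq n] [Fintype n] [DecidableEq r] [Fintype r] [Ring P]

/-- the weights of the basis vectors of `H^n` -/
def wt (f : n → ℤ) : n ⊕ n → ℤ := Sum.elim f (fun i => - f i)

variable (r) in
/-- the weights of the basis vectors of `H^n ⊥ V₀` -/
def flF (f : n → ℤ) : (n ⊕ n) ⊕ r → ℤ := Sum.elim (wt f) (fun _ => 0)

theorem wt_swap (f : n → ℤ) (α : n ⊕ n) : wt f α.swap = - wt f α := by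
  rcases α with i | i
  · rfl
  · simp [wt]

theorem wt_neg (f : n → ℤ) (α : n ⊕ n) : wt (-f) α = - wt f α := by
  rcases α with i | i <;> simp [wt]

theorem flF_neg (f : n → ℤ) : flF r (-f) = - flF r f := by
  ext x
  rcases x with x | x
  · exact wt_neg f x
  · simp [flF]

theorem fl_eq : fl n r = flF r (fun _ => -1) := by
  ext x
  rcases x with (x | x) | x <;> rfl

variable [StarRing P]

/-- the unipotent radical of the stabilizer of the flag attached to `f : n → ℤ` in the isometry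
group of `H^n ⊥ V₀` -/
def UF (ε : ℤ) (f : n → ℤ) (D : Matrix r r P) : Subgroup (Matrix ((n ⊕ n) ⊕ r) ((n ⊕ n) ⊕ r) P)ˣ :=
  isom (JG ε n D) ⊓ U (flF r f)

/-- the group generated by two opposite unipotent radicals -/
def GF (ε : ℤ) (f : n → ℤ) (D : Matrix r r P) : Subgroup (Matrix ((n ⊕ n) ⊕ r) ((n ⊕ n) ⊕ r) P)ˣ :=
  UF ε f D ⊔ UF ε (-f) D

theorem UPG_eq (ε : ℤ) (D : Matrix r r P) : UPG ε n D = UF ε (fun _ => -1) D := by
  rw [UPG, UF, fl_eq]

theorem UMG_eq (ε : ℤ) (D : Matrix r r P) : UMG ε n D = UF ε (fun _ => 1) D := by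
  rw [UMG, UF, fl_eq, ← flF_neg]
  rfl

theorem GF_le (ε : ℤ) (f : n → ℤ) (D : Matrix r r P) : GF ε f D ≤ isom (JG ε n D) :=
  sup_le inf_le_left inf_le_left

variable {ε : ℤ} {D : Matrix r r P}

theorem embH_U {f : n → ℤ} {g : (Matrix (n ⊕ n) (n ⊕ n) P)ˣ} (hg : g ∈ U (wt f)) :
    embH r g ∈ U (flF r f) := by
  intro x y hxy
  rw [embH_val]
  rcases x with x | x
  · rcases y with y | y
    · rw [Matrix.fromBlocks_apply₁₁, hg x y hxy, Matrix.one_apply, Matrix.one_apply]
      simp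
    · rw [Matrix.fromBlocks_apply₁₂, Matrix.one_apply]
      simp
  · rcases y with y | y
    · rw [Matrix.fromBlocks_apply₂₁, Matrix.one_apply]
      simp
    · rw [Matrix.fromBlocks_apply₂₂, Matrix.one_apply, Matrix.one_apply]
      simp

theorem T_mem_U {f : n → ℤ} (α β : n ⊕ n) (h : ix α ≠ ix β) (x : P) (hf : wt f α < wt f β) :
    T ε α β h x ∈ U (wt f) := by
  intro k l hkl
  rw [T_val, Matrix.add_apply, tm, Matrix.sub_apply, Matrix.smul_apply, Matrix.single_apply,
    Matrix.single_apply, if_neg, if_neg]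
  · simp
  · rintro ⟨rfl, rfl⟩
    rw [wt_swap, wt_swap] at hkl
    omega
  · rintro ⟨rfl, rfl⟩
    exact hkl hf

theorem lg_mem_U {f : n → ℤ} (α : n ⊕ n) (b : P) (hf : wt f α < 0) :
    lg α b ∈ U (wt f) := by
  intro k l hkl
  rw [lg_val, Matrix.add_apply, Matrix.single_apply, if_neg, add_zero]
  rintro ⟨rfl, rfl⟩
  rw [wt_swap] at hkl
  omega

theorem T_mem_GF_of_ne (hε : ε * ε = 1) {f : n → ℤ} (α β : n ⊕ n) (h : ix α ≠ ix β) (x : P)
    (hf : wt f α ≠ wt f β) : embH r (T ε α β h x) ∈ GF ε f D := by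
  rcases lt_or_gt_of_ne hf with hf | hf
  · exact Subgroup.mem_sup_left ⟨embH_memG (T_mem_UG hε _ _ _ _), embH_U (T_mem_U _ _ _ _ hf)⟩
  · refine Subgroup.mem_sup_right ⟨embH_memG (T_mem_UG hε _ _ _ _), embH_U (T_mem_U _ _ _ _ ?_)⟩
    rw [wt_neg, wt_neg]
    omega

theorem lg_mem_GF_of_ne (hε : ε * ε = 1) {f : n → ℤ} (α : n ⊕ n) {b : P}
    (hb : star b = -(ε • b)) (hf : wt f α ≠ 0) : embH r (lg α b) ∈ GF ε f D := by
  rcases lt_or_gt_of_ne hf with hf | hf
  · exact Subgroup.mem_sup_left ⟨embH_memG (lg_mem_UG hε _ hb), embH_U (lg_mem_U _ _ hf)⟩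
  · refine Subgroup.mem_sup_right ⟨embH_memG (lg_mem_UG hε _ hb), embH_U (lg_mem_U _ _ ?_)⟩
    rw [wt_neg]
    omega

variable (n P) in
/-- at least three planes, or enough long root elements -/
def Enough (ε : ℤ) : Prop :=
  3 ≤ Fintype.card n ∨ ∃ s₀ s₁ y₀ y₁ : P, star s₀ = -(ε • s₀) ∧ star s₁ = -(ε • s₁) ∧
    s₀ * y₀ + s₁ * y₁ = 1

/-- all short root elements are in `GF` -/
theorem T_mem_GF (hε : ε * ε = 1) (hn : Enough n P ε) {f : n → ℤ} (hf : f ≠ 0)
    (α β : n ⊕ n) (h : ix α ≠ ix β) (x : P) : embH r (T ε α β h x) ∈ GF ε f D := by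
  by_cases hne : wt f α ≠ wt f β
  · exact T_mem_GF_of_ne hε α β h x hne
  rw [not_not] at hne
  by_cases hw : wt f α ≠ 0 ∧ ∃ s₀ s₁ y₀ y₁ : P, star s₀ = -(ε • s₀) ∧ star s₁ = -(ε • s₁) ∧
      s₀ * y₀ + s₁ * y₁ = 1
  · obtain ⟨hw, s₀, s₁, y₀, y₁, hs₀, hs₁, hsy⟩ := hw
    have key : ∀ s y : P, star s = -(ε • s) → embH r (T ε α β h (s * y)) ∈ GF ε f D := by
      intro s y hs
      have h1 := lg_T_comm hε α β h hs y
      have hc : star (-((sg ε α.swap * sg ε β) • (star y * s * y))) =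
          -(ε • (-((sg ε α.swap * sg ε β) • (star y * s * y)))) := by
        rw [star_neg, star_zsmul, star_mul, star_mul, star_star, hs, neg_mul, mul_neg,
          smul_mul_assoc, mul_smul_comm, ← mul_assoc, smul_neg, smul_neg, smul_comm ε]
      have hw1 : wt f α.swap ≠ wt f β := by rw [wt_swap, ← hne]; omega
      have hw2 : wt f β.swap ≠ 0 := by rw [wt_swap, ← hne]; omega
      have m1 : embH r (lg α s) ∈ GF ε f D := lg_mem_GF_of_ne hε α hs hw
      have m2 : embH r (T ε α.swap β (by rw [ix_swap]; exact h) y) ∈ GF ε f D :=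
        T_mem_GF_of_ne hε _ _ _ _ hw1
      have m3 : embH r (lg β.swap (-((sg ε α.swap * sg ε β) • (star y * s * y)))) ∈
          GF ε f D := lg_mem_GF_of_ne hε _ hc hw2
      rw [eq_mul_inv_of_mul_eq h1.symm, map_mul, map_mul, map_mul, map_mul, map_inv, map_inv,
        map_inv]
      exact mul_mem (mul_mem (mul_mem (mul_mem m1 m2) (inv_mem m1)) (inv_mem m2)) (inv_mem m3)
    have h2 : x = s₀ * (y₀ * x) + s₁ * (y₁ * x) := by
      rw [← mul_assoc, ← mul_assoc, ← add_mul, hsy, one_mul]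
    rw [h2, ← T_add, map_mul]
    exact mul_mem (key _ _ hs₀) (key _ _ hs₁)
  obtain ⟨γ, h1, h2, h3⟩ : ∃ γ : n ⊕ n, ix α ≠ ix γ ∧ ix γ ≠ ix β ∧ wt f α ≠ wt f γ := by
    by_cases h0 : wt f α = 0
    · obtain ⟨i, hi⟩ : ∃ i, f i ≠ 0 := by
        by_contra hcon
        push Not at hcon
        exact hf (funext hcon)
      have key : ∀ δ : n ⊕ n, wt f δ = 0 → ix δ ≠ i := by
        intro δ hδ hi'
        rcases δ with j | j
        · exact hi (by rw [← hi']; exact hδ)
        · have h4 : - f j = 0 := hδ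
          exact hi (by rw [← hi']; exact neg_eq_zero.mp h4)
      refine ⟨Sum.inl i, key α h0, (key β (by rw [← hne]; exact h0)).symm, ?_⟩
      rw [h0]
      exact fun h4 => hi h4.symm
    · have hn : 3 ≤ Fintype.card n := by
        rcases hn with hn | hn
        · exact hn
        · exact absurd ⟨h0, hn⟩ hw
      obtain ⟨k, hk⟩ : ∃ k : n, k ∉ ({ix α, ix β} : Finset n) := by
        by_contra hcon
        push Not at hcon
        have h1 : (Finset.univ : Finset n) ⊆ {ix α, ix β} := fun x _ => hcon x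
        have h2 := Finset.card_le_card h1
        rw [Finset.card_univ] at h2
        have h3 := Finset.card_le_two (a := ix α) (b := ix β)
        omega
      rw [Finset.mem_insert, Finset.mem_singleton, not_or] at hk
      by_cases h4 : wt f α = f k
      · refine ⟨Sum.inr k, fun h5 => hk.1 h5.symm, hk.2, ?_⟩
        change wt f α ≠ - f k
        omega
      · exact ⟨Sum.inl k, fun h5 => hk.1 h5.symm, hk.2, h4⟩
  have h4 := T_comm hε α γ β h1 h2 h x (1 : P)
  rw [mul_one] at h4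
  have m1 : embH r (T ε α γ h1 x) ∈ GF ε f D := T_mem_GF_of_ne hε _ _ _ _ h3
  have m2 : embH r (T ε γ β h2 (1 : P)) ∈ GF ε f D :=
    T_mem_GF_of_ne hε _ _ _ _ (fun h5 => h3 (by rw [hne, ← h5]))
  rw [← h4, map_mul, map_mul, map_mul, map_inv, map_inv]
  exact mul_mem (mul_mem (mul_mem m1 m2) (inv_mem m1)) (inv_mem m2)

/-- all long root elements are in `GF` -/
theorem lg_mem_GF (hε : ε * ε = 1) (hn : Enough n P ε) {f : n → ℤ} (hf : f ≠ 0)
    (α : n ⊕ n) {b : P} (hb : star b = -(ε • b)) : embH r (lg α b) ∈ GF ε f D := by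
  by_cases h0 : wt f α ≠ 0
  · exact lg_mem_GF_of_ne hε α hb h0
  rw [not_not] at h0
  obtain ⟨i, hi⟩ : ∃ i, f i ≠ 0 := by
    by_contra hcon
    push Not at hcon
    exact hf (funext hcon)
  have h : ix α ≠ ix (Sum.inl i : n ⊕ n) := by
    intro hi'
    rcases α with j | j
    · have h4 : j = i := hi'
      exact hi (by rw [← h4]; exact h0)
    · have h4 : j = i := hi'
      have h5 : - f j = 0 := h0
      exact hi (by rw [← h4]; exact neg_eq_zero.mp h5)
  have hi' : wt f (Sum.inl i) ≠ 0 := hi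
  have hs : ∀ s : ℤ, star (s • b) = -(ε • (s • b)) := by
    intro s
    rw [star_zsmul, hb, smul_neg, smul_comm]
  have h1 := lg_conj hε α (Sum.inl i) h (b := (sg ε α * sg ε (Sum.inl i)) • b) (hs _)
  have h2 : (sg ε α * sg ε (Sum.inl i : n ⊕ n)) • ((sg ε α * sg ε (Sum.inl i : n ⊕ n)) • b) = b := by
    rw [smul_smul]
    have : sg ε α * sg ε (Sum.inl i : n ⊕ n) * (sg ε α * sg ε (Sum.inl i : n ⊕ n)) = 1 := by
      calc _ = (sg ε α * sg ε α) * (sg ε (Sum.inl i : n ⊕ n) * sg ε (Sum.inl i : n ⊕ n)) := by ring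
        _ = _ := by rw [sg_sq hε, sg_sq hε, one_mul]
    rw [this, one_smul]
  rw [h2] at h1
  have m1 : embH r (lg (Sum.inl i : n ⊕ n) ((sg ε α * sg ε (Sum.inl i : n ⊕ n)) • b)) ∈
      GF ε f D := lg_mem_GF_of_ne hε _ (hs _) hi'
  have m2 : embH r (T ε α (Sum.inl i) h (1 : P)) ∈ GF ε f D := T_mem_GF hε hn hf _ _ _ _
  have m3 : embH r (T ε α (Sum.inl i : n ⊕ n).swap (by rw [ix_swap]; exact h)
      ((sg ε α * sg ε (Sum.inl i : n ⊕ n)) • b)) ∈ GF ε f D := T_mem_GF hε hn hf _ _ _ _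
  have h3 : lg α b = (lg (Sum.inl i : n ⊕ n) ((sg ε α * sg ε (Sum.inl i : n ⊕ n)) • b) *
      T ε α (Sum.inl i : n ⊕ n).swap (by rw [ix_swap]; exact h)
      ((sg ε α * sg ε (Sum.inl i : n ⊕ n)) • b))⁻¹ *
      (T ε α (Sum.inl i) h 1 * lg (Sum.inl i) ((sg ε α * sg ε (Sum.inl i : n ⊕ n)) • b) *
        (T ε α (Sum.inl i) h 1)⁻¹) := by
    rw [h1]
    group
  rw [h3, map_mul, map_inv, map_mul, map_mul, map_mul, map_inv]
  exact mul_mem (inv_mem (mul_mem m1 m3)) (mul_mem (mul_mem m2 m1) (inv_mem m2))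

end Flags

/-! ### The root elements of `V₀`, row operations -/

section Rows

variable {n r P : Type*} [DecidableEq n] [Fintype n] [DecidableEq r] [Fintype r] [Ring P]
  [StarRing P] {ε : ℤ}

theorem single_mulVec' {k : Type*} [DecidableEq k] [Fintype k] (a b : k) (x : P) (v : k → P)
    (c : k) : (Matrix.single a b x *ᵥ v) c = if c = a then x * v b else 0 := by
  change ∑ l, Matrix.single a b x c l * v l = _
  rw [Finset.sum_eq_single b]
  · by_cases h : c = a
    · rw [h, Matrix.single_apply_same, if_pos rfl]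
    · rw [Matrix.single_apply_of_row_ne (Ne.symm h), zero_mul, if_neg h]
  · intro l _ hl
    rw [Matrix.single_apply_of_col_ne _ _ (Ne.symm hl), zero_mul]
  · intro h
    exact absurd (Finset.mem_univ _) h

theorem T_mulVec (α β : n ⊕ n) (h : ix α ≠ ix β) (x : P) (v : n ⊕ n → P) (γ : n ⊕ n) :
    ((T ε α β h x).val *ᵥ v) γ = v γ + (if γ = α then x * v β else 0) -
      (if γ = β.swap then (sg ε α * sg ε β) • (star x * v α.swap) else 0) := by
  rw [T_val, tm, Matrix.add_mulVec, Matrix.one_mulVec, Matrix.sub_mulVec, Matrix.smul_mulVec,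
    Pi.add_apply, Pi.sub_apply, Pi.smul_apply, single_mulVec', single_mulVec', smul_ite, smul_zero]
  abel

theorem lg_mulVec (α : n ⊕ n) (b : P) (v : n ⊕ n → P) (γ : n ⊕ n) :
    ((lg α b).val *ᵥ v) γ = v γ + (if γ = α then b * v α.swap else 0) := by
  rw [lg_val, Matrix.add_mulVec, Matrix.one_mulVec, Pi.add_apply, single_mulVec']

theorem embH_mulVec_H (g : (Matrix (n ⊕ n) (n ⊕ n) P)ˣ) (v : (n ⊕ n) ⊕ r → P) (γ : n ⊕ n) :
    ((embH r g).val *ᵥ v) (Sum.inl γ) = (g.val *ᵥ fun δ => v (Sum.inl δ)) γ := by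
  have h := embH_mulVec g (fun δ => v (Sum.inl δ)) (fun k : r => v (Sum.inr k))
  have hv : v = Sum.elim (fun δ => v (Sum.inl δ)) (fun k : r => v (Sum.inr k)) := by
    ext x; rcases x with x | x <;> rfl
  rw [← hv] at h
  rw [h]
  rfl

theorem embH_mulVec_V (g : (Matrix (n ⊕ n) (n ⊕ n) P)ˣ) (v : (n ⊕ n) ⊕ r → P) (k : r) :
    ((embH r g).val *ᵥ v) (Sum.inr k) = v (Sum.inr k) := by
  have h := embH_mulVec g (fun δ => v (Sum.inl δ)) (fun k : r => v (Sum.inr k))
  have hv : v = Sum.elim (fun δ => v (Sum.inl δ)) (fun k : r => v (Sum.inr k)) := by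
    ext x; rcases x with x | x <;> rfl
  rw [← hv] at h
  rw [h]
  rfl

theorem mul_col {k : Type*} [DecidableEq k] [Fintype k] (g h : (Matrix k k P)ˣ) (x z : k) :
    (g * h).val x z = (g.val *ᵥ fun y => h.val y z) x := rfl

/-- the matrix with one column -/
def cl (i : n) (y : r → P) : Matrix r n P := Matrix.of fun k j => if j = i then y k else 0

theorem cl_apply (i : n) (y : r → P) (k : r) (j : n) :
    cl i y k j = if j = i then y k else 0 := rfl

theorem cl_mulVec (i : n) (y : r → P) (c : n → P) (k : r) : (cl i y *ᵥ c) k = y k * c i := by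
  change ∑ j, cl i y k j * c j = _
  rw [Finset.sum_eq_single i]
  · rw [cl_apply, if_pos rfl]
  · intro j _ hj
    rw [cl_apply, if_neg hj, zero_mul]
  · intro h
    exact absurd (Finset.mem_univ _) h

theorem cl_star_mul {k : Type*} [Fintype k] (i : n) (y : r → P) (X : Matrix r k P) (a : n) (b : k)
    (h : a ≠ i) : ((cl i y)ᴴ * X) a b = 0 := by
  rw [Matrix.mul_apply]
  refine Finset.sum_eq_zero fun l _ => ?_
  rw [Matrix.conjTranspose_apply, cl_apply, if_neg h, star_zero, zero_mul]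

theorem cl_star_mulVec (i : n) (y v : r → P) (a : n) (h : a ≠ i) : ((cl i y)ᴴ *ᵥ v) a = 0 := by
  change ∑ l, (cl i y)ᴴ a l * v l = 0
  refine Finset.sum_eq_zero fun l _ => ?_
  rw [Matrix.conjTranspose_apply, cl_apply, if_neg h, star_zero, zero_mul]

theorem mul_cl (i : n) (y : r → P) (X : Matrix n r P) (a b : n) (h : b ≠ i) :
    (X * cl i y) a b = 0 := by
  rw [Matrix.mul_apply]
  refine Finset.sum_eq_zero fun l _ => ?_
  rw [cl_apply, if_neg h, mul_zero]

/-- the root element attached to `V₀` -/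
def mv (ε : ℤ) (A D : Matrix r r P) :
    n ⊕ n → (r → P) → (Matrix ((n ⊕ n) ⊕ r) ((n ⊕ n) ⊕ r) P)ˣ
  | Sum.inl i, y => uA ε A D (cl i y)
  | Sum.inr i, y => lA A D (cl i y)

theorem mv_mem_isom (hε : ε * ε = 1) {A D : Matrix r r P} (hD : D = A + ε • Aᴴ) (α : n ⊕ n)
    (y : r → P) : mv ε A D α y ∈ isom (JG ε n D) := by
  rcases α with i | i
  · exact (uA_mem hε hD _).1
  · exact (lA_mem hε hD _).1

theorem mv_mulVec_V (A D : Matrix r r P) (α : n ⊕ n) (y : r → P) (v : (n ⊕ n) ⊕ r → P) (k : r) :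
    ((mv ε A D α y).val *ᵥ v) (Sum.inr k) = v (Sum.inr k) + y k * v (Sum.inl α.swap) := by
  have hv : v = Sum.elim (Sum.elim (fun i => v (Sum.inl (Sum.inl i)))
      (fun i => v (Sum.inl (Sum.inr i)))) (fun k : r => v (Sum.inr k)) := by
    ext x; rcases x with (x | x) | x <;> rfl
  rcases α with i | i
  · have h := uA_mulVec (ε := ε) A D (cl i y) (fun i => v (Sum.inl (Sum.inl i)))
      (fun i => v (Sum.inl (Sum.inr i))) (fun k : r => v (Sum.inr k))
    rw [← hv] at h
    change ((uA ε A D (cl i y)).val *ᵥ v) (Sum.inr k) = _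
    rw [h]
    change v (Sum.inr k) + (cl i y *ᵥ fun i => v (Sum.inl (Sum.inr i))) k = _
    rw [cl_mulVec]
    rfl
  · have h := lA_mulVec A D (cl i y) (fun i => v (Sum.inl (Sum.inl i)))
      (fun i => v (Sum.inl (Sum.inr i))) (fun k : r => v (Sum.inr k))
    rw [← hv] at h
    change ((lA A D (cl i y)).val *ᵥ v) (Sum.inr k) = _
    rw [h]
    change v (Sum.inr k) + (cl i y *ᵥ fun i => v (Sum.inl (Sum.inl i))) k = _
    rw [cl_mulVec]
    rfl

theorem mv_mulVec_H (A D : Matrix r r P) (α : n ⊕ n) (y : r → P) (v : (n ⊕ n) ⊕ r → P)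
    (γ : n ⊕ n) (hγ : γ ≠ α) :
    ((mv ε A D α y).val *ᵥ v) (Sum.inl γ) = v (Sum.inl γ) := by
  have hv : v = Sum.elim (Sum.elim (fun i => v (Sum.inl (Sum.inl i)))
      (fun i => v (Sum.inl (Sum.inr i)))) (fun k : r => v (Sum.inr k)) := by
    ext x; rcases x with (x | x) | x <;> rfl
  rcases α with i | i
  · have h := uA_mulVec (ε := ε) A D (cl i y) (fun i => v (Sum.inl (Sum.inl i)))
      (fun i => v (Sum.inl (Sum.inr i))) (fun k : r => v (Sum.inr k))
    rw [← hv] at h
    change ((uA ε A D (cl i y)).val *ᵥ v) (Sum.inl γ) = _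
    rw [h]
    rcases γ with j | j
    · have hj : j ≠ i := fun h' => hγ (by rw [h'])
      change v (Sum.inl (Sum.inl j)) -
        (((cl i y)ᴴ * A * cl i y)ᴴ *ᵥ fun i => v (Sum.inl (Sum.inr i))) j -
        (ε • ((cl i y)ᴴ *ᵥ (D *ᵥ fun k : r => v (Sum.inr k)))) j = _
      have h1 : (((cl i y)ᴴ * A * cl i y)ᴴ *ᵥ fun i => v (Sum.inl (Sum.inr i))) j = 0 := by
        change ∑ l, ((cl i y)ᴴ * A * cl i y)ᴴ j l * v (Sum.inl (Sum.inr l)) = 0
        refine Finset.sum_eq_zero fun l _ => ?_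
        rw [Matrix.conjTranspose_apply, mul_cl i y _ _ _ hj, star_zero, zero_mul]
      rw [h1, Pi.smul_apply, cl_star_mulVec i y _ j hj]
      simp
    · rfl
  · have h := lA_mulVec A D (cl i y) (fun i => v (Sum.inl (Sum.inl i)))
      (fun i => v (Sum.inl (Sum.inr i))) (fun k : r => v (Sum.inr k))
    rw [← hv] at h
    change ((lA A D (cl i y)).val *ᵥ v) (Sum.inl γ) = _
    rw [h]
    rcases γ with j | j
    · rfl
    · have hj : j ≠ i := fun h' => hγ (by rw [h'])
      change v (Sum.inl (Sum.inr j)) -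
        (((cl i y)ᴴ * A * cl i y) *ᵥ fun i => v (Sum.inl (Sum.inl i))) j -
        ((cl i y)ᴴ *ᵥ (D *ᵥ fun k : r => v (Sum.inr k))) j = _
      have h1 : (((cl i y)ᴴ * A * cl i y) *ᵥ fun i => v (Sum.inl (Sum.inl i))) j = 0 := by
        change ∑ l, ((cl i y)ᴴ * A * cl i y) j l * v (Sum.inl (Sum.inl l)) = 0
        refine Finset.sum_eq_zero fun l _ => ?_
        rw [Matrix.mul_assoc, cl_star_mul i y _ _ _ hj, zero_mul]
      rw [h1, cl_star_mulVec i y _ j hj]
      simp

theorem mv_mulVec_fix (A D : Matrix r r P) (α : n ⊕ n) (y : r → P) (v : (n ⊕ n) ⊕ r → P)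
    (h1 : v (Sum.inl α.swap) = 0) (h2 : ∀ k, v (Sum.inr k) = 0) :
    (mv ε A D α y).val *ᵥ v = v := by
  have hv : v = Sum.elim (Sum.elim (fun i => v (Sum.inl (Sum.inl i)))
      (fun i => v (Sum.inl (Sum.inr i)))) (fun k : r => v (Sum.inr k)) := by
    ext x; rcases x with (x | x) | x <;> rfl
  have hz : (fun k : r => v (Sum.inr k)) = 0 := funext h2
  ext x
  rcases x with γ | k
  · by_cases hγ : γ = α
    · rcases α with i | i
      · have h := uA_mulVec (ε := ε) A D (cl i y) (fun i => v (Sum.inl (Sum.inl i)))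
          (fun i => v (Sum.inl (Sum.inr i))) (fun k : r => v (Sum.inr k))
        rw [← hv] at h
        rw [hγ]
        change ((uA ε A D (cl i y)).val *ᵥ v) (Sum.inl (Sum.inl i)) = _
        rw [h]
        change v (Sum.inl (Sum.inl i)) -
          (((cl i y)ᴴ * A * cl i y)ᴴ *ᵥ fun i => v (Sum.inl (Sum.inr i))) i -
          (ε • ((cl i y)ᴴ *ᵥ (D *ᵥ fun k : r => v (Sum.inr k)))) i = _
        have h3 : (((cl i y)ᴴ * A * cl i y)ᴴ *ᵥ fun i => v (Sum.inl (Sum.inr i))) i = 0 := by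
          change ∑ l, ((cl i y)ᴴ * A * cl i y)ᴴ i l * v (Sum.inl (Sum.inr l)) = 0
          refine Finset.sum_eq_zero fun l _ => ?_
          by_cases hl : l = i
          · rw [hl]
            have h4 : v (Sum.inl (Sum.inr i)) = 0 := h1
            rw [h4, mul_zero]
          · rw [Matrix.conjTranspose_apply, Matrix.mul_assoc, cl_star_mul i y _ _ _ hl, star_zero,
              zero_mul]
        rw [h3, hz, Matrix.mulVec_zero, Matrix.mulVec_zero]
        simp
      · have h := lA_mulVec A D (cl i y) (fun i => v (Sum.inl (Sum.inl i)))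
          (fun i => v (Sum.inl (Sum.inr i))) (fun k : r => v (Sum.inr k))
        rw [← hv] at h
        rw [hγ]
        change ((lA A D (cl i y)).val *ᵥ v) (Sum.inl (Sum.inr i)) = _
        rw [h]
        change v (Sum.inl (Sum.inr i)) -
          (((cl i y)ᴴ * A * cl i y) *ᵥ fun i => v (Sum.inl (Sum.inl i))) i -
          ((cl i y)ᴴ *ᵥ (D *ᵥ fun k : r => v (Sum.inr k))) i = _
        have h3 : (((cl i y)ᴴ * A * cl i y) *ᵥ fun i => v (Sum.inl (Sum.inl i))) i = 0 := by
          change ∑ l, ((cl i y)ᴴ * A * cl i y) i l * v (Sum.inl (Sum.inl l)) = 0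
          refine Finset.sum_eq_zero fun l _ => ?_
          by_cases hl : l = i
          · rw [hl]
            have h4 : v (Sum.inl (Sum.inl i)) = 0 := h1
            rw [h4, mul_zero]
          · rw [mul_cl i y _ _ _ hl, zero_mul]
        rw [h3, hz, Matrix.mulVec_zero, Matrix.mulVec_zero]
        simp
    · exact mv_mulVec_H _ _ _ _ _ _ hγ
  · rw [mv_mulVec_V, h1, mul_zero, add_zero]

theorem mv_mem_U (A D : Matrix r r P) {f : n → ℤ} (α : n ⊕ n) (y : r → P) (hf : wt f α < 0) :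
    mv ε A D α y ∈ U (flF r f) := by
  intro x z hxz
  have e : (mv ε A D α y).val x z = ((mv ε A D α y).val *ᵥ Pi.single z 1) x := by
    rw [Matrix.mulVec_single_one]
    rfl
  have hone : (1 : Matrix ((n ⊕ n) ⊕ r) ((n ⊕ n) ⊕ r) P) x z =
      (Pi.single z (1 : P) : (n ⊕ n) ⊕ r → P) x := by
    rw [Matrix.one_apply, Pi.single_apply]
  rw [e, hone]
  rcases x with γ | k
  · by_cases hγ : γ = α
    · rw [mv_mulVec_fix]
      · rw [Pi.single_apply, if_neg]
        intro h
        apply hxz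
        rw [← h, hγ]
        change wt f α < wt f α.swap
        rw [wt_swap]
        omega
      · intro l
        rw [Pi.single_apply, if_neg]
        intro h
        apply hxz
        rw [← h, hγ]
        exact hf
    · rw [mv_mulVec_H _ _ _ _ _ _ hγ]
  · rw [mv_mulVec_V]
    by_cases hz : z = Sum.inl α.swap
    · exfalso
      apply hxz
      rw [hz]
      change 0 < wt f α.swap
      rw [wt_swap]
      omega
    · have h0 : (Pi.single z (1 : P) : (n ⊕ n) ⊕ r → P) (Sum.inl α.swap) = 0 := by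
        rw [Pi.single_apply, if_neg (fun h => hz h.symm)]
      rw [h0, mul_zero, add_zero]

theorem mv_zero (A D : Matrix r r P) (α : n ⊕ n) : mv ε A D α (0 : r → P) = 1 := by
  have h0 : ∀ i : n, cl i (0 : r → P) = 0 := by
    intro i
    ext k j
    rw [cl_apply]
    simp
  rcases α with i | i
  · change uA ε A D (cl i 0) = 1
    rw [h0, uA]
    apply Units.ext
    rw [ub_val]
    simp
  · change lA A D (cl i 0) = 1
    rw [h0, lA]
    apply Units.ext
    rw [lb_val]
    simp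

/-- the rows of the Gram matrix -/
theorem JG_row (D : Matrix r r P) (v : (n ⊕ n) ⊕ r → P) (γ : n ⊕ n) :
    (JG ε n D *ᵥ v) (Sum.inl γ) = sg ε γ • v (Sum.inl γ.swap) := by
  have hv : v = Sum.elim (Sum.elim (fun i => v (Sum.inl (Sum.inl i)))
      (fun i => v (Sum.inl (Sum.inr i)))) (fun k : r => v (Sum.inr k)) := by
    ext x; rcases x with (x | x) | x <;> rfl
  have h := JG_mulVec (ε := ε) D (fun i => v (Sum.inl (Sum.inl i)))
    (fun i => v (Sum.inl (Sum.inr i))) (fun k : r => v (Sum.inr k))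
  rw [← hv] at h
  rw [h]
  rcases γ with i | i
  · simp [sg]
  · rfl

/-- the rows of an isometry with a trivial column -/
theorem row_of_col (hε : ε * ε = 1) {D : Matrix r r P}
    {g : (Matrix ((n ⊕ n) ⊕ r) ((n ⊕ n) ⊕ r) P)ˣ} (hg : g ∈ isom (JG ε n D)) (α : n ⊕ n)
    (h : ∀ x, g.val x (Sum.inl α.swap) =
      (1 : Matrix ((n ⊕ n) ⊕ r) ((n ⊕ n) ⊕ r) P) x (Sum.inl α.swap)) (z : (n ⊕ n) ⊕ r) :
    g.val (Sum.inl α) z = (1 : Matrix ((n ⊕ n) ⊕ r) ((n ⊕ n) ⊕ r) P) (Sum.inl α) z := by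
  have h1 : (g.valᴴ * (JG ε n D * g.val)) (Sum.inl α.swap) z = JG ε n D (Sum.inl α.swap) z := by
    rw [← Matrix.mul_assoc, mem_isom.1 hg]
  have h2 : (g.valᴴ * (JG ε n D * g.val)) (Sum.inl α.swap) z =
      (JG ε n D * g.val) (Sum.inl α.swap) z := by
    rw [Matrix.mul_apply, Finset.sum_eq_single (Sum.inl α.swap)]
    · rw [Matrix.conjTranspose_apply, h, Matrix.one_apply_eq, star_one, one_mul]
    · intro y _ hy
      rw [Matrix.conjTranspose_apply, h, Matrix.one_apply_ne hy, star_zero, zero_mul]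
    · intro h'
      exact absurd (Finset.mem_univ _) h'
  have h3 : (JG ε n D * g.val) (Sum.inl α.swap) z = sg ε α.swap • g.val (Sum.inl α) z := by
    have := JG_row (ε := ε) D (fun y => g.val y z) α.swap
    rw [Sum.swap_swap] at this
    exact this
  have h4 : JG ε n D (Sum.inl α.swap) z =
      sg ε α.swap • (1 : Matrix ((n ⊕ n) ⊕ r) ((n ⊕ n) ⊕ r) P) (Sum.inl α) z := by
    have := JG_row (ε := ε) D
      (fun y => (1 : Matrix ((n ⊕ n) ⊕ r) ((n ⊕ n) ⊕ r) P) y z) α.swap
    rw [Sum.swap_swap] at this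
    rw [← this]
    change _ = (JG ε n D * (1 : Matrix ((n ⊕ n) ⊕ r) ((n ⊕ n) ⊕ r) P)) (Sum.inl α.swap) z
    rw [Matrix.mul_one]
  rw [h2, h3, h4] at h1
  have h5 := congrArg (fun x => sg ε α.swap • x) h1
  simpa only [smul_smul, sg_sq hε, one_smul] using h5

/-- the last entry of a column of an isometry -/
theorem star_of_col (hε : ε * ε = 1) {D : Matrix r r P}
    {g : (Matrix ((n ⊕ n) ⊕ r) ((n ⊕ n) ⊕ r) P)ˣ} (hg : g ∈ isom (JG ε n D)) (α : n ⊕ n)
    (h : ∀ x, x ≠ Sum.inl α → g.val x (Sum.inl α.swap) =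
      (1 : Matrix ((n ⊕ n) ⊕ r) ((n ⊕ n) ⊕ r) P) x (Sum.inl α.swap)) :
    star (g.val (Sum.inl α) (Sum.inl α.swap)) = -(ε • g.val (Sum.inl α) (Sum.inl α.swap)) := by
  have h1 : (g.valᴴ * (JG ε n D * g.val)) (Sum.inl α.swap) (Sum.inl α.swap) =
      JG ε n D (Sum.inl α.swap) (Sum.inl α.swap) := by
    rw [← Matrix.mul_assoc, mem_isom.1 hg]
  have hne : (Sum.inl α.swap : (n ⊕ n) ⊕ r) ≠ Sum.inl α := fun h' =>
    ne_swap α (Sum.inl.inj h').symm
  have h4 : JG ε n D (Sum.inl α.swap) (Sum.inl α.swap) = 0 := by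
    have := JG_row (ε := ε) D
      (fun y => (1 : Matrix ((n ⊕ n) ⊕ r) ((n ⊕ n) ⊕ r) P) y (Sum.inl α.swap)) α.swap
    rw [Sum.swap_swap, Matrix.one_apply_ne hne.symm, smul_zero] at this
    rw [← this]
    change _ = (JG ε n D * (1 : Matrix ((n ⊕ n) ⊕ r) ((n ⊕ n) ⊕ r) P)) (Sum.inl α.swap) _
    rw [Matrix.mul_one]
  have h2 : (g.valᴴ * (JG ε n D * g.val)) (Sum.inl α.swap) (Sum.inl α.swap) =
      star (g.val (Sum.inl α) (Sum.inl α.swap)) * (sg ε α • 1) +
        sg ε α.swap • g.val (Sum.inl α) (Sum.inl α.swap) := by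
    have e1 : (JG ε n D * g.val) (Sum.inl α) (Sum.inl α.swap) = sg ε α • 1 := by
      have := JG_row (ε := ε) D (fun y => g.val y (Sum.inl α.swap)) α
      rw [h _ hne, Matrix.one_apply_eq] at this
      exact this
    have e2 : (JG ε n D * g.val) (Sum.inl α.swap) (Sum.inl α.swap) =
        sg ε α.swap • g.val (Sum.inl α) (Sum.inl α.swap) := by
      have := JG_row (ε := ε) D (fun y => g.val y (Sum.inl α.swap)) α.swap
      rw [Sum.swap_swap] at this
      exact this
    rw [Matrix.mul_apply, ← Finset.add_sum_erase _ _ (Finset.mem_univ (Sum.inl α)),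
      Matrix.conjTranspose_apply, e1, Finset.sum_eq_single (Sum.inl α.swap)]
    · rw [Matrix.conjTranspose_apply, h _ hne, Matrix.one_apply_eq, star_one, one_mul, e2]
    · intro y hy hy'
      rw [Matrix.conjTranspose_apply, h _ (Finset.ne_of_mem_erase hy), Matrix.one_apply_ne hy',
        star_zero, zero_mul]
    · intro h'
      exact absurd (Finset.mem_erase.mpr ⟨hne, Finset.mem_univ _⟩) h'
  rw [h2, h4, sg_swap hε] at h1
  have h5 := congrArg (fun x => sg ε α • x) h1
  rw [smul_zero, smul_add, mul_smul_comm, mul_one, smul_smul, smul_smul, sg_sq hε, one_smul] at h5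
  have h6 : sg ε α * (ε * sg ε α) = ε := by
    calc _ = ε * (sg ε α * sg ε α) := by ring
      _ = _ := by rw [sg_sq hε, mul_one]
  rw [h6] at h5
  exact eq_neg_of_add_eq_zero_left h5

end Rows

/-! ### Elimination: the unipotent radicals are generated by their root elements -/

section Elim

variable {n r P : Type*} [DecidableEq n] [Fintype n] [DecidableEq r] [Fintype r] [Ring P]
  [StarRing P]

/-- the elements treated in the elimination: only the planes in `S` and `V₀` are moved -/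
structure Good (ε : ℤ) (D : Matrix r r P) (f : n → ℤ) (Q : Prop) (S : Finset n)
    (g : (Matrix ((n ⊕ n) ⊕ r) ((n ⊕ n) ⊕ r) P)ˣ) : Prop where
  iso : g ∈ isom (JG ε n D)
  unip : g ∈ U (flF r f)
  col : ∀ γ : n ⊕ n, ix γ ∉ S → ∀ x, g.val x (Sum.inl γ) =
    (1 : Matrix ((n ⊕ n) ⊕ r) ((n ⊕ n) ⊕ r) P) x (Sum.inl γ)
  vrow : Q ∨ ∀ (k : r) (x : (n ⊕ n) ⊕ r), g.val (Sum.inr k) x =
    (1 : Matrix ((n ⊕ n) ⊕ r) ((n ⊕ n) ⊕ r) P) (Sum.inr k) x

variable {ε : ℤ} {D : Matrix r r P} {f : n → ℤ} {Q : Prop} {S : Finset n}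
  {g : (Matrix ((n ⊕ n) ⊕ r) ((n ⊕ n) ⊕ r) P)ˣ}

theorem one_col_eq {k : Type*} [DecidableEq k] [Fintype k] (z : k) :
    (fun y => (1 : Matrix k k P) y z) = Pi.single z 1 := by
  ext y
  rw [Matrix.one_apply, Pi.single_apply]

/-- left multiplication by an element of the hyperbolic part -/
theorem Good.embH (hg : Good ε D f Q S g) {h : (Matrix (n ⊕ n) (n ⊕ n) P)ˣ}
    (h1 : h ∈ UG ε n P) (h2 : h ∈ U (wt f))
    (h3 : ∀ γ : n ⊕ n, ix γ ∉ S → ∀ x, h.val x γ = (1 : Matrix (n ⊕ n) (n ⊕ n) P) x γ) :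
    Good ε D f Q S (embH r h * g) where
  iso := mul_mem (embH_memG h1) hg.iso
  unip := mul_mem (embH_U h2) hg.unip
  col := by
    intro γ hγ x
    have hc : (fun y => g.val y (Sum.inl γ)) = Pi.single (Sum.inl γ) 1 := by
      rw [← one_col_eq]
      exact funext (hg.col γ hγ)
    rw [mul_col, hc, Matrix.mulVec_single_one]
    change (BWC.embH r h).val x (Sum.inl γ) = _
    rw [embH_val]
    rcases x with x | x
    · rw [Matrix.fromBlocks_apply₁₁, h3 γ hγ, Matrix.one_apply, Matrix.one_apply]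
      simp
    · rw [Matrix.fromBlocks_apply₂₁, Matrix.one_apply]
      simp
  vrow := by
    rcases hg.vrow with hq | hv
    · exact Or.inl hq
    · refine Or.inr fun k x => ?_
      rw [mul_col, embH_mulVec_V]
      exact hv k x

theorem Good.row (hε : ε * ε = 1) (hg : Good ε D f Q S g) (γ : n ⊕ n) (h : ix γ ∉ S)
    (z : (n ⊕ n) ⊕ r) : g.val (Sum.inl γ) z =
      (1 : Matrix ((n ⊕ n) ⊕ r) ((n ⊕ n) ⊕ r) P) (Sum.inl γ) z :=
  row_of_col hε hg.iso γ (hg.col γ.swap (by rw [ix_swap]; exact h)) z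

theorem T_col {α β : n ⊕ n} (h : ix α ≠ ix β) (x : P) (γ : n ⊕ n) (h1 : ix γ ≠ ix α)
    (h2 : ix γ ≠ ix β) (z : n ⊕ n) :
    (T ε α β h x).val z γ = (1 : Matrix (n ⊕ n) (n ⊕ n) P) z γ := by
  rw [T_val, Matrix.add_apply, tm, Matrix.sub_apply, Matrix.smul_apply, Matrix.single_apply,
    Matrix.single_apply, if_neg, if_neg]
  · simp
  · rintro ⟨_, h3⟩
    exact h1 (by rw [← h3, ix_swap])
  · rintro ⟨_, h3⟩
    exact h2 (by rw [h3])

theorem lg_col {α : n ⊕ n} (b : P) (γ : n ⊕ n) (h1 : ix γ ≠ ix α) (z : n ⊕ n) :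
    (lg α b).val z γ = (1 : Matrix (n ⊕ n) (n ⊕ n) P) z γ := by
  rw [lg_val, Matrix.add_apply, Matrix.single_apply, if_neg, add_zero]
  rintro ⟨_, h3⟩
  exact h1 (by rw [← h3, ix_swap])

theorem Good.T (hε : ε * ε = 1) (hg : Good ε D f Q S g) {α β : n ⊕ n} (h : ix α ≠ ix β) (x : P)
    (hα : ix α ∈ S) (hβ : ix β ∈ S) (hf : wt f α < wt f β) :
    Good ε D f Q S (BWC.embH r (T ε α β h x) * g) :=
  hg.embH (T_mem_UG hε _ _ _ _) (T_mem_U _ _ _ _ hf) fun γ hγ z =>
    T_col h x γ (fun h' => hγ (by rw [h']; exact hα)) (fun h' => hγ (by rw [h']; exact hβ)) z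

theorem Good.lg (hε : ε * ε = 1) (hg : Good ε D f Q S g) {α : n ⊕ n} {b : P}
    (hb : star b = -(ε • b)) (hα : ix α ∈ S) (hf : wt f α < 0) :
    Good ε D f Q S (BWC.embH r (lg α b) * g) :=
  hg.embH (lg_mem_UG hε _ hb) (lg_mem_U _ _ hf) fun γ hγ z =>
    lg_col b γ (fun h' => hγ (by rw [h']; exact hα)) z

theorem Good.mv (hε : ε * ε = 1) (hg : Good ε D f Q S g) {A : Matrix r r P} (hD : D = A + ε • Aᴴ)
    {α : n ⊕ n} (y : r → P) (hα : ix α ∈ S) (hf : wt f α < 0) (hQ : Q) :
    Good ε D f Q S (mv ε A D α y * g) where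
  iso := mul_mem (mv_mem_isom hε hD α y) hg.iso
  unip := mul_mem (mv_mem_U A D α y hf) hg.unip
  col := by
    intro γ hγ x
    have hc : (fun y => g.val y (Sum.inl γ)) = Pi.single (Sum.inl γ) 1 := by
      rw [← one_col_eq]
      exact funext (hg.col γ hγ)
    rw [mul_col, hc, mv_mulVec_fix, ← one_col_eq]
    · rw [Pi.single_apply, if_neg]
      intro h'
      have h'' := Sum.inl.inj h'
      exact hγ (by rw [← h'', ix_swap]; exact hα)
    · intro k
      rw [Pi.single_apply, if_neg]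
      intro h'
      exact absurd h' (by simp)
  vrow := Or.inl hQ

variable (Γ : Subgroup (Matrix ((n ⊕ n) ⊕ r) ((n ⊕ n) ⊕ r) P)ˣ)

/-- first step of the elimination: the entries of the column `α'` in `H^n` -/
theorem elim_T (hε : ε * ε = 1)
    (hT : ∀ (α β : n ⊕ n) (h : ix α ≠ ix β) (x : P), wt f α < wt f β →
      BWC.embH r (BWC.T ε α β h x) ∈ Γ)
    (α : n ⊕ n) (hα : ix α ∈ S) (hg : Good ε D f Q S g) (B : Finset (n ⊕ n))
    (hB : ∀ β ∈ B, ix β ≠ ix α) : ∃ γ ∈ Γ, Good ε D f Q S (γ * g) ∧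
      ∀ β ∈ B, (γ * g).val (Sum.inl β) (Sum.inl α.swap) = 0 := by
  induction B using Finset.induction_on with
  | empty => exact ⟨1, one_mem _, by rw [one_mul]; exact hg, fun β hβ => absurd hβ (by simp)⟩
  | insert β B hβB ih =>
    obtain ⟨γ, hγ, h1, h2⟩ := ih fun β hβ => hB β (Finset.mem_insert_of_mem hβ)
    have hβ : ix β ≠ ix α := hB β (Finset.mem_insert_self _ _)
    set g' := γ * g with hg'
    have hne : (Sum.inl β : (n ⊕ n) ⊕ r) ≠ Sum.inl α.swap := fun h' =>
      ne_of_ix (by rw [ix_swap]; exact hβ) (Sum.inl.inj h')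
    by_cases h0 : g'.val (Sum.inl β) (Sum.inl α.swap) = 0
    · refine ⟨γ, hγ, h1, fun δ hδ => ?_⟩
      rcases Finset.mem_insert.mp hδ with rfl | hδ
      · exact h0
      · exact h2 δ hδ
    have hβS : ix β ∈ S := by
      by_contra hcon
      exact h0 (by rw [h1.row hε β hcon, Matrix.one_apply_ne hne])
    have hw : wt f β < wt f α.swap := by
      by_contra hcon
      exact h0 ((h1.unip (Sum.inl β) (Sum.inl α.swap) hcon).trans (Matrix.one_apply_ne hne))
    have hix : ix β ≠ ix α.swap := by rw [ix_swap]; exact hβ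
    have hαα : g'.val (Sum.inl α.swap) (Sum.inl α.swap) = 1 := by
      rw [h1.unip _ _ (lt_irrefl _), Matrix.one_apply_eq]
    refine ⟨BWC.embH r (BWC.T ε β α.swap hix (-(g'.val (Sum.inl β) (Sum.inl α.swap)))) * γ,
      mul_mem (hT _ _ _ _ hw) hγ, ?_, fun δ hδ => ?_⟩
    · rw [mul_assoc, ← hg']
      exact h1.T hε hix _ hβS (by rw [ix_swap]; exact hα) hw
    · rw [mul_assoc, ← hg', mul_col, embH_mulVec_H, T_mulVec, Sum.swap_swap]
      have hδα : δ ≠ α := ne_of_ix (hB δ hδ)
      rw [if_neg hδα, sub_zero]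
      rcases Finset.mem_insert.mp hδ with rfl | hδ
      · rw [if_pos rfl, hαα, mul_one, add_neg_cancel]
      · have : δ ≠ β := fun h' => hβB (by rw [← h']; exact hδ)
        rw [if_neg this, add_zero]
        exact h2 δ hδ

theorem eq_or_swap {α δ : n ⊕ n} (h : ix δ = ix α) : δ = α ∨ δ = α.swap := by
  rcases α with i | i <;> rcases δ with j | j
  · exact Or.inl (congrArg Sum.inl h)
  · exact Or.inr (congrArg Sum.inr h)
  · exact Or.inr (congrArg Sum.inl h)
  · exact Or.inl (congrArg Sum.inr h)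

theorem abs_wt (f : n → ℤ) (α : n ⊕ n) : |wt f α| = |f (ix α)| := by
  rcases α with i | i
  · rfl
  · exact abs_neg _

/-- elimination: the isometries in `U (flF r f)` are products of root elements -/
theorem elim (hε : ε * ε = 1) {A : Matrix r r P} (hD : D = A + ε • Aᴴ)
    (hT : ∀ (α β : n ⊕ n) (h : ix α ≠ ix β) (x : P), wt f α < wt f β →
      BWC.embH r (BWC.T ε α β h x) ∈ Γ)
    (hL : ∀ (α : n ⊕ n) (b : P), star b = -(ε • b) → wt f α < 0 →
      BWC.embH r (BWC.lg α b) ∈ Γ)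
    (hM : Q → ∀ (α : n ⊕ n) (y : r → P), wt f α < 0 → BWC.mv ε A D α y ∈ Γ) :
    ∀ (m : ℕ) (S : Finset n) (g : (Matrix ((n ⊕ n) ⊕ r) ((n ⊕ n) ⊕ r) P)ˣ), S.card = m →
      Good ε D f Q S g → g ∈ Γ := by
  intro m
  induction m using Nat.strong_induction_on with
  | _ m ih =>
    intro S g hS hg
    by_cases h0 : ∀ i ∈ S, f i = 0
    · have h1 : g = 1 := by
        ext x z
        rw [Units.val_one]
        have key : ∀ x : (n ⊕ n) ⊕ r, (∃ γ : n ⊕ n, x = Sum.inl γ ∧ ix γ ∉ S) ∨ flF r f x = 0 := by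
          intro x
          rcases x with γ | k
          · by_cases hγ : ix γ ∈ S
            · refine Or.inr ?_
              have h2 : |wt f γ| = 0 := by rw [abs_wt, h0 _ hγ, abs_zero]
              exact abs_eq_zero.mp h2
            · exact Or.inl ⟨γ, rfl, hγ⟩
          · exact Or.inr rfl
        rcases key x with ⟨γ, rfl, hγ⟩ | hx
        · exact hg.row hε γ hγ z
        · rcases key z with ⟨γ, rfl, hγ⟩ | hz
          · exact hg.col γ hγ x
          · exact hg.unip x z (by rw [hx, hz]; exact lt_irrefl _)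
      rw [h1]
      exact one_mem _
    · push Not at h0
      obtain ⟨i₁, hi₁, hf₁⟩ := h0
      obtain ⟨i, hiS, hmax⟩ := Finset.exists_max_image S (fun i => |f i|) ⟨i₁, hi₁⟩
      have hpos : 0 < |f i| := lt_of_lt_of_le (abs_pos.mpr hf₁) (hmax i₁ hi₁)
      obtain ⟨α, hαi, hαw⟩ : ∃ α : n ⊕ n, ix α = i ∧ wt f α = -|f i| := by
        rcases lt_or_ge (f i) 0 with h | h
        · exact ⟨Sum.inl i, rfl, by rw [abs_of_neg h, neg_neg]; rfl⟩
        · exact ⟨Sum.inr i, rfl, by rw [abs_of_nonneg h]; rfl⟩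
      have hα : ix α ∈ S := by rw [hαi]; exact hiS
      have hf : wt f α < 0 := by rw [hαw]; omega
      obtain ⟨γ, hγ, h1, h2⟩ := elim_T Γ hε hT α hα hg
        (Finset.univ.filter fun β => ix β ≠ ix α) (fun β hβ => (Finset.mem_filter.mp hβ).2)
      set g' := γ * g with hg'
      obtain ⟨μ, hμ, h3, h4, h5⟩ : ∃ μ ∈ Γ, Good ε D f Q S (μ * g') ∧
          (∀ k, (μ * g').val (Sum.inr k) (Sum.inl α.swap) = 0) ∧
          ∀ β : n ⊕ n, ix β ≠ ix α → (μ * g').val (Sum.inl β) (Sum.inl α.swap) = 0 := by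
        rcases h1.vrow with hQ | hv
        · refine ⟨BWC.mv ε A D α (fun k => -(g'.val (Sum.inr k) (Sum.inl α.swap))),
            hM hQ _ _ hf, h1.mv hε hD _ hα hf hQ, fun k => ?_, fun β hβ => ?_⟩
          · rw [mul_col, mv_mulVec_V, h1.unip _ _ (lt_irrefl _), Matrix.one_apply_eq, mul_one,
              add_neg_cancel]
          · rw [mul_col, mv_mulVec_H _ _ _ _ _ _ (ne_of_ix hβ)]
            exact h2 β (Finset.mem_filter.mpr ⟨Finset.mem_univ _, hβ⟩)
        · refine ⟨1, one_mem _, by rw [one_mul]; exact h1, fun k => ?_, fun β hβ => ?_⟩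
          · rw [one_mul, hv, Matrix.one_apply_ne]
            simp
          · rw [one_mul]
            exact h2 β (Finset.mem_filter.mpr ⟨Finset.mem_univ _, hβ⟩)
      set g'' := μ * g' with hg''
      have hαα : g''.val (Sum.inl α.swap) (Sum.inl α.swap) = 1 := by
        rw [h3.unip _ _ (lt_irrefl _), Matrix.one_apply_eq]
      have hne : ∀ δ : n ⊕ n, δ ≠ α.swap → (Sum.inl δ : (n ⊕ n) ⊕ r) ≠ Sum.inl α.swap :=
        fun δ hδ h' => hδ (Sum.inl.inj h')
      have h6 : ∀ x, x ≠ Sum.inl α → g''.val x (Sum.inl α.swap) =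
          (1 : Matrix ((n ⊕ n) ⊕ r) ((n ⊕ n) ⊕ r) P) x (Sum.inl α.swap) := by
        intro x hx
        rcases x with δ | k
        · by_cases hδ : δ = α.swap
          · rw [hδ, hαα, Matrix.one_apply_eq]
          · rw [Matrix.one_apply_ne (hne δ hδ)]
            refine h5 δ fun h' => ?_
            rcases eq_or_swap h' with h' | h'
            · exact hx (by rw [h'])
            · exact hδ h'
        · rw [h4, Matrix.one_apply_ne]
          simp
      have h7 := star_of_col hε h3.iso α h6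
      set t := g''.val (Sum.inl α) (Sum.inl α.swap) with ht
      have h8 : star (-t) = -(ε • (-t)) := by rw [star_neg, h7, smul_neg]
      have h9 := h3.lg hε h8 hα hf
      set g₃ := BWC.embH r (BWC.lg α (-t)) * g'' with hg₃
      have h10 : ∀ x, g₃.val x (Sum.inl α.swap) =
          (1 : Matrix ((n ⊕ n) ⊕ r) ((n ⊕ n) ⊕ r) P) x (Sum.inl α.swap) := by
        intro x
        rw [hg₃, mul_col]
        rcases x with δ | k
        · rw [embH_mulVec_H, lg_mulVec]
          by_cases hδ : δ = α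
          · rw [if_pos hδ, hαα, hδ, ← ht, mul_one, add_neg_cancel,
              Matrix.one_apply_ne (hne α (ne_swap α))]
          · rw [if_neg hδ, add_zero]
            exact h6 _ (fun h' => hδ (Sum.inl.inj h'))
        · rw [embH_mulVec_V]
          exact h6 _ (by simp)
      have h11 : ∀ x, g₃.val x (Sum.inl α) =
          (1 : Matrix ((n ⊕ n) ⊕ r) ((n ⊕ n) ⊕ r) P) x (Sum.inl α) := by
        intro x
        by_cases hx : flF r f x < flF r f (Sum.inl α)
        · rcases x with δ | k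
          · have hx' : wt f δ < wt f α := hx
            refine h9.row hε δ (fun hδ => ?_) _
            have h12 := hmax _ hδ
            change |f (ix δ)| ≤ |f i| at h12
            rw [← abs_wt] at h12
            have h13 := neg_abs_le (wt f δ)
            omega
          · exfalso
            have hx' : 0 < wt f α := hx
            omega
        · exact h9.unip _ _ hx
      have h12 : Good ε D f Q (S.erase i) g₃ := by
        refine ⟨h9.iso, h9.unip, fun δ hδ x => ?_, h9.vrow⟩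
        by_cases hi : ix δ = ix α
        · rcases eq_or_swap hi with h' | h'
          · rw [h']; exact h11 x
          · rw [h']; exact h10 x
        · exact h9.col δ (fun hS' => hδ (Finset.mem_erase.mpr
            ⟨fun h' => hi (by rw [h', hαi]), hS'⟩)) x
      have h13 : g₃ ∈ Γ := ih (S.erase i).card (by
        rw [← hS]; exact Finset.card_erase_lt_of_mem hiS) (S.erase i) g₃ rfl h12
      have h14 : g = γ⁻¹ * (μ⁻¹ * ((BWC.embH r (BWC.lg α (-t)))⁻¹ * g₃)) := by
        rw [hg₃, hg'', hg']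
        group
      rw [h14]
      exact mul_mem (inv_mem hγ) (mul_mem (inv_mem hμ) (mul_mem (inv_mem (hL _ _ h8 hf)) h13))

end Elim

/-! ### All unipotent radicals -/

section Main

variable {n r P : Type*} [DecidableEq n] [Fintype n] [DecidableEq r] [Fintype r] [Ring P]
  [StarRing P] {ε : ℤ} {A D : Matrix r r P} {f : n → ℤ}

theorem mv_mem_GF_of_ne (hε : ε * ε = 1) (hD : D = A + ε • Aᴴ) (α : n ⊕ n) (y : r → P)
    (hf : wt f α ≠ 0) : mv ε A D α y ∈ GF ε f D := by
  rcases lt_or_gt_of_ne hf with hf | hf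
  · exact Subgroup.mem_sup_left ⟨mv_mem_isom hε hD α y, mv_mem_U A D α y hf⟩
  · refine Subgroup.mem_sup_right ⟨mv_mem_isom hε hD α y, mv_mem_U A D α y ?_⟩
    rw [wt_neg]
    omega

/-- a function with prescribed weights at two indices -/
theorem exists_wt (α β : n ⊕ n) (h : ix α ≠ ix β) (a b : ℤ) :
    ∃ f : n → ℤ, wt f α = a ∧ wt f β = b := by
  have key : ∀ (γ : n ⊕ n) (c : ℤ), ∃ d : ℤ, ∀ f : n → ℤ, f (ix γ) = d → wt f γ = c := by
    intro γ c
    rcases γ with i | i
    · exact ⟨c, fun f hf => hf⟩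
    · refine ⟨-c, fun f hf => ?_⟩
      have h1 : f i = -c := hf
      change - f i = c
      rw [h1, neg_neg]
  obtain ⟨d, hd⟩ := key α a
  obtain ⟨e, he⟩ := key β b
  refine ⟨fun j => if j = ix α then d else e, hd _ (if_pos rfl), he _ (if_neg (Ne.symm h))⟩

/-- the root elements of `V₀` at all indices -/
theorem mv_mem_GF (hε : ε * ε = 1) (hn : Enough n P ε) (hD : D = A + ε • Aᴴ) (hf : f ≠ 0)
    (α : n ⊕ n) (y : r → P) : mv ε A D α y ∈ GF ε f D := by
  by_cases h0 : wt f α ≠ 0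
  · exact mv_mem_GF_of_ne hε hD α y h0
  rw [not_not] at h0
  obtain ⟨i, hi⟩ : ∃ i, f i ≠ 0 := by
    by_contra hcon
    push Not at hcon
    exact hf (funext hcon)
  obtain ⟨β, hβ⟩ : ∃ β : n ⊕ n, β = Sum.inl i := ⟨_, rfl⟩
  have hβf : wt f β ≠ 0 := by rw [hβ]; exact hi
  have h : ix α ≠ ix β := by
    intro h'
    apply hβf
    have h1 : |wt f β| = 0 := by rw [abs_wt, ← h', ← abs_wt, h0, abs_zero]
    exact abs_eq_zero.mp h1
  -- replace `y` by `s • y`
  obtain ⟨s, hs, hs'⟩ : ∃ s : ℤ, s = sg ε α * sg ε β ∧ s * s = 1 := by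
    refine ⟨_, rfl, ?_⟩
    calc _ = (sg ε α * sg ε α) * (sg ε β * sg ε β) := by ring
      _ = _ := by rw [sg_sq hε, sg_sq hε, one_mul]
  have hy : s • (s • y) = y := by rw [smul_smul, hs', one_smul]
  set w := s • y with hw
  rw [← hy]
  set t := embH r (T ε α β h (1 : P)) with ht
  have ht1 : t ∈ GF ε f D := T_mem_GF hε hn hf _ _ _ _
  have hm : mv ε A D β w ∈ GF ε f D := mv_mem_GF_of_ne hε hD β w hβf
  set z := t * mv ε A D β w * (mv ε A D α (s • w) * mv ε A D β w * t)⁻¹ with hz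
  have hrow : ∀ (v : (n ⊕ n) ⊕ r → P) (k : r),
      ((t * mv ε A D β w).val *ᵥ v) (Sum.inr k) =
        ((mv ε A D α (s • w) * mv ε A D β w * t).val *ᵥ v) (Sum.inr k) := by
    intro v k
    rw [Units.val_mul, Units.val_mul, Units.val_mul, ← Matrix.mulVec_mulVec,
      ← Matrix.mulVec_mulVec, ← Matrix.mulVec_mulVec, ht, embH_mulVec_V, mv_mulVec_V, mv_mulVec_V,
      mv_mulVec_V, embH_mulVec_V, mv_mulVec_H _ _ _ _ _ _ (ne_of_ix (by rw [ix_swap]; exact h)),
      embH_mulVec_H, embH_mulVec_H, T_mulVec, T_mulVec, if_neg, if_pos rfl, if_neg, if_neg]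
    · rw [← hs, star_one, one_mul, Pi.smul_apply, smul_mul_assoc, add_zero, sub_zero, add_zero,
        mul_sub, mul_smul_comm]
      abel
    · exact ne_of_ix (by rw [ix_swap, ix_swap]; exact h)
    · exact (ne_swap α).symm
    · exact ne_of_ix (by rw [ix_swap]; exact Ne.symm h)
  have hzr : ∀ (k : r) (x : (n ⊕ n) ⊕ r), z.val (Sum.inr k) x =
      (1 : Matrix ((n ⊕ n) ⊕ r) ((n ⊕ n) ⊕ r) P) (Sum.inr k) x := by
    intro k x
    have h1 := hrow (fun y => (mv ε A D α (s • w) * mv ε A D β w * t)⁻¹.val y x) k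
    have h2 : (fun y => (mv ε A D α (s • w) * mv ε A D β w * t)⁻¹.val y x) =
        (mv ε A D α (s • w) * mv ε A D β w * t)⁻¹.val *ᵥ Pi.single x 1 := by
      rw [Matrix.mulVec_single_one]
      rfl
    have h3 : z.val (Sum.inr k) x = ((t * mv ε A D β w).val *ᵥ
        fun y => (mv ε A D α (s • w) * mv ε A D β w * t)⁻¹.val y x) (Sum.inr k) := rfl
    rw [h3, h1, h2, Matrix.mulVec_mulVec, ← Units.val_mul, mul_inv_cancel, Units.val_one,
      Matrix.one_mulVec, Matrix.one_apply, Pi.single_apply]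
  have hzG : z ∈ GF ε f D := by
    obtain ⟨f', hf1, hf2⟩ := exists_wt α β h (-2) (-1)
    have ha : wt f' α < 0 := by rw [hf1]; norm_num
    have hb : wt f' β < 0 := by rw [hf2]; norm_num
    have hab : wt f' α < wt f' β := by rw [hf1, hf2]; norm_num
    have mt : t ∈ UF ε f' D := ⟨embH_memG (T_mem_UG hε _ _ _ _), embH_U (T_mem_U _ _ _ _ hab)⟩
    have mb : mv ε A D β w ∈ UF ε f' D := ⟨mv_mem_isom hε hD _ _, mv_mem_U _ _ _ _ hb⟩
    have ma : mv ε A D α (s • w) ∈ UF ε f' D := ⟨mv_mem_isom hε hD _ _, mv_mem_U _ _ _ _ ha⟩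
    have mz : z ∈ UF ε f' D := mul_mem (mul_mem mt mb) (inv_mem (mul_mem (mul_mem ma mb) mt))
    exact elim (Q := False) (GF ε f D) hε hD (fun _ _ _ _ _ => T_mem_GF hε hn hf _ _ _ _)
      (fun _ _ hb _ => lg_mem_GF hε hn hf _ hb) (fun h => h.elim) _ Finset.univ z rfl
      ⟨mz.1, mz.2, fun γ hγ => absurd (Finset.mem_univ _) hγ, Or.inr hzr⟩
  have h4 : mv ε A D α (s • w) = z⁻¹ * (t * mv ε A D β w * t⁻¹ * (mv ε A D β w)⁻¹) := by
    rw [hz]
    group
  rw [h4]
  exact mul_mem (inv_mem hzG) (mul_mem (mul_mem (mul_mem ht1 hm) (inv_mem ht1)) (inv_mem hm))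

/-- every unipotent radical is contained in the group generated by any pair of opposite
unipotent radicals -/
theorem UF_le_GF' (hε : ε * ε = 1) (hn : Enough n P ε) (hD : D = A + ε • Aᴴ) (hf : f ≠ 0)
    (f' : n → ℤ) : UF ε f' D ≤ GF ε f D := by
  intro g hg
  exact elim (Q := True) (GF ε f D) hε hD (fun _ _ _ _ _ => T_mem_GF hε hn hf _ _ _ _)
    (fun _ _ hb _ => lg_mem_GF hε hn hf _ hb) (fun _ _ _ _ => mv_mem_GF hε hn hD hf _ _) _
    Finset.univ g rfl ⟨hg.1, hg.2, fun γ hγ => absurd (Finset.mem_univ _) hγ, Or.inl trivial⟩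

/-- the group generated by two opposite unipotent radicals does not depend on the parabolic
subgroup -/
theorem GF_eq' (hε : ε * ε = 1) (hn : Enough n P ε) (hD : D = A + ε • Aᴴ) {f f' : n → ℤ}
    (hf : f ≠ 0) (hf' : f' ≠ 0) : GF ε f D = GF ε f' D :=
  le_antisymm (sup_le (UF_le_GF' hε hn hD hf' f) (UF_le_GF' hε hn hD hf' (-f)))
    (sup_le (UF_le_GF' hε hn hD hf f') (UF_le_GF' hε hn hD hf (-f')))

theorem EG_eq (ε : ℤ) (D : Matrix r r P) : EG ε n D = GF ε (fun _ => -1) D := by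
  have h : (-(fun _ => (-1 : ℤ)) : n → ℤ) = fun _ => 1 := by
    ext x
    simp
  rw [EG, UPG_eq, UMG_eq, GF, h]

theorem GF_eq_EG' (hε : ε * ε = 1) (hn : Enough n P ε) {A D : Matrix r r P}
    (hD : D = A + ε • Aᴴ) {f : n → ℤ} (hf : f ≠ 0) : GF ε f D = EG ε n D := by
  rw [EG_eq]
  refine GF_eq' hε hn hD hf fun h => ?_
  obtain ⟨i, _⟩ : ∃ i, f i ≠ 0 := by
    by_contra hcon
    push Not at hcon
    exact hf (funext hcon)
  have h1 := congrFun h i
  simp at h1

theorem EG_le_GF' (hε : ε * ε = 1) (hn : Enough n P ε) {A D : Matrix r r P}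
    (hD : D = A + ε • Aᴴ) {f : n → ℤ} (hf : f ≠ 0) : EG ε n D ≤ GF ε f D :=
  (GF_eq_EG' hε hn hD hf).ge

theorem UF_le_GF (hε : ε * ε = 1) (hn : 3 ≤ Fintype.card n) (hD : D = A + ε • Aᴴ) (hf : f ≠ 0)
    (f' : n → ℤ) : UF ε f' D ≤ GF ε f D := UF_le_GF' hε (Or.inl hn) hD hf f'

theorem GF_eq (hε : ε * ε = 1) (hn : 3 ≤ Fintype.card n) (hD : D = A + ε • Aᴴ) {f f' : n → ℤ}
    (hf : f ≠ 0) (hf' : f' ≠ 0) : GF ε f D = GF ε f' D := GF_eq' hε (Or.inl hn) hD hf hf'

theorem GF_eq_EG (hε : ε * ε = 1) (hn : 3 ≤ Fintype.card n) {A D : Matrix r r P}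
    (hD : D = A + ε • Aᴴ) {f : n → ℤ} (hf : f ≠ 0) : GF ε f D = EG ε n D :=
  GF_eq_EG' hε (Or.inl hn) hD hf

theorem EG_le_GF (hε : ε * ε = 1) (hn : 3 ≤ Fintype.card n) {A D : Matrix r r P}
    (hD : D = A + ε • Aᴴ) {f : n → ℤ} (hf : f ≠ 0) : EG ε n D ≤ GF ε f D :=
  EG_le_GF' hε (Or.inl hn) hD hf

end Main

end BWC
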