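import Pool.Agent.BWC.Fam
import Pool.Agent.BWC.KReachG
import Pool.Agent.BWC.KStab
import Pool.Agent.BWC.Parab
import Pool.Agent.BWC.Even
import Pool.Agent.BWE.Main

/-!
# Project BWC, rows K: the main theorem for `H^m ⊥ V₀` and all standard parabolic subgroups
-/

set_option autoImplicit false
set_option linter.unusedSectionVars false

namespace BWC

open Matrix
open BW hiding star
open scoped Pointwise

section FamM

variable {k l : Type*} [DecidableEq k] [Fintype k] {ι : Type*} {Λ : ι → Type*} [∀ i, Ring (Λ i)]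

/-- the matrix over the product ring with given components -/
def famM (D : ∀ i, Matrix k k (Λ i)) : Matrix k k (∀ i, Λ i) := Matrix.of fun a b i => D i a b

theorem famM_comp (D : ∀ i, Matrix k k (Λ i)) (i : ι) : (famM D).map (fun x => x i) = D i := rfl

theorem mat_ext {M M' : Matrix k k (∀ i, Λ i)}
    (h : ∀ i, M.map (fun x => x i) = M'.map (fun x => x i)) : M = M' := by
  ext a b i
  exact congrFun (congrFun (h i) a) b

theorem mul_comp (M M' : Matrix k k (∀ i, Λ i)) (i : ι) :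
    (M * M').map (fun x => x i) = M.map (fun x => x i) * M'.map (fun x => x i) := by
  ext a b
  simp [Matrix.mul_apply]

theorem one_compM (i : ι) :
    (1 : Matrix k k (∀ i, Λ i)).map (fun x => x i) = (1 : Matrix k k (Λ i)) := by
  ext a b
  rw [Matrix.map_apply, Matrix.one_apply, Matrix.one_apply]
  split_ifs <;> rfl

theorem comp_mem_Uf {f : k → ℤ} (i : ι) {g : (Matrix k k (∀ i, Λ i))ˣ} (hg : g ∈ U f) :
    comp i g ∈ U f := by
  intro a b hab
  rw [comp_val, hg a b hab, Matrix.one_apply, Matrix.one_apply]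
  split_ifs <;> rfl

variable [∀ i, StarRing (Λ i)]

theorem comp_isom_iff {G : Matrix k k (∀ i, Λ i)} {g : (Matrix k k (∀ i, Λ i))ˣ} :
    g ∈ isom G ↔ ∀ i, comp i g ∈ isom (G.map fun x => x i) := by
  have key : ∀ i, (g.valᴴ * G * g.val).map (fun x => x i) =
      (comp i g).valᴴ * (G.map fun x => x i) * (comp i g).val := by
    intro i
    rw [mul_comp, mul_comp]
    rfl
  constructor
  · intro h i
    rw [mem_isom, ← key, mem_isom.1 h]
  · intro h
    rw [mem_isom]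
    refine mat_ext fun i => ?_
    rw [key]
    exact mem_isom.1 (h i)

theorem JG_comp {ε : ℤ} {n r : Type*} [DecidableEq n] [Fintype n] [DecidableEq r] [Fintype r]
    (D : Matrix r r (∀ i, Λ i)) (i : ι) :
    (JG ε n D).map (fun x => x i) = JG ε n (D.map fun x => x i) := by
  have h := map_J (ε := ε) (n := n) (Pi.evalRingHom Λ i)
  ext a b
  rcases a with a | a <;> rcases b with b | b
  · exact congrFun (congrFun h a) b
  · rfl
  · rfl
  · rfl

theorem comp_mem_UF {ε : ℤ} {n r : Type*} [DecidableEq n] [Fintype n] [DecidableEq r] [Fintype r]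
    (f : n → ℤ) (D : ∀ i, Matrix r r (Λ i)) (i : ι)
    {g : (Matrix ((n ⊕ n) ⊕ r) ((n ⊕ n) ⊕ r) (∀ i, Λ i))ˣ} (hg : g ∈ UF ε f (famM D)) :
    comp i g ∈ UF ε f (D i) := by
  refine ⟨?_, comp_mem_Uf i hg.2⟩
  have h := comp_isom_iff.1 hg.1 i
  rw [JG_comp] at h
  exact h

end FamM

section Pow

theorem exists_pow_of_mem_sup {G : Type*} [Group G] {A B : Subgroup G} {x : G} (hx : x ∈ A ⊔ B) :
    ∃ K : ℕ, x ∈ ((A : Set G) * (B : Set G)) ^ K := by
  suffices h : ∃ K : ℕ, x ∈ ((A : Set G) * (B : Set G)) ^ K ∧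
      x⁻¹ ∈ ((A : Set G) * (B : Set G)) ^ K by
    obtain ⟨K, hK, -⟩ := h
    exact ⟨K, hK⟩
  rw [Subgroup.sup_eq_closure] at hx
  induction hx using Subgroup.closure_induction with
  | mem x hx =>
    rcases hx with hx | hx
    · refine ⟨1, ?_⟩
      rw [pow_one]
      exact ⟨⟨_, hx, 1, one_mem _, mul_one _⟩, ⟨_, inv_mem hx, 1, one_mem _, mul_one _⟩⟩
    · refine ⟨1, ?_⟩
      rw [pow_one]
      exact ⟨⟨1, one_mem _, _, hx, one_mul _⟩, ⟨1, one_mem _, _, inv_mem hx, one_mul _⟩⟩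
  | one =>
    refine ⟨0, ?_⟩
    rw [inv_one, pow_zero]
    exact ⟨Set.mem_one.mpr rfl, Set.mem_one.mpr rfl⟩
  | mul x y _ _ hx hy =>
    obtain ⟨L, hL⟩ := hx
    obtain ⟨L', hL'⟩ := hy
    refine ⟨L + L', ?_, ?_⟩
    · rw [pow_add]
      exact Set.mul_mem_mul hL.1 hL'.1
    · rw [_root_.mul_inv_rev, add_comm, pow_add]
      exact Set.mul_mem_mul hL'.2 hL.2
  | inv x _ hx =>
    obtain ⟨L, hL⟩ := hx
    exact ⟨L, hL.2, by rw [inv_inv]; exact hL.1⟩

theorem map_mem_pow {G H : Type*} [Group G] [Group H] (φ : G →* H) {A B : Set G} {A' B' : Set H}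
    (hA : ∀ x ∈ A, φ x ∈ A') (hB : ∀ x ∈ B, φ x ∈ B') (K : ℕ) {x : G} (hx : x ∈ (A * B) ^ K) :
    φ x ∈ (A' * B') ^ K := by
  induction K generalizing x with
  | zero =>
    rw [pow_zero, Set.mem_one] at hx ⊢
    rw [hx, map_one]
  | succ K ih =>
    rw [pow_succ] at hx ⊢
    obtain ⟨a, ha, _, ⟨u, hu, v, hv, rfl⟩, rfl⟩ := hx
    simp only [map_mul]
    exact Set.mul_mem_mul (ih ha) (Set.mul_mem_mul (hA u hu) (hB v hv))

theorem pow_subset_group {G : Type*} [Group G] {A B C : Subgroup G} (hA : A ≤ C) (hB : B ≤ C)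
    (K : ℕ) : ((A : Set G) * (B : Set G)) ^ K ⊆ (C : Set G) := by
  intro x hx
  have h := map_mem_pow (MonoidHom.id G) (A := (A : Set G)) (B := (B : Set G))
    (A' := (C : Set G)) (B' := (C : Set G)) (fun x hx => hA hx) (fun x hx => hB hx) K hx
  have h2 : ∀ K : ℕ, ((C : Set G) * (C : Set G)) ^ K ⊆ (C : Set G) := by
    intro K
    induction K with
    | zero =>
      intro x hx
      rw [pow_zero, Set.mem_one] at hx
      rw [hx]
      exact one_mem C
    | succ K ih =>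
      intro x hx
      rw [pow_succ] at hx
      obtain ⟨a, ha, _, ⟨u, hu, v, hv, rfl⟩, rfl⟩ := hx
      exact mul_mem (ih ha) (mul_mem hu hv)
  exact h2 K h

end Pow

section Final

/-- the data of `N`, of a quaternion Azumaya algebra over `ℤ[1/N]` with its canonical involution,
of a unimodular hermitian form over it and of an isometry of `H^m ⊥ V₀` -/
structure DatV (m s : ℕ) where
  /-- the integer `N` -/
  N : ℕ
  hN : N ≠ 0
  /-- the ring `ℤ[1/N]` -/
  R : Type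
  /-- the algebra -/
  Λ : Type
  cR : CommRing R
  rΛ : Ring Λ
  sΛ : StarRing Λ
  alg : Algebra R Λ
  loc : IsLocalization.Away (N : ℤ) R
  az : IsQuaternionAzumaya N R Λ
  st : ∀ x : Λ, ∃ t : R, x + star x = algebraMap R Λ t
  /-- the Gram matrix of `V₀` -/
  D : Matrix (Fin s) (Fin s) Λ
  hD : Dᴴ = D
  hu : IsUnit D
  /-- the element -/
  g : (Matrix ((Fin m ⊕ Fin m) ⊕ Fin s) ((Fin m ⊕ Fin m) ⊕ Fin s) Λ)ˣ
  hg : g ∈ isom (JG 1 (Fin m) D)

attribute [instance] DatV.cR DatV.rΛ DatV.sΛ DatV.alg DatV.loc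

/-- the products of an element of `U_P` and one of `U_P^-`, `P` the parabolic subgroup of the
weights `f` -/
def PF {m s : ℕ} {Λ : Type*} [Ring Λ] [StarRing Λ] (f : Fin m → ℤ) (D : Matrix (Fin s) (Fin s) Λ) :
    Set (Matrix ((Fin m ⊕ Fin m) ⊕ Fin s) ((Fin m ⊕ Fin m) ⊕ Fin s) Λ)ˣ :=
  (UF 1 f D : Set (Matrix ((Fin m ⊕ Fin m) ⊕ Fin s) ((Fin m ⊕ Fin m) ⊕ Fin s) Λ)ˣ) *
    (UF 1 (-f) D : Set (Matrix ((Fin m ⊕ Fin m) ⊕ Fin s) ((Fin m ⊕ Fin m) ⊕ Fin s) Λ)ˣ)

theorem width_f (m s : ℕ) (hm : 2 ≤ m) (f : Fin m → ℤ) (hf : f ≠ 0) :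
    ∃ L : ℕ, ∀ (N : ℕ), N ≠ 0 → ∀ (R Λ : Type) [CommRing R] [IsLocalization.Away (N : ℤ) R]
    [Ring Λ] [StarRing Λ] [Algebra R Λ],
    IsQuaternionAzumaya N R Λ → (∀ x : Λ, ∃ t : R, x + star x = algebraMap R Λ t) →
    ∀ D : Matrix (Fin s) (Fin s) Λ, Dᴴ = D → IsUnit D →
      (PF f D) ^ L = (isom (JG 1 (Fin m) D) :
        Set (Matrix ((Fin m ⊕ Fin m) ⊕ Fin s) ((Fin m ⊕ Fin m) ⊕ Fin s) Λ)ˣ) := by
  have hε : (1 : ℤ) * 1 = 1 := by norm_num
  have hn : 2 ≤ Fintype.card (Fin m) := by simpa using hm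
  have hfree : ∀ i : DatV m s, Module.Free i.R i.Λ := fun i => i.az.free
  have hfin : ∀ i : DatV m s, Module.Finite i.R i.Λ := fun i => i.az.finite i.hN
  have Q : ∀ i : DatV m s, QAlg i.N i.R i.Λ := fun i => (i.az.qalg i.hN).some
  have hQ : ∀ (i : DatV m s) (x : i.Λ), star x = (Q i).conj x :=
    fun i x => star_eq_conj i.hN (Q i) i.st x
  -- long root elements
  have hen : Enough (Fin m) (∀ i : DatV m s, i.Λ) 1 := by
    choose s1 s2 y1 y2 h1 h2 h3 using fun i : DatV m s => BWE.pure_gen i.hN (Q i)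
    exact Or.inr ⟨s1, s2, y1, y2, by rw [star_pure Q hQ h1, one_smul],
      by rw [star_pure Q hQ h2, one_smul], funext h3⟩
  have hEUL : EUL 1 (Fin m) (∀ i : DatV m s, i.Λ) = EU 1 (Fin m) (∀ i : DatV m s, i.Λ) :=
    BWE.EUL_all (N := fun i : DatV m s => i.N) (R := fun i : DatV m s => i.R) (fun i => i.hN) Q hQ
      m hm
  -- the Gram matrix over the product ring
  obtain ⟨D, hDdef⟩ : ∃ D, D = famM (fun i : DatV m s => i.D) := ⟨_, rfl⟩
  choose A0 hA0 using fun i : DatV m s => even_of_herm i.hN (Q i) (hQ i) i.D i.hD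
  have hD : D = famM A0 + (1 : ℤ) • (famM A0)ᴴ := by
    rw [one_smul, hDdef]
    refine mat_ext fun i => ?_
    exact hA0 i
  choose u hu using fun i : DatV m s => i.hu
  have hDD : D * famM (fun i => (u i)⁻¹.val) = 1 := by
    rw [hDdef]
    refine mat_ext fun i => ?_
    rw [mul_comp, one_compM, famM_comp, famM_comp, ← hu i]
    exact (u i).mul_inv
  have hDD' : famM (fun i => (u i)⁻¹.val) * D = 1 := by
    rw [hDdef]
    refine mat_ext fun i => ?_
    rw [mul_comp, one_compM, famM_comp, famM_comp, ← hu i]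
    exact (u i).inv_mul
  have hmain : UG 1 (Fin m) (∀ i : DatV m s, i.Λ) ≤ EU 1 (Fin m) (∀ i : DatV m s, i.Λ) :=
    fun g hg => BWE.main_all (N := fun i : DatV m s => i.N) (R := fun i : DatV m s => i.R)
      (fun i => i.hN) (fun i => i.az.rank) Q hQ m hm g hg
  have hE : isom (JG 1 (Fin m) D) = EG 1 (Fin m) D :=
    isom_eq_EG hε hD hDD hDD' (fun a c x w z t h =>
      reachG_of (N := fun i : DatV m s => i.N) (R := fun i : DatV m s => i.R) hEUL hn
        (fun i => i.hN) Q hQ hD a c x w z t h) hmain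
  have h1 : famU (fun i : DatV m s => i.g) ∈ isom (JG 1 (Fin m) D) := by
    rw [comp_isom_iff]
    intro i
    rw [comp_famU, JG_comp, hDdef, famM_comp]
    exact i.hg
  rw [hE] at h1
  have h2 := EG_le_GF' hε hen hD hf h1
  rw [hDdef] at h2
  generalize hX : famU (fun i : DatV m s => i.g) = X at h2
  obtain ⟨L, hL⟩ := exists_pow_of_mem_sup h2
  refine ⟨L, fun N hN R Λ _ _ _ _ _ haz hst D hD hDu => Set.Subset.antisymm ?_ fun g hg => ?_⟩
  · exact pow_subset_group inf_le_left inf_le_left L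
  · have h3 := map_mem_pow (comp (⟨N, hN, R, Λ, inferInstance, inferInstance, inferInstance,
      inferInstance, inferInstance, haz, hst, D, hD, hDu, g, hg⟩ : DatV m s))
      (fun x hx => comp_mem_UF f _ _ hx) (fun x hx => comp_mem_UF (-f) _ _ hx) L hL
    rw [← hX, comp_famU] at h3
    exact h3

/-- the pattern of a function -/
def pat {k : Type*} (f : k → ℤ) : Set (k × k) := {x | f x.1 < f x.2}

theorem U_eq_of_pat {k Λ : Type*} [DecidableEq k] [Fintype k] [Ring Λ] {f f' : k → ℤ}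
    (h : pat f = pat f') : U (Λ := Λ) f = U f' := by
  have h1 : ∀ i j, f i < f j ↔ f' i < f' j := fun i j => by
    have : (i, j) ∈ pat f ↔ (i, j) ∈ pat f' := by rw [h]
    exact this
  ext X
  exact ⟨fun hX i j hij => hX i j (fun h => hij ((h1 i j).1 h)),
    fun hX i j hij => hX i j (fun h => hij ((h1 i j).2 h))⟩

theorem pat_neg {n r : Type*} {f f' : n → ℤ} (h : pat (flF r f) = pat (flF r f')) :
    pat (flF r (-f)) = pat (flF r (-f')) := by
  have h0 : ∀ f : n → ℤ, flF r (-f) = -flF r f := by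
    intro f
    ext x
    rcases x with (x | x) | x <;> simp [flF, wt]
  rw [h0, h0]
  ext ⟨i, j⟩
  have : (j, i) ∈ pat (flF r f) ↔ (j, i) ∈ pat (flF r f') := by rw [h]
  simpa [pat] using this

/-- **bounded width**: for all `m ≥ 2` and `s` there is a number `L` such that for all `N ≥ 1`, all
quaternion Azumaya algebras over `ℤ[1/N]` with the canonical involution, all unimodular hermitian
forms `D` of rank `s` and all pairs of opposite standard parabolic subgroups of the isometry group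
of `H^m ⊥ D` this isometry group is `(U_P U_P^-)^L` -/
theorem widthV (m s : ℕ) (hm : 2 ≤ m) : ∃ L : ℕ, ∀ (N : ℕ), N ≠ 0 → ∀ (R Λ : Type) [CommRing R]
    [IsLocalization.Away (N : ℤ) R] [Ring Λ] [StarRing Λ] [Algebra R Λ],
    IsQuaternionAzumaya N R Λ → (∀ x : Λ, ∃ t : R, x + star x = algebraMap R Λ t) →
    ∀ D : Matrix (Fin s) (Fin s) Λ, Dᴴ = D → IsUnit D → ∀ f : Fin m → ℤ, f ≠ 0 →
      (PF f D) ^ L = (isom (JG 1 (Fin m) D) :
        Set (Matrix ((Fin m ⊕ Fin m) ⊕ Fin s) ((Fin m ⊕ Fin m) ⊕ Fin s) Λ)ˣ) := by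
  classical
  have hfin : Finite (Set (((Fin m ⊕ Fin m) ⊕ Fin s) × ((Fin m ⊕ Fin m) ⊕ Fin s))) := inferInstance
  have key : ∀ p : Set (((Fin m ⊕ Fin m) ⊕ Fin s) × ((Fin m ⊕ Fin m) ⊕ Fin s)), ∃ L : ℕ,
      ∀ (N : ℕ), N ≠ 0 → ∀ (R Λ : Type) [CommRing R]
    [IsLocalization.Away (N : ℤ) R] [Ring Λ] [StarRing Λ] [Algebra R Λ],
    IsQuaternionAzumaya N R Λ → (∀ x : Λ, ∃ t : R, x + star x = algebraMap R Λ t) →
    ∀ D : Matrix (Fin s) (Fin s) Λ, Dᴴ = D → IsUnit D → ∀ f : Fin m → ℤ, f ≠ 0 →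
      pat (flF (Fin s) f) = p → (PF f D) ^ L = (isom (JG 1 (Fin m) D) :
        Set (Matrix ((Fin m ⊕ Fin m) ⊕ Fin s) ((Fin m ⊕ Fin m) ⊕ Fin s) Λ)ˣ) := by
    intro p
    by_cases hp : ∃ f : Fin m → ℤ, f ≠ 0 ∧ pat (flF (Fin s) f) = p
    · obtain ⟨f, hf, hfp⟩ := hp
      obtain ⟨L, hL⟩ := width_f m s hm f hf
      refine ⟨L, fun N hN R Λ _ _ _ _ _ haz hst D hD hDu f' _ hf' => ?_⟩
      rw [← hL N hN R Λ haz hst D hD hDu]
      have h1 : pat (flF (Fin s) f') = pat (flF (Fin s) f) := by rw [hf', hfp]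
      rw [PF, PF, UF, UF, UF, UF, U_eq_of_pat h1, U_eq_of_pat (pat_neg h1)]
    · exact ⟨0, fun N hN R Λ _ _ _ _ _ haz hst D hD hDu f' hf0 hf' => absurd ⟨f', hf0, hf'⟩ hp⟩
  choose L hL using key
  obtain ⟨B, hB⟩ := (Set.finite_range L).bddAbove
  refine ⟨B, fun N hN R Λ _ _ _ _ _ haz hst D hD hDu f hf => ?_⟩
  have h1 := hL (pat (flF (Fin s) f)) N hN R Λ haz hst D hD hDu f hf rfl
  have h2 : L (pat (flF (Fin s) f)) ≤ B := hB ⟨_, rfl⟩
  refine Set.Subset.antisymm (pow_subset_group inf_le_left inf_le_left B) ?_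
  rw [← h1]
  refine Set.pow_subset_pow_right ?_ h2
  exact ⟨1, one_mem _, 1, one_mem _, one_mul _⟩

/-- the final form: the elementary subgroup is the whole isometry group and has bounded width -/
theorem main : ∃ L : ℕ → ℕ → ℕ, ∀ m s : ℕ, 2 ≤ m → ∀ N : ℕ, N ≠ 0 → ∀ (R Λ : Type) [CommRing R]
    [IsLocalization.Away (N : ℤ) R] [Ring Λ] [StarRing Λ] [Algebra R Λ],
    IsQuaternionAzumaya N R Λ → (∀ x : Λ, ∃ t : R, x + star x = algebraMap R Λ t) →
    ∀ D : Matrix (Fin s) (Fin s) Λ, Dᴴ = D → IsUnit D → ∀ f : Fin m → ℤ, f ≠ 0 →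
      UF 1 f D ⊔ UF 1 (-f) D = isom (JG 1 (Fin m) D) ∧
      ((UF 1 f D : Set (Matrix ((Fin m ⊕ Fin m) ⊕ Fin s) ((Fin m ⊕ Fin m) ⊕ Fin s) Λ)ˣ) *
        (UF 1 (-f) D : Set (Matrix ((Fin m ⊕ Fin m) ⊕ Fin s) ((Fin m ⊕ Fin m) ⊕ Fin s) Λ)ˣ)) ^
          L m s = (isom (JG 1 (Fin m) D) :
        Set (Matrix ((Fin m ⊕ Fin m) ⊕ Fin s) ((Fin m ⊕ Fin m) ⊕ Fin s) Λ)ˣ) := by
  have key : ∀ m s : ℕ, ∃ L : ℕ, 2 ≤ m → ∀ (N : ℕ), N ≠ 0 → ∀ (R Λ : Type) [CommRing R]
      [IsLocalization.Away (N : ℤ) R] [Ring Λ] [StarRing Λ] [Algebra R Λ],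
      IsQuaternionAzumaya N R Λ → (∀ x : Λ, ∃ t : R, x + star x = algebraMap R Λ t) →
      ∀ D : Matrix (Fin s) (Fin s) Λ, Dᴴ = D → IsUnit D → ∀ f : Fin m → ℤ, f ≠ 0 →
        (PF f D) ^ L = (isom (JG 1 (Fin m) D) :
          Set (Matrix ((Fin m ⊕ Fin m) ⊕ Fin s) ((Fin m ⊕ Fin m) ⊕ Fin s) Λ)ˣ) := by
    intro m s
    by_cases hm : 2 ≤ m
    · obtain ⟨L, hL⟩ := widthV m s hm
      exact ⟨L, fun _ => hL⟩
    · exact ⟨0, fun h => absurd h hm⟩
  choose L hL using key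
  refine ⟨L, fun m s hm N hN R Λ _ _ _ _ _ haz hst D hD hDu f hf => ?_⟩
  have h1 := hL m s hm N hN R Λ haz hst D hD hDu f hf
  refine ⟨le_antisymm (sup_le inf_le_left inf_le_left) ?_, h1⟩
  have h2 := pow_subset_group (A := UF 1 f D) (B := UF 1 (-f) D)
    (C := UF 1 f D ⊔ UF 1 (-f) D) le_sup_left le_sup_right (L m s)
  intro g hg
  have h3 : g ∈ (PF f D) ^ L m s := by rw [h1]; exact hg
  exact h2 h3

end Final

end BWC
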