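import Pool.Agent.BW.Comp
import Pool.Agent.BW.Choice

/-!
# Hyperbolic quaternion-unitary groups: primitive vectors on lines
-/

set_option linter.unusedSectionVars false

namespace BWC

open BW

theorem exists_coprime_shift {R : Type*} [CommRing R] [IsDomain R] [IsPrincipalIdealRing R]
    (γ : R) : γ ≠ 0 → ∀ α κ : R, (∀ p, Prime p → p ∣ γ → ¬ (p ∣ α ∧ p ∣ κ)) →
      ∃ t, IsCoprime (α + t * κ) γ := by
  refine UniqueFactorizationMonoid.induction_on_prime
    (P := fun γ => γ ≠ 0 → ∀ α κ : R, (∀ p, Prime p → p ∣ γ → ¬ (p ∣ α ∧ p ∣ κ)) →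
      ∃ t, IsCoprime (α + t * κ) γ) γ (fun h => absurd rfl h) ?_ ?_
  · intro x hx _ α κ _
    obtain ⟨y, hy⟩ := hx.exists_left_inv
    exact ⟨0, 0, y, by rw [hy]; ring⟩
  · intro a p ha hp ih _ α κ h
    obtain ⟨t, ht⟩ := ih ha α κ fun q hq hqa => h q hq (hqa.mul_left p)
    by_cases hd : p ∣ α + t * κ
    · have hk : ¬ p ∣ κ := fun hk => by
        refine h p hp (dvd_mul_right p a) ⟨?_, hk⟩
        have := dvd_sub hd (hk.mul_left t)
        rwa [add_sub_cancel_right] at this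
      have hpa : ¬ p ∣ a := fun hpa => hp.not_isUnit (ht.isUnit_of_dvd' hd hpa)
      refine ⟨t + a, ?_⟩
      have e : α + (t + a) * κ = α + t * κ + a * κ := by ring
      rw [e]
      refine IsCoprime.mul_right ?_ (IsCoprime.add_mul_left_left ht κ)
      refine isCoprime_comm.1 ((hp.irreducible.coprime_iff_not_dvd).2 fun hdd => ?_)
      have h1 := dvd_sub hdd hd
      rw [add_sub_cancel_left] at h1
      rcases hp.dvd_or_dvd h1 with h2 | h2
      · exact hpa h2
      · exact hk h2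
    · exact ⟨t, IsCoprime.mul_right (isCoprime_comm.1 ((hp.irreducible.coprime_iff_not_dvd).2 hd))
        ht⟩

section

variable {N : ℕ} {R Λ : Type*} [CommRing R] [IsLocalization.Away (N : ℤ) R] [Ring Λ] [Algebra R Λ]
  [Module.Free R Λ] [Module.Finite R Λ]

/-- a prime element divides a natural prime which does not divide `N`, up to units -/
theorem exists_nat_prime (hN : N ≠ 0) {π : R} (hπ : Prime π) :
    ∃ p : ℕ, p.Prime ∧ ¬ p ∣ N ∧ (p : R) ∣ π := by
  have := Loc.charZero N R hN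
  obtain ⟨u, m, hm, hmN, h⟩ := Loc.exists_unit_mul hN hπ.ne_zero
  have h1 : m ≠ 1 := by
    rintro rfl
    apply hπ.not_isUnit
    rw [h]; simp
  obtain ⟨p, hp, hpm⟩ := Nat.exists_prime_and_dvd h1
  refine ⟨p, hp, fun hpN => ?_, ?_⟩
  · exact hp.one_lt.ne' (Nat.eq_one_of_dvd_coprimes hmN hpm hpN)
  · rw [h]
    exact Dvd.dvd.mul_left (by exact_mod_cast Nat.cast_dvd_cast hpm) _

/-- if `v, w` are linearly independent and not both divisible by any prime then `v + t w` is
primitive for all `t` in a residue class (so `t` can also avoid finitely many values) -/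
theorem prim_line (hN : N ≠ 0) (Q : QAlg N R Λ) (v w : Λ)
    (hvw : ∀ p : ℕ, p.Prime → ¬ p ∣ N → ¬ ((∃ y, v = (p : Λ) * y) ∧ ∃ y, w = (p : Λ) * y))
    (hind : ∀ α β : R, α • v + β • w = 0 → α = 0 ∧ β = 0) :
    ∃ t0 d : R, d ≠ 0 ∧ ∀ τ : R, ∃ c, Q.T ((v + (t0 + d * τ) • w) * c) = 1 := by
  have hD := Loc.isDomain N R hN
  have hP := Loc.isPrincipalIdealRing N R
  have hw : w ≠ 0 := by
    rintro rfl
    exact one_ne_zero (hind 0 1 (by simp)).2
  obtain ⟨κ, w0, f, hκ, hw0, hf⟩ := BW.content (R := R) w hw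
  set α := f v with hα
  have hv' : v - α • w0 ≠ 0 := by
    intro h0
    have h1 : κ • v + (-α) • w = 0 := by
      rw [hw0, smul_smul, sub_eq_zero.1 h0, smul_smul, ← add_smul]
      have : κ * α + -α * κ = 0 := by ring
      rw [this, zero_smul]
    exact hκ (hind _ _ h1).1
  obtain ⟨γ, v0, g, hγ, hv0, hg⟩ := BW.content (R := R) (v - α • w0) hv'
  have hfv0 : f v0 = 0 := by
    have h1 : γ * f v0 = 0 := by
      rw [← smul_eq_mul, ← map_smul, ← hv0, map_sub, map_smul, hf, smul_eq_mul, mul_one, ← hα,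
        sub_self]
    exact (mul_eq_zero.1 h1).resolve_left hγ
  have hv : v = α • w0 + γ • v0 := by rw [← hv0]; abel
  -- the two coordinates
  set g' : Λ →ₗ[R] R := g - g w0 • f with hg'
  have hg'w : g' w0 = 0 := by
    rw [hg', LinearMap.sub_apply, LinearMap.smul_apply, hf, smul_eq_mul, mul_one, sub_self]
  have hg'v : g' v0 = 1 := by
    rw [hg', LinearMap.sub_apply, LinearMap.smul_apply, hfv0, smul_zero, sub_zero, hg]
  obtain ⟨t0, ht0⟩ := exists_coprime_shift γ hγ α κ (fun π hπ hπγ hc => by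
    obtain ⟨p, hp, hpN, hpπ⟩ := exists_nat_prime hN hπ
    refine hvw p hp hpN ⟨?_, ?_⟩
    · obtain ⟨x, hx⟩ := hpπ.trans hc.1
      obtain ⟨y, hy⟩ := hpπ.trans hπγ
      refine ⟨x • w0 + y • v0, ?_⟩
      rw [hv, hx, hy, mul_smul, mul_smul, ← smul_add, Algebra.smul_def (p : R), map_natCast]
    · obtain ⟨x, hx⟩ := hpπ.trans hc.2
      refine ⟨x • w0, ?_⟩
      rw [hw0, hx, mul_smul, Algebra.smul_def (p : R), map_natCast])
  refine ⟨t0, γ, hγ, fun τ => ?_⟩
  have h2 : IsCoprime (α + (t0 + γ * τ) * κ) γ := by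
    have := IsCoprime.add_mul_left_left ht0 (τ * κ)
    have e : α + (t0 + γ * τ) * κ = α + t0 * κ + γ * (τ * κ) := by ring
    rw [e]; exact this
  obtain ⟨x, y, hxy⟩ := h2
  obtain ⟨c, hc⟩ := Q.unimod (x • f + y • g')
  refine ⟨c, ?_⟩
  rw [← hc, LinearMap.add_apply, LinearMap.smul_apply, LinearMap.smul_apply]
  have e1 : v + (t0 + γ * τ) • w = (α + (t0 + γ * τ) * κ) • w0 + γ • v0 := by
    rw [hv, hw0]; module
  rw [e1, map_add, map_add, map_smul, map_smul, map_smul, map_smul, hf, hfv0, hg'w, hg'v]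
  simp only [smul_eq_mul, mul_zero, mul_one, add_zero, zero_add]
  exact hxy

/-- an element of norm zero modulo `p` is not a unit: `1` is not divisible by `p` -/
theorem one_not_dvd (Q : QAlg N R Λ) {p : ℕ} (hp : p.Prime) (hpN : ¬ p ∣ N) (y : Λ) :
    (1 : Λ) ≠ (p : Λ) * y := by
  intro h
  have := Fact.mk hp
  obtain ⟨ρ, -, -, -⟩ := Q.fibre p hp hpN
  have h1 := congrArg ρ h
  rw [map_one, map_mul, map_natCast] at h1
  have h2 := congrFun (congrFun h1 0) 0
  rw [← Matrix.diagonal_natCast, Matrix.diagonal_mul] at h2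
  simp at h2

theorem smul_right_cancel (hN : N ≠ 0) {c : R} (hc : c ≠ 0) {x y : Λ} (h : c • x = c • y) :
    x = y := by
  have hD := Loc.isDomain N R hN
  have hP := Loc.isPrincipalIdealRing N R
  exact smul_right_injective Λ hc h

/-- right multiplication by an element of non-zero norm is injective -/
theorem mul_right_cancel_of_n (hN : N ≠ 0) (Q : QAlg N R Λ) {a : Λ} (ha : Q.n a ≠ 0) {x : Λ}
    (h : x * a = 0) : x = 0 := by
  refine smul_right_cancel hN ha ?_
  rw [smul_zero, Algebra.smul_def, Algebra.commutes, ← Q.mul_conj, ← mul_assoc, h, zero_mul]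

theorem prim_pair (hN : N ≠ 0) (Q : QAlg N R Λ) (a0 a1 u v : Λ) (h0 : Q.n a0 ≠ 0)
    (h : u * a0 + v * a1 = 1) :
    ∃ y t : Λ, ∃ c, Q.T ((a0 + t * (a1 + y * a0)) * c) = 1 := by
  have hD := Loc.isDomain N R hN
  have hP := Loc.isPrincipalIdealRing N R
  have hC := Loc.charZero N R hN
  have ha0 : a0 ≠ 0 := Q.ne_zero_of_n h0
  -- independence of `a0` and `a1 + y a0` for some `y`
  suffices hy : ∃ y : Λ, ∀ α β : R, α • a0 + β • (a1 + y * a0) = 0 → α = 0 ∧ β = 0 by
    obtain ⟨y, hy⟩ := hy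
    obtain ⟨t0, d, -, ht⟩ := prim_line hN Q a0 (a1 + y * a0) (fun p hp hpN hc => by
      obtain ⟨⟨y1, h1⟩, y2, h2⟩ := hc
      refine one_not_dvd Q hp hpN (u * y1 + v * y2 - v * y * y1) ?_
      have hpc : ∀ z : Λ, z * (p : Λ) = (p : Λ) * z := fun z => (Nat.cast_commute p z).symm
      calc (1 : Λ) = u * a0 + v * (a1 + y * a0) - v * y * a0 := by rw [← h]; noncomm_ring
        _ = u * ((p : Λ) * y1) + v * ((p : Λ) * y2) - v * y * ((p : Λ) * y1) := by
            rw [h2, ← h1]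
        _ = _ := by
            rw [← mul_assoc u, ← mul_assoc v, ← mul_assoc (v * y), hpc u, hpc v, hpc (v * y)]
            noncomm_ring) hy
    obtain ⟨c, hc⟩ := ht 0
    exact ⟨y, algebraMap R Λ (t0 + d * 0), c, by rw [← Algebra.smul_def]; exact hc⟩
  by_cases hdep : ∀ α β : R, α • a0 + β • (a1 + 0 * a0) = 0 → α = 0 ∧ β = 0
  · exact ⟨0, hdep⟩
  push Not at hdep
  obtain ⟨α, β, h1, h2⟩ := hdep
  rw [zero_mul, add_zero] at h1
  have hβ : β ≠ 0 := by
    rintro rfl
    rw [zero_smul, add_zero] at h1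
    have : α = 0 := by
      by_contra hα
      exact ha0 (smul_right_cancel hN hα (by rw [h1, smul_zero]))
    exact h2 this rfl
  obtain ⟨y, z, hyz⟩ := Q.exists_comm hN
  refine ⟨y, fun α' β' h3 => ?_⟩
  -- `β β' y` is a scalar
  have h4 : (β * β') • y = algebraMap R Λ (α * β' - β * α') := by
    rw [← sub_eq_zero]
    refine mul_right_cancel_of_n hN Q h0 ?_
    rw [sub_mul, smul_mul_assoc, ← Algebra.smul_def]
    have e1 : β • (α' • a0 + β' • (a1 + y * a0)) - β' • (α • a0 + β • a1) =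
        (β * β') • (y * a0) - (α * β' - β * α') • a0 := by module
    rw [← e1, h3, h1, smul_zero, smul_zero, sub_zero]
  have h5 : (β * β') • (y * z - z * y) = 0 := by
    rw [smul_sub, ← smul_mul_assoc, h4, ← mul_smul_comm, h4, Algebra.commutes, sub_self]
  have hβ' : β' = 0 := by
    by_contra hβ'
    have h6 : y * z - z * y = 0 :=
      smul_right_cancel hN (mul_ne_zero hβ hβ') (by rw [h5, smul_zero])
    rw [h6, QAlg.n_zero] at hyz
    exact hyz rfl
  refine ⟨?_, hβ'⟩
  rw [hβ', zero_smul, add_zero] at h3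
  by_contra hα'
  exact ha0 (smul_right_cancel hN hα' (by rw [h3, smul_zero]))

end

end BWC
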