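import Pool.Agent.BWC.Grp

/-!
# Bounded width, type `C`: the basic relation between symbols
-/

namespace BWC

open Matrix
open BW hiding star

/-- a point -/
def pt {n : Type*} (x : n) : Unit ↪ n := ⟨fun _ => x, fun _ _ _ => rfl⟩

@[simp] theorem pt_apply {n : Type*} (x : n) (u : Unit) : pt x u = x := rfl

theorem embU_pt_val {n P : Type*} [DecidableEq n] [Fintype n] [Ring P] (x : n)
    (g : (Matrix (Unit ⊕ Unit) (Unit ⊕ Unit) P)ˣ) :
    (embU (pt x) g).val = Matrix.fromBlocks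
      (1 + Matrix.single x x (g.val (Sum.inl ()) (Sum.inl ()) - 1))
      (Matrix.single x x (g.val (Sum.inl ()) (Sum.inr ())))
      (Matrix.single x x (g.val (Sum.inr ()) (Sum.inl ())))
      (1 + Matrix.single x x (g.val (Sum.inr ()) (Sum.inr ()) - 1)) := by
  change Pool.Agent.Helper24.BWR.emb ((pt x).sumMap (pt x)) g.val = _
  rw [Pool.Agent.Helper24.BWR.emb_apply]
  ext i j
  rcases i with i | i <;> rcases j with j | j <;>
    by_cases hi : i = x <;> by_cases hj : j = x <;>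
    simp [Pool.Agent.Helper24.BWR.pm, Pool.Agent.Helper24.BWR.qm, Matrix.mul_apply,
      Fintype.sum_sum_type, Matrix.single_apply, hi, hj, Matrix.one_apply, @eq_comm _ x]


section Rel

variable {ε : ℤ} {P : Type*} [Ring P] [StarRing P]

theorem fin2_pt_zero (x : P) :
    (1 + Matrix.single (0 : Fin 2) 0 (x - 1) : Matrix (Fin 2) (Fin 2) P) = !![x, 0; 0, 1] := by
  ext i j
  fin_cases i <;> fin_cases j <;> simp

theorem fin2_pt_one (x : P) :
    (1 + Matrix.single (1 : Fin 2) 1 (x - 1) : Matrix (Fin 2) (Fin 2) P) = !![1, 0; 0, x] := by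
  ext i j
  fin_cases i <;> fin_cases j <;> simp

theorem fin2_single_zero (x : P) :
    (Matrix.single (0 : Fin 2) 0 x : Matrix (Fin 2) (Fin 2) P) = !![x, 0; 0, 0] := by
  ext i j
  fin_cases i <;> fin_cases j <;> simp

theorem fin2_single_one (x : P) :
    (Matrix.single (1 : Fin 2) 1 x : Matrix (Fin 2) (Fin 2) P) = !![0, 0; 0, x] := by
  ext i j
  fin_cases i <;> fin_cases j <;> simp

theorem fin2_el (x y : P) :
    (el (1 : Fin 2) 0 (by decide) x * el (0 : Fin 2) 1 (by decide) y).val =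
      !![1, y; x, 1 + x * y] := by
  rw [Units.val_mul, el_val, el_val]
  ext i j
  fin_cases i <;> fin_cases j <;> simp [Matrix.mul_apply, Fin.sum_univ_two, add_comm]

/-- the isotropy of the first column -/
theorem isotropy {g : (Matrix (Unit ⊕ Unit) (Unit ⊕ Unit) P)ˣ} (hg : g ∈ UG ε Unit P) :
    star (g.val (Sum.inl ()) (Sum.inl ())) * g.val (Sum.inr ()) (Sum.inl ()) +
      ε • (star (g.val (Sum.inr ()) (Sum.inl ())) * g.val (Sum.inl ()) (Sum.inl ())) = 0 := by
  have hb : g.val = Matrix.fromBlocks g.val.toBlocks₁₁ g.val.toBlocks₁₂ g.val.toBlocks₂₁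
    g.val.toBlocks₂₂ := (Matrix.fromBlocks_toBlocks _).symm
  obtain ⟨h1, -, -, -⟩ := (mem_UG_blocks hb).1 hg
  have e1 := congrFun (congrFun h1 ()) ()
  simpa [-zsmul_eq_mul, Matrix.mul_apply, Matrix.toBlocks₁₁, Matrix.toBlocks₂₁] using e1

theorem rel (hε : ε * ε = 1) 
    (A : (Matrix (Fin 2) (Fin 2) P)ˣ) (g g' : (Matrix (Unit ⊕ Unit) (Unit ⊕ Unit) P)ˣ)
    (hg : g ∈ UG ε Unit P) (hg' : g' ∈ UG ε Unit P)
    (ha : g.val (Sum.inl ()) (Sum.inl ()) = A.val 0 0)
    (ha' : g'.val (Sum.inl ()) (Sum.inl ()) = A⁻¹.val 1 1)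
    (hc : g'.val (Sum.inr ()) (Sum.inl ()) =
      star (A.val 0 1) * g.val (Sum.inr ()) (Sum.inl ()) * (-A⁻¹.val 0 1)) :
    ∃ e₁ ∈ EUL ε (Fin 2) P, ∃ e₂ ∈ EUL ε (Fin 2) P,
      embU (pt 0) g = lev A * e₁ * embU (pt 1) g' * e₂ := by
  obtain ⟨⟨r1, r2⟩, ⟨r3, r4⟩⟩ := row_col A
  have hiso := isotropy hg
  have hv := embU_pt_val (0 : Fin 2) g
  have hv' := embU_pt_val (1 : Fin 2) g'
  rw [ha] at hiso hv
  rw [ha', hc] at hv'
  set a := A.val 0 0 with hadef
  set b := A.val 0 1 with hbdef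
  set e := A.val 1 0 with hedef
  set d := A.val 1 1 with hddef
  set bs := -A⁻¹.val 0 1 with hbs
  set as := A⁻¹.val 1 1 with has
  set c := g.val (Sum.inr ()) (Sum.inl ()) with hcdef
  have hbs' : A⁻¹.val 0 1 = -bs := by rw [hbs, neg_neg]
  have r2' : b * as = a * bs := by
    rw [hbs', mul_neg, neg_add_eq_zero] at r2
    exact r2.symm
  have r4' : d * as = 1 + e * bs := by
    rw [hbs', mul_neg, neg_add_eq_iff_eq_add] at r4
    rw [r4, add_comm]
  have hiso' : star c * a = -(ε • (star a * c)) := by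
    have h1 : ε • (star a * c + ε • (star c * a)) = 0 := by rw [hiso, smul_zero]
    rw [smul_add, smul_smul, hε, one_smul] at h1
    exact eq_neg_of_add_eq_zero_right h1
  let C : Matrix (Fin 2) (Fin 2) P := !![-(star a * c), ε • (star c * b); -(star b * c), 0]
  have hC : Sk ε C := by
    unfold Sk
    ext i j
    fin_cases i <;> fin_cases j
    · simp [C]
      rw [hiso']
      simp
    · simp [C]
      rw [← mul_assoc (ε : P), ← Int.cast_mul, hε]; simp
    · simp [C]
      exact ((Int.cast_commute ε (star b * c)).eq).symm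
    · simp [C]
  let E : (Matrix (Fin 2) (Fin 2) P)ˣ :=
    el (1 : Fin 2) 0 (by decide) e * el (0 : Fin 2) 1 (by decide) bs
  have hE : E ∈ BW.E (Fin 2) P := mul_mem (el_mem _ _ _ _) (el_mem _ _ _ _)
  let X := lo C * (lev A)⁻¹ * embU (pt 0) g * lev E
  have hX : X ∈ UG ε (Fin 2) P := mul_mem (mul_mem (mul_mem (lo_mem_UG hε hC)
    (inv_mem (lev_mem_UG A))) (embU_mem_UG _ hg)) (lev_mem_UG E)
  have key : X⁻¹ * embU (pt 1) g' ∈ UP ε (Fin 2) P := by
    refine same_cols hX (embU_mem_UG _ hg') ?_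
    have hA1 : A⁻¹.val * A.val = 1 := by rw [← Units.val_mul, inv_mul_cancel, Units.val_one]
    have hEv : E.val = !![1, bs; e, 1 + e * bs] := fin2_el e bs
    have hAv : A.val = !![a, b; e, d] := by
      ext i j
      fin_cases i <;> fin_cases j <;> rfl
    have hGE : (!![a, 0; 0, 1] : Matrix (Fin 2) (Fin 2) P) * E.val = A.val * !![1, 0; 0, as] := by
      rw [hEv, hAv, Matrix.mul_fin_two, Matrix.mul_fin_two]
      simp [r2', r4']
    have hcE : A.valᴴ * ((!![c, 0; 0, 0] : Matrix (Fin 2) (Fin 2) P) * E.val) =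
        !![star a * c, star a * c * bs; star b * c, star b * c * bs] := by
      rw [hEv, hAv, Matrix.mul_fin_two]
      ext i j
      fin_cases i <;> fin_cases j <;> simp [Matrix.mul_apply, Fin.sum_univ_two, mul_assoc]
    have hCd : C * (!![1, 0; 0, as] : Matrix (Fin 2) (Fin 2) P) =
        !![-(star a * c), -(star a * c * bs); -(star b * c), 0] := by
      have h1 : (ε • (star c * b)) * as = -(star a * c * bs) := by
        rw [smul_mul_assoc, mul_assoc, r2', ← mul_assoc, hiso', neg_mul, smul_mul_assoc,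
          smul_neg, smul_smul, hε, one_smul]
      simp only [C]
      rw [Matrix.mul_fin_two, h1]
      simp
    have hinv : ((lev A)⁻¹).val = Matrix.fromBlocks A⁻¹.val 0 0 (A.val)ᴴ := rfl
    have hX1 : X.val = (lo C).val * ((lev A)⁻¹).val * (embU (pt 0) g).val * (lev E).val := rfl
    rw [hv, lo_val, hinv, lev_val, fin2_pt_zero, fin2_single_zero, fin2_single_zero,
      fin2_pt_zero, Matrix.fromBlocks_multiply, Matrix.fromBlocks_multiply,
      Matrix.fromBlocks_multiply] at hX1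
    have t1 : A⁻¹.val * (!![a, 0; 0, 1] : Matrix (Fin 2) (Fin 2) P) * E.val =
        !![1, 0; 0, as] := by
      rw [Matrix.mul_assoc, hGE, ← Matrix.mul_assoc, hA1, Matrix.one_mul]
    have t2 : (C * A⁻¹.val * (!![a, 0; 0, 1] : Matrix (Fin 2) (Fin 2) P) +
        A.valᴴ * (!![c, 0; 0, 0] : Matrix (Fin 2) (Fin 2) P)) * E.val =
        !![0, 0; 0, star b * c * bs] := by
      rw [Matrix.add_mul, Matrix.mul_assoc C, Matrix.mul_assoc C, t1, hCd, Matrix.mul_assoc A.valᴴ,
        hcE]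
      ext i j
      fin_cases i <;> fin_cases j <;> simp
    intro x j
    rw [hX1, hv']
    rcases x with x | x
    · rw [Matrix.fromBlocks_apply₁₁, Matrix.fromBlocks_apply₁₁, fin2_pt_one]
      simp only [Matrix.mul_zero, Matrix.zero_mul, add_zero, zero_add, Matrix.one_mul]
      rw [t1]
    · rw [Matrix.fromBlocks_apply₂₁, Matrix.fromBlocks_apply₂₁, fin2_single_one (star b * c * bs)]
      simp only [Matrix.mul_zero, Matrix.zero_mul, add_zero, zero_add, Matrix.one_mul]
      rw [t2]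
  refine ⟨(lo C)⁻¹, inv_mem (EU_le_EUL (lo_mem hC)), (X⁻¹ * embU (pt 1) g')⁻¹ * (lev E)⁻¹,
    mul_mem (inv_mem (EU_le_EUL (Subgroup.mem_sup_left key))) (inv_mem (lev_mem hE)), ?_⟩
  simp only [X]
  group

end Rel

end BWC
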