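import Pool.Agent.BWC.Basic
import Pool.Agent.BWC.Rel
import Pool.Agent.BWC.Cong
import Pool.Agent.BW.PhiP
import Pool.Agent.BW.Choice

/-!
# Bounded width, type `C`: the `T`-claim

Every isometry of one hyperbolic plane whose first column is `(r, c)` with `r` central and `c` pure
is elementary in three planes (product rings).
-/

namespace BWC

open Matrix
open BW hiding star

/-! ### reduction modulo primes -/

section Rho

variable {N : ℕ} {R Λ : Type*} [CommRing R] [IsLocalization.Away (N : ℤ) R] [Ring Λ] [Algebra R Λ]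
  (Q : QAlg N R Λ) {p : ℕ} (hp : p.Prime) (hpN : ¬ p ∣ N)
  (ρ : Λ →+* Matrix (Fin 2) (Fin 2) (ZMod p))
  (hρ : ∀ y, ρ (algebraMap R Λ (Q.n y)) = (ρ y).det • (1 : Matrix (Fin 2) (Fin 2) (ZMod p)))

include hρ in
theorem trace_rho (x : Λ) : (ρ x).trace = Loc.phi N R hp hpN (Q.T x) := by
  have h1 := Choice.det_rho Q hp hpN ρ hρ (x + 1)
  have h2 := Choice.det_rho Q hp hpN ρ hρ x
  rw [Q.n_add, Q.conj_one, mul_one, Q.n_one, map_add, map_add, map_add, map_one, map_one, ← h2,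
    Matrix.det_fin_two, Matrix.det_fin_two] at h1
  rw [Matrix.trace_fin_two]
  simp at h1
  linear_combination h1

include hp hpN hρ in
theorem rho_conj_adj (x : Λ) : ρ (Q.conj x) = (ρ x).adjugate := by
  rw [Q.conj_eq, map_sub, Choice.rho_algebraMap hp hpN, ← trace_rho Q hp hpN ρ hρ,
    Matrix.adjugate_fin_two, Matrix.trace_fin_two]
  ext i j
  fin_cases i <;> fin_cases j <;> simp

end Rho

/-! ### squares in `𝔽_p` -/

theorem exists_sq {p : ℕ} [Fact p.Prime] (hp : p ≠ 2) {a b : ZMod p} (ha : a ≠ 0) (hb : b ≠ 0)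
    (h : IsSquare a ↔ IsSquare b) : ∃ t : ZMod p, t ≠ 0 ∧ b = t ^ 2 * a := by
  have h1 : IsSquare (b * a) := by
    by_cases hs : IsSquare a
    · exact (h.1 hs).mul hs
    · have hs' : ¬ IsSquare b := fun h' => hs (h.2 h')
      have hF : ringChar (ZMod p) ≠ 2 := by rwa [ZMod.ringChar_zmod_n]
      have e1 := (quadraticChar_neg_one_iff_not_isSquare (F := ZMod p)).2 hs
      have e2 := (quadraticChar_neg_one_iff_not_isSquare (F := ZMod p)).2 hs'
      have e3 : quadraticChar (ZMod p) (b * a) = 1 := by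
        rw [map_mul, e1, e2]; norm_num
      exact (quadraticChar_one_iff_isSquare (mul_ne_zero hb ha)).1 e3
  obtain ⟨s, hs⟩ := h1
  have hs0 : s ≠ 0 := by
    rintro rfl
    rw [mul_zero] at hs
    exact mul_ne_zero hb ha hs
  refine ⟨s / a, div_ne_zero hs0 ha, ?_⟩
  field_simp
  rw [pow_two, ← hs]

/-! ### the matrices over the product ring -/

section Y

variable {ι : Type*} {N : ι → ℕ} {R Λ : ι → Type*} [∀ i, CommRing (R i)] [∀ i, Ring (Λ i)]
  [∀ i, Algebra (R i) (Λ i)] (Q : ∀ i, QAlg (N i) (R i) (Λ i))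

/-- `1 × 1` matrices -/
def cst {P : Type*} (x : P) : Matrix Unit Unit P := fun _ _ => x

theorem cst_mul {P : Type*} [Ring P] (x y : P) : cst x * cst y = cst (x * y) := by
  ext i j; simp [cst, Matrix.mul_apply]

theorem cst_add {P : Type*} [Ring P] (x y : P) : cst x + cst y = cst (x + y) := by
  ext i j; simp [cst]

theorem cst_one {P : Type*} [Ring P] : (cst (1 : P)) = 1 := by
  ext i j; simp [cst]

theorem cst_zero {P : Type*} [Ring P] : (cst (0 : P)) = 0 := by
  ext i j; simp [cst]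

theorem cst_conjTranspose {P : Type*} [Ring P] [StarRing P] (x : P) :
    (cst x)ᴴ = cst (star x) := rfl

theorem cst_apply {P : Type*} (x : P) (i j : Unit) : cst x i j = x := rfl

theorem pure_mul_self {c : ∀ i, Λ i} (hc : ∀ i, (Q i).T (c i) = 0) :
    c * c = -cen (nn Q c) := by
  funext i
  have h := (Q i).mul_conj (c i)
  have h2 := (Q i).add_conj (c i)
  rw [hc i, map_zero] at h2
  rw [eq_neg_of_add_eq_zero_right h2, mul_neg] at h
  exact neg_eq_iff_eq_neg.1 h

/-- the isometry `[[r, α c], [c, β]]`, `r` central, `c` pure -/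
def ym (c : ∀ i, Λ i) (r α β : ∀ i, R i) (hc : ∀ i, (Q i).T (c i) = 0)
    (h : α * nn Q c + β * r = 1) : (Matrix (Unit ⊕ Unit) (Unit ⊕ Unit) (∀ i, Λ i))ˣ where
  val := Matrix.fromBlocks (cst (cen r)) (cst (cen α * c)) (cst c) (cst (cen β))
  inv := Matrix.fromBlocks (cst (cen β)) (cst (-(cen α * c))) (cst (-c)) (cst (cen r))
  val_inv := by
    have h1 : (cen (α * nn Q c) + cen (β * r) : ∀ i, Λ i) = 1 := by
      rw [← cen_add, h, cen_one]
    have e0 := pure_mul_self Q hc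
    have e1 : cen r * cen β + cen α * c * -c = 1 := by
      rw [mul_neg, mul_assoc, e0, mul_neg, neg_neg, ← cen_mul, ← cen_mul, mul_comm r β, add_comm,
        h1]
    have e2 : cen r * -(cen α * c) + cen α * c * cen r = 0 := by
      rw [mul_neg, cen_comm r, neg_add_cancel]
    have e3 : c * cen β + cen β * -c = 0 := by
      rw [mul_neg, cen_comm β, add_neg_cancel]
    have e4 : c * -(cen α * c) + cen β * cen r = 1 := by
      rw [mul_neg, ← mul_assoc, ← cen_comm α, mul_assoc, e0, mul_neg, neg_neg, ← cen_mul,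
        ← cen_mul, h1]
    rw [Matrix.fromBlocks_multiply, cst_mul, cst_mul, cst_mul, cst_mul, cst_mul, cst_mul, cst_mul,
      cst_mul, cst_add, cst_add, cst_add, cst_add, e1, e2, e3, e4, cst_one, cst_zero,
      Matrix.fromBlocks_one]
  inv_val := by
    have h1 : (cen (α * nn Q c) + cen (β * r) : ∀ i, Λ i) = 1 := by
      rw [← cen_add, h, cen_one]
    have e0 := pure_mul_self Q hc
    have e1 : cen β * cen r + -(cen α * c) * c = 1 := by
      rw [neg_mul, mul_assoc, e0, mul_neg, neg_neg, ← cen_mul, ← cen_mul, add_comm, h1]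
    have e2 : cen β * (cen α * c) + -(cen α * c) * cen β = 0 := by
      rw [neg_mul, cen_comm β, add_neg_cancel]
    have e3 : -c * cen r + cen r * c = 0 := by
      rw [neg_mul, cen_comm r, neg_add_cancel]
    have e4 : -c * (cen α * c) + cen r * cen β = 1 := by
      rw [neg_mul, ← mul_assoc, ← cen_comm α, mul_assoc, e0, mul_neg, neg_neg, ← cen_mul,
        ← cen_mul, mul_comm r, h1]
    rw [Matrix.fromBlocks_multiply, cst_mul, cst_mul, cst_mul, cst_mul, cst_mul, cst_mul, cst_mul,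
      cst_mul, cst_add, cst_add, cst_add, cst_add, e1, e2, e3, e4, cst_one, cst_zero,
      Matrix.fromBlocks_one]

variable [∀ i, StarRing (Λ i)] (hQ : ∀ i x, star x = (Q i).conj x)

include hQ in
theorem star_cen (r : ∀ i, R i) : star (cen r : ∀ i, Λ i) = cen r := by
  funext i
  change star (algebraMap (R i) (Λ i) (r i)) = _
  rw [hQ, (Q i).conj_algebraMap]; rfl

include hQ in
theorem star_pure {c : ∀ i, Λ i} (hc : ∀ i, (Q i).T (c i) = 0) : star c = -c := by
  funext i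
  change star (c i) = -(c i)
  rw [hQ, (Q i).conj_eq, hc i, map_zero, zero_sub]

include hQ in
theorem ym_mem_UG (c : ∀ i, Λ i) (r α β : ∀ i, R i) (hc : ∀ i, (Q i).T (c i) = 0)
    (h : α * nn Q c + β * r = 1) : ym Q c r α β hc h ∈ UG 1 Unit (∀ i, Λ i) := by
  have hv : (ym Q c r α β hc h).val =
    Matrix.fromBlocks (cst (cen r)) (cst (cen α * c)) (cst c) (cst (cen β)) := rfl
  have h1 : (cen (α * nn Q c) + cen (β * r) : ∀ i, Λ i) = 1 := by
    rw [← cen_add, h, cen_one]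
  have e0 := pure_mul_self Q hc
  have s1 := star_cen Q hQ r
  have s2 := star_cen Q hQ α
  have s3 := star_cen Q hQ β
  have s4 := star_pure Q hQ hc
  rw [mem_UG_blocks hv]
  simp only [cst_conjTranspose, one_smul, cst_mul, cst_add, star_mul, s1, s2, s3, s4]
  refine ⟨?_, ?_, ?_, ?_⟩
  · rw [← cst_zero]; congr 1
    rw [neg_mul, cen_comm r, add_neg_cancel]
  · rw [← cst_one]; congr 1
    rw [neg_mul, ← mul_assoc, ← cen_comm α, mul_assoc, e0, mul_neg, neg_neg, ← cen_mul, ← cen_mul,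
      mul_comm r, add_comm, h1]
  · rw [← cst_one]; congr 1
    rw [neg_mul, neg_mul, ← cen_comm α, mul_assoc, e0, mul_neg, neg_neg, ← cen_mul, ← cen_mul, h1]
  · rw [← cst_zero]; congr 1
    rw [neg_mul, neg_mul, ← cen_comm α, cen_comm β, neg_add_cancel]

end Y


section Moves

variable {P : Type*} [Ring P]

theorem up_mul_inl (b : P) (g : (Matrix (Unit ⊕ Unit) (Unit ⊕ Unit) P)ˣ) :
    (up (cst b) * g).val (Sum.inl ()) (Sum.inl ()) =
      g.val (Sum.inl ()) (Sum.inl ()) + b * g.val (Sum.inr ()) (Sum.inl ()) := by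
  rw [Units.val_mul, up_val, Matrix.mul_apply]
  simp [Fintype.sum_sum_type, cst]

theorem up_mul_inr (b : P) (g : (Matrix (Unit ⊕ Unit) (Unit ⊕ Unit) P)ˣ) :
    (up (cst b) * g).val (Sum.inr ()) (Sum.inl ()) = g.val (Sum.inr ()) (Sum.inl ()) := by
  rw [Units.val_mul, up_val, Matrix.mul_apply]
  simp [Fintype.sum_sum_type]

theorem lo_mul_inl (b : P) (g : (Matrix (Unit ⊕ Unit) (Unit ⊕ Unit) P)ˣ) :
    (lo (cst b) * g).val (Sum.inl ()) (Sum.inl ()) = g.val (Sum.inl ()) (Sum.inl ()) := by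
  rw [Units.val_mul, lo_val, Matrix.mul_apply]
  simp [Fintype.sum_sum_type]

theorem lo_mul_inr (b : P) (g : (Matrix (Unit ⊕ Unit) (Unit ⊕ Unit) P)ˣ) :
    (lo (cst b) * g).val (Sum.inr ()) (Sum.inl ()) =
      g.val (Sum.inr ()) (Sum.inl ()) + b * g.val (Sum.inl ()) (Sum.inl ()) := by
  rw [Units.val_mul, lo_val, Matrix.mul_apply]
  simp [Fintype.sum_sum_type, cst, add_comm]

theorem Sk_cst [StarRing P] {b : P} (hb : star b = -b) : Sk 1 (cst b) := by
  unfold Sk
  rw [cst_conjTranspose, hb, one_smul]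
  rfl

end Moves

section TC

variable {ι : Type*} {N : ι → ℕ} {R Λ : ι → Type*} [∀ i, CommRing (R i)] [∀ i, Ring (Λ i)]
  [∀ i, Algebra (R i) (Λ i)] (Q : ∀ i, QAlg (N i) (R i) (Λ i)) [∀ i, StarRing (Λ i)]
  (hQ : ∀ i x, star x = (Q i).conj x)

/-- an isometry with the first column `(1, 0)` -/
theorem mem_EU_of_one {P : Type*} [Ring P] [StarRing P]
    (g : (Matrix (Unit ⊕ Unit) (Unit ⊕ Unit) P)ˣ) (hg : g ∈ UG 1 Unit P)
    (h1 : g.val (Sum.inl ()) (Sum.inl ()) = 1) (h2 : g.val (Sum.inr ()) (Sum.inl ()) = 0) :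
    g ∈ EU 1 Unit P := by
  refine Subgroup.mem_sup_left (mem_UP_of_col hg fun x j => ?_)
  rcases x with x | x
  · rw [h1]; simp
  · rw [h2]; simp

include hQ in
/-- `{1 + k n(z); z}` is trivial -/
theorem mem_EU_of_pure (g : (Matrix (Unit ⊕ Unit) (Unit ⊕ Unit) (∀ i, Λ i))ˣ)
    (hg : g ∈ UG 1 Unit (∀ i, Λ i)) (z : ∀ i, Λ i) (hz : ∀ i, (Q i).T (z i) = 0)
    (r k : ∀ i, R i) (hr : r = 1 + k * nn Q z)
    (h1 : g.val (Sum.inl ()) (Sum.inl ()) = cen r) (h2 : g.val (Sum.inr ()) (Sum.inl ()) = z) :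
    g ∈ EU 1 Unit (∀ i, Λ i) := by
  have sz := star_pure Q hQ hz
  have s1 : Sk 1 (cst (cen k * z)) := Sk_cst (by
    rw [star_mul, star_cen Q hQ, sz, neg_mul, cen_comm])
  have s2 : Sk 1 (cst (-z)) := Sk_cst (by rw [star_neg, sz])
  set g1 := up (cst (cen k * z)) * g with hg1
  have hg1' : g1 ∈ UG 1 Unit (∀ i, Λ i) := mul_mem (up_mem_UG s1) hg
  have a1 : g1.val (Sum.inl ()) (Sum.inl ()) = 1 := by
    rw [hg1, up_mul_inl, h1, h2, mul_assoc, pure_mul_self Q hz, mul_neg, ← cen_mul, hr, cen_add,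
      cen_one, add_neg_cancel_right]
  have c1 : g1.val (Sum.inr ()) (Sum.inl ()) = z := by rw [hg1, up_mul_inr, h2]
  set g2 := lo (cst (-z)) * g1 with hg2
  have hg2' : g2 ∈ UG 1 Unit (∀ i, Λ i) := mul_mem (lo_mem_UG (by norm_num) s2) hg1'
  have a2 : g2.val (Sum.inl ()) (Sum.inl ()) = 1 := by rw [hg2, lo_mul_inl, a1]
  have c2 : g2.val (Sum.inr ()) (Sum.inl ()) = 0 := by
    rw [hg2, lo_mul_inr, c1, a1, mul_one, add_neg_cancel]
  have h3 := mem_EU_of_one g2 hg2' a2 c2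
  rw [hg2] at h3
  have h4 := (Subgroup.mul_mem_cancel_left _ (lo_mem s2)).1 h3
  rw [hg1] at h4
  exact (Subgroup.mul_mem_cancel_left _ (up_mem s1)).1 h4

/-- `K` as an embedding -/
theorem embL_c2 {P : Type*} [Ring P] (A : (Matrix (Fin 2) (Fin 2) P)ˣ) :
    embL (Fin.castLEEmb (by decide : 2 ≤ 3)) A = K A := by
  ext1
  change Pool.Agent.Helper24.BWR.emb (Fin.castLEEmb (by decide : 2 ≤ 3)) A.val = _
  rw [K_val, Pool.Agent.Helper24.BWR.emb_apply]
  ext i j
  fin_cases i <;> fin_cases j <;>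
    simp [Pool.Agent.Helper24.BWR.pm, Pool.Agent.Helper24.BWR.qm, Matrix.mul_apply,
      Fin.sum_univ_two, Fin.ext_iff, Matrix.one_apply]

end TC


section Final

variable {ι : Type*} {N : ι → ℕ} {R Λ : ι → Type*} [∀ i, CommRing (R i)] [∀ i, Ring (Λ i)]
  [∀ i, Algebra (R i) (Λ i)] (Q : ∀ i, QAlg (N i) (R i) (Λ i)) [∀ i, StarRing (Λ i)]
  (hQ : ∀ i x, star x = (Q i).conj x)

include hQ in
theorem nn_star (x : ∀ i, Λ i) : nn Q (star x) = nn Q x := by
  funext i
  change (Q i).n (star (x i)) = (Q i).n (x i)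
  rw [hQ, (Q i).n_conj]

include hQ in
theorem exists_rel_col (g : (Matrix (Unit ⊕ Unit) (Unit ⊕ Unit) (∀ i, Λ i))ˣ) (r : ∀ i, R i)
    (h1 : g.val (Sum.inl ()) (Sum.inl ()) = cen r) :
    ∃ α β : ∀ i, R i, α * nn Q (g.val (Sum.inr ()) (Sum.inl ())) + β * r = 1 := by
  have h : g⁻¹.val (Sum.inl ()) (Sum.inl ()) * g.val (Sum.inl ()) (Sum.inl ()) +
      g⁻¹.val (Sum.inl ()) (Sum.inr ()) * g.val (Sum.inr ()) (Sum.inl ()) = 1 := by
    have h2 : (g⁻¹.val * g.val) (Sum.inl ()) (Sum.inl ()) = 1 := by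
      rw [← Units.val_mul, inv_mul_cancel]; simp
    rw [← h2, Matrix.mul_apply, Fintype.sum_sum_type]
    simp
  have h3 := congrArg star h
  rw [star_add, star_mul, star_mul, star_one, h1, star_cen Q hQ, add_comm] at h3
  obtain ⟨α, β, h4⟩ := exists_rel Q h3
  rw [nn_star Q hQ] at h4
  exact ⟨α, β, h4⟩

include hQ in
theorem tclaim_of_choice {n : Type*} [DecidableEq n] [Fintype n]
    (hn : 3 ≤ Fintype.card n) (x0 : n)
    (g : (Matrix (Unit ⊕ Unit) (Unit ⊕ Unit) (∀ i, Λ i))ˣ) (hg : g ∈ UG 1 Unit (∀ i, Λ i))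
    [∀ i, IsLocalization.Away (N i : ℤ) (R i)]
    (hch : ∀ i, ∀ (x : Λ i) (_ : (Q i).T x = 0) (r α β : R i) (_ : α * (Q i).n x + β * r = 1),
      ∃ (w z0 z1 : Λ i) (p : ℕ) (k k0 k1 : R i), (Q i).T w = 0 ∧ (Q i).T z0 = 0 ∧ (Q i).T z1 = 0 ∧
      p.Prime ∧ 5 ≤ p ∧ ¬ p ∣ N i ∧
      (p : R i) = r + (Q i).n (x + r • w) * k ∧ (p : R i) = 1 + (Q i).n z0 * k0 ∧
      (p : R i) = 1 + (Q i).n z1 * k1 ∧
      ∀ ρ : Λ i →+* Matrix (Fin 2) (Fin 2) (ZMod p),
        (∀ y, ρ (algebraMap (R i) (Λ i) ((Q i).n y)) =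
          (ρ y).det • (1 : Matrix (Fin 2) (Fin 2) (ZMod p))) →
        IsSquare (ρ z0).det ∧ ¬ IsSquare (ρ z1).det)
    (r : ∀ i, R i) (h1 : g.val (Sum.inl ()) (Sum.inl ()) = cen r)
    (h2 : ∀ i, (Q i).T (g.val (Sum.inr ()) (Sum.inl ()) i) = 0) :
    embU (pt x0) g ∈ EU 1 n (∀ i, Λ i) := by
  classical
  obtain ⟨α, β, hαβ⟩ := exists_rel_col Q hQ g r h1
  obtain ⟨c, hc⟩ : ∃ c, c = g.val (Sum.inr ()) (Sum.inl ()) := ⟨_, rfl⟩
  rw [← hc] at h2 hαβ
  choose w z0 z1 p k k0 k1 hw hz0 hz1 hp h5 hpN e1 e2 e3 e4 using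
    fun i => hch i (c i) (h2 i) (r i) (α i) (β i) (congrFun hαβ i)
  have : ∀ i, Fact (p i).Prime := fun i => ⟨hp i⟩
  obtain ⟨c', hc'⟩ : ∃ c', c' = c + cen r * w := ⟨_, rfl⟩
  have hc'i : ∀ i, c i + r i • w i = c' i := by
    intro i
    rw [hc', Algebra.smul_def]; rfl
  have hcT : ∀ i, (Q i).T (c' i) = 0 := by
    intro i
    rw [← hc'i, map_add, map_smul, h2 i, hw i, smul_zero, add_zero]
  have s1 : Sk 1 (cst w) := Sk_cst (star_pure Q hQ hw)
  have s2 : Sk 1 (cst (-(cen k * c'))) := Sk_cst (by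
    rw [star_neg, star_mul, star_cen Q hQ, star_pure Q hQ hcT, neg_mul, cen_comm])
  obtain ⟨g1, hg1⟩ : ∃ g1, g1 = up (cst (-(cen k * c'))) * (lo (cst w) * g) := ⟨_, rfl⟩
  have hg1' : g1 ∈ UG 1 Unit (∀ i, Λ i) := by
    rw [hg1]; exact mul_mem (up_mem_UG s2) (mul_mem (lo_mem_UG (by norm_num) s1) hg)
  have a1 : g1.val (Sum.inl ()) (Sum.inl ()) = cen (pc R p) := by
    rw [hg1, up_mul_inl, lo_mul_inl, lo_mul_inr, h1, ← hc, ← cen_comm r w, ← hc', neg_mul,
      mul_assoc, pure_mul_self Q hcT, mul_neg, neg_neg, ← cen_mul, ← cen_add]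
    congr 1
    funext i
    change r i + k i * (Q i).n (c' i) = (p i : R i)
    rw [e1 i, hc'i, mul_comm (k i)]
  have c1 : g1.val (Sum.inr ()) (Sum.inl ()) = c' := by
    rw [hg1, up_mul_inr, lo_mul_inr, h1, ← hc, ← cen_comm r w, ← hc']
  have key : embU (pt x0) g1 ∈ EU 1 n (∀ i, Λ i) := by
    obtain ⟨α', β', hαβ'⟩ := exists_rel_col Q hQ g1 (pc R p) a1
    rw [c1] at hαβ'
    choose ρ hs hk hd using fun i => (Q i).fibre (p i) (hp i) (hpN i)
    have hphi : ∀ i, Loc.phi (N i) (R i) (hp i) (hpN i) (p i : R i) = 0 := by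
      intro i
      rw [Loc.phi_eq_zero_iff]
    have hdc : ∀ i, (ρ i (c' i)).det ≠ 0 := by
      intro i h0
      rw [Choice.det_rho (Q i) (hp i) (hpN i) (ρ i) (hd i)] at h0
      have h3 := congrArg (Loc.phi (N i) (R i) (hp i) (hpN i)) (congrFun hαβ' i)
      change Loc.phi (N i) (R i) (hp i) (hpN i) (α' i * (Q i).n (c' i) + β' i * (p i : R i)) =
        Loc.phi (N i) (R i) (hp i) (hpN i) 1 at h3
      rw [map_add, map_mul, map_mul, h0, hphi, mul_zero, mul_zero, add_zero, map_one] at h3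
      exact zero_ne_one h3
    have hdz : ∀ (i : ι) (z : Λ i) (kz : R i), (p i : R i) = 1 + (Q i).n z * kz →
        (ρ i z).det ≠ 0 := by
      intro i z kz h h0
      rw [Choice.det_rho (Q i) (hp i) (hpN i) (ρ i) (hd i)] at h0
      have h3 := congrArg (Loc.phi (N i) (R i) (hp i) (hpN i)) h
      rw [hphi, map_add, map_mul, h0, zero_mul, add_zero, map_one] at h3
      exact zero_ne_one h3
    -- the choice of `z`
    obtain ⟨z, kz, hz, hkz, hsq⟩ : ∃ (z : ∀ i, Λ i) (kz : ∀ i, R i), (∀ i, (Q i).T (z i) = 0) ∧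
        (∀ i, (p i : R i) = 1 + (Q i).n (z i) * kz i) ∧
        ∀ i, (IsSquare (ρ i (c' i)).det ↔ IsSquare (ρ i (z i)).det) := by
      refine ⟨fun i => if IsSquare (ρ i (c' i)).det then z0 i else z1 i,
        fun i => if IsSquare (ρ i (c' i)).det then k0 i else k1 i, fun i => ?_, fun i => ?_,
        fun i => ?_⟩
      · dsimp only; split_ifs
        · exact hz0 i
        · exact hz1 i
      · dsimp only; split_ifs
        · exact e2 i
        · exact e3 i
      · dsimp only; split_ifs with h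
        · exact ⟨fun _ => (e4 i (ρ i) (hd i)).1, fun _ => h⟩
        · exact ⟨fun h' => absurd h' h, fun h' => absurd h' (e4 i (ρ i) (hd i)).2⟩
    have hp2 : ∀ i, p i ≠ 2 := fun i => by have := h5 i; omega
    choose ww hww using fun i => congr_adj (hp2 i) (ρ i (c' i)) (ρ i (z i))
      (by rw [trace_rho (Q i) (hp i) (hpN i) (ρ i) (hd i), hcT i, map_zero])
      (by rw [trace_rho (Q i) (hp i) (hpN i) (ρ i) (hd i), hz i, map_zero]) (hdc i)
      (exists_sq (hp2 i) (hdc i) (hdz i _ _ (hkz i)) (hsq i))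
    choose W hW using fun i => hs i (ww i).val
    obtain ⟨αW, βW, hWr⟩ := exists_ab Q p ρ hs hk W ww hW
    have hUH := UU_mem Q p ρ hs hk h5 z1 k1 (fun i => by rw [e3 i, mul_comm])
      (fun i => (e4 i (ρ i) (hd i)).2) W αW βW hWr
    obtain ⟨A, hA⟩ : ∃ A, A = UU Q W (pc R p) αW βW hWr := ⟨_, rfl⟩
    rw [← hA] at hUH
    have A00 : A.val 0 0 = cen (pc R p) := by rw [hA]; rfl
    have A01 : A.val 0 1 = W := by rw [hA]; rfl
    have A11' : A⁻¹.val 1 1 = cen (pc R p) := by rw [hA]; rfl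
    have A01' : A⁻¹.val 0 1 = -W := by rw [hA]; rfl
    -- the second column
    obtain ⟨y, hy⟩ : ∃ y, y = star W * c' * W := ⟨_, rfl⟩
    have hyT : ∀ i, (Q i).T (y i) = 0 := by
      intro i
      have h3 : star y = -y := by
        rw [hy, star_mul, star_mul, star_star, star_pure Q hQ hcT, neg_mul, mul_neg, mul_assoc]
      have h4 := congrFun h3 i
      change star (y i) = -(y i) at h4
      rw [hQ] at h4
      have h5 := (Q i).add_conj (y i)
      rw [h4, add_neg_cancel] at h5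
      exact (Q i).inj (by rw [← h5, map_zero])
    have hyn : nn Q y = nn Q W * nn Q c' * nn Q W := by
      rw [hy, nn_mul, nn_mul, nn_star Q hQ]
    have hyr : (αW ^ 2 * α') * nn Q y + (βW * (1 + αW * nn Q W) * (α' * nn Q c') + β') *
        pc R p = 1 := by
      rw [hyn]
      linear_combination ((1 + αW * nn Q W) * (α' * nn Q c')) * hWr + hαβ'
    obtain ⟨g', hg'⟩ : ∃ g', g' = ym Q y (pc R p) _ _ hyT hyr := ⟨_, rfl⟩
    have hg'U : g' ∈ UG 1 Unit (∀ i, Λ i) := by rw [hg']; exact ym_mem_UG Q hQ _ _ _ _ _ _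
    have a2 : g'.val (Sum.inl ()) (Sum.inl ()) = cen (pc R p) := by rw [hg']; rfl
    have c2 : g'.val (Sum.inr ()) (Sum.inl ()) = y := by rw [hg']; rfl
    obtain ⟨E1, hE1, E2, hE2, hrel⟩ := rel (by norm_num) A g1 g' hg1' hg'U (by rw [a1, A00])
      (by rw [a2, A11']) (by rw [c2, c1, A01, A01', neg_neg, hy])
    -- `g'` is elementary
    have hg'E : g' ∈ EU 1 Unit (∀ i, Λ i) := by
      choose d hd' using fun i => hk i (y i - z i) (by
        have h3 : y i = (Q i).conj (W i) * c' i * W i := by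
          rw [hy]
          change star (W i) * c' i * W i = _
          rw [hQ]
        rw [map_sub, h3, map_mul, map_mul, rho_conj_adj (Q i) (hp i) (hpN i) (ρ i) (hd i), hW i,
          hww i, sub_self])
      have hdT : ∀ i, (Q i).T (d i) = 0 := by
        intro i
        have hN : N i ≠ 0 := fun h0 => hpN i (h0 ▸ dvd_zero _)
        have h3 := congrArg (Q i).T (hd' i)
        have hD := Loc.isDomain (N i) (R i) hN
        have hC := Loc.charZero (N i) (R i) hN
        rw [map_sub, hyT i, hz i, sub_zero, ← map_natCast (algebraMap (R i) (Λ i)),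
          ← Algebra.smul_def, map_smul, smul_eq_mul] at h3
        rcases mul_eq_zero.1 h3.symm with h4 | h4
        · exact absurd h4 (Nat.cast_ne_zero.2 (hp i).ne_zero)
        · exact h4
      have s3 : Sk 1 (cst (-d)) := Sk_cst (by rw [star_neg, star_pure Q hQ hdT])
      have h3 := mem_EU_of_pure Q hQ (lo (cst (-d)) * g') (mul_mem (lo_mem_UG (by norm_num) s3) hg'U)
        z hz (pc R p) kz (by
          funext i
          change (p i : R i) = 1 + kz i * (Q i).n (z i)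
          rw [hkz i, mul_comm]) (by rw [lo_mul_inl, a2]) (by
          rw [lo_mul_inr, a2, c2]
          funext i
          change y i + -(d i) * algebraMap (R i) (Λ i) (p i : R i) = z i
          rw [map_natCast, neg_mul, ← Nat.cast_comm, ← hd' i]
          abel)
      exact (Subgroup.mul_mem_cancel_left _ (lo_mem s3)).1 h3
    -- embedding
    obtain ⟨e⟩ : Nonempty (Fin 3 ↪ n) :=
      Function.Embedding.nonempty_of_card_le (by simpa using hn)
    obtain ⟨ψ, hψ⟩ : ∃ ψ : Fin 3 ↪ n, ψ 0 = x0 :=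
      ⟨e.trans (Equiv.swap (e 0) x0).toEmbedding, by simp⟩
    let φ : Fin 2 ↪ n := (Fin.castLEEmb (by decide : 2 ≤ 3)).trans ψ
    have hφ : (pt (0 : Fin 2)).trans φ = pt x0 := by
      ext u
      exact hψ
    have hAE : embL φ A ∈ E n (∀ i, Λ i) := by
      have h3 : embL φ A = embL ψ (K A) := by
        rw [← embL_c2, embL_embL]
      rw [h3]
      exact embL_mem_E ψ (mem_H.1 hUH)
    have h3 := congrArg (embU φ) hrel
    rw [embU_embU, hφ, map_mul, map_mul, map_mul, embU_lev, embU_embU] at h3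
    rw [h3, ← EUL_eq (by norm_num) hn]
    exact mul_mem (mul_mem (mul_mem (lev_mem hAE) (embU_mem_EUL φ hE1))
      (EU_le_EUL (embU_mem_EU _ hg'E))) (embU_mem_EUL φ hE2)
  rw [hg1, map_mul, map_mul] at key
  exact (Subgroup.mul_mem_cancel_left _ (embU_mem_EU _ (lo_mem s1))).1
    ((Subgroup.mul_mem_cancel_left _ (embU_mem_EU _ (up_mem s2))).1 key)

end Final

end BWC
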