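import Pool.Agent.BWC.Crt
import Pool.Agent.BWC.Prim
import Pool.Agent.BWC.Grp

/-!
# Transitivity on unimodular isotropic vectors, two planes

`Rch K v v'`: the vector `v'` is obtained from `v` by at most `K` generators.
-/

namespace BWC

open Matrix
open BW hiding star

section Reach

variable {n P : Type*} [DecidableEq n] [Fintype n] [Ring P] [StarRing P]

/-- `v'` is obtained from `v` by at most `K` generators -/
def Rch (K : ℕ) (v v' : n ⊕ n → P) : Prop := ∃ e ∈ ball 1 n P K, e.val *ᵥ v = v'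

theorem Rch.trans {K L : ℕ} {v v' v'' : n ⊕ n → P} (h : Rch K v v') (h' : Rch L v' v'') :
    Rch (K + L) v v'' := by
  obtain ⟨e, ⟨l, h1, h2, rfl⟩, rfl⟩ := h
  obtain ⟨e', ⟨l', h1', h2', rfl⟩, rfl⟩ := h'
  refine ⟨l'.prod * l.prod, ⟨l' ++ l, ?_, ?_, List.prod_append⟩, ?_⟩
  · rw [List.length_append]
    omega
  · intro x hx
    rcases List.mem_append.1 hx with hx | hx
    · exact h2' x hx
    · exact h2 x hx
  · rw [val_mul_mulVec]

theorem rch_of_mem {x : (Matrix (n ⊕ n) (n ⊕ n) P)ˣ}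
    (hx : x ∈ UP 1 n P ∨ x ∈ UM 1 n P ∨ ∃ (i j : n) (h : i ≠ j) (y : P), x = lev (el i j h y))
    (v : n ⊕ n → P) : Rch 1 v (x.val *ᵥ v) := by
  have h := ball_cons hx ball_one
  rw [mul_one] at h
  exact ⟨x, h, rfl⟩

theorem rch_lev (i j : n) (h : i ≠ j) (y : P) (a c : n → P) :
    Rch 1 (Sum.elim a c) (Sum.elim (Function.update a i (a i + y * a j))
      (Function.update c j (c j - Star.star y * c i))) := by
  rw [← lev_el_mulVec i j h y a c]
  exact rch_of_mem (Or.inr (Or.inr ⟨i, j, h, y, rfl⟩)) _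

theorem rch_up {B : Matrix n n P} (hB : Sk 1 B) (a c : n → P) :
    Rch 1 (Sum.elim a c) (Sum.elim (a + B *ᵥ c) c) := by
  rw [← up_mulVec]
  exact rch_of_mem (Or.inl ⟨B, hB, rfl⟩) _

theorem rch_lo {C : Matrix n n P} (hC : Sk 1 C) (a c : n → P) :
    Rch 1 (Sum.elim a c) (Sum.elim a (C *ᵥ a + c)) := by
  rw [← lo_mulVec]
  exact rch_of_mem (Or.inr (Or.inl ⟨C, hC, rfl⟩)) _

/-- the matrix of the moves `a += Δ` for unimodular `c` (and conversely) -/
def shiftM (Δ y : n → P) (τ : P) : Matrix n n P := Matrix.of fun i j =>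
  Δ i * y j - Star.star (y i) * Star.star (Δ j) - Star.star (y i) * τ * y j

omit [Fintype n] [DecidableEq n] in
theorem Sk_shiftM (Δ y : n → P) (τ : P) (hτ : τ + Star.star τ = 0) : Sk 1 (shiftM Δ y τ) := by
  unfold Sk
  ext i j
  have h1 : Star.star τ = -τ := by rw [add_comm] at hτ; exact eq_neg_of_add_eq_zero_left hτ
  simp only [Matrix.conjTranspose_apply, shiftM, Matrix.of_apply, one_smul, Matrix.neg_apply,
    star_sub, star_mul, star_star, h1]
  noncomm_ring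

omit [DecidableEq n] in
theorem shiftM_mulVec (Δ y a : n → P) (h1 : y ⬝ᵥ a = 1)
    (h2 : Star.star a ⬝ᵥ Δ + Star.star (Star.star a ⬝ᵥ Δ) = 0) :
    shiftM Δ y (Star.star a ⬝ᵥ Δ) *ᵥ a = Δ := by
  have h3 : ∑ j, Star.star (Δ j) * a j = Star.star (Star.star a ⬝ᵥ Δ) := by
    rw [dotProduct, star_sum]
    refine Finset.sum_congr rfl fun j _ => ?_
    rw [star_mul, Pi.star_apply, star_star]
  have h4 : ∑ j, y j * a j = 1 := h1
  ext i
  have h5 : (shiftM Δ y (Star.star a ⬝ᵥ Δ) *ᵥ a) i =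
      Δ i * (∑ j, y j * a j) - Star.star (y i) * (∑ j, Star.star (Δ j) * a j) -
        Star.star (y i) * (Star.star a ⬝ᵥ Δ) * (∑ j, y j * a j) := by
    rw [Matrix.mulVec, dotProduct, Finset.mul_sum, Finset.mul_sum, Finset.mul_sum,
      ← Finset.sum_sub_distrib, ← Finset.sum_sub_distrib]
    refine Finset.sum_congr rfl fun j _ => ?_
    rw [shiftM, Matrix.of_apply]
    noncomm_ring
  rw [h5, h3, h4, mul_one, mul_one]
  have h6 : Δ i - Star.star (y i) * Star.star (Star.star a ⬝ᵥ Δ) -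
      Star.star (y i) * (Star.star a ⬝ᵥ Δ) = Δ i - Star.star (y i) *
        (Star.star a ⬝ᵥ Δ + Star.star (Star.star a ⬝ᵥ Δ)) := by noncomm_ring
  rw [h6, h2, mul_zero, sub_zero]

/-- for unimodular `a` every isotropic change of `c` is one move -/
theorem lo_reach {a y : n → P} (c Δ : n → P) (h1 : y ⬝ᵥ a = 1)
    (h2 : Star.star a ⬝ᵥ Δ + Star.star (Star.star a ⬝ᵥ Δ) = 0) :
    Rch 1 (Sum.elim a c) (Sum.elim a (c + Δ)) := by
  have h := rch_lo (Sk_shiftM Δ y _ h2) a c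
  rw [shiftM_mulVec Δ y a h1 h2, add_comm Δ c] at h
  exact h

theorem up_reach {c y : n → P} (a Δ : n → P) (h1 : y ⬝ᵥ c = 1)
    (h2 : Star.star c ⬝ᵥ Δ + Star.star (Star.star c ⬝ᵥ Δ) = 0) :
    Rch 1 (Sum.elim a c) (Sum.elim (a + Δ) c) := by
  have h := rch_up (Sk_shiftM Δ y _ h2) a c
  rw [shiftM_mulVec Δ y c h1 h2] at h
  exact h

/-! ### unimodular isotropic vectors -/

variable (n P) in
/-- the group generated is unitary -/
theorem ball_le_UG {K : ℕ} {e : (Matrix (n ⊕ n) (n ⊕ n) P)ˣ} (he : e ∈ ball 1 n P K) :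
    e ∈ UG 1 n P := by
  obtain ⟨l, -, h2, rfl⟩ := he
  refine Subgroup.list_prod_mem _ fun x hx => ?_
  rcases h2 x hx with h | h | ⟨i, j, h, y, rfl⟩
  · exact UP_le_UG h
  · exact UM_le_UG (by norm_num) h
  · exact lev_mem_UG _

/-- unimodular and isotropic -/
structure UI (v : n ⊕ n → P) : Prop where
  uni : ∃ r : n ⊕ n → P, r ⬝ᵥ v = 1
  iso : Star.star v ⬝ᵥ (J 1 n P *ᵥ v) = 0

theorem UI.of_UG {v : n ⊕ n → P} (h : UI v) {e : (Matrix (n ⊕ n) (n ⊕ n) P)ˣ}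
    (he : e ∈ UG 1 n P) : UI (e.val *ᵥ v) := by
  obtain ⟨⟨r, hr⟩, h2⟩ := h
  refine ⟨⟨r ᵥ* e⁻¹.val, ?_⟩, ?_⟩
  · rw [← Matrix.dotProduct_mulVec, Matrix.mulVec_mulVec, ← Units.val_mul, inv_mul_cancel,
      Units.val_one, Matrix.one_mulVec, hr]
  · have he' : e.valᴴ * J 1 n P * e.val = J 1 n P := he
    rw [Matrix.star_mulVec, ← Matrix.dotProduct_mulVec, Matrix.mulVec_mulVec, Matrix.mulVec_mulVec,
      he', h2]

theorem UI.of_rch {K : ℕ} {v v' : n ⊕ n → P} (h : UI v) (h' : Rch K v v') : UI v' := by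
  obtain ⟨e, he, rfl⟩ := h'
  exact h.of_UG (ball_le_UG n P he)

theorem UI.elim {a c : n → P} (h : UI (Sum.elim a c)) :
    (∃ x w : n → P, x ⬝ᵥ a + w ⬝ᵥ c = 1) ∧
      Star.star a ⬝ᵥ c + Star.star (Star.star a ⬝ᵥ c) = 0 := by
  obtain ⟨⟨r, hr⟩, h2⟩ := h
  constructor
  · refine ⟨r ∘ Sum.inl, r ∘ Sum.inr, ?_⟩
    rw [← hr]
    simp [dotProduct, Fintype.sum_sum_type]
  · rw [← h2, J, Matrix.fromBlocks_mulVec]
    have h3 : (Sum.elim a c ∘ Sum.inl : n → P) = a := rfl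
    have h4 : (Sum.elim a c ∘ Sum.inr : n → P) = c := rfl
    rw [h3, h4, one_smul, Matrix.zero_mulVec, Matrix.zero_mulVec, Matrix.one_mulVec,
      Matrix.one_mulVec, zero_add, add_zero]
    have h5 : Star.star (Sum.elim a c) ⬝ᵥ Sum.elim c a = Star.star a ⬝ᵥ c + Star.star c ⬝ᵥ a := by
      simp [dotProduct, Fintype.sum_sum_type]
    rw [h5, ← Matrix.star_dotProduct c a]

theorem UI.mk' {a c x w : n → P} (h1 : x ⬝ᵥ a + w ⬝ᵥ c = 1)
    (h2 : Star.star a ⬝ᵥ c + Star.star (Star.star a ⬝ᵥ c) = 0) : UI (Sum.elim a c) := by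
  constructor
  · refine ⟨Sum.elim x w, ?_⟩
    rw [← h1]
    simp [dotProduct, Fintype.sum_sum_type]
  · rw [J, Matrix.fromBlocks_mulVec]
    have h3 : (Sum.elim a c ∘ Sum.inl : n → P) = a := rfl
    have h4 : (Sum.elim a c ∘ Sum.inr : n → P) = c := rfl
    rw [h3, h4, one_smul, Matrix.zero_mulVec, Matrix.zero_mulVec, Matrix.one_mulVec,
      Matrix.one_mulVec, zero_add, add_zero]
    have h5 : Star.star (Sum.elim a c) ⬝ᵥ Sum.elim c a = Star.star a ⬝ᵥ c + Star.star c ⬝ᵥ a := by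
      simp [dotProduct, Fintype.sum_sum_type]
    rw [h5, Matrix.star_dotProduct c a, h2]

end Reach

section Two

variable {N : ℕ} {R Λ : Type*} [CommRing R] [IsLocalization.Away (N : ℤ) R] [Ring Λ] [StarRing Λ]
  [Algebra R Λ] [Module.Free R Λ] [Module.Finite R Λ]

theorem two_reach (hN : N ≠ 0) (Q : QAlg N R Λ) (hQ : ∀ x, Star.star x = Q.conj x)
    (v : Fin 2 ⊕ Fin 2 → Λ) (hv : UI v) (h0 : Q.n (v (Sum.inl 0)) ≠ 0) :
    Rch 10 v (Pi.single (Sum.inl 0) 1) := by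
  have hpure : ∀ τ : Λ, Q.T τ = 0 → τ + Star.star τ = 0 := by
    intro τ hτ
    rw [hQ, Q.add_conj, hτ, map_zero]
  have h01 : (0 : Fin 2) ≠ 1 := by decide
  -- two planes
  obtain ⟨a, c, rfl⟩ : ∃ a c : Fin 2 → Λ, v = Sum.elim a c :=
    ⟨v ∘ Sum.inl, v ∘ Sum.inr, (Sum.elim_comp_inl_inr v).symm⟩
  obtain ⟨⟨x, w, h1⟩, -⟩ := hv.elim
  have h2 : x 0 * a 0 + x 1 * a 1 + w 0 * c 0 + w 1 * c 1 = 1 := by
    rw [← h1, dotProduct, dotProduct, Fin.sum_univ_two, Fin.sum_univ_two]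
    abel
  obtain ⟨y, s, hTs, hn, u, u', h3⟩ := two_planes hN Q (a 0) (a 1) (c 0) (c 1) _ _ _ _ h0 h2
  have hSk : Sk 1 (Matrix.single (1 : Fin 2) 1 s) := by
    unfold Sk
    rw [Matrix.conjTranspose_single, hQ, Choice.conj_eq Q, hTs, map_zero, zero_sub, one_smul,
      ← Matrix.single_neg]
  have r1 := rch_lev (0 : Fin 2) 1 h01 y a c
  have r2 := rch_up hSk (Function.update a 0 (a 0 + y * a 1))
    (Function.update c 1 (c 1 - Star.star y * c 0))
  have r12 := r1.trans r2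
  have hv2 := hv.of_rch r12
  set a2 : Fin 2 → Λ := Function.update a 0 (a 0 + y * a 1) + Matrix.single 1 1 s *ᵥ
    Function.update c 1 (c 1 - Star.star y * c 0) with ha2
  set c2 : Fin 2 → Λ := Function.update c 1 (c 1 - Star.star y * c 0) with hc2
  have ha20 : a2 0 = a 0 + y * a 1 := by
    rw [ha2, Pi.add_apply, Function.update_self, Matrix.single_mulVec, Function.update_of_ne h01]
    simp
  have ha21 : a2 1 = a 1 + s * (c 1 - Q.conj y * c 0) := by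
    rw [ha2, Pi.add_apply, Function.update_of_ne h01.symm, Matrix.single_mulVec,
      Function.update_self, hc2, Function.update_self, hQ]
  have h4 : ![u, u'] ⬝ᵥ a2 = 1 := by
    rw [dotProduct, Fin.sum_univ_two, ha20, ha21]
    exact h3
  -- kill `c`
  obtain ⟨-, h5⟩ := hv2.elim
  have h6 : Star.star a2 ⬝ᵥ (-c2) + Star.star (Star.star a2 ⬝ᵥ (-c2)) = 0 := by
    rw [dotProduct_neg, star_neg, ← neg_add, h5, neg_zero]
  have r3 := lo_reach c2 (-c2) h4 h6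
  rw [add_neg_cancel] at r3
  have hv3 := hv2.of_rch r3
  -- `a_0` primitive
  obtain ⟨y2, t, c', h7⟩ := prim_pair hN Q (a2 0) (a2 1) u u' (by rw [ha20]; exact hn) (by
    rw [ha20, ha21]; exact h3)
  have r4 := rch_lev (1 : Fin 2) 0 h01.symm y2 a2 0
  set a3 : Fin 2 → Λ := Function.update a2 1 (a2 1 + y2 * a2 0) with ha3
  have hc3 : Function.update (0 : Fin 2 → Λ) 0
      ((0 : Fin 2 → Λ) 0 - Star.star y2 * (0 : Fin 2 → Λ) 1) = 0 := by
    rw [Pi.zero_apply, Pi.zero_apply, mul_zero, sub_zero]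
    exact Function.update_eq_self 0 (0 : Fin 2 → Λ)
  rw [hc3] at r4
  have r5 := rch_lev (0 : Fin 2) 1 h01 t a3 0
  have hc4 : Function.update (0 : Fin 2 → Λ) 1
      ((0 : Fin 2 → Λ) 1 - Star.star t * (0 : Fin 2 → Λ) 0) = 0 := by
    rw [Pi.zero_apply, Pi.zero_apply, mul_zero, sub_zero]
    exact Function.update_eq_self 1 (0 : Fin 2 → Λ)
  rw [hc4] at r5
  set a4 : Fin 2 → Λ := Function.update a3 0 (a3 0 + t * a3 1) with ha4
  have ha40 : a4 0 = a2 0 + t * (a2 1 + y2 * a2 0) := by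
    rw [ha4, Function.update_self, ha3, Function.update_self, Function.update_of_ne h01]
  have hv4 := (hv3.of_rch r4).of_rch r5
  obtain ⟨⟨x4, w4, h8⟩, -⟩ := hv4.elim
  rw [dotProduct_zero, add_zero] at h8
  rw [← ha40] at h7
  -- the new `c`
  set z : Fin 2 → Λ := ![-(Q.T (a4 1) • Q.conj c'), 1] with hz
  have h9 : Q.T (Star.star a4 ⬝ᵥ z) = 0 := by
    have h10 : Star.star a4 ⬝ᵥ z = -(Q.T (a4 1) • (Q.conj (a4 0) * Q.conj c')) +
        Q.conj (a4 1) := by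
      rw [dotProduct, Fin.sum_univ_two, Pi.star_apply, Pi.star_apply, hQ, hQ, hz]
      simp
    rw [h10, map_add, map_neg, map_smul, ← Q.conj_mul, Choice.T_conj Q hN, Choice.T_conj Q hN,
      Q.T_comm, h7, smul_eq_mul, mul_one, neg_add_cancel]
  have r6 := lo_reach 0 z h8 (hpure _ h9)
  rw [zero_add] at r6
  -- kill `a`
  have h10 : (![0, 1] : Fin 2 → Λ) ⬝ᵥ z = 1 := by
    rw [dotProduct, Fin.sum_univ_two, hz]
    simp
  have h11 : Star.star z ⬝ᵥ (-a4) + Star.star (Star.star z ⬝ᵥ (-a4)) = 0 := by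
    have h12 := hpure _ h9
    rw [Matrix.star_dotProduct a4 z, star_star] at h12
    rw [dotProduct_neg, star_neg, ← neg_add, add_comm, h12, neg_zero]
  have r7 := up_reach a4 (-a4) h10 h11
  rw [add_neg_cancel] at r7
  -- kill `c_0`
  have r8 := rch_lev (1 : Fin 2) 0 h01.symm (Star.star (z 0)) 0 z
  have hc8 : Function.update z 0 (z 0 - Star.star (Star.star (z 0)) * z 1) = ![0, 1] := by
    have hz1 : z 1 = 1 := by rw [hz]; simp
    ext i
    fin_cases i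
    · simp [hz1]
    · simp [hz1]
  have ha8 : Function.update (0 : Fin 2 → Λ) 1
      ((0 : Fin 2 → Λ) 1 + Star.star (z 0) * (0 : Fin 2 → Λ) 0) = 0 := by
    rw [Pi.zero_apply, Pi.zero_apply, mul_zero, add_zero]
    exact Function.update_eq_self 1 (0 : Fin 2 → Λ)
  rw [hc8, ha8] at r8
  -- `f_1` to `e_0`
  have r9 := up_reach (c := (![0, 1] : Fin 2 → Λ)) (y := ![0, 1]) 0 (![1, 0] : Fin 2 → Λ) (by
    rw [dotProduct, Fin.sum_univ_two]; simp) (by
    rw [dotProduct, Fin.sum_univ_two]; simp)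
  rw [zero_add] at r9
  have r10 := lo_reach (a := (![1, 0] : Fin 2 → Λ)) (y := ![1, 0]) (![0, 1] : Fin 2 → Λ)
    (-![0, 1]) (by
    rw [dotProduct, Fin.sum_univ_two]; simp) (by
    rw [dotProduct, Fin.sum_univ_two]; simp)
  rw [add_neg_cancel] at r10
  have hfin : (Sum.elim (![1, 0] : Fin 2 → Λ) 0 : Fin 2 ⊕ Fin 2 → Λ) =
      Pi.single (Sum.inl 0) 1 := by
    ext x
    rcases x with x | x
    · fin_cases x <;> simp
    · simp
  rw [hfin] at r10
  exact ((((((((r12.trans r3).trans r4).trans r5).trans r6).trans r7).trans r8).trans r9).trans r10)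

end Two

/-- transitivity on the unimodular isotropic vectors of two planes -/
theorem trans2 : ∃ K : ℕ, ∀ (N : ℕ) (R Λ : Type) [CommRing R]
    [IsLocalization.Away (N : ℤ) R] [Ring Λ] [StarRing Λ] [Algebra R Λ] [Module.Free R Λ]
    [Module.Finite R Λ] (_ : N ≠ 0) (Q : QAlg N R Λ) (_ : ∀ x, Star.star x = Q.conj x)
    (a c x w : Fin 2 → Λ) (_ : ∑ j, x j * a j + ∑ j, w j * c j = 1)
    (_ : Q.T (∑ j, Star.star (a j) * c j) = 0),
    ∃ e ∈ ball 1 (Fin 2) Λ K,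
      e.val *ᵥ Sum.elim a c = Pi.single (Sum.inl 0) 1 := by
  obtain ⟨K, hK⟩ := first_step 0
  refine ⟨K + 10, ?_⟩
  intro N R Λ _ _ _ _ _ _ _ hN Q hQ a c x w h1 h2
  obtain ⟨e, he, hn⟩ := hK N R Λ hN Q hQ a c x w h1
  have hv : UI (Sum.elim a c) := UI.mk' (x := x) (w := w) h1 (by
    have h3 : Star.star a ⬝ᵥ c = ∑ j, Star.star (a j) * c j := rfl
    rw [h3, hQ, Q.add_conj, h2, map_zero])
  have r : Rch K (Sum.elim a c) (e.val *ᵥ Sum.elim a c) := ⟨e, he, rfl⟩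
  exact r.trans (two_reach hN Q hQ _ (hv.of_rch r) hn)

end BWC
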